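import Pool.Agent.Q26.PD.LF5
import Pool.Agent.W93.AU15

set_option autoImplicit false

/-! Families of sets with the one shift estimate; automatic sets. -/

namespace Pool.Agent.Q26.PD
open Finset
open Pool.Agent.H807R2.Dav
open Pool.Agent.H373R2.T7
open Pool.Agent.W93.DG
open Pool.Agent.W93.RD
open Pool.Agent.Y820.LF
open Pool.Agent.W93.AU (Law one_law setup char_bound law_of Ac Ac_eq R1 run)

/-- the one shift estimate for the sets of a family (a set at the scale `X`), in all strengths -/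
def HasZ (κ : ℤ) (Bv : ℕ) (𝒮 : ℕ → Finset ℕ → Prop) : Prop :=
  ∃ C : ℝ, 0 ≤ C ∧ ∀ Q Bc U : ℕ, 1 ≤ Q → ∃ B0 : ℕ, ∀ E : ℕ, ∃ X₀ : ℕ, ∀ X, X₀ ≤ X → ∀ S : Finset ℕ, 𝒮 X S →
    ∃ (Ω : Finset ℕ) (p : ℕ → ℝ), (∀ v ∈ Ω, 0 ≤ p v) ∧ ∑ v ∈ Ω, p v = 1 ∧
      (∀ v ∈ Ω, p v ≤ 1 / Real.log ((Q * X : ℕ) : ℝ) ^ U) ∧ (∀ v ∈ Ω, v ≤ Bv * X) ∧
      (∀ v ∈ S, v ∈ Ω ∧ 1 ≤ C * (S.card : ℝ) * p v) ∧ OneZ (Q * X) U B0 E Bc κ Ω p

open Classical in
/-- systems of linear forms with constants in sets of such families -/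
theorem lf_fam (τ0 : Bool) (s : ℕ) (hs : 1 ≤ s) (κ : Fin s → ℤ) (hκ : ∀ i, κ i ≠ 0) (Bv : Fin s → ℕ)
    (𝒮 : Fin s → ℕ → Finset ℕ → Prop) (h𝒮 : ∀ i, HasZ (κ i) (Bv i) (𝒮 i))
    (Q0 B m U : ℕ) (hQ0 : 1 ≤ Q0) (hm : 1 ≤ m) (ε : ℝ) (hε : 0 < ε) :
    ∃ X₀ : ℕ, ∀ X, X₀ ≤ X → ∀ S : Fin s → Finset ℕ, (∀ i, 𝒮 i X (S i)) →
      ∀ c : Fin s → ℤ, (∀ i, |c i| ≤ (B : ℤ) * X) →
      (((Fintype.piFinset S).filter fun v =>
        ¬ GoodL τ0 ε m X Q0 (fun i => c i + κ i * (v i : ℤ))).card : ℝ) ≤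
      ((Fintype.piFinset S).card : ℝ) / Real.log X ^ U := by
  obtain ⟨B1, hB1⟩ : ∃ B1, B1 = ∑ i, (B + (κ i).natAbs * Bv i) := ⟨_, rfl⟩
  have hB1i : ∀ i, B + (κ i).natAbs * Bv i ≤ B1 := fun i => by
    rw [hB1]; exact single_le_sum (f := fun i => B + (κ i).natAbs * Bv i) (fun _ _ => Nat.zero_le _) (mem_univ i)
  choose C hC0 hC using h𝒮
  choose B0 h0 using fun i => hC i Q0 (B1 + 2) (U + 1 + s + 3) hQ0
  obtain ⟨Bt, hBt⟩ : ∃ Bt, Bt = ∑ i, B0 i := ⟨_, rfl⟩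
  have hBi : ∀ i, B0 i ≤ Bt := fun i => by rw [hBt]; exact single_le_sum (fun _ _ => Nat.zero_le _) (mem_univ i)
  choose N1 h1 using fun i => h0 i (Bt + 3)
  obtain ⟨Nt, hNt⟩ : ∃ Nt, Nt = ∑ i, N1 i := ⟨_, rfl⟩
  have hNi : ∀ i, N1 i ≤ Nt := fun i => by rw [hNt]; exact single_le_sum (fun _ _ => Nat.zero_le _) (mem_univ i)
  obtain ⟨n0, h2⟩ := lf_main τ0 s hs κ hκ Q0 B1 m Bt (U + 1) hQ0 hm ε hε
  obtain ⟨n2, hn2⟩ := exists_nat_ge (Real.exp (∏ i, C i))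
  refine ⟨Nt + n0 + n2 + 3, fun X hX S hS c hc => ?_⟩
  have hXM : X ≤ Q0 * X := Nat.le_mul_of_pos_left _ (by omega)
  have hX0 : (0 : ℝ) < X := by exact_mod_cast (by omega : 0 < X)
  have hlog1 : 1 ≤ Real.log ((Q0 * X : ℕ) : ℝ) := by
    rw [Real.le_log_iff_exp_le (by exact_mod_cast (by omega : 0 < Q0 * X))]
    have : (3 : ℝ) ≤ ((Q0 * X : ℕ) : ℝ) := by exact_mod_cast (by omega : 3 ≤ Q0 * X)
    linarith [Real.exp_one_lt_d9]
  have hlogX : 0 < Real.log X := Real.log_pos (by exact_mod_cast (by omega : 1 < X))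
  have hCl : ∏ i, C i ≤ Real.log X := by
    rw [Real.le_log_iff_exp_le hX0]
    refine hn2.trans ?_
    exact_mod_cast (by omega : n2 ≤ X)
  choose Ω p hp0 hp1 hpθ hpA hmem hone using fun i => h1 i X (by have := hNi i; omega) (S i) (hS i)
  have hB1z : ∀ i, |c i| ≤ (B1 : ℤ) * X := fun i => by
    refine (hc i).trans ?_
    have : B ≤ B1 := by have := hB1i i; omega
    exact_mod_cast Nat.mul_le_mul_right X this
  have h4 := h2 X (by omega) c Ω p hB1z hp0 hp1 hpθ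
    (fun i v hv => by
      have h5 := abs_le_of (c i) (κ i) X v B (Bv i) (hc i) (hpA i v hv)
      refine h5.trans ?_
      exact_mod_cast Nat.mul_le_mul_right X (hB1i i))
    (fun i c' hc' z hz1 hz2 Kc hKc G hG =>
      hone i c' hc' z ((pow_le_pow_right₀ hlog1 (hBi i)).trans hz1) hz2 Kc hKc G hG)
    (fun v => ¬ GoodL τ0 ε m X Q0 (fun i => c i + κ i * (v i : ℤ))) (fun v _ h => h)
  obtain ⟨F, hF⟩ : ∃ F, F = Fintype.piFinset S := ⟨_, rfl⟩
  have hFc : (F.card : ℝ) = ∏ i, ((S i).card : ℝ) := by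
    rw [hF, Fintype.card_piFinset, Nat.cast_prod]
  rw [← hF]
  have hCp : 0 ≤ ∏ i, C i := prod_nonneg fun i _ => hC0 i
  have hpt : ∀ v ∈ F, v ∈ Fintype.piFinset Ω ∧ 1 ≤ (∏ i, C i) * (F.card : ℝ) * ∏ i, p i (v i) := by
    intro v hv
    rw [hF, Fintype.mem_piFinset] at hv
    have hv' : ∀ i, v i ∈ Ω i ∧ 1 ≤ C i * ((S i).card : ℝ) * p i (v i) := fun i => hmem i (v i) (hv i)
    refine ⟨Fintype.mem_piFinset.2 fun i => (hv' i).1, ?_⟩
    rw [hFc, ← prod_mul_distrib, ← prod_mul_distrib]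
    have h7 : ∏ _i : Fin s, (1 : ℝ) ≤ ∏ i, (C i * ((S i).card : ℝ) * p i (v i)) :=
      prod_le_prod (fun _ _ => by norm_num) (fun i _ => (hv' i).2)
    rwa [prod_const_one] at h7
  calc ((F.filter (fun v => ¬ GoodL τ0 ε m X Q0 (fun i => c i + κ i * (v i : ℤ)))).card : ℝ)
      = ∑ v ∈ F.filter (fun v => ¬ GoodL τ0 ε m X Q0 (fun i => c i + κ i * (v i : ℤ))), (1 : ℝ) := by
        rw [sum_const, nsmul_eq_mul, mul_one]
    _ ≤ ∑ v ∈ F.filter (fun v => ¬ GoodL τ0 ε m X Q0 (fun i => c i + κ i * (v i : ℤ))), ((∏ i, C i) * (F.card : ℝ)) *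
          (if ¬ GoodL τ0 ε m X Q0 (fun i => c i + κ i * (v i : ℤ)) then ∏ i, p i (v i) else 0) := by
        apply sum_le_sum
        intro v hv
        rw [mem_filter] at hv
        rw [if_pos hv.2]
        exact (hpt v hv.1).2
    _ ≤ ∑ v ∈ Fintype.piFinset Ω, ((∏ i, C i) * (F.card : ℝ)) *
          (if ¬ GoodL τ0 ε m X Q0 (fun i => c i + κ i * (v i : ℤ)) then ∏ i, p i (v i) else 0) := by
        apply sum_le_sum_of_subset_of_nonneg
        · intro v hv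
          exact (hpt v (mem_filter.1 hv).1).1
        · intro v hv _
          have hv' := Fintype.mem_piFinset.1 hv
          apply mul_nonneg (by positivity)
          split_ifs
          · exact le_rfl
          · exact prod_nonneg fun i _ => hp0 i _ (hv' i)
    _ ≤ ((∏ i, C i) * (F.card : ℝ)) * (1 / Real.log X ^ (U + 1)) := by
        rw [← mul_sum]
        apply mul_le_mul_of_nonneg_left _ (by positivity)
        refine le_trans (le_of_eq ?_) h4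
        apply sum_congr rfl
        intro x _
        split_ifs <;> rfl
    _ ≤ _ := by
        rw [mul_one_div, div_le_div_iff₀ (by positivity) (by positivity), pow_succ]
        have : 0 ≤ (F.card : ℝ) * Real.log X ^ U := by positivity
        calc (∏ i, C i) * (F.card : ℝ) * Real.log X ^ U = (∏ i, C i) * ((F.card : ℝ) * Real.log X ^ U) := by ring
          _ ≤ Real.log X * ((F.card : ℝ) * Real.log X ^ U) := mul_le_mul_of_nonneg_right hCl this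
          _ = _ := by ring

open Classical in
/-- the law of the elements of an automatic set, the same measure for all constants -/
theorem au_law3 {σ : Type} [Fintype σ] (b : ℕ) (hb : 2 ≤ b) (M : DFA ℕ σ)
    (hS : ∀ k : ℕ, ∃ᶠ N : ℕ in Filter.atTop, Real.log N ^ k < (((range N).filter fun v => Nat.digits b v ∈ M.accepts).card : ℝ))
    (κκ : ℤ) : ∃ (B : ℕ) (C : ℝ), 2 ≤ B ∧ 0 ≤ C ∧
    ∀ e V : ℕ, ∃ D N₀ : ℕ, ∀ N, N₀ ≤ N → ∃ (n : ℕ) (Ω : Finset ℕ) (p : ℕ → ℝ),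
      B ^ n ≤ N ∧ N < B ^ (n + 1) ∧
      (∀ cc : ℤ, Law B (B.factorial * κκ.natAbs) D V (n + 1 + e) Ω p (fun v : ℕ => cc + κκ * v)) ∧
      (∀ v ∈ Ω, v < B ^ (n + 1)) ∧ (∀ v ∈ Ω, 0 ≤ p v) ∧
      ∑ v ∈ Ω, p v = 1 ∧ (∀ v ∈ Ω, p v ≤ 1 / ((n + 1 + e : ℕ) : ℝ) ^ V) ∧
      (∀ v, v < N → Nat.digits b v ∈ M.accepts →
        v ∈ Ω ∧ 1 ≤ C * (((range N).filter fun v => Nat.digits b v ∈ M.accepts).card : ℝ) * p v) := by
  obtain ⟨B, δ, F, s0, κ, C, ρ, k, hB2, hρ, hG, hrun⟩ := setup b hb M hS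
  have hC1 := hG.C1
  have hC0 : 0 < C := by linarith
  refine ⟨B, C, hB2, hC0.le, fun e V => ?_⟩
  obtain ⟨D, K2, hchar⟩ := char_bound B hB2 δ F s0 (R1 B δ) κ C ρ k hG hρ (fun s hs => hs) κκ e V
  have hexp : ∃ k3 : ℕ, ∀ K : ℕ, k3 ≤ K → C * ρ ^ e * (K : ℝ) ^ V ≤ ρ ^ K := by
    have hlim := isLittleO_pow_const_const_pow_of_one_lt (R := ℝ) V hρ
    have h2 := hlim.def (c := 1 / (C * ρ ^ e)) (by positivity)
    rw [Filter.eventually_atTop] at h2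
    obtain ⟨k2, hk2⟩ := h2
    refine ⟨k2, fun K hK => ?_⟩
    have h3 := hk2 K hK
    rw [Real.norm_of_nonneg (by positivity), Real.norm_of_nonneg (by positivity)] at h3
    calc C * ρ ^ e * (K : ℝ) ^ V ≤ C * ρ ^ e * (1 / (C * ρ ^ e) * ρ ^ K) := mul_le_mul_of_nonneg_left h3 (by positivity)
      _ = ρ ^ K := by field_simp
  obtain ⟨k3, hk3⟩ := hexp
  refine ⟨D, B ^ (K2 + κ + k3 + 1), fun N hN => ?_⟩
  obtain ⟨n, hn⟩ : ∃ n, n = Nat.log B N := ⟨_, rfl⟩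
  have hpB : 0 < B ^ (K2 + κ + k3 + 1) := by positivity
  have hn1 : K2 + κ + k3 + 1 ≤ n := by
    rw [hn]
    exact (Nat.le_log_iff_pow_le (by omega) (by omega)).2 hN
  have hN1 : B ^ n ≤ N := by rw [hn]; exact Nat.pow_log_le_self B (by omega)
  have hN2 : N < B ^ (n + 1) := by rw [hn]; exact Nat.lt_pow_succ_log_self (by omega) N
  have hlow := hG.low (n + 1) (by omega)
  have hpos : 0 < Ac B δ F (n + 1) s0 := by
    have h2 : 0 < ρ ^ (n + 1) := by positivity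
    by_contra hcon
    push Not at hcon
    have h3 : C * Ac B δ F (n + 1) s0 ≤ 0 := mul_nonpos_of_nonneg_of_nonpos (by linarith) hcon
    linarith
  have hlaw := fun cc : ℤ => law_of B hB2 δ F s0 κκ V D (n + 1 + e) (n + 1) hpos (hchar (n + 1 + e) (by omega) (n + 1) rfl) cc
  have hcard : (((range (B ^ (n + 1))).filter (fun v => F (run B δ (n + 1) s0 v))).card : ℝ) = Ac B δ F (n + 1) s0 := by
    rw [Ac_eq B (by omega), ← sum_filter, sum_const, nsmul_eq_mul, mul_one]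
  refine ⟨n, (range (B ^ (n + 1))).filter (fun v => F (run B δ (n + 1) s0 v)), fun _ => 1 / Ac B δ F (n + 1) s0, hN1, hN2, hlaw, ?_, ?_, ?_, ?_, ?_⟩
  · intro v hv
    rw [mem_filter, mem_range] at hv
    exact hv.1
  · intro v _
    positivity
  · rw [sum_const, nsmul_eq_mul, hcard, mul_one_div, div_self hpos.ne']
  · intro v _
    have h1 := hk3 (n + 1 + e) (by omega)
    rw [pow_add ρ (n + 1) e] at h1
    have h2 : C * ((n + 1 + e : ℕ) : ℝ) ^ V ≤ ρ ^ (n + 1) := by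
      have h3 : (C * ((n + 1 + e : ℕ) : ℝ) ^ V) * ρ ^ e ≤ ρ ^ (n + 1) * ρ ^ e := by
        refine le_trans (le_of_eq ?_) h1
        ring
      exact le_of_mul_le_mul_right h3 (by positivity)
    have h4 : ((n + 1 + e : ℕ) : ℝ) ^ V ≤ Ac B δ F (n + 1) s0 := le_of_mul_le_mul_left (h2.trans hlow) hC0
    apply one_div_le_one_div_of_le _ h4
    have : (0 : ℝ) < ((n + 1 + e : ℕ) : ℝ) := by exact_mod_cast (by omega : 0 < n + 1 + e)
    positivity
  · intro v hv hvM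
    have hv2 : v < B ^ (n + 1) := hv.trans hN2
    refine ⟨mem_filter.2 ⟨mem_range.2 hv2, (hrun (n + 1) v hv2).2 hvM⟩, ?_⟩
    have h3 := hG.step n (by omega) s0
    have h4 : Ac B δ F n s0 ≤ (((range N).filter fun v => Nat.digits b v ∈ M.accepts).card : ℝ) := by
      have e1 : Ac B δ F n s0 = (((range (B ^ n)).filter fun v => Nat.digits b v ∈ M.accepts).card : ℝ) := by
        rw [Ac_eq B (by omega), ← sum_filter, sum_const, nsmul_eq_mul, mul_one]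
        congr 2
        apply filter_congr
        intro v hv
        exact hrun n v (mem_range.1 hv)
      rw [e1]
      exact_mod_cast card_le_card (filter_subset_filter _ (range_mono hN1))
    have h6 : Ac B δ F (n + 1) s0 ≤ C * (((range N).filter fun v => Nat.digits b v ∈ M.accepts).card : ℝ) :=
      h3.trans (mul_le_mul_of_nonneg_left h4 hC0.le)
    rw [mul_one_div, le_div_iff₀ hpos, one_mul]
    exact h6

open Classical in
/-- automatic sets have the one shift estimate -/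
theorem autZ {σ : Type} [Finite σ] (b : ℕ) (hb : 2 ≤ b) (M : DFA ℕ σ)
    (hS : ∀ k : ℕ, ∃ᶠ N : ℕ in Filter.atTop, Real.log N ^ k < (((range N).filter fun v => Nat.digits b v ∈ M.accepts).card : ℝ))
    (κ : ℤ) (hκ : κ ≠ 0) : ∃ Bv : ℕ, HasZ κ Bv (fun X S => S = (range X).filter fun v => Nat.digits b v ∈ M.accepts) := by
  have := Fintype.ofFinite σ
  obtain ⟨B, C, hB2, hC0, h⟩ := au_law3 b hb M hS κ
  refine ⟨B, C, hC0, fun Q Bc U hQ => ?_⟩
  obtain ⟨e, he⟩ : ∃ e, e = (1 + Bc + κ.natAbs * B) * Q := ⟨_, rfl⟩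
  obtain ⟨D, N1, h⟩ := h e (2 * (U + 1) + 6)
  have hFp : 1 ≤ B.factorial * κ.natAbs := Nat.mul_pos B.factorial_pos (Int.natAbs_pos.2 hκ)
  obtain ⟨B0, h0⟩ := one_at B (B.factorial * κ.natAbs) hB2 hFp U D (B ^ (1 + e))
  refine ⟨B0, fun E => ?_⟩
  obtain ⟨N2, h2⟩ := h0 E
  obtain ⟨K1, hK1⟩ := exists_nat_ge (Real.log B ^ U + 1)
  have hB1 : (1 : ℝ) < B := by exact_mod_cast (by omega : 1 < B)
  have hlogB : 0 < Real.log B := Real.log_pos hB1
  refine ⟨N1 + N2 + B ^ (K1 + 1) + 3, fun X hX S hSX => ?_⟩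
  subst hSX
  obtain ⟨n, Ω, p, hn1, hn2, hl, hΩ, hp0, hp1, hpV, hmem⟩ := h X (by omega)
  have hXM : X ≤ Q * X := Nat.le_mul_of_pos_left _ (by omega)
  have hX0 : 0 < Q * X := by omega
  have hBe : (1 + Bc + κ.natAbs * B) * Q ≤ B ^ e := by
    rw [← he]
    exact (Nat.lt_pow_self (by omega)).le
  have hBK : (1 + Bc + κ.natAbs * B) * (Q * X) ≤ B ^ (n + 1 + e) := by
    calc (1 + Bc + κ.natAbs * B) * (Q * X) = (1 + Bc + κ.natAbs * B) * Q * X := by ring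
      _ ≤ B ^ e * B ^ (n + 1) := Nat.mul_le_mul hBe hn2.le
      _ = B ^ (n + 1 + e) := by rw [← pow_add, add_comm]
  have hNK : Q * X ≤ B ^ (n + 1 + e) := le_trans (Nat.le_mul_of_pos_left _ (by omega)) hBK
  have hKN : B ^ (n + 1 + e) ≤ B ^ (1 + e) * (Q * X) := by
    calc B ^ (n + 1 + e) = B ^ (1 + e) * B ^ n := by rw [← pow_add]; congr 1; ring
      _ ≤ B ^ (1 + e) * (Q * X) := Nat.mul_le_mul_left _ (hn1.trans hXM)
  have hn : K1 + 1 ≤ n := by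
    have hpB : 0 < B ^ (K1 + 1) := by positivity
    have h1 : B ^ (K1 + 1) < B ^ (n + 1) := lt_of_le_of_lt (by omega) hn2
    have := (Nat.pow_lt_pow_iff_right (by omega : 1 < B)).1 h1
    omega
  refine ⟨Ω, p, hp0, hp1, ?_, ?_, ?_, ?_⟩
  · intro v hv
    refine (hpV v hv).trans ?_
    have hX0r : (0 : ℝ) < ((Q * X : ℕ) : ℝ) := by exact_mod_cast hX0
    have hlog0 : 0 < Real.log ((Q * X : ℕ) : ℝ) := Real.log_pos (by exact_mod_cast (by omega : 1 < Q * X))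
    have hKr : (K1 : ℝ) ≤ ((n + 1 + e : ℕ) : ℝ) := by exact_mod_cast (by omega : K1 ≤ n + 1 + e)
    have hK0' : (1 : ℝ) ≤ ((n + 1 + e : ℕ) : ℝ) := by exact_mod_cast (by omega : 1 ≤ n + 1 + e)
    have hlogK : Real.log ((Q * X : ℕ) : ℝ) ≤ ((n + 1 + e : ℕ) : ℝ) * Real.log B := by
      rw [← Real.log_pow]
      apply Real.log_le_log hX0r
      exact_mod_cast hNK
    apply one_div_le_one_div_of_le (by positivity)
    calc Real.log ((Q * X : ℕ) : ℝ) ^ U ≤ (((n + 1 + e : ℕ) : ℝ) * Real.log B) ^ U := pow_le_pow_left₀ hlog0.le hlogK U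
      _ = ((n + 1 + e : ℕ) : ℝ) ^ U * Real.log B ^ U := mul_pow _ _ _
      _ ≤ ((n + 1 + e : ℕ) : ℝ) ^ U * ((n + 1 + e : ℕ) : ℝ) := mul_le_mul_of_nonneg_left (by linarith) (by positivity)
      _ = ((n + 1 + e : ℕ) : ℝ) ^ (U + 1) := by rw [pow_succ]
      _ ≤ _ := pow_le_pow_right₀ hK0' (by omega)
  · intro v hv
    have h3 := hΩ v hv
    have h4 : B ^ (n + 1) ≤ B * X := by
      rw [pow_succ, mul_comm]
      exact Nat.mul_le_mul_left _ hn1
    omega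
  · intro v hv
    rw [mem_filter, mem_range] at hv
    exact hmem v hv.1 hv.2
  · intro cc hcc z hz1 hz2 Kc hKc G hG
    have h5 := h2 (Q * X) (by omega) (n + 1 + e) hNK hKN ℕ Ω p (fun v : ℕ => cc + κ * (v : ℤ)) (hl cc) hp1 (by
      intro v hv
      refine rangeZ (Q * X) (B ^ (n + 1 + e)) cc κ v Bc B hcc ?_ hBK hX0
      have h3 := hΩ v hv
      have h4 : B ^ (n + 1) ≤ B * X := by
        rw [pow_succ, mul_comm]
        exact Nat.mul_le_mul_left _ hn1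
      have h6 : B * X ≤ B * (Q * X) := Nat.mul_le_mul_left _ hXM
      omega) z hz1 hz2 Kc hKc G hG
    exact h5

open Classical in
/-- palindromes with `k` digits -/
theorem palHasZ (b : ℕ) (hb : 2 ≤ b) (κ : ℤ) (hκ : κ ≠ 0) (B : ℕ) (hB : 1 ≤ B) :
    HasZ κ (3 * B) (fun X S => ∃ k : ℕ, X ≤ B * b ^ k ∧ b ^ k ≤ B * X ∧ S = Pool.Agent.TH872.Mir.Pals b k) := by
  refine ⟨1, by norm_num, fun Q Bc U hQ => ?_⟩
  obtain ⟨B0, h0⟩ := palZ b hb κ hκ (Q * B) Bc U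
  refine ⟨B0, fun E => ?_⟩
  obtain ⟨N1, h1⟩ := h0 E
  refine ⟨N1 + 1, fun X hX S hSX => ?_⟩
  obtain ⟨k, hk1, hk2, rfl⟩ := hSX
  have hXM : X ≤ Q * X := Nat.le_mul_of_pos_left _ (by omega)
  obtain ⟨Ω, p, a1, a2, a3, a4, a5, a6⟩ := h1 (Q * X) (by omega) k (by
    calc Q * X ≤ Q * (B * b ^ k) := Nat.mul_le_mul_left _ hk1
      _ = Q * B * b ^ k := by ring) (by
    calc b ^ k ≤ B * X := hk2
      _ ≤ Q * B * (Q * X) := Nat.mul_le_mul (Nat.le_mul_of_pos_left _ (by omega)) hXM)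
  refine ⟨Ω, p, a1, a2, a3, fun v hv => (a4 v hv).trans ?_, fun v hv => ?_, a6⟩
  · calc 3 * b ^ k ≤ 3 * (B * X) := Nat.mul_le_mul_left _ hk2
      _ = 3 * B * X := by ring
  · rw [one_mul]
    exact a5 v hv

end Pool.Agent.Q26.PD
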