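import Pool.Agent.Q26.PD.LF5
import Pool.Agent.Y885.TU3

set_option autoImplicit false

/-! Systems of linear forms whose constants are random integers with a thin large spectrum; few elements of arbitrary sets. -/

namespace Pool.Agent.Q26.PD
open Finset
open Pool.Agent.H807R2.Dav
open Pool.Agent.H373R2.T7
open Pool.Agent.W93.DG
open Pool.Agent.W93.RD
open Pool.Agent.W93.TD (total_w)
open Pool.Agent.Y885 (TLaw tl_dif tl_point las_lawP)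
open Pool.Agent.Y820.LF

/-- the logarithms at the scales `N` and `b ^ K` -/
lemma conv (b U B0 CB : ℕ) (hb : 2 ≤ b) : ∃ N₀ : ℕ, ∀ N, N₀ ≤ N → ∀ K : ℕ, N ≤ b ^ K → b ^ K ≤ CB * N →
    ((b ^ K : ℕ) : ℝ) / (K : ℝ) ^ (U + 1) ≤ N / Real.log N ^ U ∧ 1 / (K : ℝ) ^ (U + 1) ≤ 1 / Real.log N ^ U ∧
    (∀ z : ℕ, Real.log N ^ (B0 + 1) ≤ z → Real.log ((b ^ K : ℕ) : ℝ) ^ B0 ≤ z) ∧
    (∀ z E : ℕ, (z : ℝ) ≤ Real.log N ^ E → (z : ℝ) ≤ Real.log ((b ^ K : ℕ) : ℝ) ^ E) := by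
  have hb1 : (1 : ℝ) < b := by exact_mod_cast (by omega : 1 < b)
  have hlogb : 0 < Real.log b := Real.log_pos hb1
  obtain ⟨K1, hK1⟩ := exists_nat_ge ((CB : ℝ) * Real.log b ^ U + Real.log b ^ U + 1)
  obtain ⟨R, hR⟩ := exists_nat_ge ((2 : ℝ) ^ B0 + Real.log ((CB : ℝ) + 1) + 1)
  refine ⟨b ^ (K1 + 1) + 3 ^ R + 3, fun N hN K hNK hKN => ?_⟩
  obtain ⟨P3, hP3⟩ : ∃ P3 : ℕ, P3 = 3 ^ R := ⟨_, rfl⟩
  rw [← hP3] at hN
  have hpB : 0 < b ^ (K1 + 1) := by positivity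
  have hn : K1 + 1 ≤ K := by
    have h1 : b ^ (K1 + 1) ≤ b ^ K := le_trans (by omega) hNK
    exact (Nat.pow_le_pow_iff_right (by omega : 1 < b)).1 h1
  have hKr : (K1 : ℝ) ≤ K := by exact_mod_cast (by omega : K1 ≤ K)
  have hK0' : (1 : ℝ) ≤ K := by exact_mod_cast (by omega : 1 ≤ K)
  have hN0 : (0 : ℝ) < N := by exact_mod_cast (by omega : 0 < N)
  have hlog0 : 0 < Real.log N := Real.log_pos (by exact_mod_cast (by omega : 1 < N))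
  have hlogR : (R : ℝ) ≤ Real.log N := by
    rw [Real.le_log_iff_exp_le hN0]
    have h1 : Real.exp (R : ℝ) ≤ (3 : ℝ) ^ R := by
      rw [show (R : ℝ) = R * 1 by ring, Real.exp_nat_mul]
      exact pow_le_pow_left₀ (Real.exp_pos _).le (by linarith [Real.exp_one_lt_d9]) R
    refine h1.trans ?_
    exact_mod_cast (by rw [← hP3]; omega : 3 ^ R ≤ N)
  have hlogK : Real.log N ≤ K * Real.log b := by
    have h1 : Real.log N ≤ Real.log ((b ^ K : ℕ) : ℝ) := Real.log_le_log hN0 (by exact_mod_cast hNK)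
    rw [Nat.cast_pow, Real.log_pow] at h1
    exact h1
  have hU : Real.log N ^ U ≤ (K : ℝ) ^ U * Real.log b ^ U := by
    rw [← mul_pow]
    exact pow_le_pow_left₀ hlog0.le hlogK U
  have hBKN : ((b ^ K : ℕ) : ℝ) ≤ (CB : ℝ) * N := by exact_mod_cast hKN
  have a1 : 0 ≤ (CB : ℝ) * Real.log b ^ U := by positivity
  have a2 : 0 ≤ Real.log b ^ U := by positivity
  have hlX1 : Real.log N ≤ Real.log ((b ^ K : ℕ) : ℝ) := Real.log_le_log hN0 (by exact_mod_cast hNK)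
  have hlX2 : Real.log ((b ^ K : ℕ) : ℝ) ≤ 2 * Real.log N := by
    have h1 : Real.log ((b ^ K : ℕ) : ℝ) ≤ Real.log (((CB : ℝ) + 1) * N) := by
      apply Real.log_le_log
      · exact_mod_cast (by positivity : 0 < b ^ K)
      · nlinarith
    rw [Real.log_mul (by positivity) hN0.ne'] at h1
    have h2 : (0 : ℝ) < 2 ^ B0 := by positivity
    linarith
  refine ⟨?_, ?_, ?_, ?_⟩
  · rw [div_le_div_iff₀ (by positivity) (by positivity)]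
    calc ((b ^ K : ℕ) : ℝ) * Real.log N ^ U ≤ ((CB : ℝ) * N) * ((K : ℝ) ^ U * Real.log b ^ U) :=
          mul_le_mul hBKN hU (by positivity) (by positivity)
      _ = N * (((CB : ℝ) * Real.log b ^ U) * (K : ℝ) ^ U) := by ring
      _ ≤ N * (K * (K : ℝ) ^ U) := by
          apply mul_le_mul_of_nonneg_left _ hN0.le
          exact mul_le_mul_of_nonneg_right (by linarith) (by positivity)
      _ = _ := by rw [pow_succ]; ring
  · apply one_div_le_one_div_of_le (by positivity)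
    refine hU.trans ?_
    rw [pow_succ]
    exact mul_le_mul_of_nonneg_left (by linarith) (by positivity)
  · intro z hz1
    refine le_trans ?_ hz1
    calc Real.log ((b ^ K : ℕ) : ℝ) ^ B0 ≤ (2 * Real.log N) ^ B0 := pow_le_pow_left₀ (by linarith) hlX2 _
      _ = 2 ^ B0 * Real.log N ^ B0 := mul_pow _ _ _
      _ ≤ Real.log N * Real.log N ^ B0 := by
          apply mul_le_mul_of_nonneg_right _ (by positivity)
          have h2 : 0 ≤ Real.log ((CB : ℝ) + 1) := Real.log_nonneg (by linarith [Nat.cast_nonneg (α := ℝ) CB])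
          linarith
      _ = Real.log N ^ (B0 + 1) := by ring
  · intro z E hz2
    exact hz2.trans (pow_le_pow_left₀ hlog0.le hlX1 _)

/-- random integers with a thin large spectrum -/
theorem tlZ (b E c : ℕ) (hb : 2 ≤ b) (hE : 1 ≤ E) (U CB B' Bc : ℕ) : ∃ B0 : ℕ, ∀ Ez : ℕ, ∃ N₀ : ℕ, ∀ N : ℕ, N₀ ≤ N →
    ∀ K : ℕ, (1 + Bc + B') * N ≤ b ^ K → b ^ K ≤ CB * N → ∀ (ι : Type) (Ω : Finset ι) (p : ι → ℝ) (f : ι → ℕ) [DecidableEq ℕ],
    TLaw b E c (2 * (U + 1) + 6) K Ω p (fun ω => (f ω : ℤ)) → ∑ ω ∈ Ω, p ω = 1 → (∀ ω ∈ Ω, f ω ≤ B' * N) →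
    (∀ v, pf Ω p f v ≤ 1 / Real.log N ^ U) ∧ OneZ N U B0 Ez Bc 1 (Ω.image f) (pf Ω p f) := by
  obtain ⟨B1, h1⟩ := tl_dif b E c hb hE (U + 1)
  obtain ⟨k2, h2⟩ := tl_point b hb E c (U + 1) hE
  obtain ⟨N3, h3⟩ := conv b U B1 CB hb
  refine ⟨B1 + 1, fun Ez => ?_⟩
  obtain ⟨k1, h1⟩ := h1 Ez
  refine ⟨N3 + b ^ (k1 + k2 + 1) + 1, fun N hN K hNK hKN ι Ω p f _ hlaw hp1 hf => ?_⟩
  have hN0 : 0 < N := by omega
  have hNK' : N ≤ b ^ K := le_trans (Nat.le_mul_of_pos_left _ (by omega)) hNK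
  have hKk : k1 + k2 + 1 ≤ K := by
    have : b ^ (k1 + k2 + 1) ≤ b ^ K := le_trans (by omega) hNK'
    exact (Nat.pow_le_pow_iff_right (by omega : 1 < b)).1 this
  obtain ⟨c1, c2, c3, c4⟩ := h3 N (by omega) K hNK' hKN
  constructor
  · intro v
    have h5 := h2 K (by omega) ι Ω p (fun ω => (f ω : ℤ)) (hlaw.mono (by omega) (by omega)) (v : ℤ)
    refine le_trans (le_of_eq ?_) (h5.trans c2)
    unfold pf
    apply sum_congr rfl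
    intro ω _
    by_cases h : f ω = v
    · rw [if_pos h, if_pos (by exact_mod_cast h), mul_one]
    · rw [if_neg h, if_neg (by exact_mod_cast h), mul_zero]
  · intro cc hc z hz1 hz2 Kc hKc G hG
    have hrange : ∀ ω ∈ Ω, -(b : ℤ) ^ K < cc + (f ω : ℤ) ∧ (N : ℤ) + (cc + (f ω : ℤ)) ≤ (b : ℤ) ^ K := by
      intro ω hω
      have h5 := rangeZ N (b ^ K) cc 1 (f ω) Bc B' hc (hf ω hω) (by
        rw [Int.natAbs_one, one_mul]
        exact hNK) hN0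
      rw [one_mul] at h5
      push_cast at h5
      exact h5
    have h5 := h1 K (by omega) z (c3 z hz1) (c4 z Ez hz2) ι Ω p (fun ω => cc + (f ω : ℤ)) (by
      have h6 := hlaw.add cc
      convert h6 using 1
      funext ω
      ring) N (by exact_mod_cast hNK') hrange Kc hKc G hG
    have h6 := pf_sum Ω p f (fun v => |∑ n ∈ Icc 1 N, G n * (lamI ((n : ℤ) + (cc + 1 * (v : ℤ))) - lamzI z ((n : ℤ) + (cc + 1 * (v : ℤ))))|)
    refine le_trans (le_of_eq ?_) (h5.trans (mul_le_mul_of_nonneg_left c1 hKc.le))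
    refine Eq.trans ?_ (h6.trans ?_)
    · apply sum_congr _ (fun _ _ => rfl)
      ext v
      simp only [mem_image]
    · simp only [one_mul]

lemma adm1_shift {s : ℕ} (Q0 : ℕ) (hQ0 : 1 ≤ Q0) (C a a' : Fin s → ℤ) (hC : ∀ i, C i ≠ 0 ∧ |C i| ≤ (Q0 : ℤ))
    (h : ∀ i, ((primorial (s + Q0 + 1) : ℕ) : ℤ) ∣ a' i - a i) (hadm : AdmF (C1 C) (H1 a)) : AdmF (C1 C) (H1 a') := by
  refine adm_transfer (C1 C) (H1 a) (H1 a') (s + Q0 + 1) (by omega) ?_ ?_ hadm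
  · intro i
    refine Fin.cases ?_ (fun i => ?_) i
    · rw [C1_zero]
      refine ⟨one_ne_zero, ?_⟩
      rw [abs_one]
      push_cast
      omega
    · rw [C1_succ]
      refine ⟨(hC i).1, (hC i).2.trans ?_⟩
      push_cast
      omega
  · intro p hp hp' i
    refine Fin.cases ?_ (fun i => ?_) i
    · rw [H1_zero, H1_zero, sub_self]
      exact dvd_zero _
    · rw [H1_succ, H1_succ]
      refine dvd_trans ?_ (h i)
      exact_mod_cast hp.dvd_primorial_iff.2 hp'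

/-- no constant is zero, and no two forms are proportional -/
def Nondeg {s : ℕ} (Q0 : ℕ) (H : Fin s → ℤ) : Prop :=
  (∀ i, H i ≠ 0) ∧ ∀ i j, i ≠ j → ∀ x y : ℤ, x ≠ 0 → |x| ≤ (Q0 : ℤ) → |y| ≤ (Q0 : ℤ) → x * H i ≠ y * H j

lemma nondeg_of {s : ℕ} (τ0 : Bool) (Q0 M' X z : ℕ) (η : ℝ) (H : Fin s → ℤ) (h : ¬ BadH τ0 Q0 M' X z η H) : Nondeg Q0 H := by
  unfold BadH at h
  push Not at h
  exact ⟨h.1, fun i j hij x y h1 h2 h3 => h.2.1 i j hij x y h1 h2 h3⟩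

/-- the main theorem for arbitrary random constants with the one shift estimate; non-degenerate vectors -/
theorem lf_main2 (τ0 : Bool) (s : ℕ) (hs : 1 ≤ s) (κ : Fin s → ℤ) (hκ : ∀ i, κ i ≠ 0) (Q0 B m Bt U : ℕ) (hQ0 : 1 ≤ Q0) (hm : 1 ≤ m)
    (ε : ℝ) (hε : 0 < ε) : ∃ n0 : ℕ, ∀ X : ℕ, n0 ≤ X → ∀ (c : Fin s → ℤ) (Ω : Fin s → Finset ℕ) (p : Fin s → ℕ → ℝ),
    (∀ i, |c i| ≤ (B : ℤ) * X) → (∀ i, ∀ v ∈ Ω i, 0 ≤ p i v) → (∀ i, ∑ v ∈ Ω i, p i v = 1) →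
    (∀ i, ∀ v ∈ Ω i, p i v ≤ 1 / Real.log ((Q0 * X : ℕ) : ℝ) ^ (U + s + 3)) →
    (∀ i, ∀ v ∈ Ω i, |c i + κ i * (v : ℤ)| ≤ (B : ℤ) * X) →
    (∀ i, OneZ (Q0 * X) (U + s + 3) Bt (Bt + 3) (B + 2) (κ i) (Ω i) (p i)) →
    ∀ Bad : (Fin s → ℕ) → Prop, [DecidablePred Bad] →
    (∀ v ∈ Fintype.piFinset Ω, Bad v → ¬ (GoodL τ0 ε m X Q0 (fun i => c i + κ i * (v i : ℤ)) ∧
      Nondeg Q0 (fun i => c i + κ i * (v i : ℤ)))) →
    ∑ v ∈ Fintype.piFinset Ω, (if Bad v then ∏ i, p i (v i) else 0) ≤ 1 / Real.log X ^ U := by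
  have hdet : ∃ η : ℝ, 0 < η ∧ ∃ M' n0 : ℕ, 1 ≤ M' ∧ ∀ X : ℕ, n0 ≤ X → ∀ z : ℕ, 1 ≤ z → Real.log X ^ 2 ≤ z →
    (z : ℝ) ≤ Real.log ((Q0 * X : ℕ) : ℝ) ^ (Bt + 3) → ∀ H : Fin s → ℤ, (∀ i, |H i| ≤ (B : ℤ) * X) →
    ¬ BadH τ0 Q0 M' X z η H → GoodL τ0 ε m X Q0 H := by
    cases τ0
    · exact det0 s Q0 B m (Bt + 3) hs hm ε hε
    · exact det1 s Q0 B m (Bt + 3) hs hQ0 hm ε hε
  obtain ⟨η, hη, M', n1, hM', h1⟩ := hdet
  obtain ⟨n2, h2⟩ := lf_rare (s := s) κ hκ Q0 B Bt (Bt + 3) U M' hQ0 hM' η hη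
  obtain ⟨n3, h3⟩ := ev_L' 2
  refine ⟨n1 + n2 + n3 + 2, fun X hX c Ω p hc hp0 hp1 hpθ hpA hone Bad _ hBad => ?_⟩
  have hXM : X ≤ Q0 * X := Nat.le_mul_of_pos_left _ (by omega)
  have hX0 : (0 : ℝ) < X := by exact_mod_cast (by omega : 0 < X)
  have hlX2 : 2 ≤ Real.log X := h3 X (by omega)
  have hlX : Real.log X ≤ Real.log ((Q0 * X : ℕ) : ℝ) := Real.log_le_log hX0 (by exact_mod_cast hXM)
  obtain ⟨L, hL⟩ : ∃ L, L = Real.log ((Q0 * X : ℕ) : ℝ) := ⟨_, rfl⟩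
  have hL2 : 2 ≤ L := by rw [hL]; linarith
  obtain ⟨z, hz⟩ : ∃ z, z = ⌈L ^ (Bt + 2)⌉₊ := ⟨_, rfl⟩
  have hz1 : L ^ (Bt + 2) ≤ z := by rw [hz]; exact Nat.le_ceil _
  have hz2 : (z : ℝ) ≤ L ^ (Bt + 3) := by
    have q1 : (z : ℝ) < L ^ (Bt + 2) + 1 := by rw [hz]; exact Nat.ceil_lt_add_one (by positivity)
    have q2 : 1 ≤ L ^ (Bt + 2) := one_le_pow₀ (by linarith)
    rw [pow_succ]
    nlinarith
  have hzn : 1 ≤ z := by
    have : (1 : ℝ) ≤ z := (one_le_pow₀ (by linarith)).trans hz1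
    exact_mod_cast this
  have hz3 : L ^ Bt ≤ z := (pow_le_pow_right₀ (by linarith) (by omega)).trans hz1
  have hz4 : Real.log X ^ 2 ≤ z := by
    calc Real.log X ^ 2 ≤ L ^ 2 := pow_le_pow_left₀ (by linarith) (by rw [hL]; exact hlX) 2
      _ ≤ L ^ (Bt + 2) := pow_le_pow_right₀ (by linarith) (by omega)
      _ ≤ z := hz1
  refine h2 X (by omega) z hzn (by rw [← hL]; exact hz3) (by rw [← hL]; exact hz2) τ0 c Ω p hc hp0 hp1 hpθ hpA hone Bad ?_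
  intro v hv hb
  by_contra hcon
  refine hBad v hv hb ?_
  have hv' := Fintype.mem_piFinset.1 hv
  exact ⟨h1 X (by omega) z hzn hz4 (by rw [← hL]; exact hz2) _ (fun i => hpA i _ (hv' i)) hcon, nondeg_of _ _ _ _ _ _ _ hcon⟩

/-- a uniform lower bound for the singular series -/
theorem low1 (s Q0 : ℕ) (hQ0 : 1 ≤ Q0) : ∃ δ : ℝ, 0 < δ ∧ ∀ B : ℕ, ∃ n0 : ℕ, ∀ X : ℕ, n0 ≤ X → ∀ C H : Fin s → ℤ,
    (∀ i, C i ≠ 0 ∧ |C i| ≤ (Q0 : ℤ)) → (∀ i, |H i| ≤ (B : ℤ) * X) → Nondeg Q0 H → AdmF (C1 C) (H1 H) →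
    ∀ G : ℝ, Filter.Tendsto (singF (C1 C) (H1 H)) Filter.atTop (nhds G) → δ ≤ G := by
  obtain ⟨c, hc, h⟩ := t_lim (s + 1) Q0 (by omega)
  refine ⟨c, hc, fun B => ?_⟩
  obtain ⟨n0, h⟩ := h B 1 one_pos
  refine ⟨n0, fun X hX C H hC hH hnd hadm G hG => ?_⟩
  have a1 : ∀ i, C1 C i ≠ 0 ∧ |C1 C i| ≤ (Q0 : ℤ) := by
    intro i
    refine Fin.cases ?_ (fun i => ?_) i
    · rw [C1_zero]
      refine ⟨one_ne_zero, ?_⟩
      rw [abs_one]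
      exact_mod_cast hQ0
    · rw [C1_succ]
      exact hC i
  have a2 : ∀ i, |H1 H i| ≤ (B : ℤ) * X := by
    intro i
    refine Fin.cases ?_ (fun i => ?_) i
    · rw [H1_zero, abs_zero]
      positivity
    · rw [H1_succ]
      exact hH i
  have a3 : ∀ i j, i ≠ j → C1 C i * H1 H j ≠ C1 C j * H1 H i := by
    intro i j
    refine Fin.cases ?_ (fun i => ?_) i
    · refine Fin.cases ?_ (fun j => ?_) j
      · intro h; exact absurd rfl h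
      · intro _
        rw [C1_zero, H1_zero, H1_succ, C1_succ, one_mul, mul_zero]
        exact hnd.1 j
    · refine Fin.cases ?_ (fun j => ?_) j
      · intro _
        rw [C1_zero, H1_zero, H1_succ, C1_succ, one_mul, mul_zero]
        exact (hnd.1 i).symm
      · intro hij
        rw [C1_succ, C1_succ, H1_succ, H1_succ]
        have hij' : i ≠ j := fun h => hij (by rw [h])
        exact hnd.2 j i hij'.symm (C i) (C j) (hC i).1 (hC i).2 (hC j).2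
  obtain ⟨S, hS1, hS2, _⟩ := h X hX (C1 C) (H1 H) a1 a2 a3 hadm
  rw [tendsto_nhds_unique hG hS2]
  exact hS1

open Classical in
/-- few elements of arbitrary sets -/
theorem lf_las (τ0 : Bool) (s l Q0 m : ℕ) (hs : 1 ≤ s) (hl : 2 ≤ l) (hQ0 : 1 ≤ Q0) (hm : 1 ≤ m) : ∃ Cst : ℝ, ∀ (Hh B : ℕ) (ε : ℝ),
    0 < ε → ∃ X₀ : ℕ, ∀ A : Fin s → Set ℕ, (∀ i, ∀ x : ℕ, 1 ≤ x → ∃ a ∈ A i, x ≤ a ∧ a ≤ l * x) → ∀ X : ℕ, X₀ ≤ X →
    ∀ a : Fin s → ℤ, (∀ i, |a i| ≤ (B : ℤ) * X) →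
    ∃ S : Fin s → Finset ℕ, (∀ i, ∀ x ∈ S i, x ∈ A i ∧ Real.log X ^ Hh ≤ x ∧ (x : ℝ) ≤ X / Real.log X ^ Hh) ∧
      (∀ i, ((S i).card : ℝ) ≤ Cst * Real.log (Real.log X) ^ 2) ∧ (∀ i, primorial (s + Q0 + 1) ∣ ∑ x ∈ S i, x) ∧
      GoodL τ0 ε m X Q0 (fun i => a i + ∑ x ∈ S i, (x : ℤ)) ∧ Nondeg Q0 (fun i => a i + ∑ x ∈ S i, (x : ℤ)) ∧
      ∀ i, |a i + ∑ x ∈ S i, (x : ℤ)| ≤ ((B + 1 : ℕ) : ℤ) * X := by
  obtain ⟨b, hb, Cst, hC⟩ := las_lawP l (primorial (s + Q0 + 1)) hl (primorial_pos _) (2 * ((1 + s + 3) + 1) + 6)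
  refine ⟨Cst, fun Hh B ε hε => ?_⟩
  obtain ⟨e, he⟩ : ∃ e, e = (1 + ((B + 1) + 2) + 1) * Q0 := ⟨_, rfl⟩
  obtain ⟨c, N₀, h0⟩ := hC Hh e
  obtain ⟨Bt, h1⟩ := tlZ b 20 c hb (by norm_num) (1 + s + 3) (b ^ (e + 1)) 1 ((B + 1) + 2)
  obtain ⟨N1, h1⟩ := h1 (Bt + 3)
  obtain ⟨n2, h2⟩ := lf_main2 τ0 s hs (fun _ => 1) (fun _ => one_ne_zero) Q0 (B + 1) m Bt 1 hQ0 hm ε hε
  obtain ⟨n3, h3⟩ := ev_L' 2
  refine ⟨N₀ + N1 + n2 + n3 + 2, fun A hA X hX a ha => ?_⟩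
  have hX0 : 0 < X := by omega
  have hXM : X ≤ Q0 * X := Nat.le_mul_of_pos_left _ (by omega)
  have hlX := h3 X (by omega)
  obtain ⟨K, hK⟩ : ∃ K, K = Nat.log b X + 1 := ⟨_, rfl⟩
  have hKlow : b ^ (K - 1) ≤ X := by
    rw [hK, Nat.add_sub_cancel]
    exact Nat.pow_log_le_self b (by omega)
  have hKup : X < b ^ K := by rw [hK]; exact Nat.lt_pow_succ_log_self (by omega) _
  have hbe : (1 + ((B + 1) + 2) + 1) * Q0 ≤ b ^ e := by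
    rw [← he]
    exact (Nat.lt_pow_self (by omega)).le
  choose n Ω₀ pr Sf g1 g2 g3 using fun i => h0 (A i) (hA i) X (by omega)
  have h4 := fun i => h1 (Q0 * X) (by omega) (K + e) (by
      calc (1 + ((B + 1) + 2) + 1) * (Q0 * X) = (1 + ((B + 1) + 2) + 1) * Q0 * X := by ring
        _ ≤ b ^ e * b ^ K := Nat.mul_le_mul hbe hKup.le
        _ = _ := by rw [← pow_add, add_comm]) (by
      calc b ^ (K + e) = b ^ (e + 1) * b ^ (K - 1) := by rw [← pow_add]; congr 1; omega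
        _ ≤ b ^ (e + 1) * (Q0 * X) := Nat.mul_le_mul_left _ (hKlow.trans hXM)) (Fin (n i) → ℕ) (Ω₀ i) (fun _ => pr i)
    (fun ω => ∑ x ∈ Sf i ω, x) (by
      have := g2 i
      rw [← hK] at this
      exact this) (g1 i) (fun ω hω => by
      have h5 := (g3 i ω hω).2.2.1
      omega)
  have hval : ∀ i, ∀ v ∈ (Ω₀ i).image (fun ω => ∑ x ∈ Sf i ω, x), ∃ ω ∈ Ω₀ i, v = ∑ x ∈ Sf i ω, x := by
    intro i v hv
    rw [mem_image] at hv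
    obtain ⟨ω, h5, h6⟩ := hv
    exact ⟨ω, h5, h6.symm⟩
  have hp0 : ∀ i, ∀ ω ∈ Ω₀ i, 0 ≤ (fun _ : Fin (n i) → ℕ => pr i) ω := fun i ω hω => (g2 i).nonneg ω hω
  have hp1 : ∀ i, ∑ v ∈ (Ω₀ i).image (fun ω => ∑ x ∈ Sf i ω, x), pf (Ω₀ i) (fun _ => pr i) (fun ω => ∑ x ∈ Sf i ω, x) v = 1 := by
    intro i
    have h5 := pf_one (Ω₀ i) (fun _ => pr i) (g1 i) (fun ω => ∑ x ∈ Sf i ω, x)
    convert h5
  have hmain := h2 X (by omega) a (fun i => (Ω₀ i).image (fun ω => ∑ x ∈ Sf i ω, x))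
    (fun i => pf (Ω₀ i) (fun _ => pr i) (fun ω => ∑ x ∈ Sf i ω, x))
    (fun i => (ha i).trans (by push_cast; nlinarith [(Nat.cast_nonneg X : (0 : ℤ) ≤ X)]))
    (fun i v _ => pf_nonneg _ _ (hp0 i) _ v) hp1
    (fun i v _ => (h4 i).1 v) (fun i v hv => by
      obtain ⟨ω, hω, rfl⟩ := hval i v hv
      have h5 := abs_le_of (a i) 1 X (∑ x ∈ Sf i ω, x) B 1 (ha i) (by
        have h5 := (g3 i ω hω).2.2.1
        omega)
      rw [Int.natAbs_one, mul_one] at h5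
      exact h5) (fun i c' hc' z hz1 hz2 Kc hKc G hG => by
      have h5 := (h4 i).2 c' hc' z hz1 hz2 Kc hKc G hG
      convert h5)
    (fun v => ¬ (GoodL τ0 ε m X Q0 (fun i => a i + 1 * (v i : ℤ)) ∧ Nondeg Q0 (fun i => a i + 1 * (v i : ℤ)))) (fun v _ h => h)
  have hex : ∃ v ∈ Fintype.piFinset (fun i => (Ω₀ i).image (fun ω => ∑ x ∈ Sf i ω, x)),
      GoodL τ0 ε m X Q0 (fun i => a i + 1 * (v i : ℤ)) ∧ Nondeg Q0 (fun i => a i + 1 * (v i : ℤ)) := by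
    by_contra hcon
    push Not at hcon
    have hmain' : ∑ v ∈ Fintype.piFinset (fun i => (Ω₀ i).image (fun ω => ∑ x ∈ Sf i ω, x)),
        ∏ i, pf (Ω₀ i) (fun _ => pr i) (fun ω => ∑ x ∈ Sf i ω, x) (v i) ≤ 1 / Real.log X ^ 1 := by
      refine le_trans (le_of_eq ?_) hmain
      apply sum_congr rfl
      intro v hv
      rw [if_pos]
      rintro ⟨h5, h6⟩
      exact hcon v hv h5 h6
    rw [total_w _ _ hp1, pow_one, le_div_iff₀ (by linarith), one_mul] at hmain'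
    linarith
  obtain ⟨v, hv, hgood⟩ := hex
  choose ω hω hvω using fun i => hval i (v i) (Fintype.mem_piFinset.1 hv i)
  refine ⟨fun i => Sf i (ω i), fun i => (g3 i _ (hω i)).1, fun i => (g3 i _ (hω i)).2.1, fun i => (g3 i _ (hω i)).2.2.2, ?_⟩
  have h5 : (fun i => a i + 1 * (v i : ℤ)) = fun i => a i + ∑ x ∈ Sf i (ω i), (x : ℤ) := by
    funext i
    rw [hvω i, one_mul]
    push_cast
    rfl
  rw [h5] at hgood
  refine ⟨hgood.1, hgood.2, fun i => ?_⟩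
  have h6 := abs_le_of (a i) 1 X (∑ x ∈ Sf i (ω i), x) B 1 (ha i) (by
    have h5 := (g3 i _ (hω i)).2.2.1
    omega)
  rw [Int.natAbs_one, mul_one, one_mul] at h6
  push_cast at h6 ⊢
  exact h6

end Pool.Agent.Q26.PD
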