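import Pool.Agent.Q26.PD.AU
import Pool.Agent.Q26.PD.LF8
import Pool.Agent.Y885.LW

set_option autoImplicit false

/-! Systems of linear forms whose constants are random sums; restricted digits. -/

namespace Pool.Agent.Q26.PD
open Finset
open Pool.Agent.H807R2.Dav
open Pool.Agent.H373R2.T7
open Pool.Agent.W93.DG
open Pool.Agent.W93.RD
open Pool.Agent.Y820.LF
open Pool.Agent.Y885 (Rich rand_law rand_le geo_le)

open Classical in
/-- systems of linear forms whose constants are random sums -/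
theorem lf_rand (τ0 : Bool) (s : ℕ) (hs : 1 ≤ s) (b : Fin s → ℕ) (hb : ∀ i, 2 ≤ b i) (B D : ℕ) (hB : 1 ≤ B) (η δ : ℝ)
    (hη : 0 < η) (hδ : 0 < δ) (Q0 m U : ℕ) (hQ0 : 1 ≤ Q0) (hm : 1 ≤ m) (ε : ℝ) (hε : 0 < ε) :
    ∃ X₀ : ℕ, ∀ X, X₀ ≤ X → ∀ k : Fin s → ℕ, (∀ i, X ≤ B * b i ^ k i ∧ b i ^ k i ≤ B * X) →
      ∀ (J : Fin s → Finset ℕ) (S : Fin s → ℕ → Finset ℤ) (p : Fin s → ℕ → ℤ → ℝ),
      (∀ i, Rich δ D (k i) (J i)) →
      (∀ i, ∀ j < k i, (∀ x ∈ S i j, 0 ≤ p i j x ∧ |x| ≤ (B : ℤ) * (b i : ℤ) ^ j) ∧ ∑ x ∈ S i j, p i j x = 1) →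
      (∀ i, ∀ j ∈ J i, ∀ y : ℤ, ∑ x ∈ S i j, (if y ≤ x ∧ (B : ℤ) * (x - y) ≤ (b i : ℤ) ^ j then p i j x else 0) ≤ 1 - η) →
      ∀ c : Fin s → ℤ, (∀ i, |c i| ≤ (B : ℤ) * X) →
      ∑ x ∈ Fintype.piFinset (fun i => Fintype.piFinset (fun j : Fin (k i) => S i j)),
        (if ¬ (GoodL τ0 ε m X Q0 (fun i => c i + ∑ j, x i j) ∧ Nondeg Q0 (fun i => c i + ∑ j, x i j)) then
          ∏ i, ∏ j : Fin (k i), p i j (x i j) else 0) ≤ 1 / Real.log X ^ U := by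
  obtain ⟨B1, hB1⟩ : ∃ B1, B1 = B + 3 * B ^ 2 := ⟨_, rfl⟩
  choose E hE h0 using fun i => rand_law (b i) (hb i) B D hB η δ hη hδ
  obtain ⟨e, he⟩ : ∃ e, e = (1 + (B1 + 2) + 2 * B ^ 2) * Q0 * B := ⟨_, rfl⟩
  choose c₁ k₀ h0 using fun i => h0 i e (2 * ((U + s + 3) + 1) + 6)
  choose Bt' h1 using fun i => tlZ (b i) (E i) (c₁ i) (hb i) (hE i) (U + s + 3) (b i ^ e * B) (2 * B ^ 2) (B1 + 2)
  obtain ⟨Bt, hBt⟩ : ∃ Bt, Bt = ∑ i, Bt' i := ⟨_, rfl⟩
  have hBi : ∀ i, Bt' i ≤ Bt := fun i => by rw [hBt]; exact single_le_sum (fun _ _ => Nat.zero_le _) (mem_univ i)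
  choose N1 h1 using fun i => h1 i (Bt + 3)
  obtain ⟨Nt, hNt⟩ : ∃ Nt, Nt = ∑ i, (N1 i + B * b i ^ (k₀ i)) := ⟨_, rfl⟩
  have hNi : ∀ i, N1 i + B * b i ^ (k₀ i) ≤ Nt := fun i => by
    rw [hNt]
    exact single_le_sum (f := fun i => N1 i + B * b i ^ (k₀ i)) (fun _ _ => Nat.zero_le _) (mem_univ i)
  obtain ⟨n2, h2⟩ := lf_main2 τ0 s hs (fun _ => 1) (fun _ => one_ne_zero) Q0 B1 m Bt U hQ0 hm ε hε
  refine ⟨Nt + n2 + 3, fun X hX k hk J S p hJ hp hsp c hc => ?_⟩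
  have hX0 : 0 < X := by omega
  have hXM : X ≤ Q0 * X := Nat.le_mul_of_pos_left _ (by omega)
  have hlog1 : 1 ≤ Real.log ((Q0 * X : ℕ) : ℝ) := by
    rw [Real.le_log_iff_exp_le (by exact_mod_cast (by omega : 0 < Q0 * X))]
    have : (3 : ℝ) ≤ ((Q0 * X : ℕ) : ℝ) := by exact_mod_cast (by omega : 3 ≤ Q0 * X)
    linarith [Real.exp_one_lt_d9]
  obtain ⟨T, hT⟩ : ∃ T : Fin s → ℕ, T = fun i => B * b i ^ k i := ⟨_, rfl⟩
  have hTX : ∀ i, T i ≤ B ^ 2 * X := fun i => by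
    rw [hT]
    calc B * b i ^ k i ≤ B * (B * X) := Nat.mul_le_mul_left _ (hk i).2
      _ = _ := by ring
  have habs : ∀ i, ∀ ω ∈ Fintype.piFinset (fun j : Fin (k i) => S i j), |∑ j, ω j| ≤ (T i : ℤ) := by
    intro i ω hω
    rw [Fintype.mem_piFinset] at hω
    have g1 : |∑ j : Fin (k i), ω j| ≤ ∑ j : Fin (k i), (B : ℤ) * (b i : ℤ) ^ (j : ℕ) :=
      (abs_sum_le_sum_abs _ _).trans (sum_le_sum fun j _ => ((hp i j j.2).1 _ (hω j)).2)
    rw [← mul_sum] at g1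
    have g2 := geo_le (b i) (hb i) (k i)
    rw [hT]
    push_cast
    exact g1.trans (mul_le_mul_of_nonneg_left g2 (by positivity))
  obtain ⟨f, hf⟩ : ∃ f : ∀ i, (Fin (k i) → ℤ) → ℕ, f = fun i ω => ((T i : ℤ) + ∑ j, ω j).toNat := ⟨_, rfl⟩
  have hfz : ∀ i, ∀ ω ∈ Fintype.piFinset (fun j : Fin (k i) => S i j), (f i ω : ℤ) = (T i : ℤ) + ∑ j, ω j := by
    intro i ω hω
    have h3 := (abs_le.1 (habs i ω hω)).1
    rw [hf]
    dsimp only
    rw [Int.toNat_of_nonneg (by linarith)]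
  have hfX : ∀ i, ∀ ω ∈ Fintype.piFinset (fun j : Fin (k i) => S i j), f i ω ≤ 2 * B ^ 2 * X := by
    intro i ω hω
    have h3 := (abs_le.1 (habs i ω hω)).2
    have h4 := hfz i ω hω
    have h5 : (f i ω : ℤ) ≤ 2 * (T i : ℤ) := by linarith
    have h6 : f i ω ≤ 2 * T i := by exact_mod_cast h5
    have h7 := hTX i
    calc f i ω ≤ 2 * T i := h6
      _ ≤ 2 * (B ^ 2 * X) := Nat.mul_le_mul_left _ h7
      _ = _ := by ring
  have hlaw : ∀ i, Pool.Agent.Y885.TLaw (b i) (E i) (c₁ i) (2 * ((U + s + 3) + 1) + 6) (k i + e)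
      (Fintype.piFinset (fun j : Fin (k i) => S i j)) (fun ω => ∏ j : Fin (k i), p i j (ω j)) (fun ω => (f i ω : ℤ)) := by
    intro i
    have hki : k₀ i ≤ k i := by
      by_contra hcon
      push Not at hcon
      have h3 : b i ^ k i < b i ^ k₀ i := Nat.pow_lt_pow_right (by have := hb i; omega) hcon
      have h4 := (hk i).1
      have h5 : B * b i ^ k i < B * b i ^ k₀ i := Nat.mul_lt_mul_of_pos_left h3 (by omega)
      have := hNi i
      omega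
    have h3 := h0 i (k i) hki (J i) (S i) (p i) (T i : ℤ) (hJ i) (hp i) (hsp i)
    refine h3.congr ?_
    intro ω hω
    exact hfz i ω hω
  have hsum : ∀ i, ∑ ω ∈ Fintype.piFinset (fun j : Fin (k i) => S i j), ∏ j : Fin (k i), p i j (ω j) = 1 := by
    intro i
    rw [← prod_univ_sum]
    exact prod_eq_one fun j _ => (hp i j j.2).2
  have hbe : ∀ i, (1 + (B1 + 2) + 2 * B ^ 2) * Q0 * B ≤ b i ^ e := fun i => by
    rw [← he]
    exact (Nat.lt_pow_self (by have := hb i; omega)).le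
  have h4 := fun i => h1 i (Q0 * X) (by have := hNi i; omega) (k i + e) (by
      calc (1 + (B1 + 2) + 2 * B ^ 2) * (Q0 * X) = (1 + (B1 + 2) + 2 * B ^ 2) * Q0 * X := by ring
        _ ≤ (1 + (B1 + 2) + 2 * B ^ 2) * Q0 * (B * b i ^ k i) := Nat.mul_le_mul_left _ (hk i).1
        _ = (1 + (B1 + 2) + 2 * B ^ 2) * Q0 * B * b i ^ k i := by ring
        _ ≤ b i ^ e * b i ^ k i := Nat.mul_le_mul_right _ (hbe i)
        _ = _ := by rw [← pow_add, add_comm]) (by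
      calc b i ^ (k i + e) = b i ^ e * b i ^ k i := by rw [← pow_add, add_comm]
        _ ≤ b i ^ e * (B * X) := Nat.mul_le_mul_left _ (hk i).2
        _ = b i ^ e * B * X := by ring
        _ ≤ b i ^ e * B * (Q0 * X) := Nat.mul_le_mul_left _ hXM) (Fin (k i) → ℤ) (Fintype.piFinset (fun j : Fin (k i) => S i j))
    (fun ω => ∏ j : Fin (k i), p i j (ω j)) (f i) (hlaw i) (hsum i) (fun ω hω => (hfX i ω hω).trans (Nat.mul_le_mul_left _ hXM))
  have hval : ∀ i, ∀ v ∈ (Fintype.piFinset (fun j : Fin (k i) => S i j)).image (f i),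
      ∃ ω ∈ Fintype.piFinset (fun j : Fin (k i) => S i j), v = f i ω := by
    intro i v hv
    rw [mem_image] at hv
    obtain ⟨ω, h5, h6⟩ := hv
    exact ⟨ω, h5, h6.symm⟩
  have hp0 : ∀ i, ∀ ω ∈ Fintype.piFinset (fun j : Fin (k i) => S i j), 0 ≤ ∏ j : Fin (k i), p i j (ω j) := by
    intro i ω hω
    rw [Fintype.mem_piFinset] at hω
    exact prod_nonneg fun j _ => ((hp i j j.2).1 _ (hω j)).1
  have hp1 : ∀ i, ∑ v ∈ (Fintype.piFinset (fun j : Fin (k i) => S i j)).image (f i),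
      pf (Fintype.piFinset (fun j : Fin (k i) => S i j)) (fun ω => ∏ j : Fin (k i), p i j (ω j)) (f i) v = 1 := by
    intro i
    have h5 := pf_one (Fintype.piFinset (fun j : Fin (k i) => S i j)) _ (hsum i) (f i)
    convert h5
  have hc1 : ∀ i, |c i - (T i : ℤ)| ≤ ((B + B ^ 2 : ℕ) : ℤ) * X := fun i => by
    have g1 := abs_sub (c i) (T i : ℤ)
    have g2 : |(T i : ℤ)| ≤ ((B ^ 2 : ℕ) : ℤ) * X := by
      rw [abs_of_nonneg (by positivity)]
      exact_mod_cast hTX i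
    have g3 := hc i
    push_cast at g2 ⊢
    nlinarith
  have hmain := h2 X (by omega) (fun i => c i - (T i : ℤ)) (fun i => (Fintype.piFinset (fun j : Fin (k i) => S i j)).image (f i))
    (fun i => pf (Fintype.piFinset (fun j : Fin (k i) => S i j)) (fun ω => ∏ j : Fin (k i), p i j (ω j)) (f i))
    (fun i => (hc1 i).trans (by
      rw [hB1]
      exact_mod_cast Nat.mul_le_mul_right X (by nlinarith : B + B ^ 2 ≤ B + 3 * B ^ 2)))
    (fun i v _ => pf_nonneg _ _ (hp0 i) _ v) hp1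
    (fun i v _ => (h4 i).1 v) (fun i v hv => by
      obtain ⟨ω, hω, rfl⟩ := hval i v hv
      have h5 := abs_le_of (c i - (T i : ℤ)) 1 X (f i ω) (B + B ^ 2) (2 * B ^ 2) (hc1 i) (hfX i ω hω)
      refine h5.trans ?_
      rw [hB1, Int.natAbs_one]
      exact_mod_cast Nat.mul_le_mul_right X (by nlinarith : B + B ^ 2 + 1 * (2 * B ^ 2) ≤ B + 3 * B ^ 2))
    (fun i c' hc' z hz1 hz2 Kc hKc G hG => by
      have h5 := (h4 i).2 c' hc' z ((pow_le_pow_right₀ hlog1 (hBi i)).trans hz1) hz2 Kc hKc G hG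
      convert h5)
    (fun v => ¬ (GoodL τ0 ε m X Q0 (fun i => c i - (T i : ℤ) + 1 * (v i : ℤ)) ∧
      Nondeg Q0 (fun i => c i - (T i : ℤ) + 1 * (v i : ℤ)))) (fun v _ h => h)
  have h5 := pf_pi (fun i => Fin (k i) → ℤ) (fun i => Fintype.piFinset (fun j : Fin (k i) => S i j))
    (fun i ω => ∏ j : Fin (k i), p i j (ω j)) f
    (fun v => ¬ (GoodL τ0 ε m X Q0 (fun i => c i - (T i : ℤ) + 1 * (v i : ℤ)) ∧
      Nondeg Q0 (fun i => c i - (T i : ℤ) + 1 * (v i : ℤ))))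
  refine le_trans (le_of_eq ?_) (h5.symm.le.trans (le_trans (le_of_eq ?_) hmain))
  · apply sum_congr rfl
    intro x hx
    rw [Fintype.mem_piFinset] at hx
    have hH : (fun i => c i - (T i : ℤ) + 1 * (f i (x i) : ℤ)) = fun i => c i + ∑ j, x i j := by
      funext i
      rw [hfz i (x i) (hx i)]
      ring
    simp only [hH]
  · apply sum_congr _ _
    · congr 1
    · intro x _
      split_ifs <;> rfl

end Pool.Agent.Q26.PD
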