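import Pool.Agent.Q26.PD.RS

set_option autoImplicit false

/-! Systems of linear forms whose constants are integers with restricted digits. -/

namespace Pool.Agent.Q26.PD
open Finset
open Pool.Agent.H807R2.Dav
open Pool.Agent.H373R2.T7
open Pool.Agent.W93.DG
open Pool.Agent.W93.RD
open Pool.Agent.Y820.LF
open Pool.Agent.Y885 (Rich)

lemma dig_sum (b k n : ℕ) : ∑ j ∈ range k, (n / b ^ j % b) * b ^ j = n % b ^ k := by
  induction k with
  | zero => simp [Nat.mod_one]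
  | succ k ih =>
    rw [sum_range_succ, ih, Nat.mod_pow_succ]
    ring

open Classical in
/-- systems of linear forms whose constants have restricted and prescribed digits -/
theorem lf_digits (τ0 : Bool) (s : ℕ) (hs : 1 ≤ s) (b : Fin s → ℕ) (hb : ∀ i, 2 ≤ b i) (B D : ℕ) (hB : 1 ≤ B) (δ : ℝ)
    (hδ : 0 < δ) (Q0 m U : ℕ) (hQ0 : 1 ≤ Q0) (hm : 1 ≤ m) (ε : ℝ) (hε : 0 < ε) :
    ∃ X₀ : ℕ, ∀ X, X₀ ≤ X → ∀ k : Fin s → ℕ, (∀ i, X ≤ B * b i ^ k i ∧ b i ^ k i ≤ B * X) →
      ∀ (J : Fin s → Finset ℕ) (A : Fin s → ℕ → Finset ℕ),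
      (∀ i, Rich δ D (k i) (J i)) → (∀ i, ∀ j < k i, (A i j).Nonempty ∧ ∀ a ∈ A i j, a < b i) →
      (∀ i, ∀ j ∈ J i, 2 ≤ (A i j).card) →
      ∀ c : Fin s → ℤ, (∀ i, |c i| ≤ (B : ℤ) * X) →
      (((Fintype.piFinset (fun i => (range (b i ^ k i)).filter (fun n => ∀ j < k i, n / b i ^ j % b i ∈ A i j))).filter
        (fun v => ¬ (GoodL τ0 ε m X Q0 (fun i => c i + (v i : ℤ)) ∧ Nondeg Q0 (fun i => c i + (v i : ℤ))))).card : ℝ) ≤
        (∏ i, ∏ j ∈ range (k i), ((A i j).card : ℝ)) / Real.log X ^ U := by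
  obtain ⟨B', hB'⟩ : ∃ B', B' = B + ∑ i, b i := ⟨_, rfl⟩
  have hBB : B ≤ B' := by omega
  have hbB : ∀ i, b i ≤ B' := fun i => by
    have : b i ≤ ∑ i, b i := single_le_sum (fun _ _ => Nat.zero_le _) (mem_univ i)
    omega
  obtain ⟨X₀, hmain⟩ := lf_rand τ0 s hs b hb B' D (by omega) (1 / 2) δ (by norm_num) hδ Q0 m U hQ0 hm ε hε
  refine ⟨X₀ + 2, fun X hX k hk J A hJ hA hAJ c hc => ?_⟩
  obtain ⟨S, hS⟩ : ∃ S : Fin s → ℕ → Finset ℤ, S = fun i j => (A i j).image (fun a : ℕ => (a : ℤ) * (b i : ℤ) ^ j) := ⟨_, rfl⟩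
  obtain ⟨p, hp⟩ : ∃ p : Fin s → ℕ → ℤ → ℝ, p = fun i j _ => 1 / ((A i j).card : ℝ) := ⟨_, rfl⟩
  have hb0 : ∀ i, 0 < b i := fun i => by have := hb i; omega
  have hbz : ∀ i, ∀ j : ℕ, (0 : ℤ) < (b i : ℤ) ^ j := fun i j => by
    have := hb0 i
    positivity
  have hinj : ∀ i, ∀ j : ℕ, Function.Injective (fun a : ℕ => (a : ℤ) * (b i : ℤ) ^ j) := by
    intro i j x y hxy
    have := mul_right_cancel₀ (hbz i j).ne' hxy
    exact_mod_cast this
  have hA0 : ∀ i, ∀ j < k i, (0 : ℝ) < (A i j).card := fun i j hj => by exact_mod_cast card_pos.2 (hA i j hj).1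
  have h1 := hmain X (by omega) k (fun i => ⟨(hk i).1.trans (Nat.mul_le_mul_right _ hBB), (hk i).2.trans (Nat.mul_le_mul_right _ hBB)⟩)
    J S p hJ (by
      intro i j hj
      constructor
      · intro x hx
        rw [hp]
        refine ⟨by positivity, ?_⟩
        rw [hS] at hx
        obtain ⟨a, ha, rfl⟩ := mem_image.1 hx
        have h1 := (hA i j hj).2 a ha
        rw [abs_of_nonneg (by positivity)]
        apply mul_le_mul_of_nonneg_right _ (by positivity)
        exact_mod_cast h1.le.trans (hbB i)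
      · rw [hS, hp]
        simp only
        rw [sum_image (fun x _ y _ h => hinj i j h), sum_const, nsmul_eq_mul]
        have := hA0 i j hj
        field_simp) (by
      intro i j hj y
      have h2 : (2 : ℝ) ≤ (A i j).card := by exact_mod_cast hAJ i j hj
      rw [hS, hp]
      simp only
      rw [← sum_filter, sum_const, nsmul_eq_mul]
      have h3 : (((A i j).image (fun a : ℕ => (a : ℤ) * (b i : ℤ) ^ j)).filter (fun x => y ≤ x ∧ (B' : ℤ) * (x - y) ≤ (b i : ℤ) ^ j)).card ≤ 1 := by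
        rw [card_le_one]
        intro x hx x' hx'
        rw [mem_filter] at hx hx'
        obtain ⟨a, _, rfl⟩ := mem_image.1 hx.1
        obtain ⟨a', _, rfl⟩ := mem_image.1 hx'.1
        have hbj := hbz i j
        have h2b : (2 : ℤ) ≤ B' := by
          have := (hb i).trans (hbB i)
          exact_mod_cast this
        have key : ∀ u v : ℕ, y ≤ (u : ℤ) * (b i : ℤ) ^ j → (B' : ℤ) * ((v : ℤ) * (b i : ℤ) ^ j - y) ≤ (b i : ℤ) ^ j → v ≤ u := by
          intro u v h4 h5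
          by_contra hcon
          push Not at hcon
          have h6 : (u : ℤ) + 1 ≤ v := by exact_mod_cast hcon
          have h7 : ((u : ℤ) + 1) * (b i : ℤ) ^ j ≤ v * (b i : ℤ) ^ j := mul_le_mul_of_nonneg_right h6 hbj.le
          have h8 : (b i : ℤ) ^ j ≤ (v : ℤ) * (b i : ℤ) ^ j - y := by linarith
          have h9 : (B' : ℤ) * (b i : ℤ) ^ j ≤ (B' : ℤ) * ((v : ℤ) * (b i : ℤ) ^ j - y) := mul_le_mul_of_nonneg_left h8 (by positivity)
          nlinarith
        have h4 := key a a' hx.2.1 hx'.2.2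
        have h5 := key a' a hx'.2.1 hx.2.2
        rw [le_antisymm h4 h5]
      have h4 : ((((A i j).image (fun a : ℕ => (a : ℤ) * (b i : ℤ) ^ j)).filter (fun x => y ≤ x ∧ (B' : ℤ) * (x - y) ≤ (b i : ℤ) ^ j)).card : ℝ) ≤ 1 := by
        exact_mod_cast h3
      have h5 : 1 / ((A i j).card : ℝ) ≤ 1 / 2 := one_div_le_one_div_of_le (by norm_num) h2
      have h6 : 0 ≤ 1 / ((A i j).card : ℝ) := by positivity
      nlinarith) c (fun i => (hc i).trans (by exact_mod_cast Nat.mul_le_mul_right X hBB))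
  -- from the integers to the digits
  obtain ⟨Q, hQ⟩ : ∃ Q, Q = (Fintype.piFinset (fun i => (range (b i ^ k i)).filter (fun n => ∀ j < k i, n / b i ^ j % b i ∈ A i j))).filter
        (fun v => ¬ (GoodL τ0 ε m X Q0 (fun i => c i + (v i : ℤ)) ∧ Nondeg Q0 (fun i => c i + (v i : ℤ)))) := ⟨_, rfl⟩
  rw [← hQ]
  obtain ⟨ph, hph⟩ : ∃ ph : (Fin s → ℕ) → (∀ i : Fin s, Fin (k i) → ℤ), ph = fun (v : Fin s → ℕ) (i : Fin s) (j : Fin (k i)) => ((v i / b i ^ (j : ℕ) % b i : ℕ) : ℤ) * (b i : ℤ) ^ (j : ℕ) := ⟨_, rfl⟩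
  have hQm : ∀ v ∈ Q, (∀ i, v i < b i ^ k i ∧ ∀ j < k i, v i / b i ^ j % b i ∈ A i j) ∧
      ¬ (GoodL τ0 ε m X Q0 (fun i => c i + (v i : ℤ)) ∧ Nondeg Q0 (fun i => c i + (v i : ℤ))) := by
    intro v hv
    rw [hQ, mem_filter, Fintype.mem_piFinset] at hv
    refine ⟨fun i => ?_, hv.2⟩
    have := hv.1 i
    rw [mem_filter, mem_range] at this
    exact this
  have hphs : ∀ v : Fin s → ℕ, (∀ i, v i < b i ^ k i) → ∀ i, ∑ j : Fin (k i), ph v i j = (v i : ℤ) := by
    intro v hv i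
    have h1 := dig_sum (b i) (k i) (v i)
    rw [Nat.mod_eq_of_lt (hv i)] at h1
    rw [hph]
    simp only
    rw [Fin.sum_univ_eq_sum_range (fun j => ((v i / b i ^ j % b i : ℕ) : ℤ) * (b i : ℤ) ^ j) (k i)]
    have h2 : ((∑ j ∈ range (k i), v i / b i ^ j % b i * b i ^ j : ℕ) : ℤ) = (v i : ℤ) := by
      exact_mod_cast h1
    rw [← h2]
    push_cast
    rfl
  have hphmem : ∀ v ∈ Q, ph v ∈ Fintype.piFinset (fun i => Fintype.piFinset (fun j : Fin (k i) => S i j)) := by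
    intro v hv
    rw [Fintype.mem_piFinset]
    intro i
    rw [Fintype.mem_piFinset]
    intro j
    rw [hph, hS]
    exact mem_image_of_mem _ (((hQm v hv).1 i).2 j j.2)
  have hphinj : Set.InjOn ph (Q : Set (Fin s → ℕ)) := by
    intro v hv w hw hvw
    funext i
    have e1 := hphs v (fun i => ((hQm v hv).1 i).1) i
    have e2 := hphs w (fun i => ((hQm w hw).1 i).1) i
    rw [hvw] at e1
    exact_mod_cast (e1.symm.trans e2)
  obtain ⟨W, hW⟩ : ∃ W : ℝ, W = ∏ i, ∏ j ∈ range (k i), ((A i j).card : ℝ) := ⟨_, rfl⟩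
  have hW0 : 0 < W := by
    rw [hW]
    exact prod_pos fun i _ => prod_pos fun j hj => hA0 i j (mem_range.1 hj)
  have hWp : ∀ x : ∀ i : Fin s, Fin (k i) → ℤ, ∏ i, ∏ j : Fin (k i), p i j (x i j) = 1 / W := by
    intro x
    rw [hp, hW]
    simp only
    rw [one_div, ← prod_inv_distrib]
    apply prod_congr rfl
    intro i _
    rw [← prod_inv_distrib, ← Fin.prod_univ_eq_prod_range (fun j => ((A i j).card : ℝ)⁻¹) (k i)]
    simp only [one_div]
  rw [← hW]
  have hlow : (Q.card : ℝ) * (1 / W) ≤ 1 / Real.log X ^ U := by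
    refine le_trans ?_ h1
    calc (Q.card : ℝ) * (1 / W) = ∑ v ∈ Q, (1 / W) := by rw [sum_const, nsmul_eq_mul]
      _ = ∑ x ∈ Q.image ph, (1 / W) := by rw [sum_image hphinj]
      _ ≤ ∑ x ∈ Q.image ph, (if ¬ (GoodL τ0 ε m X Q0 (fun i => c i + ∑ j, x i j) ∧ Nondeg Q0 (fun i => c i + ∑ j, x i j)) then
            ∏ i, ∏ j : Fin (k i), p i j (x i j) else 0) := by
          apply sum_le_sum
          intro x hx
          obtain ⟨v, hv, rfl⟩ := mem_image.1 hx
          have e1 : (fun i => c i + ∑ j, ph v i j) = fun i => c i + (v i : ℤ) := by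
            funext i
            rw [hphs v (fun i => ((hQm v hv).1 i).1) i]
          rw [if_pos, hWp]
          rw [e1]
          exact (hQm v hv).2
      _ ≤ _ := by
          apply sum_le_sum_of_subset_of_nonneg
          · intro x hx
            obtain ⟨v, hv, rfl⟩ := mem_image.1 hx
            exact hphmem v hv
          · intro x _ _
            split_ifs
            · exact le_rfl
            · rw [hWp]
              positivity
  rw [mul_one_div, div_le_iff₀ hW0] at hlow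
  refine hlow.trans (le_of_eq ?_)
  ring

end Pool.Agent.Q26.PD
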