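import Pool.Agent.Q26.PD.AU
import Pool.Agent.Q26.PD.LF8
import Pool.Agent.TH935.TG2

set_option autoImplicit false

/-! Prime tuples at the elements of arbitrary sets, with random shifts. -/

namespace Pool.Agent.Q26.PD
open Finset
open Pool.Agent.H373R2.T7
open Pool.Agent.W93.TD (tele_w avg_w total_w)
open Pool.Agent.TH935.TG (cnM WtM convM rgM sum_mdl)
open Pool.Agent.TH935.TF (LL mdl)

/-- the difference of the product and its model over a set of arguments -/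
noncomputable def DM {s : ℕ} (z N : ℕ) (M : Finset ℕ) (H : Fin s → ℤ) : ℝ :=
  |∑ n ∈ Icc 1 N, (if n ∈ M then (1 : ℝ) else 0) * (∏ i, lamI ((n : ℤ) + H i) - ∏ i, lamzI z ((n : ℤ) + H i))|

theorem dm_avg {s : ℕ} (N A z U : ℕ) (κ c : Fin s → ℤ) (Ω : Fin s → Finset ℕ) (p : Fin s → ℕ → ℝ)
    (hp0 : ∀ i, ∀ v ∈ Ω i, 0 ≤ p i v) (hp1 : ∀ i, ∑ v ∈ Ω i, p i v = 1)
    (hA : ∀ i, ∀ v ∈ Ω i, ∀ n ∈ Icc 1 N, (n : ℤ) + (c i + κ i * (v : ℤ)) ≤ ((A * N : ℕ) : ℤ))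
    (hone : ∀ i, ∀ K : ℝ, 0 < K → ∀ G : ℕ → ℝ, (∀ n ∈ Icc 1 N, |G n| ≤ K) →
      ∑ v ∈ Ω i, p i v * |∑ n ∈ Icc 1 N, G n * (lamI ((n : ℤ) + (c i + κ i * (v : ℤ))) -
        lamzI z ((n : ℤ) + (c i + κ i * (v : ℤ))))| ≤ K * (N / Real.log N ^ (U + s + 1)))
    (hN : 1 ≤ N) (hA1 : 1 ≤ A) (hL1 : 1 ≤ Real.log N) (hLA : Real.log (A : ℝ) ≤ Real.log N)
    (hbig : (s : ℝ) * 2 ^ s ≤ Real.log N) (hV : (Vz z)⁻¹ ≤ Real.log N) (M : Finset ℕ) :
    ∑ m ∈ Fintype.piFinset Ω, (∏ i, p i (m i)) * DM z N M (fun i => c i + κ i * (m i : ℤ)) ≤ N / Real.log N ^ U := by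
  classical
  obtain ⟨L, hL⟩ : ∃ L, L = Real.log (N : ℝ) := ⟨_, rfl⟩
  rw [← hL] at hL1 hLA hbig hV ⊢
  simp only [← hL] at hone
  have hL0 : 0 < L := by linarith
  have hM0 : (0 : ℝ) < N := by exact_mod_cast hN
  have hA0 : (0 : ℝ) < A := by exact_mod_cast hA1
  have hX1 : 1 ≤ A * N := Nat.mul_pos (by omega) hN
  have hlogX : Real.log ((A * N : ℕ) : ℝ) ≤ 2 * L := by
    rw [Nat.cast_mul, Real.log_mul hA0.ne' hM0.ne', ← hL]
    linarith
  have key := tele_w N Ω p hp0 hp1 (fun i n v => lamI ((n : ℤ) + (c i + κ i * (v : ℤ))))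
    (fun i n v => lamzI z ((n : ℤ) + (c i + κ i * (v : ℤ))))
    (2 * L) ((N : ℝ) / L ^ (U + s + 1)) (by linarith) (by positivity) (by
      intro i n hn v hv
      rw [abs_of_nonneg (lamI_nonneg _)]
      refine (lamI_le _ ((A * N : ℕ) : ℝ) (by exact_mod_cast hX1) ?_).trans hlogX
      exact_mod_cast hA i v hv n hn) (by
      intro i n hn v hv
      rw [abs_of_nonneg (lamzI_nonneg _ _)]
      exact (lamzI_le z _).trans (by linarith)) hone
    univ 1 one_pos (fun n _ => if n ∈ M then (1 : ℝ) else 0) (by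
      intro n hn m _
      split_ifs <;> simp) (by
      intro n m v i _; rfl)
  rw [card_univ, Fintype.card_fin] at key
  refine le_trans (le_of_eq ?_) (key.trans ?_)
  · rfl
  calc (s : ℝ) * (1 * (2 * L) ^ s * (N / L ^ (U + s + 1))) = ((s : ℝ) * 2 ^ s) * (N / L ^ U * (L ^ s / L ^ (s + 1))) := by
        rw [mul_pow, show U + s + 1 = U + (s + 1) by ring, pow_add L U]
        field_simp
    _ ≤ L * (N / L ^ U * (L ^ s / L ^ (s + 1))) := mul_le_mul_of_nonneg_right hbig (by positivity)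
    _ = N / L ^ U := by
        rw [pow_succ L s]
        field_simp

open Classical in
/-- the number of the elements `n` of `M` for which all `n + a i` are (positive) primes -/
noncomputable def cntA {k : ℕ} (a : Fin k → ℤ) (M : Finset ℕ) : ℕ :=
  (M.filter (fun n : ℕ => ∀ i, 1 ≤ (n : ℤ) + a i ∧ ((n : ℤ) + a i).toNat.Prime)).card

open Classical in
/-- the number of the elements `n` of `M` for which all `n + a i` are positive and free of primes `≤ z` -/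
noncomputable def rghA {k : ℕ} (a : Fin k → ℤ) (z : ℕ) (M : Finset ℕ) : ℕ :=
  (M.filter (fun n : ℕ => ∀ i, 1 ≤ (n : ℤ) + a i ∧ ∀ p ∈ pz z, ¬ (p : ℤ) ∣ (n : ℤ) + a i)).card

/-- the expected proportion of the rough tuples are prime tuples -/
def OkA (ε : ℝ) (K N z : ℕ) (M : Finset ℕ) {k : ℕ} (a : Fin k → ℤ) : Prop :=
  (N : ℝ) / Real.log N ^ K ≤ rghA a z M →
    |(cntA a M : ℝ) - rghA a z M / (Vz z * Real.log N) ^ k| ≤ ε * (rghA a z M / (Vz z * Real.log N) ^ k)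

lemma lamI_pos (m : ℤ) (h : 1 ≤ m) : lamI m = LL m := by
  unfold lamI LL
  rw [if_pos h]
  congr 1
  omega

lemma lamI_neg (m : ℤ) (h : ¬ 1 ≤ m) : lamI m = 0 := by
  unfold lamI
  rw [if_neg h]

lemma lamzI_pos (z : ℕ) (m : ℤ) (h : 1 ≤ m) : lamzI z m = mdl z m := by
  unfold lamzI mdl lamz
  rw [if_pos h]
  have e3 : m.toNat = m.natAbs := by omega
  rw [e3]
  have e4 : (∀ p ∈ pz z, ¬ p ∣ m.natAbs) ↔ (∀ p ∈ pz z, ¬ (p : ℤ) ∣ m) := by
    apply forall_congr'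
    intro p
    rw [Int.natCast_dvd]
  by_cases h5 : ∀ p ∈ pz z, ¬ (p : ℤ) ∣ m
  · rw [if_pos h5, if_pos (e4.2 h5)]
  · rw [if_neg h5, if_neg (fun h => h5 (e4.1 h))]

lemma lamzI_neg (z : ℕ) (m : ℤ) (h : ¬ 1 ≤ m) : lamzI z m = 0 := by
  unfold lamzI
  rw [if_neg h]

theorem det_arg (k A B : ℕ) (hk : 1 ≤ k) (hB : 1 ≤ B) (ε : ℝ) (hε : 0 < ε) : ∃ N0 : ℕ, ∀ N : ℕ, N0 ≤ N → ∀ z : ℕ,
    ∀ a : Fin k → ℤ, (∀ i, |a i| ≤ (B : ℤ) * N) → ∀ M : Finset ℕ, M ⊆ Icc 1 N →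
    DM z N M a ≤ N / Real.log N ^ (A + 1) → OkA ε A N z M a := by
  classical
  obtain ⟨N0, h0⟩ := convM k A B 0 hk ε hε
  refine ⟨N0, fun N hN z a ha M hM hD hR => ?_⟩
  obtain ⟨M', hM'⟩ : ∃ M', M' = M.filter (fun n : ℕ => ∀ i, 1 ≤ (n : ℤ) + a i) := ⟨_, rfl⟩
  have e1 : cntA a M = cnM (fun _ => 1) a M' := by
    unfold cntA cnM
    rw [hM', filter_filter]
    congr 1
    apply filter_congr
    intro n _
    simp only [one_mul]
    constructor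
    · intro h
      refine ⟨fun i => (h i).1, fun i => ?_⟩
      have e3 : ((n : ℤ) + a i).natAbs = ((n : ℤ) + a i).toNat := by have := (h i).1; omega
      rw [e3]
      exact (h i).2
    · intro h i
      refine ⟨h.1 i, ?_⟩
      have e3 : ((n : ℤ) + a i).natAbs = ((n : ℤ) + a i).toNat := by have := h.1 i; omega
      rw [← e3]
      exact h.2 i
  have e2 : rghA a z M = rgM (fun _ => 1) a z M' := by
    unfold rghA rgM
    rw [hM', filter_filter]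
    congr 1
    apply filter_congr
    intro n _
    simp only [one_mul]
    exact ⟨fun h => ⟨fun i => (h i).1, fun i => (h i).2⟩, fun h i => ⟨h.1 i, h.2 i⟩⟩
  have e3 : ∑ n ∈ Icc 1 N, (if n ∈ M then (1 : ℝ) else 0) * (∏ i, lamI ((n : ℤ) + a i) - ∏ i, lamzI z ((n : ℤ) + a i)) =
      WtM (fun _ => 1) a M' - (Vz z)⁻¹ ^ k * rgM (fun _ => 1) a z M' := by
    rw [← sum_mdl]
    unfold WtM
    rw [← sum_sub_distrib]
    simp only [ite_mul, one_mul, zero_mul]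
    rw [sum_ite_mem, inter_eq_right.2 hM, hM', sum_filter]
    apply sum_congr rfl
    intro n _
    split_ifs with h
    · congr 1
      · exact prod_congr rfl fun i _ => lamI_pos _ (h i)
      · exact prod_congr rfl fun i _ => lamzI_pos z _ (h i)
    · push Not at h
      obtain ⟨i, hi⟩ := h
      rw [prod_eq_zero (mem_univ i) (lamI_neg _ (by omega)), prod_eq_zero (mem_univ i) (lamzI_neg z _ (by omega)), sub_zero]
  unfold DM at hD
  rw [e3] at hD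
  rw [e1, e2]
  rw [e2] at hR
  have hsub : M' ⊆ Ioc 0 (B * N) := by
    intro n hn
    rw [hM', mem_filter] at hn
    have h1 := mem_Icc.1 (hM hn.1)
    rw [mem_Ioc]
    refine ⟨by omega, h1.2.trans (Nat.le_mul_of_pos_left _ (by omega))⟩
  have hβ : ∀ i, (a i).natAbs ≤ B * N := by
    intro i
    have : ((a i).natAbs : ℤ) ≤ ((B * N : ℕ) : ℤ) := by rw [Int.natCast_natAbs]; push_cast; exact ha i
    exact_mod_cast this
  have hVinv : 1 ≤ (Vz z)⁻¹ ^ k := one_le_pow₀ ((one_le_inv₀ (Vz_pos z)).2 (Vz_le_one z))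
  have hR0 : (0 : ℝ) ≤ rgM (fun _ : Fin k => (1 : ℤ)) a z M' := Nat.cast_nonneg _
  have h6 := h0 N hN (fun _ => 1) a (fun _ => one_ne_zero) (fun _ => by simp) hβ M' hsub
    ((Vz z)⁻¹ ^ k * rgM (fun _ => 1) a z M') (hR.trans (le_mul_of_one_le_left hR0 hVinv)) hD
  have e4 : (Vz z)⁻¹ ^ k * (rgM (fun _ : Fin k => (1 : ℤ)) a z M' : ℝ) / Real.log N ^ k =
      rgM (fun _ : Fin k => (1 : ℤ)) a z M' / (Vz z * Real.log N) ^ k := by
    have := (Vz_pos z).ne'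
    rw [mul_pow, inv_pow]
    field_simp
  rw [e4] at h6
  exact h6

theorem ar_main (k : ℕ) (hk : 1 ≤ k) (κ : Fin k → ℤ) (B T K Bt E U : ℕ) (hB : 1 ≤ B) (hE : Bt + 1 ≤ E) (ε : ℝ) (hε : 0 < ε) :
    ∃ n0 : ℕ, ∀ N : ℕ, n0 ≤ N → ∀ m : ℕ, (m : ℝ) ≤ Real.log N ^ T → ∀ 𝒩 : Fin m → Finset ℕ, (∀ l, 𝒩 l ⊆ Icc 1 N) →
    ∀ (c : Fin k → ℤ) (Ω : Fin k → Finset ℕ) (p : Fin k → ℕ → ℝ),
    (∀ i, |c i| ≤ (B : ℤ) * N) → (∀ i, ∀ v ∈ Ω i, 0 ≤ p i v) → (∀ i, ∑ v ∈ Ω i, p i v = 1) →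
    (∀ i, ∀ v ∈ Ω i, |c i + κ i * (v : ℤ)| ≤ (B : ℤ) * N) →
    (∀ i, OneZ N (U + T + K + 1 + k + 1) Bt E B (κ i) (Ω i) (p i)) →
    ∀ Bad : (Fin k → ℕ) → Prop, [DecidablePred Bad] →
    (∀ v ∈ Fintype.piFinset Ω, Bad v → ∃ l, ¬ OkA ε K N ⌊Real.log N ^ E⌋₊ (𝒩 l) (fun i => c i + κ i * (v i : ℤ))) →
    ∑ v ∈ Fintype.piFinset Ω, (if Bad v then ∏ i, p i (v i) else 0) ≤ 1 / Real.log N ^ U := by
  obtain ⟨n1, h1⟩ := det_arg k K B hk hB ε hε
  obtain ⟨n3, h3⟩ := Vz_inv_small E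
  obtain ⟨n4, h4⟩ := ev_L' (2 + (k : ℝ) * 2 ^ k + Real.log ((B + 1 : ℕ) : ℝ))
  refine ⟨n1 + n3 + n4 + 2, fun N hN m hm 𝒩 h𝒩 c Ω p hc hp0 hp1 hpA hone Bad _ hBad => ?_⟩
  have hL := h4 N (by omega)
  obtain ⟨L, hLdef⟩ : ∃ L, L = Real.log (N : ℝ) := ⟨_, rfl⟩
  have q0 : 0 ≤ Real.log ((B + 1 : ℕ) : ℝ) := Real.log_natCast_nonneg _
  have q1 : 0 ≤ (k : ℝ) * 2 ^ k := by positivity
  rw [← hLdef] at hL
  have hL2 : 2 ≤ L := by linarith
  have hL1 : 1 ≤ L := by linarith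
  have hL0 : 0 < L := by linarith
  have hN0 : (0 : ℝ) < N := by exact_mod_cast (by omega : 0 < N)
  obtain ⟨z, hz⟩ : ∃ z, z = ⌊Real.log N ^ E⌋₊ := ⟨_, rfl⟩
  rw [← hz] at hBad
  have hz2 : (z : ℝ) ≤ L ^ E := by rw [hz, hLdef]; exact Nat.floor_le (by rw [← hLdef]; positivity)
  have hz1 : L ^ Bt ≤ z := by
    have e1 : L ^ E < z + 1 := by rw [hz, hLdef]; exact Nat.lt_floor_add_one _
    have e3 : L ^ (Bt + 1) ≤ L ^ E := pow_le_pow_right₀ hL1 hE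
    have e4 : L ^ (Bt + 1) = L ^ Bt * L := pow_succ _ _
    have e5 : 1 ≤ L ^ Bt := one_le_pow₀ hL1
    nlinarith
  have hzn : 1 ≤ z := by
    have : (1 : ℝ) ≤ z := (one_le_pow₀ hL1).trans hz1
    exact_mod_cast this
  have hV := h3 N (by omega) z hzn (by rw [← hLdef]; exact hz2)
  obtain ⟨P, hP⟩ : ∃ P : (Fin k → ℕ) → ℝ, P = fun v => ∏ i, p i (v i) := ⟨_, rfl⟩
  have hPv : ∀ v, ∏ i, p i (v i) = P v := fun v => by rw [hP]
  have havg : ∀ l, ∑ v ∈ Fintype.piFinset Ω, P v * DM z N (𝒩 l) (fun i => c i + κ i * (v i : ℤ)) ≤ N / L ^ (U + T + K + 1) := by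
    intro l
    have h5 := dm_avg N (B + 1) z (U + T + K + 1) κ c Ω p hp0 hp1 (by
      intro i v hv n hn
      rw [mem_Icc] at hn
      have h7 := le_of_abs_le (hpA i v hv)
      have h8 : (n : ℤ) ≤ N := by exact_mod_cast hn.2
      push_cast
      linarith) (fun i K' hK' G hG => hone i (c i) (hc i) z (by rw [← hLdef]; exact hz1) (by rw [← hLdef]; exact hz2) K' hK' G hG)
      (by omega) (by omega) (by rw [← hLdef]; exact hL1) (by rw [← hLdef]; linarith) (by rw [← hLdef]; linarith) hV (𝒩 l)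
    rw [← hLdef] at h5
    rw [hP]
    exact h5
  have hP0 : ∀ v ∈ Fintype.piFinset Ω, 0 ≤ P v := by
    intro v hv
    rw [hP]
    exact prod_nonneg fun i _ => hp0 i _ (Fintype.mem_piFinset.1 hv i)
  have hδ : 0 < (N : ℝ) / L ^ (K + 1) := by positivity
  have hpt : ∀ v ∈ Fintype.piFinset Ω, (if Bad v then ∏ i, p i (v i) else 0) ≤
      ∑ l, 1 / ((N : ℝ) / L ^ (K + 1)) * (P v * DM z N (𝒩 l) (fun i => c i + κ i * (v i : ℤ))) := by
    intro v hv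
    have hD0 : ∀ l, 0 ≤ 1 / ((N : ℝ) / L ^ (K + 1)) * (P v * DM z N (𝒩 l) (fun i => c i + κ i * (v i : ℤ))) := by
      intro l
      have := hP0 v hv
      have : 0 ≤ DM z N (𝒩 l) (fun i => c i + κ i * (v i : ℤ)) := abs_nonneg _
      positivity
    split_ifs with hb
    · obtain ⟨l, hl⟩ := hBad v hv hb
      have h5 : (N : ℝ) / L ^ (K + 1) < DM z N (𝒩 l) (fun i => c i + κ i * (v i : ℤ)) := by
        by_contra hcon
        push Not at hcon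
        exact hl (h1 N (by omega) z _ (fun i => hpA i _ (Fintype.mem_piFinset.1 hv i)) (𝒩 l) (h𝒩 l) (by rw [← hLdef]; exact hcon))
      refine le_trans ?_ (single_le_sum (f := fun l => 1 / ((N : ℝ) / L ^ (K + 1)) * (P v * DM z N (𝒩 l) (fun i => c i + κ i * (v i : ℤ))))
        (fun l _ => hD0 l) (mem_univ l))
      rw [hPv, one_div, ← div_eq_inv_mul, le_div_iff₀ hδ]
      exact mul_le_mul_of_nonneg_left h5.le (hP0 v hv)
    · exact sum_nonneg fun l _ => hD0 l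
  refine (sum_le_sum hpt).trans ?_
  rw [sum_comm]
  have h6 : ∀ l ∈ (univ : Finset (Fin m)), ∑ v ∈ Fintype.piFinset Ω, 1 / ((N : ℝ) / L ^ (K + 1)) * (P v * DM z N (𝒩 l) (fun i => c i + κ i * (v i : ℤ))) ≤
      1 / L ^ (U + T) := by
    intro l _
    rw [← mul_sum]
    refine (mul_le_mul_of_nonneg_left (havg l) (by positivity)).trans (le_of_eq ?_)
    rw [show U + T + K + 1 = (U + T) + (K + 1) by ring, pow_add L (U + T) (K + 1)]
    field_simp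
  refine (sum_le_sum h6).trans ?_
  rw [sum_const, card_univ, Fintype.card_fin, nsmul_eq_mul]
  calc (m : ℝ) * (1 / L ^ (U + T)) ≤ L ^ T * (1 / L ^ (U + T)) := mul_le_mul_of_nonneg_right (by rw [hLdef]; exact hm) (by positivity)
    _ = 1 / L ^ U := by rw [pow_add]; field_simp
    _ = 1 / Real.log N ^ U := by rw [hLdef]

open Classical in
/-- almost all vectors of elements of sets of families with the one shift estimate -/
theorem ar_fam (k : ℕ) (hk : 1 ≤ k) (κ : Fin k → ℤ) (Bv : Fin k → ℕ)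
    (𝒮 : Fin k → ℕ → Finset ℕ → Prop) (h𝒮 : ∀ i, HasZ (κ i) (Bv i) (𝒮 i))
    (B T K U : ℕ) (ε : ℝ) (hε : 0 < ε) : ∃ E₀ : ℕ, ∀ E : ℕ, E₀ ≤ E →
    ∃ N₀ : ℕ, ∀ N, N₀ ≤ N → ∀ m : ℕ, (m : ℝ) ≤ Real.log N ^ T → ∀ 𝒩 : Fin m → Finset ℕ, (∀ l, 𝒩 l ⊆ Icc 1 N) →
      ∀ S : Fin k → Finset ℕ, (∀ i, 𝒮 i N (S i)) →
      ∀ c : Fin k → ℤ, (∀ i, |c i| ≤ (B : ℤ) * N) →
      (((Fintype.piFinset S).filter fun v =>
        ∃ l, ¬ OkA ε K N ⌊Real.log N ^ E⌋₊ (𝒩 l) (fun i => c i + κ i * (v i : ℤ))).card : ℝ) ≤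
      ((Fintype.piFinset S).card : ℝ) / Real.log N ^ U := by
  obtain ⟨B1, hB1⟩ : ∃ B1, B1 = ∑ i, (B + (κ i).natAbs * Bv i) + B + 1 := ⟨_, rfl⟩
  have hB1i : ∀ i, B + (κ i).natAbs * Bv i ≤ B1 := fun i => by
    rw [hB1]
    have h5 : B + (κ i).natAbs * Bv i ≤ ∑ i, (B + (κ i).natAbs * Bv i) :=
      single_le_sum (f := fun i => B + (κ i).natAbs * Bv i) (fun _ _ => Nat.zero_le _) (mem_univ i)
    omega
  choose C hC0 hC using h𝒮
  choose B0 h0 using fun i => hC i 1 B1 (U + 1 + T + K + 1 + k + 1) le_rfl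
  obtain ⟨Bt, hBt⟩ : ∃ Bt, Bt = ∑ i, B0 i := ⟨_, rfl⟩
  have hBi : ∀ i, B0 i ≤ Bt := fun i => by rw [hBt]; exact single_le_sum (fun _ _ => Nat.zero_le _) (mem_univ i)
  refine ⟨Bt + 1, fun E hE => ?_⟩
  choose N1 h1 using fun i => h0 i E
  obtain ⟨Nt, hNt⟩ : ∃ Nt, Nt = ∑ i, N1 i := ⟨_, rfl⟩
  have hNi : ∀ i, N1 i ≤ Nt := fun i => by rw [hNt]; exact single_le_sum (fun _ _ => Nat.zero_le _) (mem_univ i)
  obtain ⟨n0, h2⟩ := ar_main k hk κ B1 T K Bt E (U + 1) (by omega) hE ε hε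
  obtain ⟨n2, hn2⟩ := exists_nat_ge (Real.exp (∏ i, C i))
  refine ⟨Nt + n0 + n2 + 3, fun N hN m hm 𝒩 h𝒩 S hS c hc => ?_⟩
  have hX0 : (0 : ℝ) < N := by exact_mod_cast (by omega : 0 < N)
  have hlog1 : 1 ≤ Real.log (N : ℝ) := by
    rw [Real.le_log_iff_exp_le hX0]
    have : (3 : ℝ) ≤ (N : ℝ) := by exact_mod_cast (by omega : 3 ≤ N)
    linarith [Real.exp_one_lt_d9]
  have hlogX : 0 < Real.log N := by linarith
  have hCl : ∏ i, C i ≤ Real.log N := by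
    rw [Real.le_log_iff_exp_le hX0]
    refine hn2.trans ?_
    exact_mod_cast (by omega : n2 ≤ N)
  choose Ω p hp0 hp1 hpθ hpA hmem hone using fun i => h1 i N (by have := hNi i; omega) (S i) (hS i)
  simp only [one_mul] at hpθ hone
  have hB1z : ∀ i, |c i| ≤ (B1 : ℤ) * N := fun i => by
    refine (hc i).trans ?_
    have : B ≤ B1 := by have := hB1i i; omega
    exact_mod_cast Nat.mul_le_mul_right N this
  have h4 := h2 N (by omega) m hm 𝒩 h𝒩 c Ω p hB1z hp0 hp1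
    (fun i v hv => by
      have h5 := abs_le_of (c i) (κ i) N v B (Bv i) (hc i) (hpA i v hv)
      refine h5.trans ?_
      exact_mod_cast Nat.mul_le_mul_right N (hB1i i))
    (fun i c' hc' z hz1 hz2 Kc hKc G hG =>
      hone i c' hc' z ((pow_le_pow_right₀ hlog1 (hBi i)).trans hz1) hz2 Kc hKc G hG)
    (fun v => ∃ l, ¬ OkA ε K N ⌊Real.log N ^ E⌋₊ (𝒩 l) (fun i => c i + κ i * (v i : ℤ))) (fun v _ h => h)
  obtain ⟨F, hF⟩ : ∃ F, F = Fintype.piFinset S := ⟨_, rfl⟩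
  have hFc : (F.card : ℝ) = ∏ i, ((S i).card : ℝ) := by
    rw [hF, Fintype.card_piFinset, Nat.cast_prod]
  rw [← hF]
  have hCp : 0 ≤ ∏ i, C i := prod_nonneg fun i _ => hC0 i
  have hpt : ∀ v ∈ F, v ∈ Fintype.piFinset Ω ∧ 1 ≤ (∏ i, C i) * (F.card : ℝ) * ∏ i, p i (v i) := by
    intro v hv
    rw [hF, Fintype.mem_piFinset] at hv
    have hv' : ∀ i, v i ∈ Ω i ∧ 1 ≤ C i * ((S i).card : ℝ) * p i (v i) := fun i => hmem i (v i) (hv i)
    refine ⟨Fintype.mem_piFinset.2 fun i => (hv' i).1, ?_⟩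
    rw [hFc, ← prod_mul_distrib, ← prod_mul_distrib]
    have h7 : ∏ _i : Fin k, (1 : ℝ) ≤ ∏ i, (C i * ((S i).card : ℝ) * p i (v i)) :=
      prod_le_prod (fun _ _ => by norm_num) (fun i _ => (hv' i).2)
    rwa [prod_const_one] at h7
  obtain ⟨Bd, hBd⟩ : ∃ Bd : (Fin k → ℕ) → Prop, Bd = fun v => ∃ l, ¬ OkA ε K N ⌊Real.log N ^ E⌋₊ (𝒩 l) (fun i => c i + κ i * (v i : ℤ)) := ⟨_, rfl⟩
  have hBdv : ∀ v, (∃ l, ¬ OkA ε K N ⌊Real.log N ^ E⌋₊ (𝒩 l) (fun i => c i + κ i * (v i : ℤ))) = Bd v := fun v => by rw [hBd]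
  simp only [hBdv] at h4 ⊢
  calc ((F.filter (fun v => Bd v)).card : ℝ)
      = ∑ v ∈ F.filter (fun v => Bd v), (1 : ℝ) := by
        rw [sum_const, nsmul_eq_mul, mul_one]
    _ ≤ ∑ v ∈ F.filter (fun v => Bd v), ((∏ i, C i) * (F.card : ℝ)) *
          (if Bd v then ∏ i, p i (v i) else 0) := by
        apply sum_le_sum
        intro v hv
        rw [mem_filter] at hv
        rw [if_pos hv.2]
        exact (hpt v hv.1).2
    _ ≤ ∑ v ∈ Fintype.piFinset Ω, ((∏ i, C i) * (F.card : ℝ)) *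
          (if Bd v then ∏ i, p i (v i) else 0) := by
        apply sum_le_sum_of_subset_of_nonneg
        · intro v hv
          exact (hpt v (mem_filter.1 hv).1).1
        · intro v hv _
          have hv' := Fintype.mem_piFinset.1 hv
          apply mul_nonneg (by positivity)
          split_ifs
          · exact prod_nonneg fun i _ => hp0 i _ (hv' i)
          · exact le_rfl
    _ ≤ ((∏ i, C i) * (F.card : ℝ)) * (1 / Real.log N ^ (U + 1)) := by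
        rw [← mul_sum]
        exact mul_le_mul_of_nonneg_left h4 (by positivity)
    _ ≤ _ := by
        rw [mul_one_div, div_le_div_iff₀ (by positivity) (by positivity), pow_succ]
        have : 0 ≤ (F.card : ℝ) * Real.log N ^ U := by positivity
        calc (∏ i, C i) * (F.card : ℝ) * Real.log N ^ U = (∏ i, C i) * ((F.card : ℝ) * Real.log N ^ U) := by ring
          _ ≤ Real.log N * ((F.card : ℝ) * Real.log N ^ U) := mul_le_mul_of_nonneg_right hCl this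
          _ = _ := by ring

end Pool.Agent.Q26.PD
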