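import Pool.Agent.Q26.PD.AR

set_option autoImplicit false

/-! Prime tuples at the elements of arbitrary sets, with shifts by few elements of arbitrary sets. -/

namespace Pool.Agent.Q26.PD
open Finset
open Pool.Agent.H373R2.T7
open Pool.Agent.W93.TD (total_w)
open Pool.Agent.Y885 (TLaw tl_dif tl_point las_lawP)

open Classical in
theorem ar_las (k l P : ℕ) (hk : 1 ≤ k) (hl : 2 ≤ l) (hP : 1 ≤ P) (T K : ℕ) : ∃ Cst : ℝ, ∀ (Hh B : ℕ) (ε : ℝ),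
    0 < ε → ∃ E₀ : ℕ, ∀ E : ℕ, E₀ ≤ E → ∃ N₀ : ℕ, ∀ A : Fin k → Set ℕ, (∀ i, ∀ x : ℕ, 1 ≤ x → ∃ a ∈ A i, x ≤ a ∧ a ≤ l * x) →
    ∀ N : ℕ, N₀ ≤ N → ∀ m : ℕ, (m : ℝ) ≤ Real.log N ^ T → ∀ 𝒩 : Fin m → Finset ℕ, (∀ j, 𝒩 j ⊆ Icc 1 N) →
    ∀ a : Fin k → ℤ, (∀ i, |a i| ≤ (B : ℤ) * N) →
    ∃ S : Fin k → Finset ℕ, (∀ i, ∀ x ∈ S i, x ∈ A i ∧ Real.log N ^ Hh ≤ x ∧ (x : ℝ) ≤ N / Real.log N ^ Hh) ∧
      (∀ i, ((S i).card : ℝ) ≤ Cst * Real.log (Real.log N) ^ 2) ∧ (∀ i, P ∣ ∑ x ∈ S i, x) ∧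
      ∀ j, OkA ε K N ⌊Real.log N ^ E⌋₊ (𝒩 j) (fun i => a i + ∑ x ∈ S i, (x : ℤ)) := by
  obtain ⟨U', hU'⟩ : ∃ U', U' = 1 + T + K + 1 + k + 1 := ⟨_, rfl⟩
  obtain ⟨b, hb, Cst, hC⟩ := las_lawP l P hl hP (2 * (U' + 1) + 6)
  refine ⟨Cst, fun Hh B ε hε => ?_⟩
  obtain ⟨e, he⟩ : ∃ e, e = 1 + (B + 1) + 1 := ⟨_, rfl⟩
  obtain ⟨c, N₀, h0⟩ := hC Hh e
  obtain ⟨Bt, h1⟩ := tlZ b 20 c hb (by norm_num) U' (b ^ (e + 1)) 1 (B + 1)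
  refine ⟨Bt + 1, fun E hE => ?_⟩
  obtain ⟨N1, h1⟩ := h1 E
  obtain ⟨n2, h2⟩ := ar_main k hk (fun _ => 1) (B + 1) T K Bt E 1 (by omega) hE ε hε
  obtain ⟨n3, h3⟩ := ev_L' 2
  refine ⟨N₀ + N1 + n2 + n3 + 2, fun A hA X hX m hm 𝒩 h𝒩 a ha => ?_⟩
  have hX0 : 0 < X := by omega
  have hlX := h3 X (by omega)
  obtain ⟨K', hK'⟩ : ∃ K', K' = Nat.log b X + 1 := ⟨_, rfl⟩
  have hKlow : b ^ (K' - 1) ≤ X := by
    rw [hK', Nat.add_sub_cancel]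
    exact Nat.pow_log_le_self b (by omega)
  have hKup : X < b ^ K' := by rw [hK']; exact Nat.lt_pow_succ_log_self (by omega) _
  have hbe : 1 + (B + 1) + 1 ≤ b ^ e := by
    rw [← he]
    exact (Nat.lt_pow_self (by omega)).le
  choose n Ω₀ pr Sf g1 g2 g3 using fun i => h0 (A i) (hA i) X (by omega)
  have h4 := fun i => h1 X (by omega) (K' + e) (by
      calc (1 + (B + 1) + 1) * X ≤ b ^ e * b ^ K' := Nat.mul_le_mul hbe hKup.le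
        _ = _ := by rw [← pow_add, add_comm]) (by
      calc b ^ (K' + e) = b ^ (e + 1) * b ^ (K' - 1) := by rw [← pow_add]; congr 1; omega
        _ ≤ b ^ (e + 1) * X := Nat.mul_le_mul_left _ hKlow) (Fin (n i) → ℕ) (Ω₀ i) (fun _ => pr i)
    (fun ω => ∑ x ∈ Sf i ω, x) (by
      have := g2 i
      rw [← hK'] at this
      exact this) (g1 i) (fun ω hω => by
      have h5 := (g3 i ω hω).2.2.1
      omega)
  have hval : ∀ i, ∀ v ∈ (Ω₀ i).image (fun ω => ∑ x ∈ Sf i ω, x), ∃ ω ∈ Ω₀ i, v = ∑ x ∈ Sf i ω, x := by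
    intro i v hv
    rw [mem_image] at hv
    obtain ⟨ω, h5, h6⟩ := hv
    exact ⟨ω, h5, h6.symm⟩
  have hp0 : ∀ i, ∀ ω ∈ Ω₀ i, 0 ≤ (fun _ : Fin (n i) → ℕ => pr i) ω := fun i ω hω => (g2 i).nonneg ω hω
  have hp1 : ∀ i, ∑ v ∈ (Ω₀ i).image (fun ω => ∑ x ∈ Sf i ω, x), pf (Ω₀ i) (fun _ => pr i) (fun ω => ∑ x ∈ Sf i ω, x) v = 1 := by
    intro i
    have h5 := pf_one (Ω₀ i) (fun _ => pr i) (g1 i) (fun ω => ∑ x ∈ Sf i ω, x)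
    convert h5
  have habs : ∀ i, ∀ v ∈ (Ω₀ i).image (fun ω => ∑ x ∈ Sf i ω, x), |a i + 1 * (v : ℤ)| ≤ ((B + 1 : ℕ) : ℤ) * X := by
    intro i v hv
    obtain ⟨ω, hω, rfl⟩ := hval i v hv
    have h5 := abs_le_of (a i) 1 X (∑ x ∈ Sf i ω, x) B 1 (ha i) (by
      have h5 := (g3 i ω hω).2.2.1
      omega)
    rw [Int.natAbs_one, mul_one] at h5
    exact h5
  have hmain := h2 X (by omega) m hm 𝒩 h𝒩 a (fun i => (Ω₀ i).image (fun ω => ∑ x ∈ Sf i ω, x))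
    (fun i => pf (Ω₀ i) (fun _ => pr i) (fun ω => ∑ x ∈ Sf i ω, x))
    (fun i => (ha i).trans (by push_cast; nlinarith [(Nat.cast_nonneg X : (0 : ℤ) ≤ X)]))
    (fun i v _ => pf_nonneg _ _ (hp0 i) _ v) hp1 habs (fun i => by
      rw [← hU']
      intro c' hc' z hz1 hz2 Kc hKc G hG
      have h5 := (h4 i).2 c' hc' z hz1 hz2 Kc hKc G hG
      convert h5)
    (fun v => ∃ j, ¬ OkA ε K X ⌊Real.log X ^ E⌋₊ (𝒩 j) (fun i => a i + 1 * (v i : ℤ))) (fun v _ h => h)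
  have hex : ∃ v ∈ Fintype.piFinset (fun i => (Ω₀ i).image (fun ω => ∑ x ∈ Sf i ω, x)),
      ∀ j, OkA ε K X ⌊Real.log X ^ E⌋₊ (𝒩 j) (fun i => a i + 1 * (v i : ℤ)) := by
    by_contra hcon
    push Not at hcon
    have hmain' : ∑ v ∈ Fintype.piFinset (fun i => (Ω₀ i).image (fun ω => ∑ x ∈ Sf i ω, x)),
        ∏ i, pf (Ω₀ i) (fun _ => pr i) (fun ω => ∑ x ∈ Sf i ω, x) (v i) ≤ 1 / Real.log X ^ 1 := by
      refine le_trans (le_of_eq ?_) hmain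
      apply sum_congr rfl
      intro v hv
      rw [if_pos]
      exact hcon v hv
    rw [total_w _ _ hp1, pow_one, le_div_iff₀ (by linarith), one_mul] at hmain'
    linarith
  obtain ⟨v, hv, hgood⟩ := hex
  choose ω hω hvω using fun i => hval i (v i) (Fintype.mem_piFinset.1 hv i)
  refine ⟨fun i => Sf i (ω i), fun i => (g3 i _ (hω i)).1, fun i => (g3 i _ (hω i)).2.1, fun i => (g3 i _ (hω i)).2.2.2, ?_⟩
  have h5 : (fun i => a i + 1 * (v i : ℤ)) = fun i => a i + ∑ x ∈ Sf i (ω i), (x : ℤ) := by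
    funext i
    rw [hvω i, one_mul]
    push_cast
    rfl
  rw [h5] at hgood
  exact hgood

end Pool.Agent.Q26.PD
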