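import Pool.Agent.TH872.Mir10
import Pool.Agent.TH872.An3
import Pool.Agent.W93.AU14
import Pool.Agent.W93.LM8

set_option autoImplicit false

/-! Correlations with a nice function (Möbius, Liouville) at random shifts with mirror-dependent digits, at
palindromes, and at the integers with permuted digits. -/

namespace Pool.Agent.Q26.PD
open Finset
open Pool.Agent.H373R2.T7 (exI)
open Pool.Agent.W93.AU (Law)
open Pool.Agent.W93.LM (Nice spread)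

/-- what has to be shown of the shift `Y` if it is bad -/
def BadC (f : ℕ → ℂ) (M : ℕ) (δ : ℝ) (L : ℕ) (α : ℕ → ℕ) (g : ℕ → ℕ → ℂ) (Y : ℤ) : Prop :=
  ∃ l < L, ∃ N : ℕ, α l * N ≤ M ∧ δ < ‖∑ n ∈ Icc 1 N, g l n * exI f ((α l * n : ℕ) + Y)‖

theorem law_corr (b F : ℕ) (hb : 2 ≤ b) (hF : 1 ≤ F) (f : ℕ → ℂ) (hf : Nice f) (T U D : ℕ) : ∃ K₀ : ℕ, ∀ K : ℕ, K₀ ≤ K →
    ∀ (ι : Type) (Ω : Finset ι) (p : ι → ℝ) (Y : ι → ℤ), Law b F D (4 * U + 4 * T + 1 + 6) K Ω p Y →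
    ∀ Q : ℕ, (∀ ω ∈ Ω, -((b ^ K : ℕ) : ℤ) < Y ω ∧ (Q : ℤ) + Y ω ≤ ((b ^ K : ℕ) : ℤ)) → Q ≤ b ^ K →
    ∀ (L : ℕ), (L : ℝ) ≤ (K : ℝ) ^ T → ∀ (α : ℕ → ℕ) (g : ℕ → ℕ → ℂ), (∀ l < L, 1 ≤ α l) →
    (∀ l < L, ∀ n, 1 ≤ n → α l * n ≤ Q → ‖g l n‖ ≤ (K : ℝ) ^ T) →
    ∀ E : ι → Prop, [DecidablePred E] →
    (∀ ω ∈ Ω, E ω → BadC f Q (((b ^ K : ℕ) : ℝ) / (K : ℝ) ^ U) L α g (Y ω)) →
    ∑ ω ∈ Ω, (if E ω then p ω else 0) ≤ 1 / (K : ℝ) ^ U := by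
  classical
  obtain ⟨K₀, h0⟩ := Pool.Agent.W93.AU.lmg_prob b F hb hF f hf T U D
  refine ⟨K₀ + 1, fun K hK ι Ω p Y hlaw Q hY hQ L hL α g hα hg E _ hE => ?_⟩
  have hKT : (0 : ℝ) ≤ (K : ℝ) ^ T := by positivity
  refine h0 K (by omega) ι Ω p Y hlaw Q hY hQ L hL (fun l m => if α l ∣ m then g l (m / α l) else 0) ?_ E ?_
  · intro l hl m hm1 hm2
    split_ifs with hd
    · obtain ⟨n, rfl⟩ := hd
      have hαl := hα l hl
      rw [Nat.mul_div_cancel_left _ (by omega)]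
      refine hg l hl n ?_ hm2
      rcases Nat.eq_zero_or_pos n with h | h
      · subst h; omega
      · exact h
    · rw [norm_zero]; exact hKT
  · intro ω hω hEω
    obtain ⟨l, hl, N, hN, h1⟩ := hE ω hω hEω
    refine ⟨l, hl, α l * N, hN, lt_of_lt_of_eq h1 ?_⟩
    have e1 := spread (fun m => exI f ((m : ℤ) + Y ω)) (g l) (α l) N (hα l hl)
    congr 1

/-- the parameters: passing from the scale `k` to the scale `K = k + e` -/
lemma scale (b k e U : ℕ) (hb : 2 ≤ b) (hk : b ^ e ≤ k) :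
    ((b ^ (k + e) : ℕ) : ℝ) / ((k + e : ℕ) : ℝ) ^ (U + 1) ≤ ((b ^ k : ℕ) : ℝ) / (k : ℝ) ^ U ∧
      1 / ((k + e : ℕ) : ℝ) ^ (U + 1) ≤ 1 / (k : ℝ) ^ U := by
  have hpe : 1 ≤ b ^ e := Nat.one_le_pow _ _ (by omega)
  have hk1 : (1 : ℝ) ≤ k := by exact_mod_cast (by omega : 1 ≤ k)
  have hk0 : (0 : ℝ) < k := by linarith
  have hKk : (k : ℝ) ≤ ((k + e : ℕ) : ℝ) := by exact_mod_cast (by omega : k ≤ k + e)
  have hK0 : (0 : ℝ) < ((k + e : ℕ) : ℝ) := by linarith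
  have h1 : (k : ℝ) * (k : ℝ) ^ U ≤ ((k + e : ℕ) : ℝ) ^ (U + 1) := by
    rw [← pow_succ']
    exact pow_le_pow_left₀ hk0.le hKk _
  constructor
  · rw [div_le_div_iff₀ (by positivity) (by positivity)]
    have h2 : ((b ^ (k + e) : ℕ) : ℝ) = ((b ^ k : ℕ) : ℝ) * ((b ^ e : ℕ) : ℝ) := by
      rw [pow_add]; push_cast; ring
    rw [h2, mul_assoc]
    apply mul_le_mul_of_nonneg_left _ (by positivity)
    refine le_trans ?_ h1
    apply mul_le_mul_of_nonneg_right _ (by positivity)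
    exact_mod_cast hk
  · apply one_div_le_one_div_of_le (by positivity)
    refine le_trans ?_ h1
    nlinarith [pow_pos hk0 U]

/-- the admissible sets of bad shifts at the scale `k` -/
def AdmC (f : ℕ → ℂ) (b B T U : ℕ) (k : ℕ) (bad : ℤ → Prop) : Prop :=
  ∃ L : ℕ, (L : ℝ) ≤ (k : ℝ) ^ T ∧ ∃ (α : ℕ → ℕ) (g : ℕ → ℕ → ℂ), (∀ l < L, 1 ≤ α l) ∧
    (∀ l < L, ∀ n, 1 ≤ n → α l * n ≤ B * b ^ k → ‖g l n‖ ≤ (k : ℝ) ^ T) ∧
    ∀ Y : ℤ, bad Y → BadC f (B * b ^ k) (((b ^ k : ℕ) : ℝ) / (k : ℝ) ^ U) L α g Y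

lemma range_of (b B k e0 : ℕ) (hb : 2 ≤ b) (Y : ℤ) (hY : |Y| ≤ (b : ℤ) ^ (k + e0)) :
    -((b ^ (k + (e0 + B + 1)) : ℕ) : ℤ) < Y ∧ ((B * b ^ k : ℕ) : ℤ) + Y ≤ ((b ^ (k + (e0 + B + 1)) : ℕ) : ℤ) ∧
      B * b ^ k ≤ b ^ (k + (e0 + B + 1)) := by
  have hB : B + 2 ≤ b ^ (B + 1) := by
    calc B + 2 ≤ 2 ^ (B + 1) := by
          have := Nat.lt_two_pow_self (n := B + 1)
          omega
      _ ≤ b ^ (B + 1) := Nat.pow_le_pow_left hb _
  have h1 : (B + 2) * b ^ (k + e0) ≤ b ^ (k + (e0 + B + 1)) := by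
    have : b ^ (k + (e0 + B + 1)) = b ^ (B + 1) * b ^ (k + e0) := by rw [← pow_add]; congr 1; omega
    rw [this]
    exact Nat.mul_le_mul_right _ hB
  have h2 : b ^ k ≤ b ^ (k + e0) := Nat.pow_le_pow_right (by omega) (by omega)
  have h3 : B * b ^ k ≤ B * b ^ (k + e0) := Nat.mul_le_mul_left _ h2
  have h4 : 0 < b ^ (k + e0) := by positivity
  have h5 : ((b : ℤ) ^ (k + e0)) = ((b ^ (k + e0) : ℕ) : ℤ) := by push_cast; rfl
  rw [h5] at hY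
  have h1' : (B + 2) * b ^ (k + e0) = B * b ^ (k + e0) + b ^ (k + e0) + b ^ (k + e0) := by ring
  rw [abs_le] at hY
  refine ⟨?_, ?_, ?_⟩
  · have : ((b ^ (k + e0) : ℕ) : ℤ) < ((b ^ (k + (e0 + B + 1)) : ℕ) : ℤ) := by
      have : b ^ (k + e0) < b ^ (k + (e0 + B + 1)) := by
        have : 0 ≤ B * b ^ (k + e0) := Nat.zero_le _
        omega
      exact_mod_cast this
    linarith [hY.1]
  · have : ((B * b ^ k : ℕ) : ℤ) + ((b ^ (k + e0) : ℕ) : ℤ) ≤ ((b ^ (k + (e0 + B + 1)) : ℕ) : ℤ) := by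
      have : B * b ^ k + b ^ (k + e0) ≤ b ^ (k + (e0 + B + 1)) := by omega
      exact_mod_cast this
    linarith [hY.2]
  · omega

theorem mir_rare (b B T U : ℕ) (hb : 2 ≤ b) (κ : ℤ) (hκ : κ ≠ 0) (f : ℕ → ℂ) (hf : Nice f) :
    Pool.Agent.TH872.Tr.Rare b B U κ (AdmC f b B T U) := by
  classical
  intro η hη s hs
  obtain ⟨e0, he0⟩ : ∃ e0, e0 = B + 3 * κ.natAbs := ⟨_, rfl⟩
  obtain ⟨e, he⟩ : ∃ e, e = e0 + B + 1 := ⟨_, rfl⟩
  obtain ⟨D, hD⟩ := Pool.Agent.TH872.Mir.mir_law b hb η hη κ e s (4 * (U + 1) + 4 * T + 1 + 6)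
  obtain ⟨K0, h0⟩ := law_corr b (Pool.Agent.TH872.Mir.FF0 b κ) hb (Pool.Agent.TH872.Mir.FF0_pos b κ hκ) f hf T (U + 1) D
  refine ⟨K0 + b ^ e + 1, fun m hm w hw cc hcc bad hbad E _ hE => ?_⟩
  rw [← he0] at hcc
  obtain ⟨L, hL, α, g, hα, hg, hbad⟩ := hbad
  obtain ⟨k, hk⟩ : ∃ k, k = 2 * m + s := ⟨_, rfl⟩
  rw [← hk] at hL hg hbad hcc hE ⊢
  have hpe : 1 ≤ b ^ e := Nat.one_le_pow _ _ (by omega)
  obtain ⟨hs1, hs2⟩ := scale b k e U hb (by omega)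
  have hkK : (k : ℝ) ^ T ≤ ((k + e : ℕ) : ℝ) ^ T := by
    apply pow_le_pow_left₀ (by positivity)
    exact_mod_cast (by omega : k ≤ k + e)
  have hYb : ∀ g ∈ Pool.Agent.TH872.Mir.Gs b m, |cc + κ * (Pool.Agent.TH872.Mir.val b k g : ℕ)| ≤ (b : ℤ) ^ (k + e0) := by
    intro g hg
    have h0 : ((Pool.Agent.TH872.Mir.val b k g : ℕ) : ℤ) ≤ 2 * (b : ℤ) ^ k := by
      rw [hk]
      exact_mod_cast (Pool.Agent.TH872.Mir.val_lt b m s (by omega) g hg).le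
    calc |cc + κ * (Pool.Agent.TH872.Mir.val b k g : ℕ)| ≤
          |cc| + |κ * (Pool.Agent.TH872.Mir.val b k g : ℕ)| := abs_add_le _ _
      _ = |cc| + |κ| * (Pool.Agent.TH872.Mir.val b k g : ℕ) := by
          rw [abs_mul, abs_of_nonneg (by positivity : (0 : ℤ) ≤ ((Pool.Agent.TH872.Mir.val b k g : ℕ) : ℤ))]
      _ ≤ |cc| + |κ| * (2 * (b : ℤ) ^ k) := by
          have := mul_le_mul_of_nonneg_left h0 (abs_nonneg κ)
          linarith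
      _ ≤ _ := hcc
  refine (h0 (k + e) (by omega) _ (Pool.Agent.TH872.Mir.Gs b m) (Pool.Agent.TH872.Mir.pw w)
    (fun g => cc + κ * (Pool.Agent.TH872.Mir.val b k g : ℕ)) ?_ (B * b ^ k) ?_ ?_ L (hL.trans hkK) α g hα
    (fun l hl n hn hn2 => (hg l hl n hn hn2).trans hkK) E ?_).trans hs2
  · have := hD m (k + e) (by rw [hk]) (by omega) w hw cc
    rw [← hk] at this
    exact this
  · intro g hg
    obtain ⟨r1, r2, _⟩ := range_of b B k e0 hb _ (hYb g hg)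
    rw [← he] at r1 r2
    exact ⟨r1, r2⟩
  · have := (range_of b B k e0 hb 0 (by rw [abs_zero]; positivity)).2.2
    rw [← he] at this
    exact this
  · intro ω hω hEω
    obtain ⟨l, hl, N, hN, h1⟩ := hbad _ (hE ω hω hEω)
    exact ⟨l, hl, N, hN, lt_of_le_of_lt hs1 h1⟩

/-- palindromes and integers with mirror-dependent digits -/
theorem mir_corr (b B T U : ℕ) (hb : 2 ≤ b) (κ : ℤ) (hκ : κ ≠ 0) (f : ℕ → ℂ) (hf : Nice f) (η : ℝ) (hη : 0 < η) :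
    ∃ k₀ : ℕ, ∀ k : ℕ, k₀ ≤ k → ∀ c : ℤ, |c| ≤ B * (b : ℤ) ^ k → ∀ bad : ℤ → Prop, AdmC f b B T U k bad →
      (∀ (w : ℕ → ℕ × ℕ → ℝ) (u : ℕ → ℝ), Pool.Agent.TH872.Tr.Pairs b k η w → (∀ a, 0 ≤ u a) → ∑ a ∈ range b, u a = 1 →
        Pool.Agent.TH872.Tr.Prob b k w u (fun d z => bad (Pool.Agent.TH872.Tr.value b k κ c d z)) ≤ 1 / (k : ℝ) ^ U) ∧
      (Pool.Agent.TH872.Tr.num b k (fun v => bad (c + κ * v)) : ℝ) ≤
        Pool.Agent.TH872.Tr.num b k (fun _ => True) / (k : ℝ) ^ U :=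
  Pool.Agent.TH872.Tr.transfer b B U hb κ _ (mir_rare b B T U hb κ hκ f hf) η hη

open Classical in
/-- random permutations of the digits -/
theorem an_corr (b B T U : ℕ) (hb : 2 ≤ b) (κ : ℤ) (hκ : κ ≠ 0) (f : ℕ → ℂ) (hf : Nice f) (η : ℝ) (hη : 0 < η) :
    ∃ k₀ : ℕ, ∀ k : ℕ, k₀ ≤ k → ∀ d : Fin k → ℕ, Pool.Agent.TH872.An.Spread b k η d →
      ∀ c : ℤ, |c| ≤ B * (b : ℤ) ^ k → ∀ bad : ℤ → Prop, AdmC f b B T U k bad →
      ((univ.filter fun σ : Equiv.Perm (Fin k) => bad (c + κ * (Pool.Agent.TH872.An.V b d σ : ℕ))).card : ℝ) ≤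
        k.factorial / (k : ℝ) ^ U := by
  classical
  obtain ⟨e0, he0⟩ : ∃ e0, e0 = B + κ.natAbs + 1 := ⟨_, rfl⟩
  obtain ⟨e, he⟩ : ∃ e, e = e0 + B + 1 := ⟨_, rfl⟩
  obtain ⟨D, K1, hD⟩ := Pool.Agent.TH872.An.an_law b hb η hη κ e (4 * (U + 1) + 4 * T + 1 + 6)
  obtain ⟨K0, h0⟩ := law_corr b (Pool.Agent.TH872.An.FA b κ) hb (Pool.Agent.TH872.An.FA_pos b hb κ hκ) f hf T (U + 1) D
  refine ⟨K0 + K1 + b ^ e + 1, fun k hkk d hd c hc bad hbad => ?_⟩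
  obtain ⟨L, hL, α, g, hα, hg, hbad⟩ := hbad
  have hpe : 1 ≤ b ^ e := Nat.one_le_pow _ _ (by omega)
  obtain ⟨hs1, hs2⟩ := scale b k e U hb (by omega)
  have hkK : (k : ℝ) ^ T ≤ ((k + e : ℕ) : ℝ) ^ T := by
    apply pow_le_pow_left₀ (by positivity)
    exact_mod_cast (by omega : k ≤ k + e)
  have hYb : ∀ σ : Equiv.Perm (Fin k), |c + κ * (Pool.Agent.TH872.An.V b d σ : ℕ)| ≤ (b : ℤ) ^ (k + e0) := by
    intro σ
    have h0 : ((Pool.Agent.TH872.An.V b d σ : ℕ) : ℤ) ≤ (b : ℤ) ^ k := by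
      exact_mod_cast (Pool.Agent.TH872.An.V_lt hd (by omega) σ).le
    have hB : B + κ.natAbs ≤ b ^ e0 := by
      calc B + κ.natAbs ≤ 2 ^ (B + κ.natAbs) := Nat.lt_two_pow_self.le
        _ ≤ b ^ (B + κ.natAbs) := Nat.pow_le_pow_left hb _
        _ ≤ b ^ e0 := Nat.pow_le_pow_right (by omega) (by omega)
    calc |c + κ * (Pool.Agent.TH872.An.V b d σ : ℕ)| ≤ |c| + |κ * (Pool.Agent.TH872.An.V b d σ : ℕ)| := abs_add_le _ _
      _ = |c| + |κ| * (Pool.Agent.TH872.An.V b d σ : ℕ) := by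
          rw [abs_mul, abs_of_nonneg (by positivity : (0 : ℤ) ≤ ((Pool.Agent.TH872.An.V b d σ : ℕ) : ℤ))]
      _ ≤ B * (b : ℤ) ^ k + |κ| * (b : ℤ) ^ k := by
          have := mul_le_mul_of_nonneg_left h0 (abs_nonneg κ)
          linarith
      _ = ((B + κ.natAbs : ℕ) : ℤ) * (b : ℤ) ^ k := by push_cast; rw [add_mul]
      _ ≤ ((b ^ e0 : ℕ) : ℤ) * (b : ℤ) ^ k := by
          apply mul_le_mul_of_nonneg_right _ (by positivity)
          exact_mod_cast hB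
      _ = _ := by push_cast; rw [← pow_add]; congr 1; omega
  have h1 := (h0 (k + e) (by omega) _ (univ : Finset (Equiv.Perm (Fin k))) (fun _ => 1 / (k.factorial : ℝ))
    (fun σ => c + κ * (Pool.Agent.TH872.An.V b d σ : ℕ)) (hD k (k + e) rfl (by omega) d hd c) (B * b ^ k) (by
      intro σ _
      obtain ⟨r1, r2, _⟩ := range_of b B k e0 hb _ (hYb σ)
      rw [← he] at r1 r2
      exact ⟨r1, r2⟩) (by
      have := (range_of b B k e0 hb 0 (by rw [abs_zero]; positivity)).2.2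
      rw [← he] at this
      exact this) L (hL.trans hkK) α g hα
    (fun l hl n hn hn2 => (hg l hl n hn hn2).trans hkK)
    (fun σ => bad (c + κ * (Pool.Agent.TH872.An.V b d σ : ℕ))) (by
      intro σ _ hEσ
      obtain ⟨l, hl, N, hN, h1⟩ := hbad _ hEσ
      exact ⟨l, hl, N, hN, lt_of_le_of_lt hs1 h1⟩)).trans hs2
  have hf0 : (0 : ℝ) < k.factorial := by exact_mod_cast k.factorial_pos
  have hkr0 : (0 : ℝ) < (k : ℝ) ^ U := pow_pos (by exact_mod_cast (by omega : 0 < k)) U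
  rw [← sum_filter, sum_const, nsmul_eq_mul, mul_one_div, div_le_div_iff₀ hf0 hkr0, one_mul] at h1
  rw [le_div_iff₀ hkr0]
  exact h1

/-- the von Mangoldt function at the values of a linear form -/
lemma vM_bound (b B : ℕ) (hb : 2 ≤ b) : ∃ k1 : ℕ, ∀ k, k1 ≤ k → ∀ a h n : ℕ, a ≤ b ^ (B * k) → h ≤ b ^ (B * k) →
    n ≤ B * b ^ k → |ArithmeticFunction.vonMangoldt (a * n + h)| ≤ (k : ℝ) ^ 2 := by
  obtain ⟨k1, hk1⟩ := exists_nat_ge ((2 * B + 2 : ℕ) * Real.log b : ℝ)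
  refine ⟨k1 + B + 2, fun k hk a h n ha hh hn => ?_⟩
  have hlogb : 0 ≤ Real.log b := Real.log_natCast_nonneg b
  rw [abs_of_nonneg ArithmeticFunction.vonMangoldt_nonneg]
  refine ArithmeticFunction.vonMangoldt_le_log.trans ?_
  have e1 : a * n + h ≤ b ^ ((2 * B + 2) * k) := by
    have q2 : B ≤ b ^ k := le_trans (by omega : B ≤ k) (Nat.lt_pow_self (by omega)).le
    have q3 : B + 1 ≤ b ^ k := le_trans (by omega : B + 1 ≤ k) (Nat.lt_pow_self (by omega)).le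
    have q4 : 1 ≤ b ^ k := Nat.one_le_pow _ _ (by omega)
    calc a * n + h ≤ b ^ (B * k) * (B * b ^ k) + b ^ (B * k) := add_le_add (Nat.mul_le_mul ha hn) hh
      _ ≤ b ^ (B * k) * (B * b ^ k) + b ^ (B * k) * b ^ k := by
          apply add_le_add le_rfl (Nat.le_mul_of_pos_right _ q4)
      _ = b ^ (B * k) * ((B + 1) * b ^ k) := by ring
      _ ≤ b ^ (B * k) * (b ^ k * b ^ k) := by
          apply Nat.mul_le_mul_left _ (Nat.mul_le_mul_right _ q3)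
      _ = b ^ ((B + 2) * k) := by rw [← pow_add, ← pow_add]; congr 1; ring
      _ ≤ _ := Nat.pow_le_pow_right (by omega) (Nat.mul_le_mul_right _ (by omega))
  rcases Nat.eq_zero_or_pos (a * n + h) with h0 | h0
  · rw [h0]
    simp only [Nat.cast_zero, Real.log_zero]
    positivity
  · have e2 : Real.log ((a * n + h : ℕ) : ℝ) ≤ Real.log ((b ^ ((2 * B + 2) * k) : ℕ) : ℝ) :=
      Real.log_le_log (by exact_mod_cast h0) (by exact_mod_cast e1)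
    refine e2.trans ?_
    rw [Nat.cast_pow, Real.log_pow]
    have e3 : ((2 * B + 2 : ℕ) : ℝ) * Real.log b ≤ k := hk1.trans (by exact_mod_cast (by omega : k1 ≤ k))
    calc (((2 * B + 2) * k : ℕ) : ℝ) * Real.log b = (((2 * B + 2 : ℕ) : ℝ) * Real.log b) * k := by push_cast; ring
      _ ≤ k * k := mul_le_mul_of_nonneg_right e3 (by positivity)
      _ = _ := by ring

end Pool.Agent.Q26.PD
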