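import Pool.Agent.Q26.PD.Tup2

set_option autoImplicit false

/-! Prime tuples whose shifts are palindromes. -/

namespace Pool.Agent.Q26.PD
open Finset
open Pool.Agent.H807R2.Dav
open Pool.Agent.H373R2.T7
open Pool.Agent.W93.DG
open Pool.Agent.W93.RD
open Pool.Agent.W93.TD
open Pool.Agent.W93.AU (Law one_law)
open Pool.Agent.TH890

lemma law_mix (b F D V K : ℕ) {ι : Type} (Ω : Finset ι) (p : ι → ℝ) (Z : Finset ℕ) (hZ : Z.Nonempty) (Y : ℕ → ι → ℤ)
    (h : ∀ z ∈ Z, Law b F D V K Ω p (Y z)) :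
    Law b F D V K (Z ×ˢ Ω) (fun x => 1 / (Z.card : ℝ) * p x.2) (fun x => Y x.1 x.2) := by
  have hc : (0 : ℝ) < (Z.card : ℝ) := by exact_mod_cast hZ.card_pos
  obtain ⟨z0, hz0⟩ := hZ
  refine ⟨?_, ?_, ?_⟩
  · intro x hx
    rw [mem_product] at hx
    exact mul_nonneg (by positivity) ((h z0 hz0).nonneg _ hx.2)
  · rw [sum_product]
    simp only
    rw [sum_const, ← mul_sum, nsmul_eq_mul, ← mul_assoc, mul_one_div, div_self hc.ne', one_mul]
    exact (h z0 hz0).le_one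
  · intro t ht
    rw [sum_product]
    refine (norm_sum_le _ _).trans ?_
    have h1 : ∀ z ∈ Z, ‖∑ ω ∈ Ω, (((1 / (Z.card : ℝ) * p ω : ℝ)) : ℂ) * ee ((Y z ω : ℝ) * ((t : ℝ) / ((b ^ (K + 1) : ℕ) : ℝ)))‖ ≤
        1 / (Z.card : ℝ) * (1 / (K : ℝ) ^ V) := by
      intro z hz
      have h2 := (h z hz).char t ht
      have h3 : ∑ ω ∈ Ω, (((1 / (Z.card : ℝ) * p ω : ℝ)) : ℂ) * ee ((Y z ω : ℝ) * ((t : ℝ) / ((b ^ (K + 1) : ℕ) : ℝ))) =
          ((1 / (Z.card : ℝ) : ℝ) : ℂ) * ∑ ω ∈ Ω, ((p ω : ℝ) : ℂ) * ee ((Y z ω : ℝ) * ((t : ℝ) / ((b ^ (K + 1) : ℕ) : ℝ))) := by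
        rw [mul_sum]
        apply sum_congr rfl
        intro ω _
        push_cast
        ring
      rw [h3, norm_mul, Complex.norm_real, Real.norm_of_nonneg (by positivity)]
      exact mul_le_mul_of_nonneg_left h2 (by positivity)
    refine (sum_le_sum h1).trans (le_of_eq ?_)
    rw [sum_const, nsmul_eq_mul]
    field_simp

open Pool.Agent.TH872.Mir in
/-- one component: palindromes -/
theorem pal_one (b : ℕ) (hb : 2 ≤ b) (κ : ℕ) (hκ : 1 ≤ κ) (B U : ℕ) :
    ∃ B0 : ℕ, ∀ E : ℕ, ∃ N₀ : ℕ, ∀ N : ℕ, N₀ ≤ N → ∀ k : ℕ, N ≤ B * b ^ k → b ^ k ≤ B * N → ∀ c : ℕ, c ≤ B * N →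
      ∃ (Ω : Finset ℕ) (p : ℕ → ℝ), (∀ v ∈ Ω, 0 ≤ p v) ∧ ∑ v ∈ Ω, p v = 1 ∧ (∀ v ∈ Ω, p v ≤ 1 / Real.log N ^ U) ∧
        (∀ v ∈ Ω, c + κ * v ≤ (B + κ * (3 * B)) * N) ∧
        (∀ v ∈ Pals b k, v ∈ Ω ∧ 1 ≤ ((Pals b k).card : ℝ) * p v) ∧ OneS N U B0 E κ c Ω p := by
  classical
  have hκz : ((κ : ℕ) : ℤ) ≠ 0 := by exact_mod_cast (by omega : κ ≠ 0)
  have hbr : (2 : ℝ) ≤ b := by exact_mod_cast hb
  have hb0 : (0 : ℝ) < b := by linarith
  obtain ⟨η, hηd⟩ : ∃ η : ℝ, η = 1 / (b : ℝ) ^ 2 := ⟨_, rfl⟩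
  have hη : 0 < η := by rw [hηd]; positivity
  have hη1 : η ≤ 1 := by
    rw [hηd, div_le_one (by positivity)]
    exact one_le_pow₀ (by linarith)
  obtain ⟨e, he⟩ : ∃ e, e = (1 + B + κ * (3 * B)) * B := ⟨_, rfl⟩
  choose D hD using fun t : ℕ => mir_law b hb η hη (κ : ℤ) e t (2 * (U + 1) + 6)
  choose B0' h0 using fun t : ℕ => one_at b (FF0 b (κ : ℤ)) hb (FF0_pos b _ hκz) U (D t) (b ^ e * B)
  refine ⟨B0' 0 + B0' 1, fun E => ?_⟩
  choose N1 h1 using fun t : ℕ => h0 t E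
  obtain ⟨n0, hn0⟩ := expo (1 - η / 2) (((B : ℝ) + b) * 4) (by linarith) (by linarith) (by positivity) U
  refine ⟨N1 0 + N1 1 + B * b ^ (2 * n0 + 10) + 3, fun N hN k hNk hkN c hc => ?_⟩
  have hkl : 2 * n0 + 10 ≤ k := k_large b B N k _ hb (by omega) hNk
  have hN0 : 0 < N := by omega
  have hlog0 : 0 < Real.log N := Real.log_pos (by exact_mod_cast (by omega : 1 < N))
  have hlog1 : 1 ≤ Real.log N := by
    rw [Real.le_log_iff_exp_le (by exact_mod_cast (by omega : 0 < N))]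
    have : (3 : ℝ) ≤ N := by exact_mod_cast (by omega : 3 ≤ N)
    linarith [Real.exp_one_lt_d9]
  obtain ⟨m, hm⟩ : ∃ m, m = k / 2 := ⟨_, rfl⟩
  obtain ⟨t, ht⟩ : ∃ t, t = k % 2 := ⟨_, rfl⟩
  have ht1 : t ≤ 1 := by omega
  have hkm : k = 2 * m + t := by omega
  have hB0t : B0' t ≤ B0' 0 + B0' 1 := by
    have : t = 0 ∨ t = 1 := by omega
    rcases this with h | h <;> rw [h] <;> omega
  have hN1t : N1 t ≤ N := by
    have : t = 0 ∨ t = 1 := by omega
    rcases this with h | h <;> rw [h] <;> omega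
  have hm5 : n0 + 4 ≤ m := by omega
  -- the random palindrome
  obtain ⟨Z, hZ⟩ : ∃ Z, Z = Zs b t := ⟨_, rfl⟩
  have hZne : Z.Nonempty := by
    rw [hZ]
    unfold Zs
    split_ifs
    · exact singleton_nonempty 0
    · exact ⟨0, mem_range.2 (by omega)⟩
  have hZb : ∀ z ∈ Z, z < b := fun z hz => mem_Zs b t z (by omega) (by rw [← hZ]; exact hz)
  have hZc : (0 : ℝ) < (Z.card : ℝ) := by exact_mod_cast hZne.card_pos
  obtain ⟨f, hf⟩ : ∃ f : ℕ × (Fin m → ℕ × ℕ) → ℕ, f = fun x => val b k x.2 + t * x.1 * b ^ m := ⟨_, rfl⟩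
  obtain ⟨p, hp⟩ : ∃ p : ℕ × (Fin m → ℕ × ℕ) → ℝ, p = fun x => 1 / (Z.card : ℝ) * pw (w0 b) x.2 := ⟨_, rfl⟩
  have hw0 := w0_mirr b m hb
  rw [← hηd] at hw0
  have hp0 : ∀ x ∈ Z ×ˢ Gs b m, 0 ≤ p x := by
    intro x hx
    rw [mem_product] at hx
    rw [hp]
    exact mul_nonneg (one_div_nonneg.2 hZc.le) (pw_nonneg hw0 x.2)
  have hp1 : ∑ x ∈ Z ×ˢ Gs b m, p x = 1 := by
    rw [hp, sum_product]
    simp only
    rw [sum_const, ← mul_sum, nsmul_eq_mul, ← mul_assoc, mul_one_div, div_self hZc.ne', one_mul, pw_sum hw0]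
  have hfb : ∀ x ∈ Z ×ˢ Gs b m, f x ≤ 3 * b ^ k := by
    intro x hx
    rw [mem_product] at hx
    have h2 := (val_lt b m t (by omega) x.2 hx.2).le
    have h3 := hZb _ hx.1
    rw [hf]
    dsimp only
    rw [← hkm] at h2
    have h4 : t * x.1 * b ^ m ≤ b ^ k := by
      calc t * x.1 * b ^ m ≤ 1 * b * b ^ m := Nat.mul_le_mul_right _ (Nat.mul_le_mul ht1 h3.le)
        _ = b ^ (m + 1) := by rw [pow_succ]; ring
        _ ≤ b ^ k := Nat.pow_le_pow_right (by omega) (by omega)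
    omega
  have hval : ∀ v, pf (Z ×ˢ Gs b m) p f v = ∑ z ∈ Z, 1 / (Z.card : ℝ) * ∑ g ∈ Gs b m, (if val b k g + t * z * b ^ m = v then pw (w0 b) g else 0) := by
    intro v
    unfold pf
    rw [sum_product]
    apply sum_congr rfl
    intro z _
    rw [mul_sum]
    apply sum_congr rfl
    intro g _
    rw [hf, hp]
    dsimp only
    split_ifs <;> ring
  refine ⟨(Z ×ˢ Gs b m).image f, pf (Z ×ˢ Gs b m) p f, fun v _ => pf_nonneg _ _ hp0 _ v, pf_one _ _ hp1 _, ?_, ?_, ?_, ?_⟩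
  · intro v _
    rw [hval]
    have h2 : ∀ z ∈ Z, 1 / (Z.card : ℝ) * ∑ g ∈ Gs b m, (if val b k g + t * z * b ^ m = v then pw (w0 b) g else 0) ≤
        1 / (Z.card : ℝ) * (1 / Real.log N ^ U) := by
      intro z _
      apply mul_le_mul_of_nonneg_left _ (one_div_nonneg.2 hZc.le)
      have h3 := interval b m t m (by omega) η hη.le (by linarith) le_rfl (w0 b) hw0
        (fun g => val b k g + t * z * b ^ m = v) (by
        intro g _ g' _ hg hg'
        rw [← hkm]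
        have : 0 < b ^ (k - m) := by positivity
        omega)
      refine h3.trans (hn0 (m - 1) (by omega) (Real.log N) hlog0 ?_)
      have h4 := log_le b B N k (by omega) (by omega) hN0 hNk
      have h5 : (k : ℝ) ≤ 4 * ((m - 1 : ℕ) : ℝ) := by exact_mod_cast (by omega : k ≤ 4 * (m - 1))
      calc Real.log N ≤ ((B : ℝ) + b) * k := h4
        _ ≤ ((B : ℝ) + b) * (4 * ((m - 1 : ℕ) : ℝ)) := mul_le_mul_of_nonneg_left h5 (by positivity)
        _ = _ := by ring
    refine (sum_le_sum h2).trans (le_of_eq ?_)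
    rw [sum_const, nsmul_eq_mul, ← mul_assoc, mul_one_div_cancel hZc.ne', one_mul]
  · intro v hv
    rw [mem_image] at hv
    obtain ⟨x, hx, rfl⟩ := hv
    have h2 := hfb x hx
    calc c + κ * f x ≤ B * N + κ * (3 * (B * N)) := by
          apply add_le_add hc (Nat.mul_le_mul_left _ (h2.trans (Nat.mul_le_mul_left _ hkN)))
      _ = _ := by ring
  · intro v hv
    have h2 := card_pals_filter_le b m t hb (by omega) ht1 (fun v' => v' = v)
    rw [← hkm, ← hZ] at h2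
    have h3 : 1 ≤ ((Pals b k).filter (fun v' => v' = v)).card := by
      rw [Nat.one_le_iff_ne_zero, ← Nat.pos_iff_ne_zero, card_pos]
      exact ⟨v, mem_filter.2 ⟨hv, rfl⟩⟩
    have h4 : (1 : ℝ) ≤ ∑ z ∈ Z, (((Hs b m).filter (fun x => pval b m t x z = v)).card : ℝ) := by
      have h5 : 1 ≤ ∑ z ∈ Z, ((Hs b m).filter (fun x => pval b m t x z = v)).card := by
        refine h3.trans (le_trans (le_of_eq ?_) (h2.trans (le_of_eq ?_)))
        · congr 1
          ext v'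
          simp only [mem_filter]
        · apply sum_congr rfl
          intro z _
          congr 1
          ext x
          simp only [mem_filter]
      exact_mod_cast h5
    have h5 : ∀ z ∈ Z, (((Hs b m).filter (fun x => pval b m t x z = v)).card : ℝ) ≤
        (Hs b m).card * ∑ g ∈ Gs b m, (if val b k g + t * z * b ^ m = v then pw (w0 b) g else 0) := by
      intro z _
      have h6 := card_le_prob b m (fun g => val b (2 * m + t) g + t * z * b ^ m = v)
      rw [← hkm] at h6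
      refine le_trans (le_of_eq ?_) (h6.trans (le_of_eq ?_))
      · congr 2
        ext x
        simp only [mem_filter]
        unfold pval
        rw [← hkm]
      · congr 1
        apply sum_congr rfl
        intro g _
        split_ifs <;> rfl
    have h6 : (1 : ℝ) ≤ ((Hs b m).card * Z.card : ℝ) * pf (Z ×ˢ Gs b m) p f v := by
      rw [hval]
      refine h4.trans ((sum_le_sum h5).trans (le_of_eq ?_))
      rw [← mul_sum, ← mul_sum]
      have e9 : ((Hs b m).card * Z.card : ℝ) * (1 / (Z.card : ℝ)) = (Hs b m).card := by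
        rw [mul_assoc, mul_one_div_cancel hZc.ne', mul_one]
      rw [← mul_assoc, e9]
    have h7 : (((Hs b m).card * (Zs b t).card : ℕ) : ℝ) ≤ ((Pals b (2 * m + t)).card : ℝ) := by
      exact_mod_cast card_pals_ge b m t (by omega) (by omega) ht1
    rw [← hkm, ← hZ] at h7
    push_cast at h7
    have h8 : 0 ≤ pf (Z ×ˢ Gs b m) p f v := pf_nonneg _ _ hp0 _ v
    constructor
    · by_contra hcon
      have h9 : pf (Z ×ˢ Gs b m) p f v = 0 := by
        unfold pf
        apply sum_eq_zero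
        intro x hx
        rw [if_neg]
        intro h
        exact hcon (h ▸ mem_image_of_mem f hx)
      rw [h9, mul_zero] at h6
      linarith
    · exact h6.trans (mul_le_mul_of_nonneg_right h7 h8)
  · intro z hz1 hz2 Kc hKc G hG
    have hbe : (1 + B + κ * (3 * B)) * B ≤ b ^ e := by
      rw [← he]
      exact (Nat.lt_pow_self (by omega)).le
    have hBN : (1 + B + κ * (3 * B)) * N ≤ b ^ (k + e) := by
      calc (1 + B + κ * (3 * B)) * N ≤ (1 + B + κ * (3 * B)) * (B * b ^ k) := Nat.mul_le_mul_left _ hNk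
        _ = (1 + B + κ * (3 * B)) * B * b ^ k := by ring
        _ ≤ b ^ e * b ^ k := Nat.mul_le_mul_right _ hbe
        _ = b ^ (k + e) := by rw [← pow_add, add_comm]
    have hlaw : Law b (FF0 b (κ : ℤ)) (D t) (2 * (U + 1) + 6) (k + e) (Z ×ˢ Gs b m) p
        (fun x => (c : ℤ) + (κ : ℤ) * (f x : ℕ)) := by
      have h2 := law_mix b (FF0 b (κ : ℤ)) (D t) (2 * (U + 1) + 6) (k + e) (Gs b m) (pw (w0 b)) Z hZne
        (fun z g => ((c : ℤ) + (κ : ℤ) * ((t * z * b ^ m : ℕ) : ℤ)) + (κ : ℤ) * (val b (2 * m + t) g : ℕ)) (fun z _ =>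
          hD t m (k + e) (by rw [hkm]) (by omega) (w0 b) hw0 _)
      rw [hp, hf]
      convert h2 using 1
      funext x
      rw [← hkm]
      push_cast
      ring
    have h2 := h1 t N hN1t (k + e) (by
        refine le_trans ?_ hBN
        exact Nat.le_mul_of_pos_left _ (by omega)) (by
        calc b ^ (k + e) = b ^ e * b ^ k := by rw [← pow_add, add_comm]
          _ ≤ b ^ e * (B * N) := Nat.mul_le_mul_left _ hkN
          _ = _ := by ring) _ (Z ×ˢ Gs b m) p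
      (fun x => (c : ℤ) + (κ : ℤ) * (f x : ℕ)) hlaw hp1 (by
        intro x hx
        have h3 := hfb x hx
        have h4 : κ * f x ≤ κ * (3 * (B * N)) := Nat.mul_le_mul_left _ (h3.trans (Nat.mul_le_mul_left _ hkN))
        have h5 : N + (c + κ * f x) ≤ b ^ (k + e) := by
          refine le_trans ?_ hBN
          calc N + (c + κ * f x) ≤ N + (B * N + κ * (3 * (B * N))) := by omega
            _ = _ := by ring
        have h6 : (0 : ℤ) < ((b ^ (k + e) : ℕ) : ℤ) := by positivity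
        have h7 : (c : ℤ) + (κ : ℤ) * (f x : ℕ) = ((c + κ * f x : ℕ) : ℤ) := by push_cast; ring
        constructor
        · rw [h7]
          have : (0 : ℤ) ≤ ((c + κ * f x : ℕ) : ℤ) := by positivity
          linarith
        · rw [h7]
          exact_mod_cast h5) z ((pow_le_pow_right₀ hlog1 hB0t).trans hz1) hz2 Kc hKc G hG
    have h3 := pf_sum (Z ×ˢ Gs b m) p f
      (fun v => |∑ n ∈ Icc 1 N, G n * (lamI ((n : ℤ) + ((c + κ * v : ℕ) : ℤ)) - lamzI z ((n : ℤ) + ((c + κ * v : ℕ) : ℤ)))|)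
    refine le_trans (le_of_eq ?_) h2
    refine Eq.trans ?_ (h3.trans ?_)
    · apply sum_congr _ (fun _ _ => rfl)
      ext v
      simp only [mem_image]
    · apply sum_congr rfl
      intro σ _
      push_cast
      rfl

end Pool.Agent.Q26.PD
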