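import Pool.Agent.Y820.LF.Fin
import Pool.Agent.Q26.PD.Tup3

set_option autoImplicit false

/-! Systems of linear forms with random constants: from the one shift estimate to the telescoping sum. -/

namespace Pool.Agent.Q26.PD
open Finset
open Pool.Agent.H373R2.T7
open Pool.Agent.W93.TD (tele_w avg_w total_w)
open Pool.Agent.Y820.LF

/-- the one shift estimate at the scale `N` for the integers `c + κ v`, uniform in `c` -/
def OneZ (N : ℕ) (U B0 E Bc : ℕ) (κ : ℤ) (Ω : Finset ℕ) (p : ℕ → ℝ) : Prop :=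
  ∀ c : ℤ, |c| ≤ (Bc : ℤ) * N → ∀ z : ℕ, Real.log N ^ B0 ≤ z → (z : ℝ) ≤ Real.log N ^ E → ∀ Kc : ℝ, 0 < Kc → ∀ G : ℕ → ℝ,
    (∀ n ∈ Icc 1 N, |G n| ≤ Kc) →
    ∑ v ∈ Ω, p v * |∑ n ∈ Icc 1 N, G n * (lamI ((n : ℤ) + (c + κ * (v : ℤ))) - lamzI z ((n : ℤ) + (c + κ * (v : ℤ))))| ≤
      Kc * (N / Real.log N ^ U)

/-- sums over an injective image -/
lemma reindex (N M : ℕ) (φ : ℕ → ℕ) (hφ : ∀ n ∈ Icc 1 N, φ n ∈ Icc 1 M)
    (hinj : ∀ n ∈ Icc 1 N, ∀ n' ∈ Icc 1 N, φ n = φ n' → n = n')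
    (G : ℕ → ℝ) (K : ℝ) (hK : 0 < K) (hG : ∀ n ∈ Icc 1 N, |G n| ≤ K) :
    ∃ G' : ℕ → ℝ, (∀ m ∈ Icc 1 M, |G' m| ≤ K) ∧ ∀ F : ℕ → ℝ, ∑ m ∈ Icc 1 M, G' m * F m = ∑ n ∈ Icc 1 N, G n * F (φ n) := by
  classical
  refine ⟨fun m => ∑ n ∈ (Icc 1 N).filter (fun n => φ n = m), G n, ?_, ?_⟩
  · intro m _
    rcases ((Icc 1 N).filter (fun n => φ n = m)).eq_empty_or_nonempty with h | ⟨n0, hn0⟩
    · simp only [h, sum_empty, abs_zero]
      exact hK.le
    · have h1 : (Icc 1 N).filter (fun n => φ n = m) = {n0} := by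
        ext n
        rw [mem_singleton]
        constructor
        · intro hn
          rw [mem_filter] at hn hn0
          exact hinj n hn.1 n0 hn0.1 (hn.2.trans hn0.2.symm)
        · rintro rfl
          exact hn0
      simp only [h1, sum_singleton]
      exact hG n0 (mem_filter.1 hn0).1
  · intro F
    have h1 : ∀ m ∈ Icc 1 M, (∑ n ∈ (Icc 1 N).filter (fun n => φ n = m), G n) * F m =
        ∑ n ∈ (Icc 1 N).filter (fun n => φ n = m), G n * F (φ n) := by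
      intro m _
      rw [sum_mul]
      apply sum_congr rfl
      intro n hn
      rw [(mem_filter.1 hn).2]
    rw [sum_congr rfl h1]
    exact sum_fiberwise_of_maps_to hφ _

/-- the one shift estimate for a linear form -/
lemma one_form (N M U B0 E Bc Q0 : ℕ) (κ : ℤ) (Ω : Finset ℕ) (p : ℕ → ℝ) (h : OneZ M U B0 E Bc κ Ω p) (C : ℤ)
    (hC : C ≠ 0 ∧ |C| ≤ Q0) (hNM : Q0 * N ≤ M) (c : ℤ) (hc : |c| + (M + 1) ≤ (Bc : ℤ) * M)
    (z : ℕ) (hz1 : Real.log M ^ B0 ≤ z) (hz2 : (z : ℝ) ≤ Real.log M ^ E) (K : ℝ) (hK : 0 < K) (G : ℕ → ℝ)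
    (hG : ∀ n ∈ Icc 1 N, |G n| ≤ K) :
    ∑ v ∈ Ω, p v * |∑ n ∈ Icc 1 N, G n * (lamI (C * (n : ℤ) + (c + κ * (v : ℤ))) - lamzI z (C * (n : ℤ) + (c + κ * (v : ℤ))))| ≤
      K * (M / Real.log M ^ U) := by
  obtain ⟨q, hq⟩ : ∃ q : ℕ, (q : ℤ) = |C| := ⟨C.natAbs, by rw [Int.natCast_natAbs]⟩
  have hq1 : 1 ≤ q := by
    have : 0 < |C| := abs_pos.2 hC.1
    omega
  have hqQ : q ≤ Q0 := by
    have := hC.2
    rw [← hq] at this
    exact_mod_cast this
  have hqM : ∀ n ∈ Icc 1 N, 1 ≤ q * n ∧ q * n ≤ M := by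
    intro n hn
    rw [mem_Icc] at hn
    refine ⟨Nat.mul_pos hq1 hn.1, ?_⟩
    exact (Nat.mul_le_mul hqQ hn.2).trans hNM
  rcases lt_or_gt_of_ne hC.1 with hneg | hpos
  · -- negative
    have hCq : C = -(q : ℤ) := by
      rw [hq, abs_of_neg hneg]; ring
    obtain ⟨G', hG', hF⟩ := reindex N M (fun n => M + 1 - q * n) (fun n hn => by
      have := hqM n hn
      rw [mem_Icc]
      omega) (fun n hn n' hn' hnn => by
      have h1 := hqM n hn
      have h2 := hqM n' hn'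
      have h3 : q * n = q * n' := by
        have : M + 1 - q * n = M + 1 - q * n' := hnn
        omega
      exact Nat.eq_of_mul_eq_mul_left hq1 h3) G K hK hG
    have h1 := h (c - (M + 1)) (by
      have := abs_sub c ((M : ℤ) + 1)
      rw [abs_of_nonneg (by positivity : (0 : ℤ) ≤ (M : ℤ) + 1)] at this
      linarith) z hz1 hz2 K hK G' hG'
    refine le_trans (le_of_eq ?_) h1
    apply sum_congr rfl
    intro v _
    congr 2
    rw [hF (fun m => lamI ((m : ℤ) + (c - (M + 1) + κ * (v : ℤ))) - lamzI z ((m : ℤ) + (c - (M + 1) + κ * (v : ℤ))))]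
    apply sum_congr rfl
    intro n hn
    have h2 := hqM n hn
    have h3 : (((M + 1 - q * n : ℕ) : ℤ) + (c - (M + 1) + κ * (v : ℤ))) = C * (n : ℤ) + (c + κ * (v : ℤ)) := by
      rw [Nat.cast_sub (by omega), hCq]
      push_cast
      ring
    simp only [h3]
  · have hCq : C = (q : ℤ) := by
      rw [hq, abs_of_pos hpos]
    obtain ⟨G', hG', hF⟩ := reindex N M (fun n => q * n) (fun n hn => by
      rw [mem_Icc]
      exact hqM n hn) (fun n _ n' _ hnn => Nat.eq_of_mul_eq_mul_left hq1 hnn) G K hK hG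
    have h1 := h c (by
      have : (0 : ℤ) ≤ (M : ℤ) + 1 := by positivity
      linarith) z hz1 hz2 K hK G' hG'
    refine le_trans (le_of_eq ?_) h1
    apply sum_congr rfl
    intro v _
    congr 2
    rw [hF (fun m => lamI ((m : ℤ) + (c + κ * (v : ℤ))) - lamzI z ((m : ℤ) + (c + κ * (v : ℤ))))]
    apply sum_congr rfl
    intro n _
    have h3 : (((q * n : ℕ) : ℤ) + (c + κ * (v : ℤ))) = C * (n : ℤ) + (c + κ * (v : ℤ)) := by
      rw [hCq]
      push_cast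
      ring
    simp only [h3]

/-- the difference of the product and its model -/
noncomputable def DL {s : ℕ} (τ0 : Bool) (z N : ℕ) (C H : Fin s → ℤ) : ℝ :=
  |∑ n ∈ Icc 1 N, g0 τ0 n * (∏ i, lamI (C i * (n : ℤ) + H i) - ∏ i, lamzI z (C i * (n : ℤ) + H i))|

theorem lf_diff {s : ℕ} (τ0 : Bool) (M N A z : ℕ) (U : ℕ) (κ c C : Fin s → ℤ) (Ω : Fin s → Finset ℕ) (p : Fin s → ℕ → ℝ)
    (hp0 : ∀ i, ∀ v ∈ Ω i, 0 ≤ p i v) (hp1 : ∀ i, ∑ v ∈ Ω i, p i v = 1)
    (hA : ∀ i, ∀ v ∈ Ω i, ∀ n ∈ Icc 1 N, C i * (n : ℤ) + (c i + κ i * (v : ℤ)) ≤ ((A * M : ℕ) : ℤ))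
    (hone : ∀ i, ∀ K : ℝ, 0 < K → ∀ G : ℕ → ℝ, (∀ n ∈ Icc 1 N, |G n| ≤ K) →
      ∑ v ∈ Ω i, p i v * |∑ n ∈ Icc 1 N, G n * (lamI (C i * (n : ℤ) + (c i + κ i * (v : ℤ))) -
        lamzI z (C i * (n : ℤ) + (c i + κ i * (v : ℤ))))| ≤ K * (M / Real.log M ^ (U + s + 2)))
    (hNM : N ≤ M) (hM : 1 ≤ M) (hA1 : 1 ≤ A) (hL1 : 1 ≤ Real.log M) (hLA : Real.log (A : ℝ) ≤ Real.log M)
    (hbig : (s : ℝ) * 2 ^ s ≤ Real.log M) (hV : (Vz z)⁻¹ ≤ Real.log M) :
    ∑ m ∈ Fintype.piFinset Ω, (∏ i, p i (m i)) * DL τ0 z N C (fun i => c i + κ i * (m i : ℤ)) ≤ M / Real.log M ^ U := by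
  classical
  obtain ⟨L, hL⟩ : ∃ L, L = Real.log (M : ℝ) := ⟨_, rfl⟩
  rw [← hL] at hL1 hLA hbig hV ⊢
  simp only [← hL] at hone
  have hL0 : 0 < L := by linarith
  have hM0 : (0 : ℝ) < M := by exact_mod_cast hM
  have hA0 : (0 : ℝ) < A := by exact_mod_cast hA1
  have hX1 : 1 ≤ A * M := Nat.mul_pos (by omega) hM
  have hlogX : Real.log ((A * M : ℕ) : ℝ) ≤ 2 * L := by
    rw [Nat.cast_mul, Real.log_mul hA0.ne' hM0.ne', ← hL]
    linarith
  have key := tele_w N Ω p hp0 hp1 (fun i n v => lamI (C i * (n : ℤ) + (c i + κ i * (v : ℤ))))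
    (fun i n v => lamzI z (C i * (n : ℤ) + (c i + κ i * (v : ℤ))))
    (2 * L) ((M : ℝ) / L ^ (U + s + 2)) (by linarith) (by positivity) (by
      intro i n hn v hv
      rw [abs_of_nonneg (lamI_nonneg _)]
      refine (lamI_le _ ((A * M : ℕ) : ℝ) (by exact_mod_cast hX1) ?_).trans hlogX
      exact_mod_cast hA i v hv n hn) (by
      intro i n hn v hv
      rw [abs_of_nonneg (lamzI_nonneg _ _)]
      exact (lamzI_le z _).trans (by linarith)) hone
    univ L hL0 (fun n _ => g0 τ0 n) (by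
      intro n hn m _
      rw [mem_Icc] at hn
      rw [abs_of_nonneg (g0_nonneg _ _)]
      unfold g0
      split_ifs
      · have q1 : Real.log (n : ℝ) ≤ L := by
          rw [hL]
          apply Real.log_le_log (by exact_mod_cast hn.1)
          exact_mod_cast hn.2.trans hNM
        exact ArithmeticFunction.vonMangoldt_le_log.trans q1
      · exact hL1) (by
      intro n m v i _; rfl)
  rw [card_univ, Fintype.card_fin] at key
  refine le_trans (le_of_eq ?_) (key.trans ?_)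
  · rfl
  calc (s : ℝ) * (L * (2 * L) ^ s * (M / L ^ (U + s + 2))) = ((s : ℝ) * 2 ^ s) * (M / L ^ U * (L ^ (s + 1) / L ^ (s + 2))) := by
        rw [mul_pow, show U + s + 2 = U + (s + 2) by ring, pow_add L U, pow_succ L s]
        field_simp
    _ ≤ L * (M / L ^ U * (L ^ (s + 1) / L ^ (s + 2))) := mul_le_mul_of_nonneg_right hbig (by positivity)
    _ = M / L ^ U := by
        rw [show s + 2 = (s + 1) + 1 by ring, pow_succ L (s + 1)]
        field_simp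

/-- the weighted number of degenerate vectors -/
lemma lf_degen {s : ℕ} (κ c : Fin s → ℤ) (Ω : Fin s → Finset ℕ) (p : Fin s → ℕ → ℝ)
    (hp0 : ∀ i, ∀ v ∈ Ω i, 0 ≤ p i v) (hp1 : ∀ i, ∑ v ∈ Ω i, p i v = 1) (θ : ℝ) (hθ0 : 0 ≤ θ) (hθ : ∀ i, ∀ v ∈ Ω i, p i v ≤ θ)
    (hκ : ∀ i, κ i ≠ 0) (i : Fin s) (x : ℤ) (hx : x ≠ 0) (g : (Fin s → ℕ) → ℤ)
    (hg : ∀ m v, g (Function.update m i v) = g m) :
    ∑ m ∈ Fintype.piFinset Ω, (∏ i, p i (m i)) * (if x * (c i + κ i * (m i : ℤ)) = g m then (1 : ℝ) else 0) ≤ θ := by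
  classical
  have h1 := avg_w Ω p hp1 i (fun m => if x * (c i + κ i * (m i : ℤ)) = g m then (1 : ℝ) else 0)
  rw [← h1]
  have h2 : ∀ m ∈ Fintype.piFinset Ω, (∏ j, p j (m j)) *
      ∑ v ∈ Ω i, p i v * (if x * (c i + κ i * (((Function.update m i v) i : ℕ) : ℤ)) = g (Function.update m i v) then (1 : ℝ) else 0) ≤
      (∏ j, p j (m j)) * θ := by
    intro m hm
    apply mul_le_mul_of_nonneg_left _ (prod_nonneg fun j _ => hp0 j _ (Fintype.mem_piFinset.1 hm j))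
    have h3 : ∀ v ∈ Ω i, p i v * (if x * (c i + κ i * (((Function.update m i v) i : ℕ) : ℤ)) = g (Function.update m i v) then (1 : ℝ) else 0) =
        if x * (c i + κ i * (v : ℤ)) = g m then p i v else 0 := by
      intro v _
      rw [Function.update_self, hg]
      split_ifs <;> simp
    rw [sum_congr rfl h3]
    by_cases h4 : ∃ v ∈ Ω i, x * (c i + κ i * (v : ℤ)) = g m
    · obtain ⟨v0, hv0, hv1⟩ := h4
      rw [sum_eq_single_of_mem v0 hv0, if_pos hv1]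
      · exact hθ i v0 hv0
      · intro v _ hne
        rw [if_neg]
        intro hv2
        apply hne
        have h5 : x * (c i + κ i * (v : ℤ)) = x * (c i + κ i * (v0 : ℤ)) := by rw [hv1, hv2]
        have h6 := mul_left_cancel₀ hx h5
        have h7 : κ i * (v : ℤ) = κ i * (v0 : ℤ) := by linarith
        have h8 := mul_left_cancel₀ (hκ i) h7
        exact_mod_cast h8
    · push Not at h4
      rw [sum_eq_zero]
      · exact hθ0
      · intro v hv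
        rw [if_neg (h4 v hv)]
  refine (sum_le_sum h2).trans (le_of_eq ?_)
  rw [← sum_mul, total_w Ω p hp1, one_mul]

end Pool.Agent.Q26.PD
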