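import Pool.Agent.Q26.PD.LF

set_option autoImplicit false

/-! Systems of linear forms with random constants: the exceptional events are rare. -/

namespace Pool.Agent.Q26.PD
open Finset
open Pool.Agent.H373R2.T7
open Pool.Agent.W93.TD (tele_w avg_w total_w)
open Pool.Agent.Y820.LF

/-- the coefficient vectors -/
noncomputable def Cs (s Q0 : ℕ) : Finset (Fin s → ℤ) := Fintype.piFinset (fun _ => (Icc (-(Q0 : ℤ)) Q0).erase 0)

lemma mem_Cs {s Q0 : ℕ} (C : Fin s → ℤ) : C ∈ Cs s Q0 ↔ ∀ i, C i ≠ 0 ∧ |C i| ≤ (Q0 : ℤ) := by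
  unfold Cs
  rw [Fintype.mem_piFinset]
  apply forall_congr'
  intro i
  rw [mem_erase, mem_Icc, abs_le]

/-- the degenerate vectors, and those with a large difference -/
def BadH {s : ℕ} (τ0 : Bool) (Q0 M' X z : ℕ) (η : ℝ) (H : Fin s → ℤ) : Prop :=
  (∃ i, H i = 0) ∨ (∃ i j, i ≠ j ∧ ∃ x y : ℤ, x ≠ 0 ∧ |x| ≤ (Q0 : ℤ) ∧ |y| ≤ (Q0 : ℤ) ∧ x * H i = y * H j) ∨
    ∃ C ∈ Cs s Q0, ∃ g ≤ M', η * X < DL τ0 z (g * X / M') C H

theorem lf_rare {s : ℕ} (κ : Fin s → ℤ) (hκ : ∀ i, κ i ≠ 0) (Q0 B Bt Et U M' : ℕ) (hQ0 : 1 ≤ Q0) (hM' : 1 ≤ M')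
    (η : ℝ) (hη : 0 < η) : ∃ n0 : ℕ, ∀ X : ℕ, n0 ≤ X → ∀ z : ℕ, 1 ≤ z → Real.log ((Q0 * X : ℕ) : ℝ) ^ Bt ≤ z →
    (z : ℝ) ≤ Real.log ((Q0 * X : ℕ) : ℝ) ^ Et → ∀ (τ0 : Bool) (c : Fin s → ℤ) (Ω : Fin s → Finset ℕ) (p : Fin s → ℕ → ℝ),
    (∀ i, |c i| ≤ (B : ℤ) * X) → (∀ i, ∀ v ∈ Ω i, 0 ≤ p i v) → (∀ i, ∑ v ∈ Ω i, p i v = 1) →
    (∀ i, ∀ v ∈ Ω i, p i v ≤ 1 / Real.log ((Q0 * X : ℕ) : ℝ) ^ (U + s + 3)) →
    (∀ i, ∀ v ∈ Ω i, |c i + κ i * (v : ℤ)| ≤ (B : ℤ) * X) →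
    (∀ i, OneZ (Q0 * X) (U + s + 3) Bt Et (B + 2) (κ i) (Ω i) (p i)) →
    ∀ Bad : (Fin s → ℕ) → Prop, [DecidablePred Bad] →
    (∀ v ∈ Fintype.piFinset Ω, Bad v → BadH τ0 Q0 M' X z η (fun i => c i + κ i * (v i : ℤ))) →
    ∑ v ∈ Fintype.piFinset Ω, (if Bad v then ∏ i, p i (v i) else 0) ≤ 1 / Real.log X ^ U := by
  classical
  obtain ⟨Cst, hCst⟩ : ∃ Cst : ℝ, Cst = s + ((2 * (Q0 : ℝ) + 1) * (2 * Q0 + 1)) * (s * s) +
    (Cs s Q0).card * ((M' + 1) * (Q0 / η)) := ⟨_, rfl⟩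
  have hCst0 : 0 ≤ Cst := by rw [hCst]; positivity
  obtain ⟨n3, h3⟩ := Vz_inv_small Et
  obtain ⟨n4, h4⟩ := ev_L' (Cst + 2 + (s : ℝ) * 2 ^ s + Real.log ((Q0 + B + 1 : ℕ) : ℝ))
  obtain ⟨n5, h5⟩ := ev_L' 2
  refine ⟨n3 + n4 + n5 + 2, fun X hX z hz hz1 hz2 τ0 c Ω p hc hp0 hp1 hpθ hpA hone Bad _ hBad => ?_⟩
  obtain ⟨M, hM⟩ : ∃ M, M = Q0 * X := ⟨_, rfl⟩
  have hXM : X ≤ M := by rw [hM]; exact Nat.le_mul_of_pos_left _ (by omega)
  rw [← hM] at hz1 hz2 hpθ hone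
  have hL := h4 M (by omega)
  have hX0 : (0 : ℝ) < X := by exact_mod_cast (by omega : 0 < X)
  have hlX : Real.log X ≤ Real.log M := Real.log_le_log hX0 (by exact_mod_cast hXM)
  have hlX2 : 2 ≤ Real.log X := h5 X (by omega)
  obtain ⟨L, hLdef⟩ : ∃ L, L = Real.log (M : ℝ) := ⟨_, rfl⟩
  have q0 : 0 ≤ Real.log ((Q0 + B + 1 : ℕ) : ℝ) := Real.log_natCast_nonneg _
  have q1 : 0 ≤ (s : ℝ) * 2 ^ s := by positivity
  have hVz := h3 M (by omega) z hz hz2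
  rw [← hLdef] at hL hlX hpθ hVz
  have hL2 : 2 ≤ L := by linarith
  have hL1 : 1 ≤ L := by linarith
  have hL0 : 0 < L := by linarith
  have hM0 : (0 : ℝ) < M := by exact_mod_cast (by omega : 0 < M)
  obtain ⟨P, hP⟩ : ∃ P : (Fin s → ℕ) → ℝ, P = fun v => ∏ i, p i (v i) := ⟨_, rfl⟩
  have hPv : ∀ v, ∏ i, p i (v i) = P v := fun v => by rw [hP]
  obtain ⟨H, hH⟩ : ∃ H : (Fin s → ℕ) → Fin s → ℤ, H = fun v i => c i + κ i * (v i : ℤ) := ⟨_, rfl⟩
  have hHv : ∀ v, (fun i => c i + κ i * (v i : ℤ)) = H v := fun v => by rw [hH]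
  simp only [hHv] at hBad
  -- the parts
  have hθ0 : (0 : ℝ) ≤ 1 / L ^ (U + s + 3) := by positivity
  have part1 : ∀ i : Fin s, ∑ v ∈ Fintype.piFinset Ω, P v * (if H v i = 0 then (1 : ℝ) else 0) ≤ 1 / L ^ (U + s + 3) := by
    intro i
    have h6 := lf_degen κ c Ω p hp0 hp1 _ hθ0 hpθ hκ i 1 one_ne_zero (fun _ => 0) (fun _ _ => rfl)
    refine le_trans (le_of_eq ?_) h6
    apply sum_congr rfl
    intro v _
    rw [hPv, ← hHv]
    simp only [one_mul]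
  have part2 : ∀ x y : ℤ, ∀ i j : Fin s, ∑ v ∈ Fintype.piFinset Ω,
      P v * (if x ≠ 0 ∧ j ≠ i ∧ x * H v i = y * H v j then (1 : ℝ) else 0) ≤ 1 / L ^ (U + s + 3) := by
    intro x y i j
    by_cases hxj : x ≠ 0 ∧ j ≠ i
    · have h6 := lf_degen κ c Ω p hp0 hp1 _ hθ0 hpθ hκ i x hxj.1 (fun v => y * (c j + κ j * (v j : ℤ))) (fun v w => by
        rw [Function.update_of_ne hxj.2])
      refine le_trans (le_of_eq ?_) h6
      apply sum_congr rfl
      intro v _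
      rw [hPv, ← hHv]
      simp only [hxj.1, hxj.2, ne_eq, not_false_eq_true, true_and]
    · have h6 : ∀ v, ¬ (x ≠ 0 ∧ j ≠ i ∧ x * H v i = y * H v j) := fun v h => hxj ⟨h.1, h.2.1⟩
      simp only [h6, if_false, mul_zero, sum_const_zero]
      exact hθ0
  have part3 : ∀ C ∈ Cs s Q0, ∀ g ∈ range (M' + 1), ∑ v ∈ Fintype.piFinset Ω, P v * DL τ0 z (g * X / M') C (H v) ≤
      M / L ^ (U + 1) := by
    intro C hC g hg
    rw [mem_Cs] at hC
    rw [mem_range] at hg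
    obtain ⟨N, hN⟩ : ∃ N, N = g * X / M' := ⟨_, rfl⟩
    have hNX : N ≤ X := by
      rw [hN]
      calc g * X / M' ≤ M' * X / M' := Nat.div_le_div_right (Nat.mul_le_mul_right _ (by omega))
        _ = X := Nat.mul_div_cancel_left _ hM'
    rw [← hN]
    have h6 := lf_diff τ0 M N (Q0 + B + 1) z (U + 1) κ c C Ω p hp0 hp1 (by
      intro i v hv n hn
      rw [mem_Icc] at hn
      have h7 := hpA i v hv
      have h8 : C i * (n : ℤ) ≤ (Q0 : ℤ) * X := by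
        calc C i * (n : ℤ) ≤ |C i| * n := mul_le_mul_of_nonneg_right (le_abs_self _) (by positivity)
          _ ≤ (Q0 : ℤ) * X := mul_le_mul (hC i).2 (by exact_mod_cast hn.2.trans hNX) (by positivity) (by positivity)
      have h9 : ((X : ℕ) : ℤ) ≤ M := by exact_mod_cast hXM
      have h10 : (B : ℤ) * X ≤ B * M := mul_le_mul_of_nonneg_left h9 (by positivity)
      have h11 : (Q0 : ℤ) * X ≤ Q0 * M := mul_le_mul_of_nonneg_left h9 (by positivity)
      have h12 := le_abs_self (c i + κ i * (v : ℤ))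
      push_cast
      have h13 : (0 : ℤ) ≤ M := by positivity
      nlinarith) (fun i K hK G hG => by
      have h7 := one_form N M (U + s + 3) Bt Et (B + 2) Q0 (κ i) (Ω i) (p i) (hone i) (C i) (hC i) (by
        rw [hM]
        exact Nat.mul_le_mul_left _ hNX) (c i) (by
        have h8 := hc i
        have h9 : ((X : ℕ) : ℤ) ≤ M := by exact_mod_cast hXM
        have h10 : (B : ℤ) * X ≤ B * M := mul_le_mul_of_nonneg_left h9 (by positivity)
        have h11 : (1 : ℤ) ≤ M := by exact_mod_cast (by omega : 1 ≤ M)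
        push_cast
        nlinarith) z hz1 hz2 K hK G hG
      rw [show U + 1 + s + 2 = U + s + 3 by omega]
      exact h7) (hNX.trans hXM) (by omega) (by omega) (by rw [← hLdef]; exact hL1) (by rw [← hLdef]; linarith)
      (by rw [← hLdef]; linarith) (by rw [← hLdef]; exact hVz)
    rw [← hLdef] at h6
    refine le_trans (le_of_eq ?_) h6
    apply sum_congr rfl
    intro v _
    rw [hPv, ← hHv]
  -- the pointwise bound
  obtain ⟨J, hJ⟩ : ∃ J : Finset ℤ, J = Icc (-(Q0 : ℤ)) Q0 := ⟨_, rfl⟩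
  have hJc : (J.card : ℝ) = 2 * Q0 + 1 := by
    have : J.card = 2 * Q0 + 1 := by
      rw [hJ, Int.card_Icc]
      omega
    rw [this]
    push_cast
    ring
  have hηX : 0 < η * X := by positivity
  have hpt : ∀ v ∈ Fintype.piFinset Ω, (if Bad v then ∏ i, p i (v i) else 0) ≤
      ∑ i : Fin s, P v * (if H v i = 0 then (1 : ℝ) else 0) +
      ∑ x ∈ J, ∑ y ∈ J, ∑ i : Fin s, ∑ j : Fin s, P v * (if x ≠ 0 ∧ j ≠ i ∧ x * H v i = y * H v j then (1 : ℝ) else 0) +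
      ∑ C ∈ Cs s Q0, ∑ g ∈ range (M' + 1), 1 / (η * X) * (P v * DL τ0 z (g * X / M') C (H v)) := by
    intro v hv
    have hv' := Fintype.mem_piFinset.1 hv
    rw [hPv]
    have hP0 : 0 ≤ P v := by rw [← hPv]; exact prod_nonneg fun j _ => hp0 j _ (hv' j)
    have t1 : ∀ i ∈ (univ : Finset (Fin s)), 0 ≤ P v * (if H v i = 0 then (1 : ℝ) else 0) := fun i _ =>
      mul_nonneg hP0 (by split_ifs <;> norm_num)
    have t2 : ∀ x y : ℤ, ∀ i j : Fin s, 0 ≤ P v * (if x ≠ 0 ∧ j ≠ i ∧ x * H v i = y * H v j then (1 : ℝ) else 0) :=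
      fun x y i j => mul_nonneg hP0 (by split_ifs <;> norm_num)
    have t3 : ∀ C : Fin s → ℤ, ∀ g : ℕ, 0 ≤ 1 / (η * X) * (P v * DL τ0 z (g * X / M') C (H v)) := by
      intro C g
      unfold DL
      positivity
    have s1 := sum_nonneg t1
    have s2 : 0 ≤ ∑ x ∈ J, ∑ y ∈ J, ∑ i : Fin s, ∑ j : Fin s, P v * (if x ≠ 0 ∧ j ≠ i ∧ x * H v i = y * H v j then (1 : ℝ) else 0) :=
      sum_nonneg fun x _ => sum_nonneg fun y _ => sum_nonneg fun i _ => sum_nonneg fun j _ => t2 x y i j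
    have s3 : 0 ≤ ∑ C ∈ Cs s Q0, ∑ g ∈ range (M' + 1), 1 / (η * X) * (P v * DL τ0 z (g * X / M') C (H v)) :=
      sum_nonneg fun C _ => sum_nonneg fun g _ => t3 C g
    by_cases hb : Bad v
    swap
    · rw [if_neg hb]
      positivity
    rw [if_pos hb]
    rcases hBad v hv hb with ⟨i, hi⟩ | ⟨i, j, hij, x, y, hx, hxQ, hyQ, hxy⟩ | ⟨C, hC, g, hg, hlt⟩
    · have h6 := single_le_sum t1 (mem_univ i)
      rw [if_pos hi, mul_one] at h6
      linarith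
    · have hxJ : x ∈ J := by rw [hJ, mem_Icc, ← abs_le]; exact hxQ
      have hyJ : y ∈ J := by rw [hJ, mem_Icc, ← abs_le]; exact hyQ
      have h6 : P v * (if x ≠ 0 ∧ j ≠ i ∧ x * H v i = y * H v j then (1 : ℝ) else 0) ≤
          ∑ x ∈ J, ∑ y ∈ J, ∑ i : Fin s, ∑ j : Fin s, P v * (if x ≠ 0 ∧ j ≠ i ∧ x * H v i = y * H v j then (1 : ℝ) else 0) := by
        refine le_trans ?_ (single_le_sum (f := fun x => ∑ y ∈ J, ∑ i : Fin s, ∑ j : Fin s,
          P v * (if x ≠ 0 ∧ j ≠ i ∧ x * H v i = y * H v j then (1 : ℝ) else 0))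
          (fun x _ => sum_nonneg fun y _ => sum_nonneg fun i _ => sum_nonneg fun j _ => t2 x y i j) hxJ)
        refine le_trans ?_ (single_le_sum (f := fun y => ∑ i : Fin s, ∑ j : Fin s,
          P v * (if x ≠ 0 ∧ j ≠ i ∧ x * H v i = y * H v j then (1 : ℝ) else 0))
          (fun y _ => sum_nonneg fun i _ => sum_nonneg fun j _ => t2 x y i j) hyJ)
        refine le_trans ?_ (single_le_sum (f := fun i => ∑ j : Fin s,
          P v * (if x ≠ 0 ∧ j ≠ i ∧ x * H v i = y * H v j then (1 : ℝ) else 0))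
          (fun i _ => sum_nonneg fun j _ => t2 x y i j) (mem_univ i))
        exact single_le_sum (f := fun j => P v * (if x ≠ 0 ∧ j ≠ i ∧ x * H v i = y * H v j then (1 : ℝ) else 0))
          (fun j _ => t2 x y i j) (mem_univ j)
      rw [if_pos ⟨hx, hij.symm, hxy⟩, mul_one] at h6
      linarith
    · have h6 : 1 / (η * X) * (P v * DL τ0 z (g * X / M') C (H v)) ≤
          ∑ C ∈ Cs s Q0, ∑ g ∈ range (M' + 1), 1 / (η * X) * (P v * DL τ0 z (g * X / M') C (H v)) := by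
        refine le_trans ?_ (single_le_sum (f := fun C => ∑ g ∈ range (M' + 1), 1 / (η * X) * (P v * DL τ0 z (g * X / M') C (H v)))
          (fun C _ => sum_nonneg fun g _ => t3 C g) hC)
        exact single_le_sum (f := fun g => 1 / (η * X) * (P v * DL τ0 z (g * X / M') C (H v))) (fun g _ => t3 C g)
          (mem_range.2 (by omega))
      have h7 : P v ≤ 1 / (η * X) * (P v * DL τ0 z (g * X / M') C (H v)) := by
        rw [one_div, ← div_eq_inv_mul, le_div_iff₀ hηX]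
        exact mul_le_mul_of_nonneg_left hlt.le hP0
      linarith
  refine (sum_le_sum hpt).trans ?_
  rw [sum_add_distrib, sum_add_distrib]
  have g1 : ∑ v ∈ Fintype.piFinset Ω, ∑ i : Fin s, P v * (if H v i = 0 then (1 : ℝ) else 0) ≤ s * (1 / L ^ (U + s + 3)) := by
    rw [sum_comm]
    refine (sum_le_sum fun i _ => part1 i).trans (le_of_eq ?_)
    rw [sum_const, card_univ, Fintype.card_fin, nsmul_eq_mul]
  have g2 : ∑ v ∈ Fintype.piFinset Ω, ∑ x ∈ J, ∑ y ∈ J, ∑ i : Fin s, ∑ j : Fin s,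
      P v * (if x ≠ 0 ∧ j ≠ i ∧ x * H v i = y * H v j then (1 : ℝ) else 0) ≤
      ((2 * (Q0 : ℝ) + 1) * (2 * Q0 + 1)) * (s * s) * (1 / L ^ (U + s + 3)) := by
    rw [sum_comm]
    have a1 : ∀ x ∈ J, ∑ v ∈ Fintype.piFinset Ω, ∑ y ∈ J, ∑ i : Fin s, ∑ j : Fin s,
        P v * (if x ≠ 0 ∧ j ≠ i ∧ x * H v i = y * H v j then (1 : ℝ) else 0) ≤ (2 * (Q0 : ℝ) + 1) * (s * (s * (1 / L ^ (U + s + 3)))) := by
      intro x _
      rw [sum_comm]
      have a2 : ∀ y ∈ J, ∑ v ∈ Fintype.piFinset Ω, ∑ i : Fin s, ∑ j : Fin s,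
          P v * (if x ≠ 0 ∧ j ≠ i ∧ x * H v i = y * H v j then (1 : ℝ) else 0) ≤ s * (s * (1 / L ^ (U + s + 3))) := by
        intro y _
        rw [sum_comm]
        have a3 : ∀ i ∈ (univ : Finset (Fin s)), ∑ v ∈ Fintype.piFinset Ω, ∑ j : Fin s,
            P v * (if x ≠ 0 ∧ j ≠ i ∧ x * H v i = y * H v j then (1 : ℝ) else 0) ≤ s * (1 / L ^ (U + s + 3)) := by
          intro i _
          rw [sum_comm]
          refine (sum_le_sum fun j _ => part2 x y i j).trans (le_of_eq ?_)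
          rw [sum_const, card_univ, Fintype.card_fin, nsmul_eq_mul]
        refine (sum_le_sum a3).trans (le_of_eq ?_)
        rw [sum_const, card_univ, Fintype.card_fin, nsmul_eq_mul]
      refine (sum_le_sum a2).trans (le_of_eq ?_)
      rw [sum_const, nsmul_eq_mul, hJc]
    refine (sum_le_sum a1).trans (le_of_eq ?_)
    rw [sum_const, nsmul_eq_mul, hJc]
    ring
  have g3 : ∑ v ∈ Fintype.piFinset Ω, ∑ C ∈ Cs s Q0, ∑ g ∈ range (M' + 1), 1 / (η * X) * (P v * DL τ0 z (g * X / M') C (H v)) ≤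
      (Cs s Q0).card * ((M' + 1) * (Q0 / η)) * (1 / L ^ (U + 1)) := by
    rw [sum_comm]
    have a1 : ∀ C ∈ Cs s Q0, ∑ v ∈ Fintype.piFinset Ω, ∑ g ∈ range (M' + 1), 1 / (η * X) * (P v * DL τ0 z (g * X / M') C (H v)) ≤
        (M' + 1) * ((Q0 / η) * (1 / L ^ (U + 1))) := by
      intro C hC
      rw [sum_comm]
      have a2 : ∀ g ∈ range (M' + 1), ∑ v ∈ Fintype.piFinset Ω, 1 / (η * X) * (P v * DL τ0 z (g * X / M') C (H v)) ≤
          (Q0 / η) * (1 / L ^ (U + 1)) := by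
        intro g hg
        rw [← mul_sum]
        refine (mul_le_mul_of_nonneg_left (part3 C hC g hg) (by positivity)).trans (le_of_eq ?_)
        rw [hM]
        push_cast
        field_simp
      refine (sum_le_sum a2).trans (le_of_eq ?_)
      rw [sum_const, card_range, nsmul_eq_mul]
      push_cast
      ring
    refine (sum_le_sum a1).trans (le_of_eq ?_)
    rw [sum_const, nsmul_eq_mul]
    ring
  have e1 : 1 / L ^ (U + s + 3) ≤ 1 / L ^ (U + 1) :=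
    one_div_le_one_div_of_le (by positivity) (pow_le_pow_right₀ hL1 (by omega))
  have g4 : (s : ℝ) * (1 / L ^ (U + s + 3)) ≤ s * (1 / L ^ (U + 1)) := mul_le_mul_of_nonneg_left e1 (by positivity)
  have g5 : ((2 * (Q0 : ℝ) + 1) * (2 * Q0 + 1)) * (s * s) * (1 / L ^ (U + s + 3)) ≤
      ((2 * (Q0 : ℝ) + 1) * (2 * Q0 + 1)) * (s * s) * (1 / L ^ (U + 1)) := mul_le_mul_of_nonneg_left e1 (by positivity)
  have g6 : s * (1 / L ^ (U + 1)) + ((2 * (Q0 : ℝ) + 1) * (2 * Q0 + 1)) * (s * s) * (1 / L ^ (U + 1)) +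
      (Cs s Q0).card * ((M' + 1) * (Q0 / η)) * (1 / L ^ (U + 1)) = Cst * (1 / L ^ (U + 1)) := by
    rw [hCst]; ring
  have g7 : Cst * (1 / L ^ (U + 1)) ≤ 1 / L ^ U := by
    rw [pow_succ, mul_one_div, div_le_div_iff₀ (by positivity) (by positivity), one_mul, mul_comm]
    exact mul_le_mul_of_nonneg_left (by linarith) (by positivity)
  have g8 : 1 / L ^ U ≤ 1 / Real.log X ^ U :=
    one_div_le_one_div_of_le (by positivity) (pow_le_pow_left₀ (by linarith) hlX U)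
  linarith

end Pool.Agent.Q26.PD
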