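import Pool.Agent.Q26.PD.LF2

set_option autoImplicit false

/-! Systems of linear forms with random constants: the number of prime values. -/

namespace Pool.Agent.Q26.PD
open Finset
open Pool.Agent.H373R2.T7
open Pool.Agent.Y820.LF

/-- the formula of Hardy and Littlewood, for admissible systems -/
def GoodF (ε : ℝ) (m X : ℕ) {k : ℕ} (C H : Fin k → ℤ) : Prop :=
  AdmF C H → ∃ G : ℝ, 0 < G ∧ Filter.Tendsto (singF C H) Filter.atTop (nhds G) ∧
    ∀ N : ℕ, N ≤ X → X ≤ m * N → PosF C H N →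
      |(cntF C H N : ℝ) - G * (N / Real.log N ^ k)| ≤ ε * (G * (N / Real.log N ^ k))

/-- the formula for all the systems with the constants `H` -/
def GoodL {s : ℕ} (τ0 : Bool) (ε : ℝ) (m X Q0 : ℕ) (H : Fin s → ℤ) : Prop :=
  ∀ C : Fin s → ℤ, (∀ i, C i ≠ 0 ∧ |C i| ≤ (Q0 : ℤ)) → if τ0 = true then GoodF ε m X (C1 C) (H1 H) else GoodF ε m X C H

lemma z_le (Q0 m Et : ℕ) : ∃ n0 : ℕ, ∀ X : ℕ, n0 ≤ X → ∀ N' : ℕ, X ≤ 2 * m * N' →
    Real.log ((Q0 * X : ℕ) : ℝ) ^ Et ≤ Real.log N' ^ (Et + 1) := by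
  obtain ⟨n1, h1⟩ := ev_L' (Real.log ((Q0 * (2 * m) + 1 : ℕ) : ℝ) + 2 ^ Et + 1)
  refine ⟨2 * m * (n1 + 1) + 1, fun X hX N' hN' => ?_⟩
  have hn1 : n1 + 1 ≤ N' := by
    by_contra hcon
    push Not at hcon
    have : 2 * m * N' ≤ 2 * m * (n1 + 1) := Nat.mul_le_mul_left _ hcon.le
    omega
  have h2 := h1 N' (by omega)
  have h0 : 0 ≤ Real.log ((Q0 * (2 * m) + 1 : ℕ) : ℝ) := Real.log_natCast_nonneg _
  have hp : (0 : ℝ) < 2 ^ Et := by positivity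
  have hN0 : (0 : ℝ) < N' := by exact_mod_cast (by omega : 0 < N')
  have h3 : Real.log ((Q0 * X : ℕ) : ℝ) ≤ 2 * Real.log N' := by
    rcases Nat.eq_zero_or_pos (Q0 * X) with h | h
    · rw [h, Nat.cast_zero, Real.log_zero]
      linarith
    · have h4 : Real.log ((Q0 * X : ℕ) : ℝ) ≤ Real.log (((Q0 * (2 * m) + 1 : ℕ) : ℝ) * N') := by
        apply Real.log_le_log (by exact_mod_cast h)
        have : Q0 * X ≤ (Q0 * (2 * m) + 1) * N' := by
          calc Q0 * X ≤ Q0 * (2 * m * N') := Nat.mul_le_mul_left _ hN'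
            _ ≤ (Q0 * (2 * m) + 1) * N' := by
              rw [← mul_assoc]
              exact Nat.mul_le_mul_right _ (by omega)
        exact_mod_cast this
      rw [Real.log_mul (by positivity) hN0.ne'] at h4
      linarith
  have h5 : 0 ≤ Real.log ((Q0 * X : ℕ) : ℝ) := Real.log_natCast_nonneg _
  calc Real.log ((Q0 * X : ℕ) : ℝ) ^ Et ≤ (2 * Real.log N') ^ Et := pow_le_pow_left₀ h5 h3 Et
    _ = 2 ^ Et * Real.log N' ^ Et := mul_pow _ _ _
    _ ≤ Real.log N' * Real.log N' ^ Et := mul_le_mul_of_nonneg_right (by linarith) (by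
        apply pow_nonneg; linarith)
    _ = _ := by ring

theorem det1 (s Q0 B m Et : ℕ) (hs : 1 ≤ s) (hQ0 : 1 ≤ Q0) (hm : 1 ≤ m) (ε : ℝ) (hε : 0 < ε) :
    ∃ η : ℝ, 0 < η ∧ ∃ M' n0 : ℕ, 1 ≤ M' ∧ ∀ X : ℕ, n0 ≤ X → ∀ z : ℕ, 1 ≤ z → Real.log X ^ 2 ≤ z →
    (z : ℝ) ≤ Real.log ((Q0 * X : ℕ) : ℝ) ^ Et → ∀ H : Fin s → ℤ, (∀ i, |H i| ≤ (B : ℤ) * X) →
    ¬ BadH true Q0 M' X z η H → GoodL true ε m X Q0 H := by
  obtain ⟨η, hη, M', n0, hM', hfin⟩ := finish t_lim t_tr (s + 1) Q0 B m (by omega) hm ε hε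
  obtain ⟨n1, hmain⟩ := t_main1 s (Et + 1) 1 hs
  obtain ⟨n2, hn2⟩ : ∃ n2 : ℕ, Real.exp (1 / η + 1) ≤ n2 := ⟨_, Nat.le_ceil _⟩
  obtain ⟨n3, h3⟩ := z_le Q0 m Et
  refine ⟨η, hη, M', n0 + n3 + 2 * m * (n1 + n2 + 1), hM', fun X hX z hz hz1 hz2 H hH hbad C hC => ?_⟩
  rw [if_pos rfl]
  intro hadm
  unfold BadH at hbad
  push Not at hbad
  obtain ⟨hne, hnd, hgrid⟩ := hbad
  refine hfin X (by omega) (C1 C) (H1 H) ?_ ?_ ?_ hadm z hz1
    (fun n => ArithmeticFunction.vonMangoldt n * ∏ i, lamzI z (C i * (n : ℤ) + H i)) ?_ ?_ ?_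
  · intro i
    refine Fin.cases ?_ (fun i => ?_) i
    · rw [C1_zero]
      refine ⟨one_ne_zero, ?_⟩
      rw [abs_one]
      exact_mod_cast hQ0
    · rw [C1_succ]
      exact hC i
  · intro i
    refine Fin.cases ?_ (fun i => ?_) i
    · rw [H1_zero, abs_zero]
      positivity
    · rw [H1_succ]
      exact hH i
  · intro i j
    refine Fin.cases ?_ (fun i => ?_) i
    · refine Fin.cases ?_ (fun j => ?_) j
      · intro h; exact absurd rfl h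
      · intro _
        rw [C1_zero, H1_zero, H1_succ, C1_succ, one_mul, mul_zero]
        exact hne j
    · refine Fin.cases ?_ (fun j => ?_) j
      · intro _
        rw [C1_zero, H1_zero, H1_succ, C1_succ, one_mul, mul_zero]
        exact (hne i).symm
      · intro hij
        rw [C1_succ, C1_succ, H1_succ, H1_succ]
        have hij' : i ≠ j := fun h => hij (by rw [h])
        exact (hnd j i hij'.symm (C i) (C j) (hC i).1 (hC i).2 (hC j).2)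
  · rintro n hn ⟨i, hi⟩
    revert hi
    refine Fin.cases ?_ (fun i => ?_) i
    · rw [C1_zero, H1_zero]
      intro hi
      omega
    · rw [C1_succ, H1_succ]
      intro hi
      rw [prod_eq_zero (mem_univ i), mul_zero]
      unfold lamzI
      rw [if_neg (by omega)]
  · intro N' h1 h2 hpos
    have hN'n : n1 + n2 + 1 ≤ N' := by
      by_contra hcon
      push Not at hcon
      have : 2 * m * N' < 2 * m * (n1 + n2 + 1) := Nat.mul_lt_mul_of_pos_left hcon (by positivity)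
      omega
    have hN'0 : (0 : ℝ) < N' := by exact_mod_cast (by omega : 0 < N')
    have h3 := hmain N' (by omega) z (by omega) (hz2.trans (h3 X (by omega) N' h2)) C H (fun i => by
      have := hpos i.succ
      rwa [C1_succ, H1_succ] at this) hadm
    refine h3.trans ?_
    rw [pow_one]
    have h4 : 1 / η + 1 ≤ Real.log N' := by
      rw [Real.le_log_iff_exp_le hN'0]
      refine hn2.trans ?_
      exact_mod_cast (by omega : n2 ≤ N')
    have h5 : 0 < 1 / η := by positivity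
    rw [div_le_iff₀ (by linarith)]
    have h6 : (N' : ℝ) ≤ X := by exact_mod_cast h1
    have h7 : 1 ≤ η * Real.log N' := by
      have : η * (1 / η) ≤ η * Real.log N' := mul_le_mul_of_nonneg_left (by linarith) hη.le
      rwa [mul_one_div_cancel hη.ne'] at this
    nlinarith
  · intro g' hg'
    have h1 := hgrid C ((mem_Cs C).2 hC) g' hg'
    rw [← sum_sub_distrib]
    refine le_trans (le_of_eq ?_) h1
    unfold DL
    congr 1
    apply sum_congr rfl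
    intro n hn
    have hn1 := (mem_Icc.1 hn).1
    unfold g0
    simp only [if_true]
    rw [Fin.prod_univ_succ, mul_sub]
    congr 1
    rw [C1_zero, H1_zero]
    congr 1
    unfold lamI
    rw [if_pos (by omega), one_mul, add_zero, Int.toNat_natCast]

theorem det0 (s Q0 B m Et : ℕ) (hs : 1 ≤ s) (hm : 1 ≤ m) (ε : ℝ) (hε : 0 < ε) :
    ∃ η : ℝ, 0 < η ∧ ∃ M' n0 : ℕ, 1 ≤ M' ∧ ∀ X : ℕ, n0 ≤ X → ∀ z : ℕ, 1 ≤ z → Real.log X ^ 2 ≤ z →
    (z : ℝ) ≤ Real.log ((Q0 * X : ℕ) : ℝ) ^ Et → ∀ H : Fin s → ℤ, (∀ i, |H i| ≤ (B : ℤ) * X) →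
    ¬ BadH false Q0 M' X z η H → GoodL false ε m X Q0 H := by
  obtain ⟨η, hη, M', n0, hM', hfin⟩ := finish t_lim t_tr s Q0 B m hs hm ε hε
  obtain ⟨n1, hmain⟩ := t_main0 s (Et + 1) 1 hs
  obtain ⟨n2, hn2⟩ : ∃ n2 : ℕ, Real.exp (1 / η + 1) ≤ n2 := ⟨_, Nat.le_ceil _⟩
  obtain ⟨n3, h3⟩ := z_le Q0 m Et
  refine ⟨η, hη, M', n0 + n3 + 2 * m * (n1 + n2 + 1), hM', fun X hX z hz hz1 hz2 H hH hbad C hC => ?_⟩
  rw [if_neg Bool.false_ne_true]
  intro hadm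
  unfold BadH at hbad
  push Not at hbad
  obtain ⟨hne, hnd, hgrid⟩ := hbad
  refine hfin X (by omega) C H hC hH ?_ hadm z hz1 (fun n => ∏ i, lamzI z (C i * (n : ℤ) + H i)) ?_ ?_ ?_
  · intro i j hij
    exact (hnd j i hij.symm (C i) (C j) (hC i).1 (hC i).2 (hC j).2)
  · rintro n _ ⟨i, hi⟩
    apply prod_eq_zero (mem_univ i)
    unfold lamzI
    rw [if_neg (by omega)]
  · intro N' h1 h2 hpos
    have hN'n : n1 + n2 + 1 ≤ N' := by
      by_contra hcon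
      push Not at hcon
      have : 2 * m * N' < 2 * m * (n1 + n2 + 1) := Nat.mul_lt_mul_of_pos_left hcon (by positivity)
      omega
    have hN'0 : (0 : ℝ) < N' := by exact_mod_cast (by omega : 0 < N')
    have h3 := hmain N' (by omega) z (by omega) (hz2.trans (h3 X (by omega) N' h2)) C H hpos hadm
    refine h3.trans ?_
    rw [pow_one]
    have h4 : 1 / η + 1 ≤ Real.log N' := by
      rw [Real.le_log_iff_exp_le hN'0]
      refine hn2.trans ?_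
      exact_mod_cast (by omega : n2 ≤ N')
    have h5 : 0 < 1 / η := by positivity
    rw [div_le_iff₀ (by linarith)]
    have h6 : (N' : ℝ) ≤ X := by exact_mod_cast h1
    have h7 : 1 ≤ η * Real.log N' := by
      have : η * (1 / η) ≤ η * Real.log N' := mul_le_mul_of_nonneg_left (by linarith) hη.le
      rwa [mul_one_div_cancel hη.ne'] at this
    nlinarith
  · intro g' hg'
    have h1 := hgrid C ((mem_Cs C).2 hC) g' hg'
    rw [← sum_sub_distrib]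
    refine le_trans (le_of_eq ?_) h1
    unfold DL
    congr 1
    apply sum_congr rfl
    intro n _
    unfold g0
    simp only [Bool.false_eq_true, if_false, one_mul]

/-- the main theorem for arbitrary random constants with the one shift estimate -/
theorem lf_main (τ0 : Bool) (s : ℕ) (hs : 1 ≤ s) (κ : Fin s → ℤ) (hκ : ∀ i, κ i ≠ 0) (Q0 B m Bt U : ℕ) (hQ0 : 1 ≤ Q0) (hm : 1 ≤ m)
    (ε : ℝ) (hε : 0 < ε) : ∃ n0 : ℕ, ∀ X : ℕ, n0 ≤ X → ∀ (c : Fin s → ℤ) (Ω : Fin s → Finset ℕ) (p : Fin s → ℕ → ℝ),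
    (∀ i, |c i| ≤ (B : ℤ) * X) → (∀ i, ∀ v ∈ Ω i, 0 ≤ p i v) → (∀ i, ∑ v ∈ Ω i, p i v = 1) →
    (∀ i, ∀ v ∈ Ω i, p i v ≤ 1 / Real.log ((Q0 * X : ℕ) : ℝ) ^ (U + s + 3)) →
    (∀ i, ∀ v ∈ Ω i, |c i + κ i * (v : ℤ)| ≤ (B : ℤ) * X) →
    (∀ i, OneZ (Q0 * X) (U + s + 3) Bt (Bt + 3) (B + 2) (κ i) (Ω i) (p i)) →
    ∀ Bad : (Fin s → ℕ) → Prop, [DecidablePred Bad] →
    (∀ v ∈ Fintype.piFinset Ω, Bad v → ¬ GoodL τ0 ε m X Q0 (fun i => c i + κ i * (v i : ℤ))) →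
    ∑ v ∈ Fintype.piFinset Ω, (if Bad v then ∏ i, p i (v i) else 0) ≤ 1 / Real.log X ^ U := by
  have hdet : ∃ η : ℝ, 0 < η ∧ ∃ M' n0 : ℕ, 1 ≤ M' ∧ ∀ X : ℕ, n0 ≤ X → ∀ z : ℕ, 1 ≤ z → Real.log X ^ 2 ≤ z →
    (z : ℝ) ≤ Real.log ((Q0 * X : ℕ) : ℝ) ^ (Bt + 3) → ∀ H : Fin s → ℤ, (∀ i, |H i| ≤ (B : ℤ) * X) →
    ¬ BadH τ0 Q0 M' X z η H → GoodL τ0 ε m X Q0 H := by
    cases τ0
    · exact det0 s Q0 B m (Bt + 3) hs hm ε hε
    · exact det1 s Q0 B m (Bt + 3) hs hQ0 hm ε hε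
  obtain ⟨η, hη, M', n1, hM', h1⟩ := hdet
  obtain ⟨n2, h2⟩ := lf_rare (s := s) κ hκ Q0 B Bt (Bt + 3) U M' hQ0 hM' η hη
  obtain ⟨n3, h3⟩ := ev_L' 2
  refine ⟨n1 + n2 + n3 + 2, fun X hX c Ω p hc hp0 hp1 hpθ hpA hone Bad _ hBad => ?_⟩
  have hXM : X ≤ Q0 * X := Nat.le_mul_of_pos_left _ (by omega)
  have hX0 : (0 : ℝ) < X := by exact_mod_cast (by omega : 0 < X)
  have hlX2 : 2 ≤ Real.log X := h3 X (by omega)
  have hlX : Real.log X ≤ Real.log ((Q0 * X : ℕ) : ℝ) := Real.log_le_log hX0 (by exact_mod_cast hXM)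
  obtain ⟨L, hL⟩ : ∃ L, L = Real.log ((Q0 * X : ℕ) : ℝ) := ⟨_, rfl⟩
  have hL2 : 2 ≤ L := by rw [hL]; linarith
  obtain ⟨z, hz⟩ : ∃ z, z = ⌈L ^ (Bt + 2)⌉₊ := ⟨_, rfl⟩
  have hz1 : L ^ (Bt + 2) ≤ z := by rw [hz]; exact Nat.le_ceil _
  have hz2 : (z : ℝ) ≤ L ^ (Bt + 3) := by
    have q1 : (z : ℝ) < L ^ (Bt + 2) + 1 := by rw [hz]; exact Nat.ceil_lt_add_one (by positivity)
    have q2 : 1 ≤ L ^ (Bt + 2) := one_le_pow₀ (by linarith)
    rw [pow_succ]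
    nlinarith
  have hzn : 1 ≤ z := by
    have : (1 : ℝ) ≤ z := (one_le_pow₀ (by linarith)).trans hz1
    exact_mod_cast this
  have hz3 : L ^ Bt ≤ z := (pow_le_pow_right₀ (by linarith) (by omega)).trans hz1
  have hz4 : Real.log X ^ 2 ≤ z := by
    calc Real.log X ^ 2 ≤ L ^ 2 := pow_le_pow_left₀ (by linarith) (by rw [hL]; exact hlX) 2
      _ ≤ L ^ (Bt + 2) := pow_le_pow_right₀ (by linarith) (by omega)
      _ ≤ z := hz1
  refine h2 X (by omega) z hzn (by rw [← hL]; exact hz3) (by rw [← hL]; exact hz2) τ0 c Ω p hc hp0 hp1 hpθ hpA hone Bad ?_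
  intro v hv hb
  by_contra hcon
  refine hBad v hv hb ?_
  have hv' := Fintype.mem_piFinset.1 hv
  exact h1 X (by omega) z hzn hz4 (by rw [← hL]; exact hz2) _ (fun i => hpA i _ (hv' i)) hcon

end Pool.Agent.Q26.PD
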