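import Pool.Agent.Q26.PD.LF3

set_option autoImplicit false

/-! The one shift estimate for palindromes and for integers with permuted digits, uniform in the constant. -/

namespace Pool.Agent.Q26.PD
open Finset
open Pool.Agent.H807R2.Dav
open Pool.Agent.H373R2.T7
open Pool.Agent.W93.DG
open Pool.Agent.W93.RD
open Pool.Agent.W93.AU (Law one_law)
open Pool.Agent.TH872.An (Spread V an_law FA FA_pos V_lt an_interval eta_le)

lemma rangeZ (N BN : ℕ) (c κ : ℤ) (v Bc B' : ℕ) (hc : |c| ≤ (Bc : ℤ) * N) (hv : v ≤ B' * N)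
    (hBN : (1 + Bc + κ.natAbs * B') * N ≤ BN) (hN : 0 < N) :
    -(BN : ℤ) < c + κ * (v : ℤ) ∧ (N : ℤ) + (c + κ * (v : ℤ)) ≤ (BN : ℤ) := by
  have h1 : |κ * (v : ℤ)| ≤ (κ.natAbs : ℤ) * (B' * N) := by
    rw [abs_mul, abs_of_nonneg (by positivity : (0 : ℤ) ≤ (v : ℤ)), ← Int.natCast_natAbs]
    exact mul_le_mul_of_nonneg_left (by exact_mod_cast hv) (by positivity)
  have h2 := abs_add_le c (κ * (v : ℤ))
  have h3 : ((1 + Bc + κ.natAbs * B') * N : ℤ) ≤ BN := by exact_mod_cast hBN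
  have h4 : (0 : ℤ) < N := by exact_mod_cast hN
  have h5 : |c + κ * (v : ℤ)| ≤ (BN : ℤ) - N := by
    have : ((1 + Bc + κ.natAbs * B') * N : ℤ) = N + (Bc : ℤ) * N + (κ.natAbs : ℤ) * (B' * N) := by ring
    linarith
  rw [abs_le] at h5
  constructor <;> linarith [h5.1, h5.2]

/-- random permutations -/
theorem permZ (b : ℕ) (hb : 2 ≤ b) (κ : ℤ) (hκ : κ ≠ 0) (B Bc U : ℕ) (η : ℝ) (hη : 0 < η) :
    ∃ B0 : ℕ, ∀ E : ℕ, ∃ N₀ : ℕ, ∀ N : ℕ, N₀ ≤ N → ∀ k : ℕ, N ≤ B * b ^ k → b ^ k ≤ B * N →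
      ∀ d : Fin k → ℕ, Spread b k η d →
      (∀ v, pf (univ : Finset (Equiv.Perm (Fin k))) (fun _ => 1 / (k.factorial : ℝ)) (fun σ => V b d σ) v ≤ 1 / Real.log N ^ U) ∧
      OneZ N U B0 E Bc κ ((univ : Finset (Equiv.Perm (Fin k))).image (fun σ => V b d σ))
        (pf (univ : Finset (Equiv.Perm (Fin k))) (fun _ => 1 / (k.factorial : ℝ)) (fun σ => V b d σ)) := by
  classical
  obtain ⟨e, he⟩ : ∃ e, e = (1 + Bc + κ.natAbs * B) * B := ⟨_, rfl⟩
  obtain ⟨D, K1, hD⟩ := an_law b hb η hη κ e (2 * (U + 1) + 6)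
  obtain ⟨B0, h0⟩ := one_at b (FA b κ) hb (FA_pos b hb _ hκ) U D (b ^ e * B)
  refine ⟨B0, fun E => ?_⟩
  obtain ⟨N1, h1⟩ := h0 E
  obtain ⟨η', hη'⟩ : ∃ η', η' = min η 1 := ⟨_, rfl⟩
  have hη'0 : 0 < η' := by rw [hη']; exact lt_min hη one_pos
  have hη'1 : η' ≤ 1 := by rw [hη']; exact min_le_right _ _
  obtain ⟨n0, hn0⟩ := expo (1 - η' / 2) (((B : ℝ) + b) * (4 / η')) (by linarith) (by linarith) (by positivity) U
  obtain ⟨k1, hk1⟩ := exists_nat_ge (4 / η' * (n0 + 1) + 4 / η')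
  refine ⟨N1 + B * b ^ (K1 + k1 + 1) + 3, fun N hN k hNk hkN d hd => ?_⟩
  have hkl : K1 + k1 + 1 ≤ k := k_large b B N k _ hb (by omega) hNk
  have hN0 : 0 < N := by omega
  have hlog0 : 0 < Real.log N := Real.log_pos (by exact_mod_cast (by omega : 1 < N))
  have hηd : η ≤ 1 := eta_le hd (by omega)
  have hηη : η' = η := by rw [hη']; exact min_eq_left hηd
  refine ⟨?_, ?_⟩
  · intro v
    obtain ⟨T, hT⟩ : ∃ T, T = ⌊η / 2 * (k : ℝ)⌋₊ := ⟨_, rfl⟩
    have hkr : (k1 : ℝ) ≤ k := by exact_mod_cast (by omega : k1 ≤ k)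
    have hT1 : (T : ℝ) ≤ η / 2 * k := by rw [hT]; exact Nat.floor_le (by positivity)
    have hT2 : η / 2 * (k : ℝ) < T + 1 := by rw [hT]; exact Nat.lt_floor_add_one _
    have hTk : T ≤ k := by
      have : (T : ℝ) ≤ k := hT1.trans (by nlinarith [Nat.cast_nonneg (α := ℝ) k])
      exact_mod_cast this
    have hk4 : 4 / η' * (n0 + 1) + 4 / η' ≤ (k : ℝ) := hk1.trans hkr
    have hk5 : 4 * ((n0 : ℝ) + 2) ≤ η * k := by
      rw [hηη] at hk4
      have : 4 / η * ((n0 : ℝ) + 1) + 4 / η = (4 * ((n0 : ℝ) + 2)) / η := by ring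
      rw [this, div_le_iff₀ hη] at hk4
      linarith
    have hTn : n0 ≤ T := by
      have : (n0 : ℝ) < T + 1 := by nlinarith [Nat.cast_nonneg (α := ℝ) n0]
      have : n0 < T + 1 := by exact_mod_cast this
      omega
    have hkT : (k : ℝ) ≤ 4 / η' * T := by
      rw [hηη, div_mul_eq_mul_div, le_div_iff₀ hη]
      nlinarith [Nat.cast_nonneg (α := ℝ) n0]
    have hlog : Real.log N ≤ (((B : ℝ) + b) * (4 / η')) * T := by
      calc Real.log N ≤ ((B : ℝ) + b) * k := log_le b B N k (by omega) (by omega) hN0 hNk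
        _ ≤ ((B : ℝ) + b) * (4 / η' * T) := mul_le_mul_of_nonneg_left hkT (by positivity)
        _ = _ := by ring
    have h2 := an_interval hd (by omega) hη.le (by omega) T hTk hT1 (fun σ => V b d σ = v) (by
      intro σ σ' h h'
      rw [h, h']
      have : 0 < b ^ (k - T) := by positivity
      omega)
    have h3 := hn0 T hTn (Real.log N) hlog0 hlog
    rw [hηη] at h3
    have h4 : (0 : ℝ) ≤ (1 - η / 2) ^ T := by
      apply pow_nonneg; linarith
    unfold pf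
    refine le_trans (le_of_eq ?_) (h2.trans (le_trans (by linarith) h3))
    apply sum_congr rfl
    intro σ _
    split_ifs <;> rfl
  · intro c hc z hz1 hz2 Kc hKc G hG
    have hbe : (1 + Bc + κ.natAbs * B) * B ≤ b ^ e := by
      rw [← he]
      exact (Nat.lt_pow_self (by omega)).le
    have hBN : (1 + Bc + κ.natAbs * B) * N ≤ b ^ (k + e) := by
      calc (1 + Bc + κ.natAbs * B) * N ≤ (1 + Bc + κ.natAbs * B) * (B * b ^ k) := Nat.mul_le_mul_left _ hNk
        _ = (1 + Bc + κ.natAbs * B) * B * b ^ k := by ring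
        _ ≤ b ^ e * b ^ k := Nat.mul_le_mul_right _ hbe
        _ = b ^ (k + e) := by rw [← pow_add, add_comm]
    have h2 := h1 N (by omega) (k + e) (by
        refine le_trans ?_ hBN
        exact Nat.le_mul_of_pos_left _ (by omega)) (by
        calc b ^ (k + e) = b ^ e * b ^ k := by rw [← pow_add, add_comm]
          _ ≤ b ^ e * (B * N) := Nat.mul_le_mul_left _ hkN
          _ = _ := by ring) _ (univ : Finset (Equiv.Perm (Fin k))) (fun _ => 1 / (k.factorial : ℝ))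
      (fun σ => c + κ * (V b d σ : ℕ)) (hD k (k + e) rfl (by omega) d hd c) (by
        rw [sum_const, card_univ, Fintype.card_perm, Fintype.card_fin, nsmul_eq_mul, mul_one_div, div_self]
        exact_mod_cast k.factorial_ne_zero) (by
        intro σ _
        exact rangeZ N (b ^ (k + e)) c κ (V b d σ) Bc B hc ((V_lt hd (by omega) σ).le.trans hkN) hBN hN0) z hz1 hz2 Kc hKc G hG
    have h3 := pf_sum (univ : Finset (Equiv.Perm (Fin k))) (fun _ => 1 / (k.factorial : ℝ)) (fun σ => V b d σ)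
      (fun v => |∑ n ∈ Icc 1 N, G n * (lamI ((n : ℤ) + (c + κ * (v : ℤ))) - lamzI z ((n : ℤ) + (c + κ * (v : ℤ))))|)
    refine le_trans (le_of_eq ?_) h2
    refine Eq.trans ?_ (h3.trans ?_)
    · apply sum_congr _ (fun _ _ => rfl)
      ext v
      simp only [mem_image, mem_univ, true_and]
    · rfl

open Pool.Agent.TH872.Mir in
/-- palindromes -/
theorem palZ (b : ℕ) (hb : 2 ≤ b) (κ : ℤ) (hκ : κ ≠ 0) (B Bc U : ℕ) :
    ∃ B0 : ℕ, ∀ E : ℕ, ∃ N₀ : ℕ, ∀ N : ℕ, N₀ ≤ N → ∀ k : ℕ, N ≤ B * b ^ k → b ^ k ≤ B * N →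
      ∃ (Ω : Finset ℕ) (p : ℕ → ℝ), (∀ v ∈ Ω, 0 ≤ p v) ∧ ∑ v ∈ Ω, p v = 1 ∧ (∀ v ∈ Ω, p v ≤ 1 / Real.log N ^ U) ∧
        (∀ v ∈ Ω, v ≤ 3 * b ^ k) ∧
        (∀ v ∈ Pals b k, v ∈ Ω ∧ 1 ≤ ((Pals b k).card : ℝ) * p v) ∧ OneZ N U B0 E Bc κ Ω p := by
  classical
  have hbr : (2 : ℝ) ≤ b := by exact_mod_cast hb
  have hb0 : (0 : ℝ) < b := by linarith
  obtain ⟨η, hηd⟩ : ∃ η : ℝ, η = 1 / (b : ℝ) ^ 2 := ⟨_, rfl⟩
  have hη : 0 < η := by rw [hηd]; positivity
  have hη1 : η ≤ 1 := by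
    rw [hηd, div_le_one (by positivity)]
    exact one_le_pow₀ (by linarith)
  obtain ⟨e, he⟩ : ∃ e, e = (1 + Bc + κ.natAbs * (3 * B)) * B := ⟨_, rfl⟩
  choose D hD using fun t : ℕ => mir_law b hb η hη κ e t (2 * (U + 1) + 6)
  choose B0' h0 using fun t : ℕ => one_at b (FF0 b κ) hb (FF0_pos b _ hκ) U (D t) (b ^ e * B)
  refine ⟨B0' 0 + B0' 1, fun E => ?_⟩
  choose N1 h1 using fun t : ℕ => h0 t E
  obtain ⟨n0, hn0⟩ := expo (1 - η / 2) (((B : ℝ) + b) * 4) (by linarith) (by linarith) (by positivity) U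
  refine ⟨N1 0 + N1 1 + B * b ^ (2 * n0 + 10) + 3, fun N hN k hNk hkN => ?_⟩
  have hkl : 2 * n0 + 10 ≤ k := k_large b B N k _ hb (by omega) hNk
  have hN0 : 0 < N := by omega
  have hlog0 : 0 < Real.log N := Real.log_pos (by exact_mod_cast (by omega : 1 < N))
  have hlog1 : 1 ≤ Real.log N := by
    rw [Real.le_log_iff_exp_le (by exact_mod_cast (by omega : 0 < N))]
    have : (3 : ℝ) ≤ N := by exact_mod_cast (by omega : 3 ≤ N)
    linarith [Real.exp_one_lt_d9]
  obtain ⟨m, hm⟩ : ∃ m, m = k / 2 := ⟨_, rfl⟩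
  obtain ⟨t, ht⟩ : ∃ t, t = k % 2 := ⟨_, rfl⟩
  have ht1 : t ≤ 1 := by omega
  have hkm : k = 2 * m + t := by omega
  have hB0t : B0' t ≤ B0' 0 + B0' 1 := by
    have : t = 0 ∨ t = 1 := by omega
    rcases this with h | h <;> rw [h] <;> omega
  have hN1t : N1 t ≤ N := by
    have : t = 0 ∨ t = 1 := by omega
    rcases this with h | h <;> rw [h] <;> omega
  have hm5 : n0 + 4 ≤ m := by omega
  obtain ⟨Z, hZ⟩ : ∃ Z, Z = Zs b t := ⟨_, rfl⟩
  have hZne : Z.Nonempty := by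
    rw [hZ]
    unfold Zs
    split_ifs
    · exact singleton_nonempty 0
    · exact ⟨0, mem_range.2 (by omega)⟩
  have hZb : ∀ z ∈ Z, z < b := fun z hz => mem_Zs b t z (by omega) (by rw [← hZ]; exact hz)
  have hZc : (0 : ℝ) < (Z.card : ℝ) := by exact_mod_cast hZne.card_pos
  obtain ⟨f, hf⟩ : ∃ f : ℕ × (Fin m → ℕ × ℕ) → ℕ, f = fun x => val b k x.2 + t * x.1 * b ^ m := ⟨_, rfl⟩
  obtain ⟨p, hp⟩ : ∃ p : ℕ × (Fin m → ℕ × ℕ) → ℝ, p = fun x => 1 / (Z.card : ℝ) * pw (w0 b) x.2 := ⟨_, rfl⟩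
  have hw0 := w0_mirr b m hb
  rw [← hηd] at hw0
  have hp0 : ∀ x ∈ Z ×ˢ Gs b m, 0 ≤ p x := by
    intro x hx
    rw [mem_product] at hx
    rw [hp]
    exact mul_nonneg (one_div_nonneg.2 hZc.le) (pw_nonneg hw0 x.2)
  have hp1 : ∑ x ∈ Z ×ˢ Gs b m, p x = 1 := by
    rw [hp, sum_product]
    simp only
    rw [sum_const, ← mul_sum, nsmul_eq_mul, ← mul_assoc, mul_one_div, div_self hZc.ne', one_mul, pw_sum hw0]
  have hfb : ∀ x ∈ Z ×ˢ Gs b m, f x ≤ 3 * b ^ k := by
    intro x hx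
    rw [mem_product] at hx
    have h2 := (val_lt b m t (by omega) x.2 hx.2).le
    have h3 := hZb _ hx.1
    rw [hf]
    dsimp only
    rw [← hkm] at h2
    have h4 : t * x.1 * b ^ m ≤ b ^ k := by
      calc t * x.1 * b ^ m ≤ 1 * b * b ^ m := Nat.mul_le_mul_right _ (Nat.mul_le_mul ht1 h3.le)
        _ = b ^ (m + 1) := by rw [pow_succ]; ring
        _ ≤ b ^ k := Nat.pow_le_pow_right (by omega) (by omega)
    omega
  have hval : ∀ v, pf (Z ×ˢ Gs b m) p f v = ∑ z ∈ Z, 1 / (Z.card : ℝ) * ∑ g ∈ Gs b m, (if val b k g + t * z * b ^ m = v then pw (w0 b) g else 0) := by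
    intro v
    unfold pf
    rw [sum_product]
    apply sum_congr rfl
    intro z _
    rw [mul_sum]
    apply sum_congr rfl
    intro g _
    rw [hf, hp]
    dsimp only
    split_ifs <;> ring
  refine ⟨(Z ×ˢ Gs b m).image f, pf (Z ×ˢ Gs b m) p f, fun v _ => pf_nonneg _ _ hp0 _ v, pf_one _ _ hp1 _, ?_, ?_, ?_, ?_⟩
  · intro v _
    rw [hval]
    have h2 : ∀ z ∈ Z, 1 / (Z.card : ℝ) * ∑ g ∈ Gs b m, (if val b k g + t * z * b ^ m = v then pw (w0 b) g else 0) ≤
        1 / (Z.card : ℝ) * (1 / Real.log N ^ U) := by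
      intro z _
      apply mul_le_mul_of_nonneg_left _ (one_div_nonneg.2 hZc.le)
      have h3 := interval b m t m (by omega) η hη.le (by linarith) le_rfl (w0 b) hw0
        (fun g => val b k g + t * z * b ^ m = v) (by
        intro g _ g' _ hg hg'
        rw [← hkm]
        have : 0 < b ^ (k - m) := by positivity
        omega)
      refine h3.trans (hn0 (m - 1) (by omega) (Real.log N) hlog0 ?_)
      have h4 := log_le b B N k (by omega) (by omega) hN0 hNk
      have h5 : (k : ℝ) ≤ 4 * ((m - 1 : ℕ) : ℝ) := by exact_mod_cast (by omega : k ≤ 4 * (m - 1))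
      calc Real.log N ≤ ((B : ℝ) + b) * k := h4
        _ ≤ ((B : ℝ) + b) * (4 * ((m - 1 : ℕ) : ℝ)) := mul_le_mul_of_nonneg_left h5 (by positivity)
        _ = _ := by ring
    refine (sum_le_sum h2).trans (le_of_eq ?_)
    rw [sum_const, nsmul_eq_mul, ← mul_assoc, mul_one_div_cancel hZc.ne', one_mul]
  · intro v hv
    rw [mem_image] at hv
    obtain ⟨x, hx, rfl⟩ := hv
    exact hfb x hx
  · intro v hv
    have h2 := card_pals_filter_le b m t hb (by omega) ht1 (fun v' => v' = v)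
    rw [← hkm, ← hZ] at h2
    have h3 : 1 ≤ ((Pals b k).filter (fun v' => v' = v)).card := by
      rw [Nat.one_le_iff_ne_zero, ← Nat.pos_iff_ne_zero, card_pos]
      exact ⟨v, mem_filter.2 ⟨hv, rfl⟩⟩
    have h4 : (1 : ℝ) ≤ ∑ z ∈ Z, (((Hs b m).filter (fun x => pval b m t x z = v)).card : ℝ) := by
      have h5 : 1 ≤ ∑ z ∈ Z, ((Hs b m).filter (fun x => pval b m t x z = v)).card := by
        refine h3.trans (le_trans (le_of_eq ?_) (h2.trans (le_of_eq ?_)))
        · congr 1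
          ext v'
          simp only [mem_filter]
        · apply sum_congr rfl
          intro z _
          congr 1
          ext x
          simp only [mem_filter]
      exact_mod_cast h5
    have h5 : ∀ z ∈ Z, (((Hs b m).filter (fun x => pval b m t x z = v)).card : ℝ) ≤
        (Hs b m).card * ∑ g ∈ Gs b m, (if val b k g + t * z * b ^ m = v then pw (w0 b) g else 0) := by
      intro z _
      have h6 := card_le_prob b m (fun g => val b (2 * m + t) g + t * z * b ^ m = v)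
      rw [← hkm] at h6
      refine le_trans (le_of_eq ?_) (h6.trans (le_of_eq ?_))
      · congr 2
        ext x
        simp only [mem_filter]
        unfold pval
        rw [← hkm]
      · congr 1
        apply sum_congr rfl
        intro g _
        split_ifs <;> rfl
    have h6 : (1 : ℝ) ≤ ((Hs b m).card * Z.card : ℝ) * pf (Z ×ˢ Gs b m) p f v := by
      rw [hval]
      refine h4.trans ((sum_le_sum h5).trans (le_of_eq ?_))
      rw [← mul_sum, ← mul_sum]
      have e9 : ((Hs b m).card * Z.card : ℝ) * (1 / (Z.card : ℝ)) = (Hs b m).card := by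
        rw [mul_assoc, mul_one_div_cancel hZc.ne', mul_one]
      rw [← mul_assoc, e9]
    have h7 : (((Hs b m).card * (Zs b t).card : ℕ) : ℝ) ≤ ((Pals b (2 * m + t)).card : ℝ) := by
      exact_mod_cast card_pals_ge b m t (by omega) (by omega) ht1
    rw [← hkm, ← hZ] at h7
    push_cast at h7
    have h8 : 0 ≤ pf (Z ×ˢ Gs b m) p f v := pf_nonneg _ _ hp0 _ v
    constructor
    · by_contra hcon
      have h9 : pf (Z ×ˢ Gs b m) p f v = 0 := by
        unfold pf
        apply sum_eq_zero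
        intro x hx
        rw [if_neg]
        intro h
        exact hcon (h ▸ mem_image_of_mem f hx)
      rw [h9, mul_zero] at h6
      linarith
    · exact h6.trans (mul_le_mul_of_nonneg_right h7 h8)
  · intro c hc z hz1 hz2 Kc hKc G hG
    have hbe : (1 + Bc + κ.natAbs * (3 * B)) * B ≤ b ^ e := by
      rw [← he]
      exact (Nat.lt_pow_self (by omega)).le
    have hBN : (1 + Bc + κ.natAbs * (3 * B)) * N ≤ b ^ (k + e) := by
      calc (1 + Bc + κ.natAbs * (3 * B)) * N ≤ (1 + Bc + κ.natAbs * (3 * B)) * (B * b ^ k) := Nat.mul_le_mul_left _ hNk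
        _ = (1 + Bc + κ.natAbs * (3 * B)) * B * b ^ k := by ring
        _ ≤ b ^ e * b ^ k := Nat.mul_le_mul_right _ hbe
        _ = b ^ (k + e) := by rw [← pow_add, add_comm]
    have hlaw : Law b (FF0 b κ) (D t) (2 * (U + 1) + 6) (k + e) (Z ×ˢ Gs b m) p
        (fun x => c + κ * (f x : ℕ)) := by
      have h2 := law_mix b (FF0 b κ) (D t) (2 * (U + 1) + 6) (k + e) (Gs b m) (pw (w0 b)) Z hZne
        (fun z g => (c + κ * ((t * z * b ^ m : ℕ) : ℤ)) + κ * (val b (2 * m + t) g : ℕ)) (fun z _ =>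
          hD t m (k + e) (by rw [hkm]) (by omega) (w0 b) hw0 _)
      rw [hp, hf]
      convert h2 using 1
      funext x
      rw [← hkm]
      push_cast
      ring
    have h2 := h1 t N hN1t (k + e) (by
        refine le_trans ?_ hBN
        exact Nat.le_mul_of_pos_left _ (by omega)) (by
        calc b ^ (k + e) = b ^ e * b ^ k := by rw [← pow_add, add_comm]
          _ ≤ b ^ e * (B * N) := Nat.mul_le_mul_left _ hkN
          _ = _ := by ring) _ (Z ×ˢ Gs b m) p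
      (fun x => c + κ * (f x : ℕ)) hlaw hp1 (by
        intro x hx
        have h3 := hfb x hx
        exact rangeZ N (b ^ (k + e)) c κ (f x) Bc (3 * B) hc (h3.trans (by
          calc 3 * b ^ k ≤ 3 * (B * N) := Nat.mul_le_mul_left _ hkN
            _ = 3 * B * N := by ring)) hBN hN0) z ((pow_le_pow_right₀ hlog1 hB0t).trans hz1) hz2 Kc hKc G hG
    have h3 := pf_sum (Z ×ˢ Gs b m) p f
      (fun v => |∑ n ∈ Icc 1 N, G n * (lamI ((n : ℤ) + (c + κ * (v : ℤ))) - lamzI z ((n : ℤ) + (c + κ * (v : ℤ))))|)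
    refine le_trans (le_of_eq ?_) h2
    refine Eq.trans ?_ (h3.trans ?_)
    · apply sum_congr _ (fun _ _ => rfl)
      ext v
      simp only [mem_image]
    · rfl

end Pool.Agent.Q26.PD
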