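import Pool.Agent.Q26.PD.LF4

set_option autoImplicit false

/-! The conclusions for palindromes and for permuted digits. -/

namespace Pool.Agent.Q26.PD
open Finset
open Pool.Agent.H373R2.T7
open Pool.Agent.Y820.LF
open Pool.Agent.TH872.An (Spread V V_lt)

lemma abs_le_of (c κ : ℤ) (X v Bc B' : ℕ) (hc : |c| ≤ (Bc : ℤ) * X) (hv : v ≤ B' * X) :
    |c + κ * (v : ℤ)| ≤ ((Bc + κ.natAbs * B' : ℕ) : ℤ) * X := by
  have h1 : |κ * (v : ℤ)| ≤ (κ.natAbs : ℤ) * (B' * X) := by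
    rw [abs_mul, abs_of_nonneg (by positivity : (0 : ℤ) ≤ (v : ℤ)), ← Int.natCast_natAbs]
    exact mul_le_mul_of_nonneg_left (by exact_mod_cast hv) (by positivity)
  have h2 := abs_add_le c (κ * (v : ℤ))
  push_cast
  have : ((Bc : ℤ) + |κ| * B') * X = (Bc : ℤ) * X + |κ| * (B' * X) := by ring
  rw [Int.natCast_natAbs] at h1
  linarith

open Classical in
/-- systems of linear forms with palindromic constants -/
theorem lf_pal (τ0 : Bool) (s : ℕ) (hs : 1 ≤ s) (b : Fin s → ℕ) (hb : ∀ i, 2 ≤ b i) (κ : Fin s → ℤ) (hκ : ∀ i, κ i ≠ 0)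
    (Q0 B m U : ℕ) (hQ0 : 1 ≤ Q0) (hm : 1 ≤ m) (ε : ℝ) (hε : 0 < ε) :
    ∃ X₀ : ℕ, ∀ X, X₀ ≤ X → ∀ k : Fin s → ℕ, (∀ i, X ≤ B * b i ^ k i ∧ b i ^ k i ≤ B * X) →
      ∀ c : Fin s → ℤ, (∀ i, |c i| ≤ (B : ℤ) * X) →
      (((Fintype.piFinset fun i => Pool.Agent.TH872.Mir.Pals (b i) (k i)).filter fun v =>
        ¬ GoodL τ0 ε m X Q0 (fun i => c i + κ i * (v i : ℤ))).card : ℝ) ≤
      ((Fintype.piFinset fun i => Pool.Agent.TH872.Mir.Pals (b i) (k i)).card : ℝ) / Real.log X ^ U := by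
  obtain ⟨B1, hB1⟩ : ∃ B1, B1 = ∑ i, (B + (κ i).natAbs * (3 * B)) := ⟨_, rfl⟩
  have hB1i : ∀ i, B + (κ i).natAbs * (3 * B) ≤ B1 := fun i => by
    rw [hB1]; exact single_le_sum (f := fun i => B + (κ i).natAbs * (3 * B)) (fun _ _ => Nat.zero_le _) (mem_univ i)
  choose B0 h0 using fun i => palZ (b i) (hb i) (κ i) (hκ i) (Q0 * B) (B1 + 2) (U + s + 3)
  obtain ⟨Bt, hBt⟩ : ∃ Bt, Bt = ∑ i, B0 i := ⟨_, rfl⟩
  have hBi : ∀ i, B0 i ≤ Bt := fun i => by rw [hBt]; exact single_le_sum (fun _ _ => Nat.zero_le _) (mem_univ i)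
  choose N1 h1 using fun i => h0 i (Bt + 3)
  obtain ⟨Nt, hNt⟩ : ∃ Nt, Nt = ∑ i, N1 i := ⟨_, rfl⟩
  have hNi : ∀ i, N1 i ≤ Nt := fun i => by rw [hNt]; exact single_le_sum (fun _ _ => Nat.zero_le _) (mem_univ i)
  obtain ⟨n0, h2⟩ := lf_main τ0 s hs κ hκ Q0 B1 m Bt U hQ0 hm ε hε
  refine ⟨Nt + n0 + 3, fun X hX k hk c hc => ?_⟩
  have hXM : X ≤ Q0 * X := Nat.le_mul_of_pos_left _ (by omega)
  have hlog1 : 1 ≤ Real.log ((Q0 * X : ℕ) : ℝ) := by
    rw [Real.le_log_iff_exp_le (by exact_mod_cast (by omega : 0 < Q0 * X))]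
    have : (3 : ℝ) ≤ ((Q0 * X : ℕ) : ℝ) := by exact_mod_cast (by omega : 3 ≤ Q0 * X)
    linarith [Real.exp_one_lt_d9]
  have hlogX : 0 < Real.log X := Real.log_pos (by exact_mod_cast (by omega : 1 < X))
  choose Ω p hp0 hp1 hpθ hpA hmem hone using fun i => h1 i (Q0 * X) (by have := hNi i; omega) (k i) (by
    calc Q0 * X ≤ Q0 * (B * b i ^ k i) := Nat.mul_le_mul_left _ (hk i).1
      _ = Q0 * B * b i ^ k i := by ring) (by
    calc b i ^ k i ≤ B * X := (hk i).2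
      _ ≤ Q0 * B * (Q0 * X) := Nat.mul_le_mul (Nat.le_mul_of_pos_left _ (by omega)) hXM)
  have hB1z : ∀ i, |c i| ≤ (B1 : ℤ) * X := fun i => by
    refine (hc i).trans ?_
    have : B ≤ B1 := by have := hB1i i; omega
    exact_mod_cast Nat.mul_le_mul_right X this
  have h4 := h2 X (by omega) c Ω p hB1z hp0 hp1 hpθ
    (fun i v hv => by
      have h5 := abs_le_of (c i) (κ i) X v B (3 * B) (hc i) ((hpA i v hv).trans (by
        calc 3 * b i ^ k i ≤ 3 * (B * X) := Nat.mul_le_mul_left _ (hk i).2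
          _ = 3 * B * X := by ring))
      refine h5.trans ?_
      exact_mod_cast Nat.mul_le_mul_right X (hB1i i))
    (fun i c' hc' z hz1 hz2 Kc hKc G hG =>
      hone i c' hc' z ((pow_le_pow_right₀ hlog1 (hBi i)).trans hz1) hz2 Kc hKc G hG)
    (fun v => ¬ GoodL τ0 ε m X Q0 (fun i => c i + κ i * (v i : ℤ))) (fun v _ h => h)
  obtain ⟨F, hF⟩ : ∃ F, F = Fintype.piFinset (fun i => Pool.Agent.TH872.Mir.Pals (b i) (k i)) := ⟨_, rfl⟩
  have hFc : (F.card : ℝ) = ∏ i, ((Pool.Agent.TH872.Mir.Pals (b i) (k i)).card : ℝ) := by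
    rw [hF, Fintype.card_piFinset, Nat.cast_prod]
  rw [← hF]
  have hpt : ∀ v ∈ F, v ∈ Fintype.piFinset Ω ∧ 1 ≤ (F.card : ℝ) * ∏ i, p i (v i) := by
    intro v hv
    rw [hF, Fintype.mem_piFinset] at hv
    have hv' : ∀ i, v i ∈ Ω i ∧ 1 ≤ ((Pool.Agent.TH872.Mir.Pals (b i) (k i)).card : ℝ) * p i (v i) := fun i =>
      hmem i (v i) (hv i)
    refine ⟨Fintype.mem_piFinset.2 fun i => (hv' i).1, ?_⟩
    rw [hFc, ← prod_mul_distrib]
    have h7 : ∏ _i : Fin s, (1 : ℝ) ≤ ∏ i, (((Pool.Agent.TH872.Mir.Pals (b i) (k i)).card : ℝ) * p i (v i)) :=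
      prod_le_prod (fun _ _ => by norm_num) (fun i _ => (hv' i).2)
    rwa [prod_const_one] at h7
  rw [div_eq_mul_one_div]
  calc ((F.filter (fun v => ¬ GoodL τ0 ε m X Q0 (fun i => c i + κ i * (v i : ℤ)))).card : ℝ)
      = ∑ v ∈ F.filter (fun v => ¬ GoodL τ0 ε m X Q0 (fun i => c i + κ i * (v i : ℤ))), (1 : ℝ) := by
        rw [sum_const, nsmul_eq_mul, mul_one]
    _ ≤ ∑ v ∈ F.filter (fun v => ¬ GoodL τ0 ε m X Q0 (fun i => c i + κ i * (v i : ℤ))), (F.card : ℝ) *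
          (if ¬ GoodL τ0 ε m X Q0 (fun i => c i + κ i * (v i : ℤ)) then ∏ i, p i (v i) else 0) := by
        apply sum_le_sum
        intro v hv
        rw [mem_filter] at hv
        rw [if_pos hv.2]
        exact (hpt v hv.1).2
    _ ≤ ∑ v ∈ Fintype.piFinset Ω, (F.card : ℝ) *
          (if ¬ GoodL τ0 ε m X Q0 (fun i => c i + κ i * (v i : ℤ)) then ∏ i, p i (v i) else 0) := by
        apply sum_le_sum_of_subset_of_nonneg
        · intro v hv
          exact (hpt v (mem_filter.1 hv).1).1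
        · intro v hv _
          have hv' := Fintype.mem_piFinset.1 hv
          apply mul_nonneg (by positivity)
          split_ifs
          · exact le_rfl
          · exact prod_nonneg fun i _ => hp0 i _ (hv' i)
    _ ≤ _ := by
        rw [← mul_sum]
        apply mul_le_mul_of_nonneg_left _ (by positivity)
        refine le_trans (le_of_eq ?_) h4
        apply sum_congr rfl
        intro x _
        split_ifs <;> rfl

open Classical in
/-- systems of linear forms whose constants have permuted digits -/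
theorem lf_perm (τ0 : Bool) (s : ℕ) (hs : 1 ≤ s) (b : Fin s → ℕ) (hb : ∀ i, 2 ≤ b i) (κ : Fin s → ℤ) (hκ : ∀ i, κ i ≠ 0)
    (Q0 B m U : ℕ) (hQ0 : 1 ≤ Q0) (hm : 1 ≤ m) (ε η : ℝ) (hε : 0 < ε) (hη : 0 < η) :
    ∃ X₀ : ℕ, ∀ X, X₀ ≤ X → ∀ k : Fin s → ℕ, (∀ i, X ≤ B * b i ^ k i ∧ b i ^ k i ≤ B * X) →
      ∀ d : ∀ i, Fin (k i) → ℕ, (∀ i, Spread (b i) (k i) η (d i)) → ∀ c : Fin s → ℤ, (∀ i, |c i| ≤ (B : ℤ) * X) →
      ((univ.filter fun σ : ∀ i, Equiv.Perm (Fin (k i)) =>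
        ¬ GoodL τ0 ε m X Q0 (fun i => c i + κ i * (V (b i) (d i) (σ i) : ℤ))).card : ℝ) ≤
      (∏ i, ((k i).factorial : ℝ)) / Real.log X ^ U := by
  obtain ⟨B1, hB1⟩ : ∃ B1, B1 = ∑ i, (B + (κ i).natAbs * B) := ⟨_, rfl⟩
  have hB1i : ∀ i, B + (κ i).natAbs * B ≤ B1 := fun i => by
    rw [hB1]; exact single_le_sum (f := fun i => B + (κ i).natAbs * B) (fun _ _ => Nat.zero_le _) (mem_univ i)
  choose B0 h0 using fun i => permZ (b i) (hb i) (κ i) (hκ i) (Q0 * B) (B1 + 2) (U + s + 3) η hη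
  obtain ⟨Bt, hBt⟩ : ∃ Bt, Bt = ∑ i, B0 i := ⟨_, rfl⟩
  have hBi : ∀ i, B0 i ≤ Bt := fun i => by rw [hBt]; exact single_le_sum (fun _ _ => Nat.zero_le _) (mem_univ i)
  choose N1 h1 using fun i => h0 i (Bt + 3)
  obtain ⟨Nt, hNt⟩ : ∃ Nt, Nt = ∑ i, N1 i := ⟨_, rfl⟩
  have hNi : ∀ i, N1 i ≤ Nt := fun i => by rw [hNt]; exact single_le_sum (fun _ _ => Nat.zero_le _) (mem_univ i)
  obtain ⟨n0, h2⟩ := lf_main τ0 s hs κ hκ Q0 B1 m Bt U hQ0 hm ε hε
  refine ⟨Nt + n0 + B + 3, fun X hX k hk d hd c hc => ?_⟩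
  have hXM : X ≤ Q0 * X := Nat.le_mul_of_pos_left _ (by omega)
  have hlog1 : 1 ≤ Real.log ((Q0 * X : ℕ) : ℝ) := by
    rw [Real.le_log_iff_exp_le (by exact_mod_cast (by omega : 0 < Q0 * X))]
    have : (3 : ℝ) ≤ ((Q0 * X : ℕ) : ℝ) := by exact_mod_cast (by omega : 3 ≤ Q0 * X)
    linarith [Real.exp_one_lt_d9]
  have hlogX : 0 < Real.log X := Real.log_pos (by exact_mod_cast (by omega : 1 < X))
  have h3 := fun i => h1 i (Q0 * X) (by have := hNi i; omega) (k i) (by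
    calc Q0 * X ≤ Q0 * (B * b i ^ k i) := Nat.mul_le_mul_left _ (hk i).1
      _ = Q0 * B * b i ^ k i := by ring) (by
    calc b i ^ k i ≤ B * X := (hk i).2
      _ ≤ Q0 * B * (Q0 * X) := Nat.mul_le_mul (Nat.le_mul_of_pos_left _ (by omega)) hXM) (d i) (hd i)
  have hB1z : ∀ i, |c i| ≤ (B1 : ℤ) * X := fun i => by
    refine (hc i).trans ?_
    have : B ≤ B1 := by have := hB1i i; omega
    exact_mod_cast Nat.mul_le_mul_right X this
  have h4 := h2 X (by omega) c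
    (fun i => (univ : Finset (Equiv.Perm (Fin (k i)))).image (fun σ => V (b i) (d i) σ))
    (fun i => pf (univ : Finset (Equiv.Perm (Fin (k i)))) (fun _ => 1 / ((k i).factorial : ℝ))
      (fun σ => V (b i) (d i) σ)) hB1z
    (fun i v _ => pf_nonneg _ _ (fun _ _ => by positivity) _ v)
    (fun i => by
      have h5 := pf_one (univ : Finset (Equiv.Perm (Fin (k i)))) (fun _ => 1 / ((k i).factorial : ℝ))
        (by
          rw [sum_const, card_univ, Fintype.card_perm, Fintype.card_fin, nsmul_eq_mul, mul_one_div, div_self]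
          exact_mod_cast (k i).factorial_ne_zero) (fun σ => V (b i) (d i) σ)
      convert h5)
    (fun i v _ => (h3 i).1 v)
    (fun i v hv => by
      rw [mem_image] at hv
      obtain ⟨σ, _, rfl⟩ := hv
      have h5 := abs_le_of (c i) (κ i) X (V (b i) (d i) σ) B B (hc i) ((V_lt (hd i) (by have := hb i; omega) σ).le.trans (hk i).2)
      refine h5.trans ?_
      exact_mod_cast Nat.mul_le_mul_right X (hB1i i))
    (fun i c' hc' z hz1 hz2 Kc hKc G hG => by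
      have h5 := (h3 i).2 c' hc' z ((pow_le_pow_right₀ hlog1 (hBi i)).trans hz1) hz2 Kc hKc G hG
      convert h5)
    (fun v => ¬ GoodL τ0 ε m X Q0 (fun i => c i + κ i * (v i : ℤ))) (fun v _ h => h)
  have h5 := pf_pi (fun i => Equiv.Perm (Fin (k i))) (fun i => (univ : Finset (Equiv.Perm (Fin (k i)))))
    (fun i _ => 1 / ((k i).factorial : ℝ)) (fun i σ => V (b i) (d i) σ)
    (fun v => ¬ GoodL τ0 ε m X Q0 (fun i => c i + κ i * (v i : ℤ)))
  have h6 : ∑ x : ∀ i, Equiv.Perm (Fin (k i)), (if ¬ GoodL τ0 ε m X Q0 (fun i => c i + κ i * (V (b i) (d i) (x i) : ℤ)) then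
      ∏ i, 1 / ((k i).factorial : ℝ) else 0) ≤ 1 / Real.log X ^ U := by
    rw [← Fintype.piFinset_univ]
    refine le_trans (le_of_eq ?_) (h5.symm.le.trans (le_trans (le_of_eq ?_) h4))
    · apply sum_congr rfl
      intro x _
      split_ifs <;> rfl
    · apply sum_congr _ _
      · congr 1
      · intro x _
        split_ifs <;> rfl
  have hpos : (0 : ℝ) < ∏ i, ((k i).factorial : ℝ) := prod_pos fun i _ => by exact_mod_cast (k i).factorial_pos
  rw [← sum_filter, sum_const, nsmul_eq_mul, prod_div_distrib, prod_const_one, mul_one_div,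
    div_le_div_iff₀ hpos (by positivity), one_mul] at h6
  rw [le_div_iff₀ (by positivity)]
  convert h6

end Pool.Agent.Q26.PD
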