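import Pool.Agent.Q26.PD.LF5

set_option autoImplicit false

/-! Systems `(q, a 1 + q d 1, ..., a s + q d s)`: definitions in plain terms. -/

namespace Pool.Agent.Q26.PD.Sys
open Finset Filter
open Pool.Agent.Y820.LF (nuF singF AdmF cntF PosF C1 H1 C1_zero H1_zero C1_succ H1_succ nuF_C1 cntF_C1)
open Pool.Agent.Q26.PD (GoodL GoodF)

/-- The number of the primes `q ≤ N` for which all `a i + q * d i` are (positive) primes. -/
def count {s : ℕ} (a d : Fin s → ℤ) (N : ℕ) : ℕ :=
  ((Icc 1 N).filter (fun q : ℕ => q.Prime ∧ ∀ i, (a i + q * d i).toNat.Prime)).card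

/-- The number `ν(p)` of the residues `r` modulo `p` for which `p` divides `r (a 1 + r d 1) ... (a s + r d s)`. -/
def nu {s : ℕ} (a d : Fin s → ℤ) (p : ℕ) : ℕ :=
  ((range p).filter (fun r : ℕ => p ∣ r ∨ ∃ i, (p : ℤ) ∣ a i + r * d i)).card

/-- No prime divides `r (a 1 + r d 1) ... (a s + r d s)` for all `r`. -/
def Adm {s : ℕ} (a d : Fin s → ℤ) : Prop := ∀ p : ℕ, p.Prime → nu a d p < p

/-- The partial products `∏_{p ≤ z} (1 - ν(p) / p) / (1 - 1 / p) ^ (s + 1)` of the singular series. -/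
noncomputable def sing {s : ℕ} (a d : Fin s → ℤ) (z : ℕ) : ℝ :=
  ∏ p ∈ (Icc 1 z).filter Nat.Prime, (1 - (nu a d p : ℝ) / p) / (1 - 1 / (p : ℝ)) ^ (s + 1)

/-- If there is no fixed prime divisor, then the formula of Hardy and Littlewood holds with a relative error of at
most `ε`, for all `N` between `X / m` and `X` such that the numbers `a i + q d i` with `1 ≤ q ≤ N` are positive: the
partial products of the singular series converge to some `G > 0`, and `count a d N` is `G N / log ^ (s + 1) N` up to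
the factor `1 ± ε`. -/
def Formula {s : ℕ} (ε : ℝ) (m X : ℕ) (a d : Fin s → ℤ) : Prop :=
  Adm a d → ∃ G : ℝ, 0 < G ∧ Tendsto (sing a d) atTop (nhds G) ∧
    ∀ N : ℕ, N ≤ X → X ≤ m * N → (∀ i, 0 < a i + d i ∧ 0 < a i + N * d i) →
      |(count a d N : ℝ) - G * (N / Real.log N ^ (s + 1))| ≤ ε * (G * (N / Real.log N ^ (s + 1)))

/-- The formula holds for ALL vectors `d` of integers with `1 ≤ |d i| ≤ D`. -/
def AllFormulas {s : ℕ} (ε : ℝ) (m X D : ℕ) (a : Fin s → ℤ) : Prop :=
  ∀ d : Fin s → ℤ, (∀ i, d i ≠ 0 ∧ |d i| ≤ (D : ℤ)) → Formula ε m X a d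

lemma swap (x : ℤ) (n : ℕ) (y : ℤ) : x * (n : ℤ) + y = y + n * x := by ring

lemma nu_eq {s : ℕ} (a d : Fin s → ℤ) (p : ℕ) : nuF (C1 d) (H1 a) p = nu a d p := by
  rw [nuF_C1]
  unfold nu
  congr 1
  apply filter_congr
  intro r _
  simp only [swap, Int.natCast_dvd_natCast]

lemma sing_eq {s : ℕ} (a d : Fin s → ℤ) : singF (C1 d) (H1 a) = sing a d := by
  funext z
  unfold singF sing
  apply prod_congr rfl
  intro p _
  rw [nu_eq]

lemma adm_iff {s : ℕ} (a d : Fin s → ℤ) : AdmF (C1 d) (H1 a) ↔ Adm a d := by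
  unfold AdmF Adm
  simp only [nu_eq]

lemma count_eq {s : ℕ} (a d : Fin s → ℤ) (N : ℕ) : cntF (C1 d) (H1 a) N = count a d N := by
  rw [cntF_C1]
  unfold count
  congr 1
  apply filter_congr
  intro n _
  simp only [swap]

lemma of_good {s : ℕ} (ε : ℝ) (m X D : ℕ) (a : Fin s → ℤ) (hX : 1 ≤ X) (h : GoodL true ε m X D a) : AllFormulas ε m X D a := by
  intro d hd hadm
  have h1 := h d hd
  rw [if_pos rfl] at h1
  obtain ⟨G, hG0, hG1, hG2⟩ := h1 ((adm_iff a d).2 hadm)
  rw [sing_eq] at hG1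
  refine ⟨G, hG0, hG1, fun N hN1 hN2 hpos => ?_⟩
  have hN0 : 1 ≤ N := by
    by_contra hcon
    have : N = 0 := by omega
    rw [this, mul_zero] at hN2
    omega
  have h2 := hG2 N hN1 hN2 (by
    intro i
    refine Fin.cases ?_ (fun i => ?_) i
    · rw [C1_zero, H1_zero]
      constructor <;> omega
    · rw [C1_succ, H1_succ, swap]
      have := hpos i
      constructor <;> omega)
  rw [count_eq] at h2
  exact h2

/-- for one pair `(a, d)` the condition is that of the problem -/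
lemma adm_one (a d : ℤ) : Adm (fun _ : Fin 1 => a) (fun _ => d) ↔ IsCoprime a d ∧ 2 ∣ a * d := by
  have key : ∀ p : ℕ, p.Prime → ∀ r, r < p → (¬ (p ∣ r ∨ ∃ _ : Fin 1, (p : ℤ) ∣ a + r * d)) →
      nu (fun _ : Fin 1 => a) (fun _ => d) p < p := by
    intro p hp r hr hnot
    unfold nu
    have h1 : (range p).filter (fun r : ℕ => p ∣ r ∨ ∃ _ : Fin 1, (p : ℤ) ∣ a + r * d) ⊂ range p := by
      rw [Finset.ssubset_iff_subset_ne]
      refine ⟨filter_subset _ _, fun h => ?_⟩
      have h2 : r ∈ (range p).filter (fun r : ℕ => p ∣ r ∨ ∃ _ : Fin 1, (p : ℤ) ∣ a + r * d) := by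
        rw [h]
        exact mem_range.2 hr
      exact hnot (mem_filter.1 h2).2
    have := card_lt_card h1
    rwa [card_range] at this
  constructor
  · intro h
    have ex : ∀ p : ℕ, p.Prime → ∃ r : ℕ, r < p ∧ ¬ p ∣ r ∧ ¬ (p : ℤ) ∣ a + r * d := by
      intro p hp
      have h1 := h p hp
      unfold nu at h1
      obtain ⟨r, hr, hr2⟩ := exists_mem_notMem_of_card_lt_card
        (s := (range p).filter (fun r : ℕ => p ∣ r ∨ ∃ _ : Fin 1, (p : ℤ) ∣ a + r * d)) (t := range p) (by rw [card_range]; exact h1)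
      have h2 : ¬ (p ∣ r ∨ ∃ _ : Fin 1, (p : ℤ) ∣ a + r * d) := fun h3 => hr2 (mem_filter.2 ⟨hr, h3⟩)
      push Not at h2
      exact ⟨r, mem_range.1 hr, h2.1, h2.2 0⟩
    constructor
    · rw [Int.isCoprime_iff_gcd_eq_one]
      by_contra hg
      obtain ⟨p, hp, hpg⟩ := Nat.exists_prime_and_dvd hg
      have h3 : (p : ℤ) ∣ a := (Int.natCast_dvd_natCast.2 hpg).trans (Int.gcd_dvd_left _ _)
      have h4 : (p : ℤ) ∣ d := (Int.natCast_dvd_natCast.2 hpg).trans (Int.gcd_dvd_right _ _)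
      obtain ⟨r, _, _, h5⟩ := ex p hp
      exact h5 (dvd_add h3 (Dvd.dvd.mul_left h4 _))
    · obtain ⟨r, hr, h2, h3⟩ := ex 2 Nat.prime_two
      have hr1 : r = 1 := by omega
      rw [hr1, Nat.cast_one, one_mul] at h3
      rcases Int.even_or_odd a with ha | ha
      · exact Dvd.dvd.mul_right ha.two_dvd d
      · rcases Int.even_or_odd d with hd | hd
        · exact Dvd.dvd.mul_left hd.two_dvd a
        · exact absurd (ha.add_odd hd).two_dvd h3
  · rintro ⟨hc, h2⟩ p hp
    have hpz := Nat.prime_iff_prime_int.1 hp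
    have hcop : (p : ℤ) ∣ a → (p : ℤ) ∣ d → False := fun h h' => hpz.not_isUnit (hc.isUnit_of_dvd' h h')
    by_cases hp2 : p = 2
    · subst hp2
      refine key 2 hp 1 (by norm_num) ?_
      rintro (h | ⟨_, h⟩)
      · omega
      · rw [Nat.cast_one, one_mul] at h
        rcases hpz.dvd_or_dvd h2 with h3 | h3
        · exact hcop h3 ((dvd_add_right h3).1 h)
        · exact hcop ((dvd_add_left h3).1 h) h3
    · have hp3 : 3 ≤ p := by
        have := hp.two_le
        omega
      by_cases h1 : (p : ℤ) ∣ a + (1 : ℕ) * d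
      · refine key p hp 2 (by omega) ?_
        rintro (h | ⟨_, h⟩)
        · exact absurd (Nat.le_of_dvd (by norm_num) h) (by omega)
        · have h4 : (p : ℤ) ∣ d := by
            have e : a + (2 : ℕ) * d = (a + (1 : ℕ) * d) + d := by push_cast; ring
            rw [e] at h
            exact (dvd_add_right h1).1 h
          have h5 : (p : ℤ) ∣ a := (dvd_add_left (Dvd.dvd.mul_left h4 _)).1 h1
          exact hcop h5 h4
      · refine key p hp 1 (by omega) ?_
        rintro (h | ⟨_, h⟩)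
        · exact absurd (Nat.le_of_dvd (by norm_num) h) (by omega)
        · exact h1 h

end Pool.Agent.Q26.PD.Sys
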