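import Pool.Agent.Q26.PD.LF5
import Pool.Agent.Results.MP_bf63dc_nt.BoundedlyManyPowers

set_option autoImplicit false

/-! Prime points on the lines through a point. -/

namespace Pool.Agent.Q26.PD.Ln
open Finset Filter
open Pool.Agent.Q26.PD (GoodL GoodF)
open Pool.Agent.Results.MP_bf63dc_nt.BoundedlyManyPowers (Ok Formula sol sing Cf Hf sing_eq sol_eq adm)

/-- For ALL `1 ≤ a, b ≤ D` for which `a`, `b` and `c = a u - b w` are pairwise relatively prime and not all odd, the
number of the prime solutions `(p, q)` of `a p - b q = c` with `w < q ≤ w + a N` (these are the prime points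
`(u + b t, w + a t)` with `1 ≤ t ≤ N`) satisfies the formula of Hardy and Littlewood with a relative error of at most
`ε`, for all `N` between `X / m` and `X`. -/
def Lines (ε : ℝ) (m X D : ℕ) (u w : ℕ) : Prop :=
  ∀ a b : ℕ, a ≤ D → b ≤ D → Ok a b ((a : ℤ) * u - b * w) → Formula ε m X a b ((a : ℤ) * u - b * w) w

lemma of_good (ε : ℝ) (m X D : ℕ) (u w : ℕ) (hX : 1 ≤ X) (H : Fin 2 → ℤ) (h0 : H 0 = u) (h1 : H 1 = w)
    (h : GoodL false ε m X D H) : Lines ε m X D u w := by
  intro a b ha hb hok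
  have hH : H = Hf u w := by
    funext i
    revert i
    rw [Fin.forall_fin_two]
    exact ⟨h0, h1⟩
  rw [hH] at h
  obtain ⟨ha1, hb1, _⟩ := id hok
  have h2 := h (Cf a b) (by
    rw [Fin.forall_fin_two]
    constructor
    · show (b : ℤ) ≠ 0 ∧ |(b : ℤ)| ≤ _
      rw [abs_of_nonneg (by positivity)]
      exact ⟨by exact_mod_cast (by omega : b ≠ 0), by exact_mod_cast hb⟩
    · show (a : ℤ) ≠ 0 ∧ |(a : ℤ)| ≤ _
      rw [abs_of_nonneg (by positivity)]
      exact ⟨by exact_mod_cast (by omega : a ≠ 0), by exact_mod_cast ha⟩)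
  rw [if_neg Bool.false_ne_true] at h2
  obtain ⟨G, hG0, hG1, hG2⟩ := h2 (adm a b _ hok u w rfl)
  rw [sing_eq a b _ hok u w rfl] at hG1
  refine ⟨G, hG0, hG1, fun N hN1 hN2 => ?_⟩
  have hN0 : 1 ≤ N := by
    by_contra hcon
    have : N = 0 := by omega
    rw [this, mul_zero] at hN2
    omega
  have h3 := hG2 N hN1 hN2 (by
    intro i
    revert i
    rw [Fin.forall_fin_two]
    constructor
    · show 1 ≤ (b : ℤ) + u ∧ 1 ≤ (b : ℤ) * N + u
      have h5 : 1 ≤ b * N := Nat.mul_pos hb1 hN0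
      constructor
      · exact_mod_cast (by omega : 1 ≤ b + u)
      · exact_mod_cast (by omega : 1 ≤ b * N + u)
    · show 1 ≤ (a : ℤ) + w ∧ 1 ≤ (a : ℤ) * N + w
      have h5 : 1 ≤ a * N := Nat.mul_pos ha1 hN0
      constructor
      · exact_mod_cast (by omega : 1 ≤ a + w)
      · exact_mod_cast (by omega : 1 ≤ a * N + w))
  rw [← sol_eq a b _ hok u w rfl] at h3
  exact h3

open Classical in
/-- from vectors with two components to pairs -/
lemma card_pairs (S T : Finset ℕ) (P : ℕ × ℕ → Prop) (Q : (Fin 2 → ℕ) → Prop) (h : ∀ v : Fin 2 → ℕ, ¬ Q v → ¬ P (v 0, v 1)) :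
    ((S ×ˢ T).filter P).card ≤ ((Fintype.piFinset (Fin.cons S (fun _ => T) : Fin 2 → Finset ℕ)).filter Q).card ∧
      (Fintype.piFinset (Fin.cons S (fun _ => T) : Fin 2 → Finset ℕ)).card = (S ×ˢ T).card := by
  constructor
  · apply card_le_card_of_injOn (fun x : ℕ × ℕ => (Fin.cons x.1 (fun _ => x.2) : Fin 2 → ℕ))
    · intro x hx
      rw [mem_coe, mem_filter, mem_product] at hx
      rw [mem_coe, mem_filter, Fintype.mem_piFinset, Fin.forall_fin_two]
      refine ⟨⟨hx.1.1, hx.1.2⟩, ?_⟩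
      by_contra hq
      exact h _ hq hx.2
    · intro x _ y _ hxy
      have h1 := congrFun hxy 0
      have h2 := congrFun hxy 1
      exact Prod.ext h1 h2
  · rw [Fintype.card_piFinset, Fin.prod_univ_two, card_product]
    rfl

end Pool.Agent.Q26.PD.Ln
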