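import Pool.Agent.Q26.PD.LW4

set_option autoImplicit false

/-! Common primes in the Goldbach representations of several numbers: the formula of Hardy and Littlewood in all
windows, for all short translates. -/

namespace Pool.Agent.Q26.PD.LG
open Finset
open Pool.Agent.Y820.LF

/-- the number of the primes `p` in `(y₁, y₂]` such that all `m i - p` are primes -/
def cnt {s : ℕ} (m : Fin s → ℕ) (y₁ y₂ : ℕ) : ℕ :=
  ((Ioc y₁ y₂).filter (fun p : ℕ => p.Prime ∧ ∀ i, (m i - p).Prime)).card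

/-- the number of different residues of `0, m_1, ..., m_s` modulo `q` -/
def nu {s : ℕ} (m : Fin s → ℕ) (q : ℕ) : ℕ := (insert 0 (univ.image fun i => m i % q)).card

/-- for no prime `q` the integers `0, m_1, ..., m_s` represent all residues modulo `q` -/
def Adm {s : ℕ} (m : Fin s → ℕ) : Prop := ∀ q : ℕ, q.Prime → nu m q < q

/-- the partial product of the singular series -/
noncomputable def sing {s : ℕ} (m : Fin s → ℕ) (z : ℕ) : ℝ :=
  ∏ q ∈ (Icc 1 z).filter Nat.Prime, (1 - (nu m q : ℝ) / q) / (1 - 1 / (q : ℝ)) ^ (s + 1)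

/-- the formula of Hardy and Littlewood for the number of the primes `p` in all windows -/
def Formula {s : ℕ} (ε : ℝ) (A X : ℕ) (m : Fin s → ℕ) : Prop :=
  Adm m → ∃ G : ℝ, 0 < G ∧ Filter.Tendsto (sing m) Filter.atTop (nhds G) ∧
    ∀ y₁ y₂ : ℕ, y₂ ≤ X → (∀ i, y₂ < m i) → (X : ℝ) / Real.log X ^ A ≤ (y₂ : ℝ) - y₁ →
      |(cnt m y₁ y₂ : ℝ) - G * (((y₂ : ℝ) - y₁) / Real.log X ^ (s + 1))| ≤ ε * (G * (((y₂ : ℝ) - y₁) / Real.log X ^ (s + 1)))

/-- the vector of the coefficients `-1` -/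
def N1 (s : ℕ) : Fin s → ℤ := fun _ => -1

/-- the vector of the constants -/
def HZ {s : ℕ} (m : Fin s → ℕ) : Fin s → ℤ := fun i => (m i : ℤ)

lemma nu_eq {s : ℕ} (m : Fin s → ℕ) (q : ℕ) (hq : 0 < q) : nuF (C1 (N1 s)) (H1 (HZ m)) q = nu m q := by
  unfold nuF nu
  congr 1
  ext r
  rw [mem_filter, mem_range, mem_insert, mem_image]
  have h0 : ∀ r : ℕ, r < q → (q ∣ r ↔ r = 0) := fun r hr => ⟨fun h => Nat.eq_zero_of_dvd_of_lt h hr, fun h => by rw [h]; exact dvd_zero _⟩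
  have h1 : ∀ (r : ℕ) (i : Fin s), r < q → ((q : ℤ) ∣ -1 * (r : ℤ) + (m i : ℤ) ↔ m i % q = r) := by
    intro r i hr
    have e1 : -1 * (r : ℤ) + (m i : ℤ) = (m i : ℤ) - r := by ring
    rw [e1]
    constructor
    · intro h
      have h2 : (m i : ℤ) % q = (r : ℤ) % q := ((Int.modEq_iff_dvd).2 h).symm
      have h3 : ((m i % q : ℕ) : ℤ) = ((r % q : ℕ) : ℤ) := by push_cast; exact h2
      have h4 : m i % q = r % q := by exact_mod_cast h3
      rw [h4, Nat.mod_eq_of_lt hr]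
    · intro h
      have h2 : (m i : ℤ) % q = (r : ℤ) := by
        rw [← h]; push_cast; rfl
      exact Int.dvd_self_sub_of_emod_eq h2
  constructor
  · rintro ⟨hr, i, hi⟩
    revert hi
    refine Fin.cases ?_ (fun i => ?_) i
    · intro hi
      rw [C1_zero, H1_zero, one_mul, add_zero] at hi
      left
      rw [← h0 r hr]
      exact_mod_cast hi
    · intro hi
      rw [C1_succ, H1_succ] at hi
      right
      exact ⟨i, mem_univ _, (h1 r i hr).1 hi⟩
  · rintro (h | ⟨i, _, h⟩)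
    · subst h
      refine ⟨hq, 0, ?_⟩
      rw [C1_zero, H1_zero, one_mul, add_zero]
      exact dvd_zero _
    · have hr : r < q := by rw [← h]; exact Nat.mod_lt _ hq
      refine ⟨hr, i.succ, ?_⟩
      rw [C1_succ, H1_succ]
      exact (h1 r i hr).2 h

lemma sing_eq {s : ℕ} (m : Fin s → ℕ) : singF (C1 (N1 s)) (H1 (HZ m)) = sing m := by
  funext z
  unfold singF sing
  apply prod_congr rfl
  intro q hq
  rw [nu_eq m q (mem_filter.1 hq).2.pos]

lemma adm_iff {s : ℕ} (m : Fin s → ℕ) : AdmF (C1 (N1 s)) (H1 (HZ m)) ↔ Adm m := by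
  unfold AdmF Adm
  refine forall_congr' fun q => forall_congr' fun hq => ?_
  rw [nu_eq m q hq.pos]

lemma cnt_eq {s : ℕ} (m : Fin s → ℕ) (y₁ y₂ : ℕ) : cntW (C1 (N1 s)) (H1 (HZ m)) y₁ y₂ = cnt m y₁ y₂ := by
  unfold cntW cnt
  congr 1
  apply filter_congr
  intro n _
  rw [Fin.forall_fin_succ, C1_zero, H1_zero, one_mul, add_zero, Int.toNat_natCast]
  refine and_congr Iff.rfl (forall_congr' fun i => ?_)
  rw [C1_succ, H1_succ]
  have : (N1 s i * (n : ℤ) + HZ m i).toNat = m i - n := by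
    unfold N1 HZ
    omega
  rw [this]

lemma of_good {s : ℕ} (ε : ℝ) (A X : ℕ) (hX : 2 ≤ X) (m : Fin s → ℕ) (h : GoodW ε A X (C1 (N1 s)) (H1 (HZ m))) :
    Formula ε A X m := by
  intro hadm
  obtain ⟨G, hG, hlim, h1⟩ := h ((adm_iff m).2 hadm)
  refine ⟨G, hG, by rw [← sing_eq]; exact hlim, fun y₁ y₂ hy hm hlen => ?_⟩
  rw [← cnt_eq]
  have hy2 : 1 ≤ y₂ := by
    by_contra hcon
    have h0 : y₂ = 0 := by omega
    subst h0
    have hlog : 0 < Real.log X := Real.log_pos (by exact_mod_cast hX)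
    have hX0 : (0 : ℝ) < X := by exact_mod_cast (by omega : 0 < X)
    have h2 : (0 : ℝ) < (X : ℝ) / Real.log X ^ A := by positivity
    have h3 : (0 : ℝ) ≤ y₁ := Nat.cast_nonneg _
    rw [Nat.cast_zero] at hlen
    linarith
  refine h1 y₁ y₂ hy hlen ?_
  intro i
  refine Fin.cases ?_ (fun i => ?_) i
  · rw [C1_zero, H1_zero]
    refine ⟨by norm_num, by push_cast; omega⟩
  · rw [C1_succ, H1_succ]
    have := hm i
    unfold N1 HZ
    constructor <;> omega

/-- from the vectors of integers -/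
lemma of_goodWD {s : ℕ} (ε : ℝ) (A X Q0 R : ℕ) (hX : 2 ≤ X) (hQ : 1 ≤ Q0) (H : Fin s → ℤ) (h : GoodWD true ε A X Q0 R H) (m : Fin s → ℕ)
    (hm : ∀ i, |(m i : ℤ) - H i| ≤ (R : ℤ)) : Formula ε A X m := by
  have h1 := (h (fun i => (m i : ℤ) - H i) hm).1 (N1 s) (fun i => ⟨by unfold N1; norm_num, by
    unfold N1; rw [abs_neg, abs_one]; exact_mod_cast hQ⟩)
  rw [if_pos rfl] at h1
  have h2 : (fun i => H i + ((m i : ℤ) - H i)) = HZ m := by
    funext i
    unfold HZ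
    ring
  rw [h2] at h1
  exact of_good ε A X hX m h1

lemma floor_of {R : ℝ} (x : ℤ) (h : |(x : ℝ)| ≤ R) : |x| ≤ (⌊R⌋₊ : ℤ) := by
  have h1 : ((|x| : ℤ) : ℝ) ≤ R := by push_cast; exact h
  have h2 : (|x|).toNat ≤ ⌊R⌋₊ := Nat.le_floor (by
    have : ((|x|).toNat : ℝ) = ((|x| : ℤ) : ℝ) := by
      have h3 : ((|x|).toNat : ℤ) = |x| := Int.toNat_of_nonneg (abs_nonneg x)
      exact_mod_cast congrArg (fun z : ℤ => (z : ℝ)) h3
    rw [this]
    exact h1)
  have h3 : ((|x|).toNat : ℤ) = |x| := Int.toNat_of_nonneg (abs_nonneg x)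
  rw [← h3]
  exact_mod_cast h2

/-- different components stay different -/
lemma ne_of {s : ℕ} (ε : ℝ) (A X Q0 R : ℕ) (hQ : 1 ≤ Q0) (H : Fin s → ℤ) (h : GoodWD true ε A X Q0 R H) (m : Fin s → ℕ)
    (hm : ∀ i, |(m i : ℤ) - H i| ≤ (R : ℤ)) : ∀ i j : Fin s, i ≠ j → m i ≠ m j := by
  intro i j hij hne
  have h1 := (h (fun i => (m i : ℤ) - H i) hm).2.2 i j hij 1 1 one_ne_zero (by rw [abs_one]; exact_mod_cast hQ)
    (by rw [abs_one]; exact_mod_cast hQ)
  apply h1
  show 1 * (H i + ((m i : ℤ) - H i)) = 1 * (H j + ((m j : ℤ) - H j))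
  have : (m i : ℤ) = m j := by exact_mod_cast hne
  linarith

/-- the admissibility for one even number -/
lemma adm_one (m : Fin 1 → ℕ) : Adm m ↔ Even (m 0) := by
  constructor
  · intro h
    have h2 := h 2 Nat.prime_two
    unfold nu at h2
    by_contra hodd
    rw [Nat.not_even_iff_odd, Nat.odd_iff] at hodd
    have h3 : (insert 0 (univ.image fun i : Fin 1 => m i % 2)) = {0, 1} := by
      ext r
      rw [mem_insert, mem_image, mem_insert, mem_singleton]
      constructor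
      · rintro (h | ⟨i, _, h⟩)
        · exact Or.inl h
        · rw [Subsingleton.elim i 0] at h
          right; omega
      · rintro (h | h)
        · exact Or.inl h
        · right; exact ⟨0, mem_univ _, by omega⟩
    rw [h3] at h2
    simp at h2
  · intro h q hq
    have h4 : nu m q ≤ 2 := by
      unfold nu
      refine (card_insert_le _ _).trans ?_
      have : (univ.image fun i : Fin 1 => m i % q).card ≤ 1 := card_image_le.trans (by simp)
      omega
    rcases Nat.lt_or_ge 2 q with h5 | h5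
    · omega
    · have h6 : q = 2 := by have := hq.two_le; omega
      subst h6
      have h7 : nu m 2 = 1 := by
        unfold nu
        rw [card_eq_one]
        refine ⟨0, ?_⟩
        ext r
        rw [mem_insert, mem_image, mem_singleton]
        constructor
        · rintro (h | ⟨i, _, h'⟩)
          · exact h
          · rw [Subsingleton.elim i 0] at h'
            rw [Nat.even_iff] at h
            omega
        · intro h
          exact Or.inl h
      omega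

/-- few elements of arbitrary sets -/
theorem las (s l P A R' : ℕ) (hs : 1 ≤ s) (hl : 2 ≤ l) (hP : 1 ≤ P) : ∃ Cst : ℝ, ∀ (Hh B : ℕ) (ε : ℝ),
    0 < ε → ∃ X₀ : ℕ, ∀ T : Fin s → Set ℕ, (∀ i, ∀ x : ℕ, 1 ≤ x → ∃ a ∈ T i, x ≤ a ∧ a ≤ l * x) → ∀ X : ℕ, X₀ ≤ X →
    ∀ a : Fin s → ℕ, (∀ i, a i ≤ B * X) →
    ∃ S : Fin s → Finset ℕ, (∀ i, ∀ x ∈ S i, x ∈ T i ∧ Real.log X ^ Hh ≤ x ∧ (x : ℝ) ≤ X / Real.log X ^ Hh) ∧
      (∀ i, ((S i).card : ℝ) ≤ Cst * Real.log (Real.log X) ^ 2) ∧ (∀ i, P ∣ ∑ x ∈ S i, x) ∧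
      ∀ m : Fin s → ℕ, (∀ i, |(m i : ℝ) - ((a i + ∑ x ∈ S i, x : ℕ) : ℝ)| ≤ Real.log X ^ R') →
        (∀ i j, i ≠ j → m i ≠ m j) ∧ Formula ε A X m := by
  obtain ⟨Cst, hC⟩ := lw_las true s l P 1 A R' hs hl hP le_rfl
  refine ⟨Cst, fun Hh B ε hε => ?_⟩
  obtain ⟨X₀, h0⟩ := hC Hh B ε hε
  refine ⟨X₀ + 2, fun T hT X hX a ha => ?_⟩
  obtain ⟨S, h1, h2, h3, h4, _⟩ := h0 T hT X (by omega) (fun i => (a i : ℤ)) (fun i => by
    rw [abs_of_nonneg (Int.natCast_nonneg _)]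
    exact_mod_cast ha i)
  refine ⟨S, h1, h2, h3, fun m hm => ?_⟩
  have h5 : ∀ i, |(m i : ℤ) - ((a i : ℤ) + ∑ x ∈ S i, (x : ℤ))| ≤ (⌊Real.log X ^ R'⌋₊ : ℤ) := by
    intro i
    apply floor_of
    have := hm i
    push_cast at this ⊢
    exact this
  exact ⟨ne_of ε A X 1 _ le_rfl _ h4 m h5, of_goodWD ε A X 1 _ (by omega) le_rfl _ h4 m h5⟩

end Pool.Agent.Q26.PD.LG
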