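import Pool.Agent.Q26.PD.LG

set_option autoImplicit false

/-! Common primes in the Goldbach representations of several numbers: families of sets; small common primes. -/

namespace Pool.Agent.Q26.PD.LG
open Finset
open Pool.Agent.Y820.LF

/-- All the integer vectors `m` in the box of side `log ^ R X` around `n` have distinct components and satisfy the
formula of Hardy and Littlewood in all windows. -/
def Near {s : ℕ} (ε : ℝ) (A R X : ℕ) (n : Fin s → ℤ) : Prop :=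
  ∀ m : Fin s → ℕ, (∀ i, |(m i : ℝ) - n i| ≤ Real.log X ^ R) → (∀ i j, i ≠ j → m i ≠ m j) ∧ Formula ε A X m

open Classical in
/-- families of sets -/
theorem fam (s : ℕ) (hs : 1 ≤ s) (κ : Fin s → ℤ) (hκ : ∀ i, κ i ≠ 0) (Bv : Fin s → ℕ)
    (𝒮 : Fin s → ℕ → Finset ℕ → Prop) (h𝒮 : ∀ i, HasZ (κ i) (Bv i) (𝒮 i))
    (B A R U : ℕ) (ε : ℝ) (hε : 0 < ε) :
    ∃ X₀ : ℕ, ∀ X, X₀ ≤ X → ∀ S : Fin s → Finset ℕ, (∀ i, 𝒮 i X (S i)) →
      ∀ c : Fin s → ℤ, (∀ i, |c i| ≤ (B : ℤ) * X) →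
      (((Fintype.piFinset S).filter fun v => ¬ Near ε A R X (fun i => c i + κ i * (v i : ℤ))).card : ℝ) ≤
      ((Fintype.piFinset S).card : ℝ) / Real.log X ^ U := by
  obtain ⟨X₀, h0⟩ := lw_fam true s hs κ hκ Bv 𝒮 h𝒮 1 B A R U le_rfl ε hε
  refine ⟨X₀ + 2, fun X hX S hS c hc => ?_⟩
  refine le_trans ?_ (h0 X (by omega) S hS c hc)
  apply Nat.cast_le.2
  apply card_le_card
  intro v hv
  rw [mem_filter] at hv ⊢
  refine ⟨hv.1, fun h4 => hv.2 fun m hm => ?_⟩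
  have h5 : ∀ i, |(m i : ℤ) - (c i + κ i * (v i : ℤ))| ≤ (⌊Real.log X ^ R⌋₊ : ℤ) := by
    intro i
    apply floor_of
    have := hm i
    push_cast at this ⊢
    exact this
  exact ⟨ne_of ε A X 1 _ le_rfl _ h4 m h5, of_goodWD ε A X 1 _ (by omega) le_rfl _ h4 m h5⟩

/-- a small common prime -/
lemma small_prime {s : ℕ} (A : ℕ) : ∃ X₀ : ℕ, ∀ X, X₀ ≤ X → ∀ ε : ℝ, ε ≤ 1 / 2 → ∀ m : Fin s → ℕ, Formula ε (A + 1) X m → Adm m →
    (∀ i, (X : ℝ) / Real.log X ^ A < m i) → ∃ p : ℕ, p.Prime ∧ (p : ℝ) ≤ X / Real.log X ^ A ∧ ∀ i, (m i - p).Prime := by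
  obtain ⟨n1, h1⟩ := Pool.Agent.H373R2.T7.ev_L' 2
  obtain ⟨n2, h2⟩ := Pool.Agent.H373R2.T7.ev_log' (A + 1) 2
  refine ⟨n1 + n2 + 4, fun X hX ε hε m hF hadm hm => ?_⟩
  have hL := h1 X (by omega)
  have hL2 := h2 X (by omega)
  obtain ⟨L, hLd⟩ : ∃ L, L = Real.log (X : ℝ) := ⟨_, rfl⟩
  rw [← hLd] at hL hL2 hm ⊢
  have hX0 : (4 : ℝ) ≤ X := by exact_mod_cast (by omega : 4 ≤ X)
  have hLA : 1 ≤ L ^ A := one_le_pow₀ (by linarith)
  have hLA0 : 0 < L ^ A := by linarith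
  obtain ⟨y, hy⟩ : ∃ y, y = ⌊(X : ℝ) / L ^ A⌋₊ := ⟨_, rfl⟩
  have hy1 : (y : ℝ) ≤ X / L ^ A := by rw [hy]; exact Nat.floor_le (by positivity)
  have hy2 : (X : ℝ) / L ^ A - 1 ≤ y := by rw [hy]; have := Nat.lt_floor_add_one ((X : ℝ) / L ^ A); linarith
  obtain ⟨G, hG, _, hwin⟩ := hF hadm
  have hbig : 2 ≤ (X : ℝ) / L ^ A := by
    rw [le_div_iff₀ hLA0]
    have h3 : 2 * L ^ (A + 1) ≤ √(X : ℝ) := hL2
    have h4 : √(X : ℝ) ≤ X := by
      rw [Real.sqrt_le_left (by linarith)]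
      nlinarith
    have h5 : L ^ A ≤ L ^ (A + 1) := pow_le_pow_right₀ (by linarith) (by omega)
    linarith
  have hlen : (X : ℝ) / L ^ (A + 1) ≤ (y : ℝ) - (0 : ℕ) := by
    rw [Nat.cast_zero, sub_zero]
    have h3 : (X : ℝ) / L ^ (A + 1) ≤ X / L ^ A / 2 := by
      rw [pow_succ, ← div_div]
      exact div_le_div_of_nonneg_left (by positivity) (by norm_num) hL
    linarith
  have h3 := hwin 0 y (by
      have : (y : ℝ) ≤ X := hy1.trans (div_le_self (by linarith) hLA)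
      exact_mod_cast this) (fun i => by
      have := hy1.trans_lt (hm i)
      exact_mod_cast this) (by rw [← hLd]; exact hlen)
  rw [← hLd] at h3
  have hlen0 : 0 < (y : ℝ) - (0 : ℕ) := lt_of_lt_of_le (by positivity) hlen
  have hmain : 0 < G * (((y : ℝ) - (0 : ℕ)) / L ^ (s + 1)) := by positivity
  have h4 : (0 : ℝ) < cnt m 0 y := by
    have h5 := mul_le_mul_of_nonneg_right hε hmain.le
    rw [abs_le] at h3
    linarith [h3.1]
  have h5 : 0 < cnt m 0 y := by exact_mod_cast h4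
  unfold cnt at h5
  rw [card_pos] at h5
  obtain ⟨p, hp⟩ := h5
  rw [mem_filter, mem_Ioc] at hp
  exact ⟨p, hp.2.1, le_trans (by exact_mod_cast hp.1.2) hy1, hp.2.2⟩

lemma formula_mono {s : ℕ} (ε : ℝ) (A X : ℕ) (hL : 1 ≤ Real.log X) (m : Fin s → ℕ) (h : Formula ε (A + 1) X m) : Formula ε A X m := by
  intro hadm
  obtain ⟨G, hG, hlim, h1⟩ := h hadm
  refine ⟨G, hG, hlim, fun y₁ y₂ a1 a2 a3 => h1 y₁ y₂ a1 a2 (le_trans ?_ a3)⟩
  apply div_le_div_of_nonneg_left (Nat.cast_nonneg _) (by positivity) (pow_le_pow_right₀ hL (by omega))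

end Pool.Agent.Q26.PD.LG
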