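import Pool.Agent.Q26.PD.LG2

set_option autoImplicit false

/-! Prime tuples `n, n + h 1, ..., n + h s`: the formula of Hardy and Littlewood in all windows, for all short translates
of the shifts. -/

namespace Pool.Agent.Q26.PD.LT
open Finset
open Pool.Agent.Y820.LF
open Pool.Agent.Q26.PD.LG (nu Adm sing floor_of)

/-- the number of the primes `n` in `(y₁, y₂]` such that all `n + h i` are primes -/
def cnt {s : ℕ} (h : Fin s → ℕ) (y₁ y₂ : ℕ) : ℕ :=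
  ((Ioc y₁ y₂).filter (fun n : ℕ => n.Prime ∧ ∀ i, (n + h i).Prime)).card

/-- the formula of Hardy and Littlewood for the tuples `n, n + h 1, ..., n + h s` in all windows -/
def Formula {s : ℕ} (ε : ℝ) (A X : ℕ) (h : Fin s → ℕ) : Prop :=
  Adm h → ∃ G : ℝ, 0 < G ∧ Filter.Tendsto (sing h) Filter.atTop (nhds G) ∧
    ∀ y₁ y₂ : ℕ, y₂ ≤ X → (X : ℝ) / Real.log X ^ A ≤ (y₂ : ℝ) - y₁ →
      |(cnt h y₁ y₂ : ℝ) - G * (((y₂ : ℝ) - y₁) / Real.log X ^ (s + 1))| ≤ ε * (G * (((y₂ : ℝ) - y₁) / Real.log X ^ (s + 1)))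

/-- the vector of the coefficients `1` -/
def O1 (s : ℕ) : Fin s → ℤ := fun _ => 1

/-- the vector of the constants -/
def HZ {s : ℕ} (m : Fin s → ℕ) : Fin s → ℤ := fun i => (m i : ℤ)

lemma nu_eq {s : ℕ} (m : Fin s → ℕ) (q : ℕ) (hq : 0 < q) : nuF (C1 (O1 s)) (H1 (HZ m)) q = nu m q := by
  unfold nuF nu
  have key : ∀ r : ℕ, r < q → ((∃ i, (q : ℤ) ∣ C1 (O1 s) i * (r : ℤ) + H1 (HZ m) i) ↔
      (q - r) % q ∈ insert 0 (univ.image fun i => m i % q)) := by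
    intro r hr
    have e0 : (q - r) % q = 0 ↔ r = 0 := by
      rcases Nat.eq_zero_or_pos r with h | h
      · rw [h]; simp
      · rw [Nat.mod_eq_of_lt (by omega)]
        omega
    have h1 : ∀ i : Fin s, ((q : ℤ) ∣ 1 * (r : ℤ) + (m i : ℤ) ↔ m i % q = (q - r) % q) := by
      intro i
      have e1 : ((1 * (r : ℤ) + (m i : ℤ))) = (m i : ℤ) - ((q - r : ℕ) : ℤ) + q := by
        rw [Nat.cast_sub hr.le]; ring
      rw [e1, dvd_add_left (dvd_refl _), ← Int.modEq_iff_dvd]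
      constructor
      · intro h
        have h2 : ((m i % q : ℕ) : ℤ) = (((q - r) % q : ℕ) : ℤ) := by push_cast [Nat.cast_sub hr.le] at h ⊢; exact h.symm
        exact_mod_cast h2
      · intro h
        have h2 : ((m i % q : ℕ) : ℤ) = (((q - r) % q : ℕ) : ℤ) := by rw [h]
        push_cast at h2
        exact h2.symm
    rw [mem_insert, mem_image, e0]
    constructor
    · rintro ⟨i, hi⟩
      revert hi
      refine Fin.cases ?_ (fun i => ?_) i
      · intro hi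
        rw [C1_zero, H1_zero, one_mul, add_zero] at hi
        left
        exact Nat.eq_zero_of_dvd_of_lt (by exact_mod_cast hi) hr
      · intro hi
        rw [C1_succ, H1_succ] at hi
        right
        exact ⟨i, mem_univ _, (h1 i).1 hi⟩
    · rintro (h | ⟨i, _, h⟩)
      · refine ⟨0, ?_⟩
        rw [C1_zero, H1_zero, one_mul, add_zero, h]
        exact dvd_zero _
      · refine ⟨i.succ, ?_⟩
        rw [C1_succ, H1_succ]
        exact (h1 i).2 h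
  have hinj : Set.InjOn (fun r : ℕ => (q - r) % q) ↑((range q).filter (fun r : ℕ => ∃ i, (q : ℤ) ∣ C1 (O1 s) i * (r : ℤ) + H1 (HZ m) i)) := by
    intro r hr r' hr' h
    simp only [coe_filter, mem_range, Set.mem_setOf_eq] at hr hr'
    simp only at h
    rcases Nat.eq_zero_or_pos r with h1 | h1 <;> rcases Nat.eq_zero_or_pos r' with h2 | h2
    · omega
    · subst h1
      rw [Nat.sub_zero, Nat.mod_self, Nat.mod_eq_of_lt (by omega)] at h
      omega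
    · subst h2
      rw [Nat.sub_zero, Nat.mod_self, Nat.mod_eq_of_lt (by omega)] at h
      omega
    · rw [Nat.mod_eq_of_lt (by omega), Nat.mod_eq_of_lt (by omega)] at h
      omega
  rw [← card_image_of_injOn hinj]
  congr 1
  ext x
  rw [mem_image]
  constructor
  · rintro ⟨r, hr, rfl⟩
    rw [mem_filter, mem_range] at hr
    exact (key r hr.1).1 hr.2
  · intro hx
    have hxq : x < q := by
      rw [mem_insert, mem_image] at hx
      rcases hx with h | ⟨i, _, h⟩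
      · omega
      · rw [← h]; exact Nat.mod_lt _ hq
    have e2 : (q - (q - x) % q) % q = x := by
      rcases Nat.eq_zero_or_pos x with h | h
      · subst h; simp
      · rw [Nat.mod_eq_of_lt (show q - x < q by omega), Nat.mod_eq_of_lt (by omega)]
        omega
    refine ⟨(q - x) % q, ?_, e2⟩
    rw [mem_filter, mem_range]
    refine ⟨Nat.mod_lt _ hq, ?_⟩
    rw [key _ (Nat.mod_lt _ hq), e2]
    exact hx

lemma sing_eq {s : ℕ} (m : Fin s → ℕ) : singF (C1 (O1 s)) (H1 (HZ m)) = sing m := by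
  funext z
  unfold singF sing
  apply prod_congr rfl
  intro q hq
  rw [nu_eq m q (mem_filter.1 hq).2.pos]

lemma adm_iff {s : ℕ} (m : Fin s → ℕ) : AdmF (C1 (O1 s)) (H1 (HZ m)) ↔ Adm m := by
  unfold AdmF Adm
  refine forall_congr' fun q => forall_congr' fun hq => ?_
  rw [nu_eq m q hq.pos]

lemma cnt_eq {s : ℕ} (m : Fin s → ℕ) (y₁ y₂ : ℕ) : cntW (C1 (O1 s)) (H1 (HZ m)) y₁ y₂ = cnt m y₁ y₂ := by
  unfold cntW cnt
  congr 1
  apply filter_congr
  intro n _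
  rw [Fin.forall_fin_succ, C1_zero, H1_zero, one_mul, add_zero, Int.toNat_natCast]
  refine and_congr Iff.rfl (forall_congr' fun i => ?_)
  rw [C1_succ, H1_succ]
  have : (O1 s i * (n : ℤ) + HZ m i).toNat = n + m i := by
    unfold O1 HZ
    omega
  rw [this]

lemma of_good {s : ℕ} (ε : ℝ) (A X : ℕ) (hX : 2 ≤ X) (m : Fin s → ℕ) (h : GoodW ε A X (C1 (O1 s)) (H1 (HZ m))) :
    Formula ε A X m := by
  intro hadm
  obtain ⟨G, hG, hlim, h1⟩ := h ((adm_iff m).2 hadm)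
  refine ⟨G, hG, by rw [← sing_eq]; exact hlim, fun y₁ y₂ hy hlen => ?_⟩
  rw [← cnt_eq]
  have hy2 : 1 ≤ y₂ := by
    by_contra hcon
    have h0 : y₂ = 0 := by omega
    subst h0
    have hlog : 0 < Real.log X := Real.log_pos (by exact_mod_cast hX)
    have hX0 : (0 : ℝ) < X := by exact_mod_cast (by omega : 0 < X)
    have h2 : (0 : ℝ) < (X : ℝ) / Real.log X ^ A := by positivity
    have h3 : (0 : ℝ) ≤ y₁ := Nat.cast_nonneg _
    rw [Nat.cast_zero] at hlen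
    linarith
  refine h1 y₁ y₂ hy hlen ?_
  intro i
  refine Fin.cases ?_ (fun i => ?_) i
  · rw [C1_zero, H1_zero]
    refine ⟨by norm_num, by omega⟩
  · rw [C1_succ, H1_succ]
    unfold O1 HZ
    constructor <;> omega

/-- from the vectors of integers -/
lemma of_goodWD {s : ℕ} (ε : ℝ) (A X Q0 R : ℕ) (hX : 2 ≤ X) (hQ : 1 ≤ Q0) (H : Fin s → ℤ) (h : GoodWD true ε A X Q0 R H) (m : Fin s → ℕ)
    (hm : ∀ i, |(m i : ℤ) - H i| ≤ (R : ℤ)) : Formula ε A X m := by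
  have h1 := (h (fun i => (m i : ℤ) - H i) hm).1 (O1 s) (fun i => ⟨by unfold O1; norm_num, by
    unfold O1; rw [abs_one]; exact_mod_cast hQ⟩)
  rw [if_pos rfl] at h1
  have h2 : (fun i => H i + ((m i : ℤ) - H i)) = HZ m := by
    funext i
    unfold HZ
    ring
  rw [h2] at h1
  exact of_good ε A X hX m h1

/-- All the vectors `h` in the box of side `log ^ R X` around `n` have distinct components and satisfy the
formula of Hardy and Littlewood in all windows. -/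
def Near {s : ℕ} (ε : ℝ) (A R X : ℕ) (n : Fin s → ℤ) : Prop :=
  ∀ m : Fin s → ℕ, (∀ i, |(m i : ℝ) - n i| ≤ Real.log X ^ R) → (∀ i j, i ≠ j → m i ≠ m j) ∧ Formula ε A X m

lemma near_of {s : ℕ} (ε : ℝ) (A R X : ℕ) (hX : 2 ≤ X) (H : Fin s → ℤ) (h : GoodWD true ε A X 1 ⌊Real.log X ^ R⌋₊ H) :
    Near ε A R X H := by
  intro m hm
  have h5 : ∀ i, |(m i : ℤ) - H i| ≤ (⌊Real.log X ^ R⌋₊ : ℤ) := by
    intro i
    apply floor_of
    have := hm i
    push_cast at this ⊢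
    exact this
  exact ⟨Pool.Agent.Q26.PD.LG.ne_of ε A X 1 _ le_rfl _ h m h5, of_goodWD ε A X 1 _ hX le_rfl _ h m h5⟩

open Classical in
/-- families of sets -/
theorem fam (s : ℕ) (hs : 1 ≤ s) (κ : Fin s → ℤ) (hκ : ∀ i, κ i ≠ 0) (Bv : Fin s → ℕ)
    (𝒮 : Fin s → ℕ → Finset ℕ → Prop) (h𝒮 : ∀ i, HasZ (κ i) (Bv i) (𝒮 i))
    (B A R U : ℕ) (ε : ℝ) (hε : 0 < ε) :
    ∃ X₀ : ℕ, ∀ X, X₀ ≤ X → ∀ S : Fin s → Finset ℕ, (∀ i, 𝒮 i X (S i)) →
      ∀ c : Fin s → ℤ, (∀ i, |c i| ≤ (B : ℤ) * X) →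
      (((Fintype.piFinset S).filter fun v => ¬ Near ε A R X (fun i => c i + κ i * (v i : ℤ))).card : ℝ) ≤
      ((Fintype.piFinset S).card : ℝ) / Real.log X ^ U := by
  obtain ⟨X₀, h0⟩ := lw_fam true s hs κ hκ Bv 𝒮 h𝒮 1 B A R U le_rfl ε hε
  refine ⟨X₀ + 2, fun X hX S hS c hc => ?_⟩
  refine le_trans ?_ (h0 X (by omega) S hS c hc)
  apply Nat.cast_le.2
  apply card_le_card
  intro v hv
  rw [mem_filter] at hv ⊢
  exact ⟨hv.1, fun h4 => hv.2 (near_of ε A R X (by omega) _ h4)⟩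

/-- few elements of arbitrary sets -/
theorem las (s l P A R' : ℕ) (hs : 1 ≤ s) (hl : 2 ≤ l) (hP : 1 ≤ P) : ∃ Cst : ℝ, ∀ (Hh B : ℕ) (ε : ℝ),
    0 < ε → ∃ X₀ : ℕ, ∀ T : Fin s → Set ℕ, (∀ i, ∀ x : ℕ, 1 ≤ x → ∃ a ∈ T i, x ≤ a ∧ a ≤ l * x) → ∀ X : ℕ, X₀ ≤ X →
    ∀ a : Fin s → ℕ, (∀ i, a i ≤ B * X) →
    ∃ S : Fin s → Finset ℕ, (∀ i, ∀ x ∈ S i, x ∈ T i ∧ Real.log X ^ Hh ≤ x ∧ (x : ℝ) ≤ X / Real.log X ^ Hh) ∧
      (∀ i, ((S i).card : ℝ) ≤ Cst * Real.log (Real.log X) ^ 2) ∧ (∀ i, P ∣ ∑ x ∈ S i, x) ∧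
      ∀ m : Fin s → ℕ, (∀ i, |(m i : ℝ) - ((a i + ∑ x ∈ S i, x : ℕ) : ℝ)| ≤ Real.log X ^ R') →
        (∀ i j, i ≠ j → m i ≠ m j) ∧ Formula ε A X m := by
  obtain ⟨Cst, hC⟩ := lw_las true s l P 1 A R' hs hl hP le_rfl
  refine ⟨Cst, fun Hh B ε hε => ?_⟩
  obtain ⟨X₀, h0⟩ := hC Hh B ε hε
  refine ⟨X₀ + 2, fun T hT X hX a ha => ?_⟩
  obtain ⟨S, h1, h2, h3, h4, _⟩ := h0 T hT X (by omega) (fun i => (a i : ℤ)) (fun i => by
    rw [abs_of_nonneg (Int.natCast_nonneg _)]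
    exact_mod_cast ha i)
  refine ⟨S, h1, h2, h3, fun m hm => ?_⟩
  refine near_of ε A R' X (by omega) _ h4 m (fun i => ?_)
  have := hm i
  push_cast at this ⊢
  exact this

end Pool.Agent.Q26.PD.LT
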