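import Pool.Agent.Q26.PD.LF8
import Pool.Agent.TH935.TG2

set_option autoImplicit false

/-! Systems of linear forms with random constants, in all windows and for all short translates. -/

namespace Pool.Agent.Q26.PD
open Finset
open Pool.Agent.H373R2.T7
open Pool.Agent.W93.TD (tele_w avg_w total_w)
open Pool.Agent.Y820.LF

theorem lw_rare {s : ℕ} (κ : Fin s → ℤ) (hκ : ∀ i, κ i ≠ 0) (Q0 B Bt Et U A4 : ℕ) (hQ0 : 1 ≤ Q0) : ∃ n0 : ℕ, ∀ X : ℕ, n0 ≤ X →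
    ∀ M' : ℕ, 1 ≤ M' → (M' : ℝ) ≤ Real.log ((Q0 * X : ℕ) : ℝ) ^ A4 → ∀ η : ℝ, 0 < η → 1 / η ≤ Real.log ((Q0 * X : ℕ) : ℝ) ^ A4 →
    ∀ z : ℕ, 1 ≤ z → Real.log ((Q0 * X : ℕ) : ℝ) ^ Bt ≤ z →
    (z : ℝ) ≤ Real.log ((Q0 * X : ℕ) : ℝ) ^ Et → ∀ (τ0 : Bool) (c : Fin s → ℤ) (Ω : Fin s → Finset ℕ) (p : Fin s → ℕ → ℝ),
    (∀ i, |c i| ≤ (B : ℤ) * X) → (∀ i, ∀ v ∈ Ω i, 0 ≤ p i v) → (∀ i, ∑ v ∈ Ω i, p i v = 1) →
    (∀ i, ∀ v ∈ Ω i, p i v ≤ 1 / Real.log ((Q0 * X : ℕ) : ℝ) ^ (U + 2 * A4 + 1 + s + 3)) →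
    (∀ i, ∀ v ∈ Ω i, |c i + κ i * (v : ℤ)| ≤ (B : ℤ) * X) →
    (∀ i, OneZ (Q0 * X) (U + 2 * A4 + 1 + s + 3) Bt Et (B + 2) (κ i) (Ω i) (p i)) →
    ∀ Bad : (Fin s → ℕ) → Prop, [DecidablePred Bad] →
    (∀ v ∈ Fintype.piFinset Ω, Bad v → BadH τ0 Q0 M' X z η (fun i => c i + κ i * (v i : ℤ))) →
    ∑ v ∈ Fintype.piFinset Ω, (if Bad v then ∏ i, p i (v i) else 0) ≤ 1 / Real.log X ^ U := by
  classical
  obtain ⟨Cst, hCst⟩ : ∃ Cst : ℝ, Cst = s + ((2 * (Q0 : ℝ) + 1) * (2 * Q0 + 1)) * (s * s) +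
    (Cs s Q0).card * (2 * Q0) := ⟨_, rfl⟩
  have hCst0 : 0 ≤ Cst := by rw [hCst]; positivity
  obtain ⟨n3, h3⟩ := Vz_inv_small Et
  obtain ⟨n4, h4⟩ := ev_L' (Cst + 2 + (s : ℝ) * 2 ^ s + Real.log ((Q0 + B + 1 : ℕ) : ℝ))
  obtain ⟨n5, h5⟩ := ev_L' 2
  refine ⟨n3 + n4 + n5 + 2, fun X hX M' hM' hM'L η hη hηL z hz hz1 hz2 τ0 c Ω p hc hp0 hp1 hpθ hpA hone Bad _ hBad => ?_⟩
  obtain ⟨M, hM⟩ : ∃ M, M = Q0 * X := ⟨_, rfl⟩
  have hXM : X ≤ M := by rw [hM]; exact Nat.le_mul_of_pos_left _ (by omega)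
  rw [← hM] at hz1 hz2 hpθ hone hM'L hηL
  have hL := h4 M (by omega)
  have hX0 : (0 : ℝ) < X := by exact_mod_cast (by omega : 0 < X)
  have hlX : Real.log X ≤ Real.log M := Real.log_le_log hX0 (by exact_mod_cast hXM)
  have hlX2 : 2 ≤ Real.log X := h5 X (by omega)
  obtain ⟨L, hLdef⟩ : ∃ L, L = Real.log (M : ℝ) := ⟨_, rfl⟩
  have q0 : 0 ≤ Real.log ((Q0 + B + 1 : ℕ) : ℝ) := Real.log_natCast_nonneg _
  have q1 : 0 ≤ (s : ℝ) * 2 ^ s := by positivity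
  have hVz := h3 M (by omega) z hz hz2
  rw [← hLdef] at hL hlX hpθ hVz hM'L hηL
  have hL2 : 2 ≤ L := by linarith
  have hL1 : 1 ≤ L := by linarith
  have hL0 : 0 < L := by linarith
  have hM0 : (0 : ℝ) < M := by exact_mod_cast (by omega : 0 < M)
  obtain ⟨P, hP⟩ : ∃ P : (Fin s → ℕ) → ℝ, P = fun v => ∏ i, p i (v i) := ⟨_, rfl⟩
  have hPv : ∀ v, ∏ i, p i (v i) = P v := fun v => by rw [hP]
  obtain ⟨H, hH⟩ : ∃ H : (Fin s → ℕ) → Fin s → ℤ, H = fun v i => c i + κ i * (v i : ℤ) := ⟨_, rfl⟩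
  have hHv : ∀ v, (fun i => c i + κ i * (v i : ℤ)) = H v := fun v => by rw [hH]
  simp only [hHv] at hBad
  -- the parts
  have hθ0 : (0 : ℝ) ≤ 1 / L ^ (U + 2 * A4 + 1 + s + 3) := by positivity
  have part1 : ∀ i : Fin s, ∑ v ∈ Fintype.piFinset Ω, P v * (if H v i = 0 then (1 : ℝ) else 0) ≤ 1 / L ^ (U + 2 * A4 + 1 + s + 3) := by
    intro i
    have h6 := lf_degen κ c Ω p hp0 hp1 _ hθ0 hpθ hκ i 1 one_ne_zero (fun _ => 0) (fun _ _ => rfl)
    refine le_trans (le_of_eq ?_) h6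
    apply sum_congr rfl
    intro v _
    rw [hPv, ← hHv]
    simp only [one_mul]
  have part2 : ∀ x y : ℤ, ∀ i j : Fin s, ∑ v ∈ Fintype.piFinset Ω,
      P v * (if x ≠ 0 ∧ j ≠ i ∧ x * H v i = y * H v j then (1 : ℝ) else 0) ≤ 1 / L ^ (U + 2 * A4 + 1 + s + 3) := by
    intro x y i j
    by_cases hxj : x ≠ 0 ∧ j ≠ i
    · have h6 := lf_degen κ c Ω p hp0 hp1 _ hθ0 hpθ hκ i x hxj.1 (fun v => y * (c j + κ j * (v j : ℤ))) (fun v w => by
        rw [Function.update_of_ne hxj.2])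
      refine le_trans (le_of_eq ?_) h6
      apply sum_congr rfl
      intro v _
      rw [hPv, ← hHv]
      simp only [hxj.1, hxj.2, ne_eq, not_false_eq_true, true_and]
    · have h6 : ∀ v, ¬ (x ≠ 0 ∧ j ≠ i ∧ x * H v i = y * H v j) := fun v h => hxj ⟨h.1, h.2.1⟩
      simp only [h6, if_false, mul_zero, sum_const_zero]
      exact hθ0
  have part3 : ∀ C ∈ Cs s Q0, ∀ g ∈ range (M' + 1), ∑ v ∈ Fintype.piFinset Ω, P v * DL τ0 z (g * X / M') C (H v) ≤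
      M / L ^ (U + 2 * A4 + 1 + 1) := by
    intro C hC g hg
    rw [mem_Cs] at hC
    rw [mem_range] at hg
    obtain ⟨N, hN⟩ : ∃ N, N = g * X / M' := ⟨_, rfl⟩
    have hNX : N ≤ X := by
      rw [hN]
      calc g * X / M' ≤ M' * X / M' := Nat.div_le_div_right (Nat.mul_le_mul_right _ (by omega))
        _ = X := Nat.mul_div_cancel_left _ hM'
    rw [← hN]
    have h6 := lf_diff τ0 M N (Q0 + B + 1) z (U + 2 * A4 + 1 + 1) κ c C Ω p hp0 hp1 (by
      intro i v hv n hn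
      rw [mem_Icc] at hn
      have h7 := hpA i v hv
      have h8 : C i * (n : ℤ) ≤ (Q0 : ℤ) * X := by
        calc C i * (n : ℤ) ≤ |C i| * n := mul_le_mul_of_nonneg_right (le_abs_self _) (by positivity)
          _ ≤ (Q0 : ℤ) * X := mul_le_mul (hC i).2 (by exact_mod_cast hn.2.trans hNX) (by positivity) (by positivity)
      have h9 : ((X : ℕ) : ℤ) ≤ M := by exact_mod_cast hXM
      have h10 : (B : ℤ) * X ≤ B * M := mul_le_mul_of_nonneg_left h9 (by positivity)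
      have h11 : (Q0 : ℤ) * X ≤ Q0 * M := mul_le_mul_of_nonneg_left h9 (by positivity)
      have h12 := le_abs_self (c i + κ i * (v : ℤ))
      push_cast
      have h13 : (0 : ℤ) ≤ M := by positivity
      nlinarith) (fun i K hK G hG => by
      have h7 := one_form N M (U + 2 * A4 + 1 + s + 3) Bt Et (B + 2) Q0 (κ i) (Ω i) (p i) (hone i) (C i) (hC i) (by
        rw [hM]
        exact Nat.mul_le_mul_left _ hNX) (c i) (by
        have h8 := hc i
        have h9 : ((X : ℕ) : ℤ) ≤ M := by exact_mod_cast hXM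
        have h10 : (B : ℤ) * X ≤ B * M := mul_le_mul_of_nonneg_left h9 (by positivity)
        have h11 : (1 : ℤ) ≤ M := by exact_mod_cast (by omega : 1 ≤ M)
        push_cast
        nlinarith) z hz1 hz2 K hK G hG
      rw [show U + 2 * A4 + 1 + 1 + s + 2 = U + 2 * A4 + 1 + s + 3 by omega]
      exact h7) (hNX.trans hXM) (by omega) (by omega) (by rw [← hLdef]; exact hL1) (by rw [← hLdef]; linarith)
      (by rw [← hLdef]; linarith) (by rw [← hLdef]; exact hVz)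
    rw [← hLdef] at h6
    refine le_trans (le_of_eq ?_) h6
    apply sum_congr rfl
    intro v _
    rw [hPv, ← hHv]
  -- the pointwise bound
  obtain ⟨J, hJ⟩ : ∃ J : Finset ℤ, J = Icc (-(Q0 : ℤ)) Q0 := ⟨_, rfl⟩
  have hJc : (J.card : ℝ) = 2 * Q0 + 1 := by
    have : J.card = 2 * Q0 + 1 := by
      rw [hJ, Int.card_Icc]
      omega
    rw [this]
    push_cast
    ring
  have hηX : 0 < η * X := by positivity
  have hpt : ∀ v ∈ Fintype.piFinset Ω, (if Bad v then ∏ i, p i (v i) else 0) ≤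
      ∑ i : Fin s, P v * (if H v i = 0 then (1 : ℝ) else 0) +
      ∑ x ∈ J, ∑ y ∈ J, ∑ i : Fin s, ∑ j : Fin s, P v * (if x ≠ 0 ∧ j ≠ i ∧ x * H v i = y * H v j then (1 : ℝ) else 0) +
      ∑ C ∈ Cs s Q0, ∑ g ∈ range (M' + 1), 1 / (η * X) * (P v * DL τ0 z (g * X / M') C (H v)) := by
    intro v hv
    have hv' := Fintype.mem_piFinset.1 hv
    rw [hPv]
    have hP0 : 0 ≤ P v := by rw [← hPv]; exact prod_nonneg fun j _ => hp0 j _ (hv' j)
    have t1 : ∀ i ∈ (univ : Finset (Fin s)), 0 ≤ P v * (if H v i = 0 then (1 : ℝ) else 0) := fun i _ =>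
      mul_nonneg hP0 (by split_ifs <;> norm_num)
    have t2 : ∀ x y : ℤ, ∀ i j : Fin s, 0 ≤ P v * (if x ≠ 0 ∧ j ≠ i ∧ x * H v i = y * H v j then (1 : ℝ) else 0) :=
      fun x y i j => mul_nonneg hP0 (by split_ifs <;> norm_num)
    have t3 : ∀ C : Fin s → ℤ, ∀ g : ℕ, 0 ≤ 1 / (η * X) * (P v * DL τ0 z (g * X / M') C (H v)) := by
      intro C g
      unfold DL
      positivity
    have s1 := sum_nonneg t1
    have s2 : 0 ≤ ∑ x ∈ J, ∑ y ∈ J, ∑ i : Fin s, ∑ j : Fin s, P v * (if x ≠ 0 ∧ j ≠ i ∧ x * H v i = y * H v j then (1 : ℝ) else 0) :=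
      sum_nonneg fun x _ => sum_nonneg fun y _ => sum_nonneg fun i _ => sum_nonneg fun j _ => t2 x y i j
    have s3 : 0 ≤ ∑ C ∈ Cs s Q0, ∑ g ∈ range (M' + 1), 1 / (η * X) * (P v * DL τ0 z (g * X / M') C (H v)) :=
      sum_nonneg fun C _ => sum_nonneg fun g _ => t3 C g
    by_cases hb : Bad v
    swap
    · rw [if_neg hb]
      positivity
    rw [if_pos hb]
    rcases hBad v hv hb with ⟨i, hi⟩ | ⟨i, j, hij, x, y, hx, hxQ, hyQ, hxy⟩ | ⟨C, hC, g, hg, hlt⟩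
    · have h6 := single_le_sum t1 (mem_univ i)
      rw [if_pos hi, mul_one] at h6
      linarith
    · have hxJ : x ∈ J := by rw [hJ, mem_Icc, ← abs_le]; exact hxQ
      have hyJ : y ∈ J := by rw [hJ, mem_Icc, ← abs_le]; exact hyQ
      have h6 : P v * (if x ≠ 0 ∧ j ≠ i ∧ x * H v i = y * H v j then (1 : ℝ) else 0) ≤
          ∑ x ∈ J, ∑ y ∈ J, ∑ i : Fin s, ∑ j : Fin s, P v * (if x ≠ 0 ∧ j ≠ i ∧ x * H v i = y * H v j then (1 : ℝ) else 0) := by
        refine le_trans ?_ (single_le_sum (f := fun x => ∑ y ∈ J, ∑ i : Fin s, ∑ j : Fin s,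
          P v * (if x ≠ 0 ∧ j ≠ i ∧ x * H v i = y * H v j then (1 : ℝ) else 0))
          (fun x _ => sum_nonneg fun y _ => sum_nonneg fun i _ => sum_nonneg fun j _ => t2 x y i j) hxJ)
        refine le_trans ?_ (single_le_sum (f := fun y => ∑ i : Fin s, ∑ j : Fin s,
          P v * (if x ≠ 0 ∧ j ≠ i ∧ x * H v i = y * H v j then (1 : ℝ) else 0))
          (fun y _ => sum_nonneg fun i _ => sum_nonneg fun j _ => t2 x y i j) hyJ)
        refine le_trans ?_ (single_le_sum (f := fun i => ∑ j : Fin s,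
          P v * (if x ≠ 0 ∧ j ≠ i ∧ x * H v i = y * H v j then (1 : ℝ) else 0))
          (fun i _ => sum_nonneg fun j _ => t2 x y i j) (mem_univ i))
        exact single_le_sum (f := fun j => P v * (if x ≠ 0 ∧ j ≠ i ∧ x * H v i = y * H v j then (1 : ℝ) else 0))
          (fun j _ => t2 x y i j) (mem_univ j)
      rw [if_pos ⟨hx, hij.symm, hxy⟩, mul_one] at h6
      linarith
    · have h6 : 1 / (η * X) * (P v * DL τ0 z (g * X / M') C (H v)) ≤
          ∑ C ∈ Cs s Q0, ∑ g ∈ range (M' + 1), 1 / (η * X) * (P v * DL τ0 z (g * X / M') C (H v)) := by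
        refine le_trans ?_ (single_le_sum (f := fun C => ∑ g ∈ range (M' + 1), 1 / (η * X) * (P v * DL τ0 z (g * X / M') C (H v)))
          (fun C _ => sum_nonneg fun g _ => t3 C g) hC)
        exact single_le_sum (f := fun g => 1 / (η * X) * (P v * DL τ0 z (g * X / M') C (H v))) (fun g _ => t3 C g)
          (mem_range.2 (by omega))
      have h7 : P v ≤ 1 / (η * X) * (P v * DL τ0 z (g * X / M') C (H v)) := by
        rw [one_div, ← div_eq_inv_mul, le_div_iff₀ hηX]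
        exact mul_le_mul_of_nonneg_left hlt.le hP0
      linarith
  refine (sum_le_sum hpt).trans ?_
  rw [sum_add_distrib, sum_add_distrib]
  have g1 : ∑ v ∈ Fintype.piFinset Ω, ∑ i : Fin s, P v * (if H v i = 0 then (1 : ℝ) else 0) ≤ s * (1 / L ^ (U + 2 * A4 + 1 + s + 3)) := by
    rw [sum_comm]
    refine (sum_le_sum fun i _ => part1 i).trans (le_of_eq ?_)
    rw [sum_const, card_univ, Fintype.card_fin, nsmul_eq_mul]
  have g2 : ∑ v ∈ Fintype.piFinset Ω, ∑ x ∈ J, ∑ y ∈ J, ∑ i : Fin s, ∑ j : Fin s,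
      P v * (if x ≠ 0 ∧ j ≠ i ∧ x * H v i = y * H v j then (1 : ℝ) else 0) ≤
      ((2 * (Q0 : ℝ) + 1) * (2 * Q0 + 1)) * (s * s) * (1 / L ^ (U + 2 * A4 + 1 + s + 3)) := by
    rw [sum_comm]
    have a1 : ∀ x ∈ J, ∑ v ∈ Fintype.piFinset Ω, ∑ y ∈ J, ∑ i : Fin s, ∑ j : Fin s,
        P v * (if x ≠ 0 ∧ j ≠ i ∧ x * H v i = y * H v j then (1 : ℝ) else 0) ≤ (2 * (Q0 : ℝ) + 1) * (s * (s * (1 / L ^ (U + 2 * A4 + 1 + s + 3)))) := by
      intro x _
      rw [sum_comm]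
      have a2 : ∀ y ∈ J, ∑ v ∈ Fintype.piFinset Ω, ∑ i : Fin s, ∑ j : Fin s,
          P v * (if x ≠ 0 ∧ j ≠ i ∧ x * H v i = y * H v j then (1 : ℝ) else 0) ≤ s * (s * (1 / L ^ (U + 2 * A4 + 1 + s + 3))) := by
        intro y _
        rw [sum_comm]
        have a3 : ∀ i ∈ (univ : Finset (Fin s)), ∑ v ∈ Fintype.piFinset Ω, ∑ j : Fin s,
            P v * (if x ≠ 0 ∧ j ≠ i ∧ x * H v i = y * H v j then (1 : ℝ) else 0) ≤ s * (1 / L ^ (U + 2 * A4 + 1 + s + 3)) := by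
          intro i _
          rw [sum_comm]
          refine (sum_le_sum fun j _ => part2 x y i j).trans (le_of_eq ?_)
          rw [sum_const, card_univ, Fintype.card_fin, nsmul_eq_mul]
        refine (sum_le_sum a3).trans (le_of_eq ?_)
        rw [sum_const, card_univ, Fintype.card_fin, nsmul_eq_mul]
      refine (sum_le_sum a2).trans (le_of_eq ?_)
      rw [sum_const, nsmul_eq_mul, hJc]
    refine (sum_le_sum a1).trans (le_of_eq ?_)
    rw [sum_const, nsmul_eq_mul, hJc]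
    ring
  have g3 : ∑ v ∈ Fintype.piFinset Ω, ∑ C ∈ Cs s Q0, ∑ g ∈ range (M' + 1), 1 / (η * X) * (P v * DL τ0 z (g * X / M') C (H v)) ≤
      (Cs s Q0).card * ((M' + 1) * (Q0 / η)) * (1 / L ^ (U + 2 * A4 + 1 + 1)) := by
    rw [sum_comm]
    have a1 : ∀ C ∈ Cs s Q0, ∑ v ∈ Fintype.piFinset Ω, ∑ g ∈ range (M' + 1), 1 / (η * X) * (P v * DL τ0 z (g * X / M') C (H v)) ≤
        (M' + 1) * ((Q0 / η) * (1 / L ^ (U + 2 * A4 + 1 + 1))) := by
      intro C hC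
      rw [sum_comm]
      have a2 : ∀ g ∈ range (M' + 1), ∑ v ∈ Fintype.piFinset Ω, 1 / (η * X) * (P v * DL τ0 z (g * X / M') C (H v)) ≤
          (Q0 / η) * (1 / L ^ (U + 2 * A4 + 1 + 1)) := by
        intro g hg
        rw [← mul_sum]
        refine (mul_le_mul_of_nonneg_left (part3 C hC g hg) (by positivity)).trans (le_of_eq ?_)
        rw [hM]
        push_cast
        field_simp
      refine (sum_le_sum a2).trans (le_of_eq ?_)
      rw [sum_const, card_range, nsmul_eq_mul]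
      push_cast
      ring
    refine (sum_le_sum a1).trans (le_of_eq ?_)
    rw [sum_const, nsmul_eq_mul]
    ring
  have e1 : 1 / L ^ (U + 2 * A4 + 1 + s + 3) ≤ 1 / L ^ (U + 2 * A4 + 1 + 1) :=
    one_div_le_one_div_of_le (by positivity) (pow_le_pow_right₀ hL1 (by omega))
  have g4 : (s : ℝ) * (1 / L ^ (U + 2 * A4 + 1 + s + 3)) ≤ s * (1 / L ^ (U + 2 * A4 + 1 + 1)) := mul_le_mul_of_nonneg_left e1 (by positivity)
  have g5 : ((2 * (Q0 : ℝ) + 1) * (2 * Q0 + 1)) * (s * s) * (1 / L ^ (U + 2 * A4 + 1 + s + 3)) ≤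
      ((2 * (Q0 : ℝ) + 1) * (2 * Q0 + 1)) * (s * s) * (1 / L ^ (U + 2 * A4 + 1 + 1)) := mul_le_mul_of_nonneg_left e1 (by positivity)
  have hLA1 : 1 ≤ L ^ A4 := one_le_pow₀ hL1
  have hCc : (0 : ℝ) ≤ (Cs s Q0).card := Nat.cast_nonneg _
  have g6 : ((Cs s Q0).card : ℝ) * ((M' + 1) * (Q0 / η)) * (1 / L ^ (U + 2 * A4 + 1 + 1)) ≤
      (Cs s Q0).card * (2 * Q0) * (1 / L ^ (U + 2)) := by
    have w1 : (M' : ℝ) + 1 ≤ 2 * L ^ A4 := by linarith
    have w2 : (Q0 : ℝ) / η ≤ Q0 * L ^ A4 := by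
      rw [div_eq_mul_one_div]
      exact mul_le_mul_of_nonneg_left hηL (Nat.cast_nonneg _)
    calc ((Cs s Q0).card : ℝ) * ((M' + 1) * (Q0 / η)) * (1 / L ^ (U + 2 * A4 + 1 + 1))
        ≤ (Cs s Q0).card * ((2 * L ^ A4) * (Q0 * L ^ A4)) * (1 / L ^ (U + 2 * A4 + 1 + 1)) := by gcongr
      _ = (Cs s Q0).card * (2 * Q0) * (1 / L ^ (U + 2)) := by
          have : L ^ (U + 2 * A4 + 1 + 1) = L ^ (U + 2) * (L ^ A4 * L ^ A4) := by rw [← pow_add, ← pow_add]; congr 1; ring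
          rw [this]
          field_simp
  have e2 : 1 / L ^ (U + 2 * A4 + 1 + 1) ≤ 1 / L ^ (U + 2) :=
    one_div_le_one_div_of_le (by positivity) (pow_le_pow_right₀ hL1 (by omega))
  have g61 : (s : ℝ) * (1 / L ^ (U + 2 * A4 + 1 + 1)) ≤ s * (1 / L ^ (U + 2)) := mul_le_mul_of_nonneg_left e2 (by positivity)
  have g62 : ((2 * (Q0 : ℝ) + 1) * (2 * Q0 + 1)) * (s * s) * (1 / L ^ (U + 2 * A4 + 1 + 1)) ≤
      ((2 * (Q0 : ℝ) + 1) * (2 * Q0 + 1)) * (s * s) * (1 / L ^ (U + 2)) := mul_le_mul_of_nonneg_left e2 (by positivity)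
  have g63 : s * (1 / L ^ (U + 2)) + ((2 * (Q0 : ℝ) + 1) * (2 * Q0 + 1)) * (s * s) * (1 / L ^ (U + 2)) +
      (Cs s Q0).card * (2 * Q0) * (1 / L ^ (U + 2)) = Cst * (1 / L ^ (U + 2)) := by
    rw [hCst]; ring
  have g7 : Cst * (1 / L ^ (U + 2)) ≤ 1 / L ^ U := by
    rw [pow_add, mul_one_div, div_le_div_iff₀ (by positivity) (by positivity), one_mul, mul_comm]
    refine mul_le_mul_of_nonneg_left ?_ (by positivity)
    nlinarith
  have g8 : 1 / L ^ U ≤ 1 / Real.log X ^ U :=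
    one_div_le_one_div_of_le (by positivity) (pow_le_pow_left₀ (by linarith) hlX U)
  linarith

/-- the number of the `n` in a window at which all forms are primes -/
def cntW {k : ℕ} (C H : Fin k → ℤ) (y₁ y₂ : ℕ) : ℕ :=
  ((Ioc y₁ y₂).filter (fun n : ℕ => ∀ i, (C i * (n : ℤ) + H i).toNat.Prime)).card

/-- the formula of Hardy and Littlewood in all windows, for admissible systems -/
def GoodW (ε : ℝ) (A X : ℕ) {k : ℕ} (C H : Fin k → ℤ) : Prop :=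
  AdmF C H → ∃ G : ℝ, 0 < G ∧ Filter.Tendsto (singF C H) Filter.atTop (nhds G) ∧
    ∀ y₁ y₂ : ℕ, y₂ ≤ X → (X : ℝ) / Real.log X ^ A ≤ (y₂ : ℝ) - y₁ → PosF C H y₂ →
      |(cntW C H y₁ y₂ : ℝ) - G * (((y₂ : ℝ) - y₁) / Real.log X ^ k)| ≤ ε * (G * (((y₂ : ℝ) - y₁) / Real.log X ^ k))

lemma sum_win (f : ℕ → ℝ) (a b : ℕ) (hab : a ≤ b) : ∑ n ∈ Ioc a b, f n = ∑ n ∈ Icc 1 b, f n - ∑ n ∈ Icc 1 a, f n := by
  have h : Icc 1 b = Icc 1 a ∪ Ioc a b := by
    ext n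
    rw [mem_union, mem_Icc, mem_Icc, mem_Ioc]
    omega
  have hd : Disjoint (Icc 1 a) (Ioc a b) := by
    rw [disjoint_left]
    intro n hn hn'
    rw [mem_Icc] at hn
    rw [mem_Ioc] at hn'
    omega
  rw [h, sum_union hd]
  ring

lemma grid_low (X M' y : ℕ) (hM : 1 ≤ M') (hX : 1 ≤ X) (hy : y ≤ X) :
    ∃ g ≤ M', y ≤ g * X / M' ∧ g * X / M' ≤ y + X / M' + 1 := by
  refine ⟨(y * M' + X - 1) / X, ?_, ?_, ?_⟩
  · have h1 : y * M' ≤ X * M' := Nat.mul_le_mul_right _ hy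
    have h2 : (y * M' + X - 1) / X < M' + 1 := by
      rw [Nat.div_lt_iff_lt_mul hX]
      have : (M' + 1) * X = X * M' + X := by ring
      omega
    omega
  · rw [Nat.le_div_iff_mul_le hM]
    obtain ⟨g, hg⟩ : ∃ g, g = (y * M' + X - 1) / X := ⟨_, rfl⟩
    rw [← hg]
    have h3 : y * M' + X - 1 < (g + 1) * X := by
      rw [hg]
      exact Nat.lt_mul_of_div_lt (Nat.lt_succ_self _) hX
    have h4 : (g + 1) * X = g * X + X := by ring
    omega
  · have h3 : (y * M' + X - 1) / X * X ≤ y * M' + X - 1 := Nat.div_mul_le_self _ _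
    calc (y * M' + X - 1) / X * X / M' ≤ (y * M' + X) / M' := Nat.div_le_div_right (by omega)
      _ = y + X / M' := by
          rw [add_comm, Nat.add_mul_div_right _ _ hM]
          ring
      _ ≤ _ := by omega

lemma grid_up (X M' y : ℕ) (hM : 1 ≤ M') (hX : 1 ≤ X) (hy : y ≤ X) :
    ∃ g ≤ M', g * X / M' ≤ y ∧ y ≤ g * X / M' + X / M' + 1 := by
  refine ⟨y * M' / X, ?_, ?_, ?_⟩
  · have h1 : y * M' ≤ X * M' := Nat.mul_le_mul_right _ hy
    calc y * M' / X ≤ X * M' / X := Nat.div_le_div_right h1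
      _ = M' := Nat.mul_div_cancel_left _ hX
  · calc y * M' / X * X / M' ≤ y * M' / M' := Nat.div_le_div_right (Nat.div_mul_le_self _ _)
      _ = y := Nat.mul_div_cancel _ hM
  · obtain ⟨g, hg⟩ : ∃ g, g = y * M' / X := ⟨_, rfl⟩
    rw [← hg]
    have h3 : y * M' < (g + 1) * X := by
      rw [hg]
      exact Nat.lt_mul_of_div_lt (Nat.lt_succ_self _) hX
    have h4 : (g + 1) * X = g * X + X := by ring
    have h5 : y ≤ (g * X + X) / M' := by
      rw [Nat.le_div_iff_mul_le hM]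
      omega
    have h6 : (g * X + X) / M' ≤ g * X / M' + X / M' + 1 := by
      rw [Nat.add_div hM]
      split_ifs <;> omega
    omega

lemma num_win (c ε δ L XX len ab cn cw S σ e1 : ℝ) (k A : ℕ) (hc : 0 < c) (hε : 0 < ε) (hS : c ≤ S)
    (hL1 : 1 ≤ L) (hXX : 0 < XX) (hlen : XX / L ^ A ≤ len) (hab1 : ab ≤ len) (hab2 : len - 3 * (XX / L ^ (A + k + 2)) ≤ ab)
    (hσ : |σ - S| ≤ δ * S) (hδ0 : 0 < δ) (hδ1 : δ ≤ 1) (hcn : |cn - σ * ab / L ^ k| ≤ e1 * (σ * ab / L ^ k))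
    (he0 : 0 < e1) (hcw1 : cn ≤ cw) (hcw2 : cw ≤ cn + 3 * (XX / L ^ (A + k + 2)))
    (hδε : δ ≤ ε / 8) (he : e1 ≤ ε / 8) (he1 : e1 ≤ 1) (hL : 48 / ε + 24 / (ε * c) + 6 ≤ L) :
    |cw - S * (len / L ^ k)| ≤ ε * (S * (len / L ^ k)) := by
  have hL0 : 0 < L := by linarith
  have hS0 : 0 < S := by linarith
  obtain ⟨t, ht⟩ : ∃ t, t = XX / L ^ (A + k + 2) := ⟨_, rfl⟩
  have ht0 : 0 < t := by rw [ht]; positivity
  rw [← ht] at hab2 hcw2
  have hlen0 : 0 < len := lt_of_lt_of_le (by positivity) hlen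
  obtain ⟨P, hP⟩ : ∃ P, P = L ^ k := ⟨_, rfl⟩
  have hP0 : 0 < P := by rw [hP]; positivity
  have hP1 : 1 ≤ P := by rw [hP]; exact one_le_pow₀ hL1
  rw [← hP] at hcn ⊢
  have htl : t * (P * L ^ 2) ≤ len := by
    refine le_trans (le_of_eq ?_) hlen
    rw [ht, hP, show A + k + 2 = A + (k + 2) by ring, pow_add L A, pow_add L k]
    field_simp
  obtain ⟨q, hq⟩ : ∃ q, q = len / P := ⟨_, rfl⟩
  have hq0 : 0 < q := by rw [hq]; positivity
  rw [← hq]
  have hqt : t * L ^ 2 ≤ q := by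
    rw [hq, le_div_iff₀ hP0]
    linarith
  have hLL : L ≤ L ^ 2 := by nlinarith
  have htq : t * L ≤ q := (mul_le_mul_of_nonneg_left hLL ht0.le).trans hqt
  have hepos : 0 < 48 / ε := by positivity
  have hecpos : 0 < 24 / (ε * c) := by positivity
  -- `3 t ≤ (ε / 8) S q`
  have k1 : 3 * t ≤ ε / 8 * (S * q) := by
    have h1 : 24 / (ε * c) * t ≤ L * t := mul_le_mul_of_nonneg_right (by linarith) ht0.le
    have h2 : 24 / (ε * c) * t ≤ q := by linarith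
    have h3 : 24 * t ≤ ε * c * q := by
      have h4 : ε * c * (24 / (ε * c) * t) ≤ ε * c * q := mul_le_mul_of_nonneg_left h2 (by positivity)
      have h5 : ε * c * (24 / (ε * c) * t) = 24 * t := by field_simp
      linarith
    have h6 : ε * c * q ≤ ε * S * q := by gcongr
    nlinarith
  -- `3 S t / P ≤ (ε / 8) S q`
  have k2 : 3 * S * t ≤ ε / 16 * (S * q) := by
    have h1 : 48 / ε * t ≤ L * t := mul_le_mul_of_nonneg_right (by linarith) ht0.le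
    have h2 : 48 / ε * t ≤ q := by linarith
    have h3 : 48 * t ≤ ε * q := by
      have h4 : ε * (48 / ε * t) ≤ ε * q := mul_le_mul_of_nonneg_left h2 hε.le
      have h5 : ε * (48 / ε * t) = 48 * t := by field_simp
      linarith
    nlinarith
  obtain ⟨σ1, σ2⟩ := abs_le.1 hσ
  obtain ⟨r, hr⟩ : ∃ r, r = ab / P := ⟨_, rfl⟩
  have hr1 : r ≤ q := by rw [hr, hq]; exact div_le_div_of_nonneg_right hab1 hP0.le
  have hr2 : q - 3 * t ≤ r := by
    rw [hr, hq]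
    have h1 : (len - 3 * t) / P ≤ ab / P := div_le_div_of_nonneg_right hab2 hP0.le
    have h2 : (len - 3 * t) / P = len / P - 3 * t / P := by ring
    have h3 : 3 * t / P ≤ 3 * t := div_le_self (by positivity) hP1
    linarith
  have hr0 : 0 ≤ r := by
    have h1 : 6 * t ≤ t * L := by nlinarith
    nlinarith
  have e2 : σ * ab / P = σ * r := by rw [hr]; ring
  rw [e2] at hcn
  obtain ⟨n1, n2⟩ := abs_le.1 hcn
  have hσ0 : 0 ≤ σ := by nlinarith
  have hσr1 : σ * r ≤ S * q + δ * (S * q) := by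
    have h1 : σ * r ≤ σ * q := mul_le_mul_of_nonneg_left hr1 hσ0
    have h2 : σ * q ≤ (S + δ * S) * q := mul_le_mul_of_nonneg_right (by linarith) hq0.le
    nlinarith
  have hσr2 : S * q - δ * (S * q) - 2 * (3 * S * t) ≤ σ * r := by
    have h1 : σ * (q - 3 * t) ≤ σ * r := mul_le_mul_of_nonneg_left hr2 hσ0
    have h2 : (S - δ * S) * q ≤ σ * q := mul_le_mul_of_nonneg_right (by linarith) hq0.le
    have h3 : σ * (3 * t) ≤ (2 * S) * (3 * t) := mul_le_mul_of_nonneg_right (by nlinarith) (by positivity)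
    nlinarith
  have hSq : 0 < S * q := by positivity
  have hσr3 : σ * r ≤ 2 * (S * q) := by nlinarith
  have m1 : e1 * (σ * r) ≤ ε / 4 * (S * q) := by
    calc e1 * (σ * r) ≤ (ε / 8) * (2 * (S * q)) := mul_le_mul he hσr3 (by positivity) (by positivity)
      _ = _ := by ring
  have m2 : δ * (S * q) ≤ ε / 8 * (S * q) := mul_le_mul_of_nonneg_right hδε hSq.le
  rw [abs_le]
  constructor
  · nlinarith
  · nlinarith

end Pool.Agent.Q26.PD
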