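import Pool.Agent.Q26.PD.LW
import Pool.Agent.Q26.PD.AR

set_option autoImplicit false

/-! Systems of linear forms in all windows: the deterministic part. -/

namespace Pool.Agent.Q26.PD
open Finset
open Pool.Agent.H373R2.T7
open Pool.Agent.Y820.LF
open Pool.Agent.TH935.TG (cnM WtM convM)
open Pool.Agent.TH935.TF (LL mdl)

theorem win_core (k Q0 B A : ℕ) (hk : 1 ≤ k) (ε : ℝ) (hε : 0 < ε) : ∃ n0 : ℕ, ∀ X : ℕ, n0 ≤ X → ∀ C H : Fin k → ℤ,
    (∀ i, C i ≠ 0 ∧ |C i| ≤ (Q0 : ℤ)) → (∀ i, |H i| ≤ (B : ℤ) * X) → (∀ i j, i ≠ j → C i * H j ≠ C j * H i) →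
    ∀ z : ℕ, Real.log X ^ 2 ≤ z → ∀ M' : ℕ, 1 ≤ M' → Real.log X ^ (A + k + 2) ≤ M' → ∀ W : ℕ → ℝ,
    (AdmF C H → ∀ N' : ℕ, 1 ≤ N' → N' ≤ X → PosF C H N' →
      |∑ n ∈ Icc 1 N', W n - singF C H z * N'| ≤ X / Real.log X ^ (A + 3)) →
    (∀ g : ℕ, g ≤ M' → |∑ n ∈ Icc 1 (g * X / M'), ∏ i, lamI (C i * (n : ℤ) + H i) - ∑ n ∈ Icc 1 (g * X / M'), W n| ≤
      X / Real.log X ^ (A + 3)) → GoodW ε A X C H := by
  classical
  obtain ⟨c, hc, hlim⟩ := t_lim k Q0 hk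
  obtain ⟨δ, hδ⟩ : ∃ δ : ℝ, δ = min (ε / 8) (1 / 2) := ⟨_, rfl⟩
  have hδ0 : 0 < δ := by rw [hδ]; exact lt_min (by positivity) (by norm_num)
  have hδε : δ ≤ ε / 8 := by rw [hδ]; exact min_le_left _ _
  have hδ1 : δ ≤ 1 / 2 := by rw [hδ]; exact min_le_right _ _
  obtain ⟨e1, he1⟩ : ∃ e1 : ℝ, e1 = min (ε / 8) 1 := ⟨_, rfl⟩
  have he0 : 0 < e1 := by rw [he1]; exact lt_min (by positivity) (by norm_num)
  have heε : e1 ≤ ε / 8 := by rw [he1]; exact min_le_left _ _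
  have he11 : e1 ≤ 1 := by rw [he1]; exact min_le_right _ _
  obtain ⟨n1, h1⟩ := hlim B δ hδ0
  obtain ⟨n2, h2⟩ := convM k (A + 1) (B + 1) 1 hk e1 he0
  obtain ⟨n3, h3⟩ := ev_L' (48 / ε + 24 / (ε * c) + 6 + 4 / c + Q0 + 8)
  obtain ⟨n4, h4⟩ := ev_log' (A + k + 2) 1
  refine ⟨n1 + n2 + n3 + n4 + 4, fun X hX C H hC hH hnd z hz M' hM' hM'L W hmain hgrid hadm => ?_⟩
  have a3 := h3 X (by omega)
  have a4 := h4 X (by omega)
  obtain ⟨S, hcS, hS, hSz⟩ := h1 X (by omega) C H hC hH hnd hadm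
  have hS0 : 0 < S := lt_of_lt_of_le hc hcS
  refine ⟨S, hS0, hS, fun y₁ y₂ hy2 hlen hpos => ?_⟩
  have hσ := hSz z hz
  obtain ⟨σ, hσd⟩ : ∃ σ, σ = singF C H z := ⟨_, rfl⟩
  rw [← hσd] at hσ hmain
  have hconv := h2 X (by omega) C H (fun i => (hC i).1)
  obtain ⟨L, hL⟩ : ∃ L, L = Real.log (X : ℝ) := ⟨_, rfl⟩
  rw [← hL] at a3 a4 hM'L hmain hgrid hlen hconv ⊢
  rw [one_mul] at a4
  have b1 : 0 < 48 / ε := by positivity
  have b2 : 0 < 24 / (ε * c) := by positivity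
  have b3 : 0 < 4 / c := by positivity
  have b4 : (0 : ℝ) ≤ Q0 := Nat.cast_nonneg _
  have hL8 : 8 ≤ L := by linarith
  have hL1 : 1 ≤ L := by linarith
  have hL0 : 0 < L := by linarith
  have hX0 : (0 : ℝ) < X := by exact_mod_cast (by omega : 0 < X)
  have hX4 : (4 : ℝ) ≤ X := by exact_mod_cast (by omega : 4 ≤ X)
  obtain ⟨t, ht⟩ : ∃ t, t = (X : ℝ) / L ^ (A + k + 2) := ⟨_, rfl⟩
  have hs2 : 2 ≤ √(X : ℝ) := Real.le_sqrt_of_sq_le (by norm_num; omega)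
  have ht2 : 2 ≤ t := by
    rw [ht, le_div_iff₀ (by positivity)]
    calc 2 * L ^ (A + k + 2) ≤ √(X : ℝ) * √(X : ℝ) := mul_le_mul hs2 a4 (by positivity) (by positivity)
      _ = X := Real.mul_self_sqrt hX0.le
  have htL : (X : ℝ) / L ^ A = t * L ^ (k + 2) := by
    rw [ht, show A + k + 2 = A + (k + 2) by ring, pow_add L A]
    field_simp
  have hM'0 : (0 : ℝ) < M' := by exact_mod_cast hM'
  have hXM : (((X / M' : ℕ)) : ℝ) ≤ t := by
    refine Nat.cast_div_le.trans ?_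
    rw [ht]
    exact div_le_div_of_nonneg_left hX0.le (by positivity) hM'L
  have hlen6 : 6 * t ≤ (y₂ : ℝ) - y₁ := by
    refine le_trans ?_ hlen
    rw [htL]
    have : L ≤ L ^ (k + 2) := le_self_pow₀ hL1 (by omega)
    nlinarith
  have hy12 : y₁ ≤ y₂ := by
    have : (y₁ : ℝ) ≤ y₂ := by linarith
    exact_mod_cast this
  obtain ⟨g1, hg1, u1, u2⟩ := grid_low X M' y₁ hM' (by omega) (hy12.trans hy2)
  obtain ⟨g2, hg2, w1, w2⟩ := grid_up X M' y₂ hM' (by omega) hy2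
  have hgr1 := hgrid g1 hg1
  have hgr2 := hgrid g2 hg2
  obtain ⟨a, ha⟩ : ∃ a, a = g1 * X / M' := ⟨_, rfl⟩
  obtain ⟨b, hb⟩ : ∃ b, b = g2 * X / M' := ⟨_, rfl⟩
  rw [← ha] at u1 u2 hgr1
  rw [← hb] at w1 w2 hgr2
  have u2r : (a : ℝ) ≤ y₁ + t + 1 := by
    have : (a : ℝ) ≤ y₁ + ((X / M' : ℕ) : ℝ) + 1 := by exact_mod_cast u2
    linarith
  have w2r : (y₂ : ℝ) ≤ b + t + 1 := by
    have : (y₂ : ℝ) ≤ b + ((X / M' : ℕ) : ℝ) + 1 := by exact_mod_cast w2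
    linarith
  have u1r : (y₁ : ℝ) ≤ a := by exact_mod_cast u1
  have w1r : (b : ℝ) ≤ y₂ := by exact_mod_cast w1
  have habr : (a : ℝ) + 3 * t ≤ b := by linarith
  have hab : a < b := by
    have : (a : ℝ) < b := by linarith
    exact_mod_cast this
  obtain ⟨e, he⟩ : ∃ e, e = (X : ℝ) / L ^ (A + 3) := ⟨_, rfl⟩
  rw [← he] at hmain hgr1 hgr2
  have he00 : 0 ≤ e := by rw [he]; positivity
  have hposb : PosF C H b := posF_mono C H y₂ b hpos (by omega) w1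
  have hmb := hmain hadm b (by omega) (w1.trans hy2) hposb
  have hma : |∑ n ∈ Icc 1 a, W n - σ * a| ≤ e := by
    rcases Nat.eq_zero_or_pos a with h0 | h0
    · rw [h0, Icc_eq_empty (by omega), sum_empty, Nat.cast_zero, mul_zero, sub_zero, abs_zero]
      exact he00
    · exact hmain hadm a h0 (by omega) (posF_mono C H b a hposb h0 hab.le)
  have hposn : ∀ n ∈ Ioc y₁ y₂, ∀ i, 1 ≤ C i * (n : ℤ) + H i := by
    intro n hn i
    rw [mem_Ioc] at hn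
    exact M0.pos_of hpos (mem_Icc.2 ⟨by omega, hn.2⟩) i
  have hsubab : Ioc a b ⊆ Ioc y₁ y₂ := by
    intro n hn
    rw [mem_Ioc] at hn ⊢
    omega
  have hW : WtM C H (Ioc a b) = ∑ n ∈ Icc 1 b, ∏ i, lamI (C i * (n : ℤ) + H i) - ∑ n ∈ Icc 1 a, ∏ i, lamI (C i * (n : ℤ) + H i) := by
    rw [← sum_win _ a b hab.le]
    unfold WtM
    apply sum_congr rfl
    intro n hn
    exact prod_congr rfl fun i _ => (lamI_pos _ (hposn n (hsubab hn) i)).symm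
  have hσ2 : S / 2 ≤ σ := by
    have := (abs_le.1 hσ).1
    nlinarith
  have hσ0 : 0 < σ := by linarith
  have hD : |WtM C H (Ioc a b) - σ * ((b : ℝ) - a)| ≤ X / L ^ (A + 1 + 1) := by
    rw [hW]
    obtain ⟨p1, p2⟩ := abs_le.1 hgr1
    obtain ⟨p3, p4⟩ := abs_le.1 hgr2
    obtain ⟨p5, p6⟩ := abs_le.1 hma
    obtain ⟨p7, p8⟩ := abs_le.1 hmb
    have h5 : 4 * e ≤ X / L ^ (A + 1 + 1) := by
      have e5 : (X : ℝ) / L ^ (A + 1 + 1) = e * L := by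
        rw [he, show A + 3 = (A + 1 + 1) + 1 by ring, pow_succ L (A + 1 + 1)]
        field_simp
      rw [e5]
      nlinarith
    rw [abs_le]
    constructor <;> nlinarith
  have hQ : (X : ℝ) / L ^ (A + 1) ≤ σ * ((b : ℝ) - a) := by
    have h5 : ((y₂ : ℝ) - y₁) / 2 ≤ (b : ℝ) - a := by linarith
    have h6 : (X : ℝ) / L ^ A / 2 ≤ (b : ℝ) - a := by linarith
    have h7 : c / 2 ≤ σ := by linarith
    have h8 : (X : ℝ) / L ^ (A + 1) = X / L ^ A / L := by rw [pow_succ]; field_simp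
    have h9 : 1 / L ≤ c / 4 := by
      rw [div_le_div_iff₀ hL0 (by norm_num), one_mul]
      have : c * (4 / c) ≤ c * L := mul_le_mul_of_nonneg_left (by linarith) hc.le
      rwa [mul_div_cancel₀ _ hc.ne'] at this
    have h10 : 0 ≤ (X : ℝ) / L ^ A := by positivity
    calc (X : ℝ) / L ^ (A + 1) = X / L ^ A * (1 / L) := by rw [h8]; ring
      _ ≤ X / L ^ A * (c / 4) := mul_le_mul_of_nonneg_left h9 h10
      _ = (c / 2) * (X / L ^ A / 2) := by ring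
      _ ≤ σ * ((b : ℝ) - a) := mul_le_mul h7 h6 (by positivity) hσ0.le
  have hcn := hconv (fun i => by
      rw [pow_one]
      have h5 := (hC i).2
      have h6 : (((C i).natAbs : ℤ)) ≤ (Q0 : ℤ) := by rw [Int.natCast_natAbs]; exact h5
      have h7 : ((C i).natAbs : ℝ) ≤ Q0 := by exact_mod_cast h6
      linarith) (fun i => by
      have h5 : ((H i).natAbs : ℤ) ≤ ((B * X : ℕ) : ℤ) := by rw [Int.natCast_natAbs]; push_cast; exact hH i
      have h6 : (H i).natAbs ≤ B * X := by exact_mod_cast h5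
      exact h6.trans (Nat.mul_le_mul_right _ (by omega))) (Ioc a b) (by
      intro n hn
      rw [mem_Ioc] at hn ⊢
      refine ⟨by omega, ?_⟩
      have : X ≤ (B + 1) * X := Nat.le_mul_of_pos_left _ (by omega)
      omega) _ hQ hD
  have hcc1 : cnM C H (Ioc a b) ≤ cntW C H y₁ y₂ := by
    unfold cnM cntW
    apply card_le_card
    intro n hn
    rw [mem_filter] at hn ⊢
    refine ⟨hsubab hn.1, fun i => ?_⟩
    have h5 := hposn n (hsubab hn.1) i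
    have h6 := hn.2 i
    have h7 : (C i * (n : ℤ) + H i).natAbs = (C i * (n : ℤ) + H i).toNat := by omega
    rwa [h7] at h6
  have hcc2 : cntW C H y₁ y₂ ≤ cnM C H (Ioc a b) + (a - y₁) + (y₂ - b) := by
    have hsub : (Ioc y₁ y₂).filter (fun n : ℕ => ∀ i, (C i * (n : ℤ) + H i).toNat.Prime) ⊆
        ((Ioc a b).filter (fun n : ℕ => ∀ i, (C i * (n : ℤ) + H i).natAbs.Prime) ∪ Ioc y₁ a) ∪ Ioc b y₂ := by
      intro n hn
      rw [mem_filter] at hn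
      rw [mem_union, mem_union, mem_filter]
      have hn1 := mem_Ioc.1 hn.1
      rw [mem_Ioc, mem_Ioc, mem_Ioc]
      by_cases c1 : n ≤ a
      · exact Or.inl (Or.inr ⟨hn1.1, c1⟩)
      · by_cases c2 : b < n
        · exact Or.inr ⟨c2, hn1.2⟩
        · refine Or.inl (Or.inl ⟨⟨by omega, by omega⟩, fun i => ?_⟩)
          have h5 := hposn n hn.1 i
          have h7 : (C i * (n : ℤ) + H i).natAbs = (C i * (n : ℤ) + H i).toNat := by omega
          rw [h7]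
          exact hn.2 i
    unfold cntW cnM
    refine (card_le_card hsub).trans ((card_union_le _ _).trans ?_)
    have h5 := card_union_le ((Ioc a b).filter (fun n : ℕ => ∀ i, (C i * (n : ℤ) + H i).natAbs.Prime)) (Ioc y₁ a)
    rw [Nat.card_Ioc] at h5
    rw [Nat.card_Ioc]
    omega
  have hcc1r : (cnM C H (Ioc a b) : ℝ) ≤ cntW C H y₁ y₂ := by exact_mod_cast hcc1
  have hcc2r : (cntW C H y₁ y₂ : ℝ) ≤ cnM C H (Ioc a b) + 3 * t := by
    have h5 : (cntW C H y₁ y₂ : ℝ) ≤ cnM C H (Ioc a b) + ((a : ℝ) - y₁) + ((y₂ : ℝ) - b) := by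
      have h6 : ((cntW C H y₁ y₂ : ℕ) : ℝ) ≤ ((cnM C H (Ioc a b) + (a - y₁) + (y₂ - b) : ℕ) : ℝ) := by exact_mod_cast hcc2
      push_cast [Nat.cast_sub u1, Nat.cast_sub w1] at h6
      exact h6
    linarith
  exact num_win c ε δ L X ((y₂ : ℝ) - y₁) ((b : ℝ) - a) (cnM C H (Ioc a b)) (cntW C H y₁ y₂) S σ e1 k A hc hε hcS hL1 hX0 hlen
    (by linarith) (by rw [← ht]; linarith) hσ hδ0 (by linarith) hcn he0 hcc1r (by rw [← ht]; exact hcc2r) hδε heε he11 (by linarith)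

end Pool.Agent.Q26.PD
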