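import Pool.Agent.Q26.PD.LW2

set_option autoImplicit false

/-! Systems of linear forms in all windows and for all short translates: the main theorem. -/

namespace Pool.Agent.Q26.PD
open Finset
open Pool.Agent.H373R2.T7
open Pool.Agent.Y820.LF
open Pool.Agent.W93.TD (total_w)

/-- the formula in all windows for all the systems with the constants `H` -/
def GoodWL {s : ℕ} (τ0 : Bool) (ε : ℝ) (A X Q0 : ℕ) (H : Fin s → ℤ) : Prop :=
  ∀ C : Fin s → ℤ, (∀ i, C i ≠ 0 ∧ |C i| ≤ (Q0 : ℤ)) → if τ0 = true then GoodW ε A X (C1 C) (H1 H) else GoodW ε A X C H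

lemma sing_le {k : ℕ} (C H : Fin k → ℤ) (z : ℕ) (hadm : AdmF C H) : singF C H z ≤ ((Vz z)⁻¹) ^ k := by
  unfold singF Vz
  rw [← prod_inv_distrib, ← prod_pow]
  apply prod_le_prod
  · intro p hp
    have hpp := (mem_filter.1 hp).2
    have hp2 : (2 : ℝ) ≤ p := by exact_mod_cast hpp.two_le
    have h1 : (nuF C H p : ℝ) ≤ p := by exact_mod_cast (hadm p hpp).le
    have h2 : 0 ≤ 1 - (nuF C H p : ℝ) / p := by
      rw [sub_nonneg, div_le_one (by linarith)]
      exact h1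
    have h3 : 0 ≤ 1 - 1 / (p : ℝ) := by
      rw [sub_nonneg, div_le_one (by linarith)]
      linarith
    positivity
  · intro p hp
    have hpp := (mem_filter.1 hp).2
    have hp2 : (2 : ℝ) ≤ p := by exact_mod_cast hpp.two_le
    have h3 : 0 < 1 - 1 / (p : ℝ) := by
      rw [sub_pos, div_lt_one (by linarith)]
      linarith
    rw [inv_pow, ← one_div]
    apply div_le_div_of_nonneg_right _ (by positivity)
    have : 0 ≤ (nuF C H p : ℝ) / p := by positivity
    linarith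

lemma z_small (Q0 Et : ℕ) : ∃ n0 : ℕ, ∀ X : ℕ, n0 ≤ X → ∀ N' : ℕ, X ≤ N' ^ 2 →
    Real.log ((Q0 * X : ℕ) : ℝ) ^ Et ≤ Real.log N' ^ (Et + 1) ∧ Real.log ((Q0 * X : ℕ) : ℝ) ^ Et ≤ Real.log X ^ (Et + 1) := by
  obtain ⟨n1, h1⟩ := ev_L' (2 * (Real.log ((Q0 + 1 : ℕ) : ℝ) + 3 ^ Et + 1))
  refine ⟨n1 + 1, fun X hX N' hN' => ?_⟩
  have h2 := h1 X (by omega)
  have h0 : 0 ≤ Real.log ((Q0 + 1 : ℕ) : ℝ) := Real.log_natCast_nonneg _
  have hp : (0 : ℝ) < 3 ^ Et := by positivity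
  have hX0 : (0 : ℝ) < X := by exact_mod_cast (by omega : 0 < X)
  have hN'1 : 1 ≤ N' := by
    by_contra h
    have : N' = 0 := by omega
    subst this
    omega
  have hN0 : (0 : ℝ) < N' := by exact_mod_cast hN'1
  have h3 : Real.log X ≤ 2 * Real.log N' := by
    have h4 : Real.log X ≤ Real.log ((N' : ℝ) ^ 2) := Real.log_le_log hX0 (by exact_mod_cast hN')
    rw [Real.log_pow] at h4
    exact_mod_cast h4
  have h4 : Real.log ((Q0 * X : ℕ) : ℝ) ≤ Real.log ((Q0 + 1 : ℕ) : ℝ) + Real.log X := by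
    rcases Nat.eq_zero_or_pos (Q0 * X) with h | h
    · rw [h, Nat.cast_zero, Real.log_zero]
      linarith
    · rw [← Real.log_mul (by positivity) hX0.ne']
      apply Real.log_le_log (by exact_mod_cast h)
      have : Q0 * X ≤ (Q0 + 1) * X := Nat.mul_le_mul_right _ (by omega)
      exact_mod_cast this
  have h5 : 0 ≤ Real.log ((Q0 * X : ℕ) : ℝ) := Real.log_natCast_nonneg _
  constructor
  · calc Real.log ((Q0 * X : ℕ) : ℝ) ^ Et ≤ (3 * Real.log N') ^ Et := pow_le_pow_left₀ h5 (by linarith) Et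
      _ = 3 ^ Et * Real.log N' ^ Et := mul_pow _ _ _
      _ ≤ Real.log N' * Real.log N' ^ Et := mul_le_mul_of_nonneg_right (by linarith) (by
          apply pow_nonneg; linarith)
      _ = _ := by ring
  · calc Real.log ((Q0 * X : ℕ) : ℝ) ^ Et ≤ (3 * Real.log X) ^ Et := pow_le_pow_left₀ h5 (by linarith) Et
      _ = 3 ^ Et * Real.log X ^ Et := mul_pow _ _ _
      _ ≤ Real.log X * Real.log X ^ Et := mul_le_mul_of_nonneg_right (by linarith) (by
          apply pow_nonneg; linarith)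
      _ = _ := by ring

/-- the main term at all scales below `X` -/
theorem main_all (τ0 : Bool) (s Q0 A Et : ℕ) (hs : 1 ≤ s) : ∃ n0 : ℕ, ∀ X : ℕ, n0 ≤ X → ∀ z : ℕ, 1 ≤ z →
    (z : ℝ) ≤ Real.log ((Q0 * X : ℕ) : ℝ) ^ Et → ∀ C H : Fin s → ℤ, ∀ N' : ℕ, 1 ≤ N' → N' ≤ X → PosF C H N' →
    (if τ0 = true then AdmF (C1 C) (H1 H) else AdmF C H) →
    |∑ n ∈ Icc 1 N', g0 τ0 n * ∏ i, lamzI z (C i * (n : ℤ) + H i) -
      (if τ0 = true then singF (C1 C) (H1 H) z else singF C H z) * N'| ≤ X / Real.log X ^ A := by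
  classical
  obtain ⟨n0, hm0⟩ := t_main0 s (Et + 1) (A + 1) hs
  obtain ⟨n1, hm1⟩ := t_main1 s (Et + 1) (A + 1) hs
  obtain ⟨n2, h2⟩ := z_small Q0 Et
  obtain ⟨n3, h3⟩ := ev_L' (2 ^ (A + 1) + 2)
  obtain ⟨n4, h4⟩ := Vz_inv_small (Et + 1)
  obtain ⟨n5, h5⟩ := ev_log' (A + s + 1) 2
  refine ⟨(n0 + n1) ^ 2 + n2 + n3 + n4 + n5 + 2, fun X hX z hz hzE C H N' hN' hN'X hpos hadm => ?_⟩
  have hX0 : (0 : ℝ) < X := by exact_mod_cast (by omega : 0 < X)
  have hL3 := h3 X (by omega)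
  have a5 := h5 X (by omega)
  obtain ⟨L, hL⟩ : ∃ L, L = Real.log (X : ℝ) := ⟨_, rfl⟩
  rw [← hL] at hL3 a5 ⊢
  have hp : (0 : ℝ) < 2 ^ (A + 1) := by positivity
  have hL1 : 1 ≤ L := by linarith
  have hL0 : 0 < L := by linarith
  by_cases hbig : X ≤ N' ^ 2
  · -- large
    have hNn : n0 + n1 ≤ N' := by
      by_contra hcon
      push Not at hcon
      have : N' ^ 2 ≤ (n0 + n1) ^ 2 := Nat.pow_le_pow_left hcon.le 2
      omega
    have hN0 : (0 : ℝ) < N' := by exact_mod_cast hN'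
    have hLN : L ≤ 2 * Real.log N' := by
      have h6 : L ≤ Real.log ((N' : ℝ) ^ 2) := by rw [hL]; exact Real.log_le_log hX0 (by exact_mod_cast hbig)
      rw [Real.log_pow] at h6
      exact_mod_cast h6
    have herr : (N' : ℝ) / Real.log N' ^ (A + 1) ≤ X / L ^ A := by
      have h6 : L / 2 ≤ Real.log N' := by linarith
      have h7 : (N' : ℝ) ≤ X := by exact_mod_cast hN'X
      calc (N' : ℝ) / Real.log N' ^ (A + 1) ≤ X / (L / 2) ^ (A + 1) := by
            apply div_le_div₀ hX0.le h7 (by positivity)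
            exact pow_le_pow_left₀ (by positivity) h6 _
        _ = (X / L ^ A) * (2 ^ (A + 1) / L) := by
            rw [div_pow, pow_succ L A]
            field_simp
        _ ≤ (X / L ^ A) * 1 := by
            apply mul_le_mul_of_nonneg_left _ (by positivity)
            rw [div_le_one hL0]
            linarith
        _ = _ := mul_one _
    have hzN := hzE.trans (h2 X (by omega) N' hbig).1
    cases τ0
    · simp only [Bool.false_eq_true, if_false] at hadm ⊢
      refine le_trans (le_of_eq ?_) ((hm0 N' (by omega) z hz hzN C H hpos hadm).trans herr)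
      unfold g0
      simp only [Bool.false_eq_true, if_false, one_mul]
    · simp only [if_true] at hadm ⊢
      refine le_trans (le_of_eq ?_) ((hm1 N' (by omega) z hz hzN C H hpos hadm).trans herr)
      unfold g0
      simp only [if_true]
      rfl
  · -- small
    push Not at hbig
    have hNs : (N' : ℝ) ≤ √(X : ℝ) := by
      apply Real.le_sqrt_of_sq_le
      exact_mod_cast hbig.le
    have hzX := (h2 X (by omega) X (by nlinarith)).2
    have hV := h4 X (by omega) z hz (hzE.trans hzX)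
    rw [← hL] at hV
    have hV0 : 0 ≤ (Vz z)⁻¹ := (inv_pos.2 (Vz_pos z)).le
    have hN0 : (0 : ℝ) ≤ N' := Nat.cast_nonneg _
    have e1 : |∑ n ∈ Icc 1 N', g0 τ0 n * ∏ i, lamzI z (C i * (n : ℤ) + H i)| ≤ N' * L ^ (s + 1) := by
      refine (abs_sum_le_sum_abs _ _).trans ?_
      have h6 : ∀ n ∈ Icc 1 N', |g0 τ0 n * ∏ i, lamzI z (C i * (n : ℤ) + H i)| ≤ L ^ (s + 1) := by
        intro n hn
        rw [mem_Icc] at hn
        have hg : g0 τ0 n ≤ L := by
          unfold g0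
          split_ifs
          · refine ArithmeticFunction.vonMangoldt_le_log.trans ?_
            rw [hL]
            exact Real.log_le_log (by exact_mod_cast hn.1) (by exact_mod_cast hn.2.trans hN'X)
          · exact hL1
        have hpr : ∏ i, lamzI z (C i * (n : ℤ) + H i) ≤ L ^ s := by
          calc ∏ i, lamzI z (C i * (n : ℤ) + H i) ≤ ∏ _i : Fin s, L :=
                prod_le_prod (fun i _ => lamzI_nonneg _ _) (fun i _ => (lamzI_le z _).trans hV)
            _ = L ^ s := by rw [prod_const, card_univ, Fintype.card_fin]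
        rw [abs_of_nonneg (mul_nonneg (g0_nonneg _ _) (prod_nonneg fun i _ => lamzI_nonneg _ _)), pow_succ, mul_comm (L ^ s)]
        exact mul_le_mul hg hpr (prod_nonneg fun i _ => lamzI_nonneg _ _) hL0.le
      refine (sum_le_sum h6).trans (le_of_eq ?_)
      rw [sum_const, Nat.card_Icc, nsmul_eq_mul, Nat.add_sub_cancel]
    have e2 : |(if τ0 = true then singF (C1 C) (H1 H) z else singF C H z) * (N' : ℝ)| ≤ N' * L ^ (s + 1) := by
      have h6 : 0 ≤ (if τ0 = true then singF (C1 C) (H1 H) z else singF C H z) ∧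
          (if τ0 = true then singF (C1 C) (H1 H) z else singF C H z) ≤ L ^ (s + 1) := by
        cases τ0
        · simp only [Bool.false_eq_true, if_false] at hadm ⊢
          refine ⟨Pool.Agent.Y820.LF.L.singF_nonneg _ _ _, (sing_le C H z hadm).trans ((pow_le_pow_left₀ hV0 hV s).trans ?_)⟩
          exact pow_le_pow_right₀ hL1 (by omega)
        · simp only [if_true] at hadm ⊢
          exact ⟨Pool.Agent.Y820.LF.L.singF_nonneg _ _ _, (sing_le _ _ z hadm).trans (pow_le_pow_left₀ hV0 hV (s + 1))⟩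
      rw [abs_of_nonneg (mul_nonneg h6.1 hN0), mul_comm]
      exact mul_le_mul_of_nonneg_left h6.2 hN0
    have e3 := abs_sub (∑ n ∈ Icc 1 N', g0 τ0 n * ∏ i, lamzI z (C i * (n : ℤ) + H i))
      ((if τ0 = true then singF (C1 C) (H1 H) z else singF C H z) * (N' : ℝ))
    refine e3.trans ((add_le_add e1 e2).trans ?_)
    rw [le_div_iff₀ (by positivity)]
    calc (N' * L ^ (s + 1) + N' * L ^ (s + 1)) * L ^ A = N' * (2 * L ^ (A + s + 1)) := by
          rw [show A + s + 1 = (s + 1) + A by ring, pow_add L (s + 1) A]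
          ring
      _ ≤ √(X : ℝ) * √(X : ℝ) := mul_le_mul hNs a5 (by positivity) (by positivity)
      _ = X := Real.mul_self_sqrt hX0.le

/-- the deterministic part -/
theorem det_w (τ0 : Bool) (s Q0 B A Et : ℕ) (hs : 1 ≤ s) (hQ0 : 1 ≤ Q0) (ε : ℝ) (hε : 0 < ε) :
    ∃ n0 : ℕ, ∀ X : ℕ, n0 ≤ X → ∀ z : ℕ, 1 ≤ z → Real.log X ^ 2 ≤ z →
    (z : ℝ) ≤ Real.log ((Q0 * X : ℕ) : ℝ) ^ Et → ∀ M' : ℕ, 1 ≤ M' → Real.log X ^ (A + s + 3) ≤ M' → ∀ η : ℝ,
    η ≤ 1 / Real.log X ^ (A + 3) → ∀ H : Fin s → ℤ, (∀ i, |H i| ≤ (B : ℤ) * X) →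
    ¬ BadH τ0 Q0 M' X z η H → GoodWL τ0 ε A X Q0 H := by
  obtain ⟨n1, h1⟩ := win_core (s + 1) Q0 B A (by omega) ε hε
  obtain ⟨n2, h2⟩ := win_core s Q0 B A hs ε hε
  obtain ⟨n3, h3⟩ := main_all τ0 s Q0 (A + 3) Et hs
  obtain ⟨n4, h4⟩ := ev_L' 1
  refine ⟨n1 + n2 + n3 + n4 + 1, fun X hX z hz hz1 hz2 M' hM' hM'L η hη H hH hbad C hC => ?_⟩
  have hL1 := h4 X (by omega)
  have hX0 : (0 : ℝ) < X := by exact_mod_cast (by omega : 0 < X)
  have hmain := h3 X (by omega) z hz hz2 C H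
  unfold BadH at hbad
  push Not at hbad
  obtain ⟨hne, hnd, hgrid⟩ := hbad
  have hηX : η * X ≤ X / Real.log X ^ (A + 3) := by
    calc η * X ≤ 1 / Real.log X ^ (A + 3) * X := mul_le_mul_of_nonneg_right hη hX0.le
      _ = _ := by ring
  have hgC : ∀ g ≤ M', |∑ n ∈ Icc 1 (g * X / M'), g0 τ0 n * (∏ i, lamI (C i * (n : ℤ) + H i) - ∏ i, lamzI z (C i * (n : ℤ) + H i))| ≤
      X / Real.log X ^ (A + 3) := fun g hg => (hgrid C ((mem_Cs C).2 hC) g hg).trans hηX
  cases τ0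
  · rw [if_neg Bool.false_ne_true]
    refine h2 X (by omega) C H hC hH ?_ z hz1 M' hM' (le_trans (pow_le_pow_right₀ hL1 (by omega)) hM'L)
      (fun n => ∏ i, lamzI z (C i * (n : ℤ) + H i)) ?_ ?_
    · intro i j hij
      exact (hnd j i hij.symm (C i) (C j) (hC i).1 (hC i).2 (hC j).2)
    · intro hadm N' hN1 hN2 hpos
      have h5 := hmain N' hN1 hN2 hpos (by simp only [Bool.false_eq_true, if_false]; exact hadm)
      simp only [Bool.false_eq_true, if_false, g0, one_mul] at h5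
      exact h5
    · intro g hg
      have h5 := hgC g hg
      simp only [Bool.false_eq_true, if_false, g0, one_mul] at h5
      rw [sum_sub_distrib] at h5
      exact h5
  · rw [if_pos rfl]
    refine h1 X (by omega) (C1 C) (H1 H) ?_ ?_ ?_ z hz1 M' hM' (le_trans (pow_le_pow_right₀ hL1 (by omega)) hM'L)
      (fun n => ArithmeticFunction.vonMangoldt n * ∏ i, lamzI z (C i * (n : ℤ) + H i)) ?_ ?_
    · intro i
      refine Fin.cases ?_ (fun i => ?_) i
      · rw [C1_zero]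
        refine ⟨one_ne_zero, ?_⟩
        rw [abs_one]
        exact_mod_cast hQ0
      · rw [C1_succ]
        exact hC i
    · intro i
      refine Fin.cases ?_ (fun i => ?_) i
      · rw [H1_zero, abs_zero]
        positivity
      · rw [H1_succ]
        exact hH i
    · intro i j
      refine Fin.cases ?_ (fun i => ?_) i
      · refine Fin.cases ?_ (fun j => ?_) j
        · intro h; exact absurd rfl h
        · intro _
          rw [C1_zero, H1_zero, H1_succ, C1_succ, one_mul, mul_zero]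
          exact hne j
      · refine Fin.cases ?_ (fun j => ?_) j
        · intro _
          rw [C1_zero, H1_zero, H1_succ, C1_succ, one_mul, mul_zero]
          exact (hne i).symm
        · intro hij
          rw [C1_succ, C1_succ, H1_succ, H1_succ]
          have hij' : i ≠ j := fun h => hij (by rw [h])
          exact (hnd j i hij'.symm (C i) (C j) (hC i).1 (hC i).2 (hC j).2)
    · intro hadm N' hN1 hN2 hpos
      have hpos' : PosF C H N' := fun i => by
        have := hpos i.succ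
        rwa [C1_succ, H1_succ] at this
      have h5 := hmain N' hN1 hN2 hpos' (by simp only [if_true]; exact hadm)
      simp only [if_true, g0] at h5
      exact h5
    · intro g hg
      have h5 := hgC g hg
      simp only [if_true, g0] at h5
      refine le_trans (le_of_eq ?_) h5
      rw [← sum_sub_distrib]
      congr 1
      apply sum_congr rfl
      intro n hn
      have hn1 := (mem_Icc.1 hn).1
      rw [Fin.prod_univ_succ, mul_sub]
      congr 1
      rw [C1_zero, H1_zero]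
      congr 1
      unfold lamI
      rw [if_pos (by omega), one_mul, add_zero, Int.toNat_natCast]

/-- all short translates of the vector of constants are good, and not degenerate -/
def GoodWD {s : ℕ} (τ0 : Bool) (ε : ℝ) (A X Q0 R : ℕ) (H : Fin s → ℤ) : Prop :=
  ∀ d : Fin s → ℤ, (∀ i, |d i| ≤ (R : ℤ)) → GoodWL τ0 ε A X Q0 (fun i => H i + d i) ∧ Nondeg Q0 (fun i => H i + d i)

/-- the exponent of the logarithm needed -/
def UW (U A R' s : ℕ) : ℕ := (U + (R' + 1) * s) + 2 * (A + s + 4) + 1 + s + 3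

set_option maxHeartbeats 1000000 in
/-- the main theorem for arbitrary random constants with the one shift estimate -/
theorem lw_main (τ0 : Bool) (s : ℕ) (hs : 1 ≤ s) (κ : Fin s → ℤ) (hκ : ∀ i, κ i ≠ 0) (Q0 B A R' Bt U : ℕ) (hQ0 : 1 ≤ Q0)
    (ε : ℝ) (hε : 0 < ε) : ∃ n0 : ℕ, ∀ X : ℕ, n0 ≤ X → ∀ (c : Fin s → ℤ) (Ω : Fin s → Finset ℕ) (p : Fin s → ℕ → ℝ),
    (∀ i, |c i| ≤ (B : ℤ) * X) → (∀ i, ∀ v ∈ Ω i, 0 ≤ p i v) → (∀ i, ∑ v ∈ Ω i, p i v = 1) →
    (∀ i, ∀ v ∈ Ω i, p i v ≤ 1 / Real.log ((Q0 * X : ℕ) : ℝ) ^ (UW U A R' s)) →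
    (∀ i, ∀ v ∈ Ω i, |c i + κ i * (v : ℤ)| ≤ (B : ℤ) * X) →
    (∀ i, OneZ (Q0 * X) (UW U A R' s) Bt (Bt + 3) (B + 3) (κ i) (Ω i) (p i)) →
    ∀ Bad : (Fin s → ℕ) → Prop, [DecidablePred Bad] →
    (∀ v ∈ Fintype.piFinset Ω, Bad v → ¬ GoodWD τ0 ε A X Q0 ⌊Real.log X ^ R'⌋₊ (fun i => c i + κ i * (v i : ℤ))) →
    ∑ v ∈ Fintype.piFinset Ω, (if Bad v then ∏ i, p i (v i) else 0) ≤ 1 / Real.log X ^ U := by
  classical
  obtain ⟨n1, h1⟩ := det_w τ0 s Q0 (B + 1) A (Bt + 3) hs hQ0 ε hε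
  obtain ⟨n2, h2⟩ := lw_rare (s := s) κ hκ Q0 (B + 1) Bt (Bt + 3) (U + (R' + 1) * s) (A + s + 4) hQ0
  obtain ⟨n3, h3⟩ := ev_L' 4
  obtain ⟨n4, h4⟩ := ev_log' R' 1
  refine ⟨n1 + n2 + n3 + n4 + 2, fun X hX c Ω p hc hp0 hp1 hpθ hpA hone Bad _ hBad => ?_⟩
  have hXM : X ≤ Q0 * X := Nat.le_mul_of_pos_left _ (by omega)
  have hX0 : (0 : ℝ) < X := by exact_mod_cast (by omega : 0 < X)
  have hlX4 : 4 ≤ Real.log X := h3 X (by omega)
  have a4 := h4 X (by omega)
  rw [one_mul] at a4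
  have hlX : Real.log X ≤ Real.log ((Q0 * X : ℕ) : ℝ) := Real.log_le_log hX0 (by exact_mod_cast hXM)
  obtain ⟨L, hL⟩ : ∃ L, L = Real.log ((Q0 * X : ℕ) : ℝ) := ⟨_, rfl⟩
  obtain ⟨l, hl⟩ : ∃ l, l = Real.log (X : ℝ) := ⟨_, rfl⟩
  rw [← hL] at hlX
  rw [← hl] at hlX hlX4 a4
  have hl0 : 0 < l := by linarith
  have hL2 : 4 ≤ L := by linarith
  obtain ⟨z, hz⟩ : ∃ z, z = ⌈L ^ (Bt + 2)⌉₊ := ⟨_, rfl⟩
  have hz1 : L ^ (Bt + 2) ≤ z := by rw [hz]; exact Nat.le_ceil _
  have hz2 : (z : ℝ) ≤ L ^ (Bt + 3) := by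
    have q1 : (z : ℝ) < L ^ (Bt + 2) + 1 := by rw [hz]; exact Nat.ceil_lt_add_one (by positivity)
    have q2 : 1 ≤ L ^ (Bt + 2) := one_le_pow₀ (by linarith)
    rw [pow_succ]
    nlinarith
  have hzn : 1 ≤ z := by
    have : (1 : ℝ) ≤ z := (one_le_pow₀ (by linarith)).trans hz1
    exact_mod_cast this
  have hz3 : L ^ Bt ≤ z := (pow_le_pow_right₀ (by linarith) (by omega)).trans hz1
  have hz4 : l ^ 2 ≤ z := by
    calc l ^ 2 ≤ L ^ 2 := pow_le_pow_left₀ (by linarith) hlX 2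
      _ ≤ L ^ (Bt + 2) := pow_le_pow_right₀ (by linarith) (by omega)
      _ ≤ z := hz1
  obtain ⟨M', hM'⟩ : ∃ M', M' = ⌈l ^ (A + s + 3)⌉₊ := ⟨_, rfl⟩
  have hM1 : l ^ (A + s + 3) ≤ M' := by rw [hM']; exact Nat.le_ceil _
  have hM2 : (M' : ℝ) ≤ l ^ (A + s + 4) := by
    have q1 : (M' : ℝ) < l ^ (A + s + 3) + 1 := by rw [hM']; exact Nat.ceil_lt_add_one (by positivity)
    have q2 : 1 ≤ l ^ (A + s + 3) := one_le_pow₀ (by linarith)
    rw [show A + s + 4 = (A + s + 3) + 1 by ring, pow_succ]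
    nlinarith
  have hMn : 1 ≤ M' := by
    have : (1 : ℝ) ≤ M' := (one_le_pow₀ (by linarith)).trans hM1
    exact_mod_cast this
  obtain ⟨η, hη⟩ : ∃ η, η = 1 / l ^ (A + 3) := ⟨_, rfl⟩
  have hη0 : 0 < η := by rw [hη]; positivity
  have hηL : 1 / η ≤ L ^ (A + s + 4) := by
    rw [hη, one_div_one_div]
    calc l ^ (A + 3) ≤ L ^ (A + 3) := pow_le_pow_left₀ hl0.le hlX _
      _ ≤ _ := pow_le_pow_right₀ (by linarith) (by omega)
  obtain ⟨R, hR⟩ : ∃ R, R = ⌊Real.log (X : ℝ) ^ R'⌋₊ := ⟨_, rfl⟩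
  rw [← hR] at hBad
  have hRl : (R : ℝ) ≤ l ^ R' := by rw [hR, hl]; exact Nat.floor_le (by rw [← hl]; positivity)
  have hRX : R ≤ X := by
    have h5 : (R : ℝ) ≤ X := by
      have h6 : √(X : ℝ) ≤ X := by
        rw [Real.sqrt_le_left hX0.le]
        have : (1 : ℝ) ≤ X := by exact_mod_cast (by omega : 1 ≤ X)
        nlinarith
      linarith
    exact_mod_cast h5
  -- the box
  obtain ⟨D, hD⟩ : ∃ D : Finset (Fin s → ℤ), D = Fintype.piFinset (fun _ => Icc (-(R : ℤ)) R) := ⟨_, rfl⟩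
  have hDc : (D.card : ℝ) ≤ l ^ ((R' + 1) * s) := by
    rw [hD, Fintype.card_piFinset, prod_const, card_univ, Fintype.card_fin, Int.card_Icc]
    have e1 : ((R : ℤ) + 1 - -(R : ℤ)).toNat = 2 * R + 1 := by omega
    rw [e1]
    push_cast
    rw [pow_mul]
    apply pow_le_pow_left₀ (by positivity)
    have q2 : 1 ≤ l ^ R' := one_le_pow₀ (by linarith)
    rw [pow_succ]
    nlinarith
  have hmemD : ∀ d, d ∈ D ↔ ∀ i, |d i| ≤ (R : ℤ) := by
    intro d
    rw [hD, Fintype.mem_piFinset]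
    apply forall_congr'
    intro i
    rw [mem_Icc, abs_le]
  have hbox : ∀ x : ℤ, |x| ≤ (B : ℤ) * X → ∀ d : ℤ, |d| ≤ (R : ℤ) → |x + d| ≤ ((B + 1 : ℕ) : ℤ) * X := by
    intro x hx d hd
    have h5 := abs_add_le x d
    have h6 : (R : ℤ) ≤ X := by exact_mod_cast hRX
    push_cast
    linarith
  have key : ∀ d ∈ D, ∑ v ∈ Fintype.piFinset Ω,
      (if BadH τ0 Q0 M' X z η (fun i => (c i + d i) + κ i * (v i : ℤ)) then ∏ i, p i (v i) else 0) ≤
      1 / l ^ (U + (R' + 1) * s) := by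
    intro d hd
    rw [hmemD] at hd
    have h5 := h2 X (by omega) M' hMn (by rw [← hL]; exact hM2.trans (pow_le_pow_left₀ hl0.le hlX _)) η hη0
      (by rw [← hL]; exact hηL) z hzn (by rw [← hL]; exact hz3) (by rw [← hL]; exact hz2) τ0 (fun i => c i + d i) Ω p
      (fun i => hbox _ (hc i) _ (hd i)) hp0 hp1 hpθ (fun i v hv => by
        have h6 := hbox _ (hpA i v hv) _ (hd i)
        have h7 : c i + d i + κ i * (v : ℤ) = c i + κ i * (v : ℤ) + d i := by ring
        rw [h7]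
        exact h6) hone
      (fun v => BadH τ0 Q0 M' X z η (fun i => (c i + d i) + κ i * (v i : ℤ))) (fun v _ h => h)
    rw [← hl] at h5
    exact h5
  have hpt : ∀ v ∈ Fintype.piFinset Ω, (if Bad v then ∏ i, p i (v i) else 0) ≤
      ∑ d ∈ D, (if BadH τ0 Q0 M' X z η (fun i => (c i + d i) + κ i * (v i : ℤ)) then ∏ i, p i (v i) else 0) := by
    intro v hv
    have hv' := Fintype.mem_piFinset.1 hv
    have hP0 : 0 ≤ ∏ i, p i (v i) := prod_nonneg fun i _ => hp0 i _ (hv' i)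
    have hnn : ∀ d ∈ D, 0 ≤ (if BadH τ0 Q0 M' X z η (fun i => (c i + d i) + κ i * (v i : ℤ)) then ∏ i, p i (v i) else 0) := by
      intro d _
      split_ifs
      · exact hP0
      · exact le_rfl
    split_ifs with hb
    · have hnot := hBad v hv hb
      unfold GoodWD at hnot
      push Not at hnot
      obtain ⟨d, hd, hno⟩ := hnot
      have hbadd : BadH τ0 Q0 M' X z η (fun i => (c i + d i) + κ i * (v i : ℤ)) := by
        by_contra hcon
        have e1 : (fun i => (c i + d i) + κ i * (v i : ℤ)) = (fun i => c i + κ i * (v i : ℤ) + d i) := by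
          funext i; ring
        rw [e1] at hcon
        refine hno ?_ (nondeg_of _ _ _ _ _ _ _ hcon)
        exact h1 X (by omega) z hzn (by rw [← hl]; exact hz4) (by rw [← hL]; exact hz2) M' hMn (by rw [← hl]; exact hM1) η
          (by rw [hη, hl]) _ (fun i => hbox _ (hpA i _ (hv' i)) _ (hd i)) hcon
      refine le_trans ?_ (single_le_sum hnn ((hmemD d).2 hd))
      rw [if_pos hbadd]
    · exact sum_nonneg hnn
  refine (sum_le_sum hpt).trans ?_
  rw [sum_comm]
  refine (sum_le_sum key).trans ?_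
  rw [sum_const, nsmul_eq_mul, ← hl]
  calc (D.card : ℝ) * (1 / l ^ (U + (R' + 1) * s)) ≤ l ^ ((R' + 1) * s) * (1 / l ^ (U + (R' + 1) * s)) :=
        mul_le_mul_of_nonneg_right hDc (by positivity)
    _ = 1 / l ^ U := by
        rw [pow_add]
        field_simp

end Pool.Agent.Q26.PD
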