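import Pool.Agent.Q26.PD.LW3

set_option autoImplicit false

/-! Systems of linear forms in all windows and for all short translates: families of sets, and few elements of
arbitrary sets. -/

namespace Pool.Agent.Q26.PD
open Finset
open Pool.Agent.H807R2.Dav
open Pool.Agent.H373R2.T7
open Pool.Agent.W93.TD (tele_w avg_w total_w)
open Pool.Agent.Y885 (TLaw tl_dif tl_point las_lawP)
open Pool.Agent.Y820.LF

open Classical in
/-- systems of linear forms with constants in sets of such families: all windows, all short translates -/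
theorem lw_fam (τ0 : Bool) (s : ℕ) (hs : 1 ≤ s) (κ : Fin s → ℤ) (hκ : ∀ i, κ i ≠ 0) (Bv : Fin s → ℕ)
    (𝒮 : Fin s → ℕ → Finset ℕ → Prop) (h𝒮 : ∀ i, HasZ (κ i) (Bv i) (𝒮 i))
    (Q0 B A R' U : ℕ) (hQ0 : 1 ≤ Q0) (ε : ℝ) (hε : 0 < ε) :
    ∃ X₀ : ℕ, ∀ X, X₀ ≤ X → ∀ S : Fin s → Finset ℕ, (∀ i, 𝒮 i X (S i)) →
      ∀ c : Fin s → ℤ, (∀ i, |c i| ≤ (B : ℤ) * X) →
      (((Fintype.piFinset S).filter fun v =>
        ¬ GoodWD τ0 ε A X Q0 ⌊Real.log X ^ R'⌋₊ (fun i => c i + κ i * (v i : ℤ))).card : ℝ) ≤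
      ((Fintype.piFinset S).card : ℝ) / Real.log X ^ U := by
  obtain ⟨B1, hB1⟩ : ∃ B1, B1 = ∑ i, (B + (κ i).natAbs * Bv i) := ⟨_, rfl⟩
  have hB1i : ∀ i, B + (κ i).natAbs * Bv i ≤ B1 := fun i => by
    rw [hB1]; exact single_le_sum (f := fun i => B + (κ i).natAbs * Bv i) (fun _ _ => Nat.zero_le _) (mem_univ i)
  choose C hC0 hC using h𝒮
  choose B0 h0 using fun i => hC i Q0 (B1 + 3) (UW (U + 1) A R' s) hQ0
  obtain ⟨Bt, hBt⟩ : ∃ Bt, Bt = ∑ i, B0 i := ⟨_, rfl⟩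
  have hBi : ∀ i, B0 i ≤ Bt := fun i => by rw [hBt]; exact single_le_sum (fun _ _ => Nat.zero_le _) (mem_univ i)
  choose N1 h1 using fun i => h0 i (Bt + 3)
  obtain ⟨Nt, hNt⟩ : ∃ Nt, Nt = ∑ i, N1 i := ⟨_, rfl⟩
  have hNi : ∀ i, N1 i ≤ Nt := fun i => by rw [hNt]; exact single_le_sum (fun _ _ => Nat.zero_le _) (mem_univ i)
  obtain ⟨n0, h2⟩ := lw_main τ0 s hs κ hκ Q0 B1 A R' Bt (U + 1) hQ0 ε hε
  obtain ⟨n2, hn2⟩ := exists_nat_ge (Real.exp (∏ i, C i))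
  refine ⟨Nt + n0 + n2 + 3, fun X hX S hS c hc => ?_⟩
  have hXM : X ≤ Q0 * X := Nat.le_mul_of_pos_left _ (by omega)
  have hX0 : (0 : ℝ) < X := by exact_mod_cast (by omega : 0 < X)
  have hlog1 : 1 ≤ Real.log ((Q0 * X : ℕ) : ℝ) := by
    rw [Real.le_log_iff_exp_le (by exact_mod_cast (by omega : 0 < Q0 * X))]
    have : (3 : ℝ) ≤ ((Q0 * X : ℕ) : ℝ) := by exact_mod_cast (by omega : 3 ≤ Q0 * X)
    linarith [Real.exp_one_lt_d9]
  have hlogX : 0 < Real.log X := Real.log_pos (by exact_mod_cast (by omega : 1 < X))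
  have hCl : ∏ i, C i ≤ Real.log X := by
    rw [Real.le_log_iff_exp_le hX0]
    refine hn2.trans ?_
    exact_mod_cast (by omega : n2 ≤ X)
  choose Ω p hp0 hp1 hpθ hpA hmem hone using fun i => h1 i X (by have := hNi i; omega) (S i) (hS i)
  have hB1z : ∀ i, |c i| ≤ (B1 : ℤ) * X := fun i => by
    refine (hc i).trans ?_
    have : B ≤ B1 := by have := hB1i i; omega
    exact_mod_cast Nat.mul_le_mul_right X this
  have h4 := h2 X (by omega) c Ω p hB1z hp0 hp1 hpθ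
    (fun i v hv => by
      have h5 := abs_le_of (c i) (κ i) X v B (Bv i) (hc i) (hpA i v hv)
      refine h5.trans ?_
      exact_mod_cast Nat.mul_le_mul_right X (hB1i i))
    (fun i c' hc' z hz1 hz2 Kc hKc G hG =>
      hone i c' hc' z ((pow_le_pow_right₀ hlog1 (hBi i)).trans hz1) hz2 Kc hKc G hG)
    (fun v => ¬ GoodWD τ0 ε A X Q0 ⌊Real.log X ^ R'⌋₊ (fun i => c i + κ i * (v i : ℤ))) (fun v _ h => h)
  obtain ⟨F, hF⟩ : ∃ F, F = Fintype.piFinset S := ⟨_, rfl⟩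
  have hFc : (F.card : ℝ) = ∏ i, ((S i).card : ℝ) := by
    rw [hF, Fintype.card_piFinset, Nat.cast_prod]
  rw [← hF]
  have hCp : 0 ≤ ∏ i, C i := prod_nonneg fun i _ => hC0 i
  have hpt : ∀ v ∈ F, v ∈ Fintype.piFinset Ω ∧ 1 ≤ (∏ i, C i) * (F.card : ℝ) * ∏ i, p i (v i) := by
    intro v hv
    rw [hF, Fintype.mem_piFinset] at hv
    have hv' : ∀ i, v i ∈ Ω i ∧ 1 ≤ C i * ((S i).card : ℝ) * p i (v i) := fun i => hmem i (v i) (hv i)
    refine ⟨Fintype.mem_piFinset.2 fun i => (hv' i).1, ?_⟩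
    rw [hFc, ← prod_mul_distrib, ← prod_mul_distrib]
    have h7 : ∏ _i : Fin s, (1 : ℝ) ≤ ∏ i, (C i * ((S i).card : ℝ) * p i (v i)) :=
      prod_le_prod (fun _ _ => by norm_num) (fun i _ => (hv' i).2)
    rwa [prod_const_one] at h7
  calc ((F.filter (fun v => ¬ GoodWD τ0 ε A X Q0 ⌊Real.log X ^ R'⌋₊ (fun i => c i + κ i * (v i : ℤ)))).card : ℝ)
      = ∑ v ∈ F.filter (fun v => ¬ GoodWD τ0 ε A X Q0 ⌊Real.log X ^ R'⌋₊ (fun i => c i + κ i * (v i : ℤ))), (1 : ℝ) := by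
        rw [sum_const, nsmul_eq_mul, mul_one]
    _ ≤ ∑ v ∈ F.filter (fun v => ¬ GoodWD τ0 ε A X Q0 ⌊Real.log X ^ R'⌋₊ (fun i => c i + κ i * (v i : ℤ))), ((∏ i, C i) * (F.card : ℝ)) *
          (if ¬ GoodWD τ0 ε A X Q0 ⌊Real.log X ^ R'⌋₊ (fun i => c i + κ i * (v i : ℤ)) then ∏ i, p i (v i) else 0) := by
        apply sum_le_sum
        intro v hv
        rw [mem_filter] at hv
        rw [if_pos hv.2]
        exact (hpt v hv.1).2
    _ ≤ ∑ v ∈ Fintype.piFinset Ω, ((∏ i, C i) * (F.card : ℝ)) *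
          (if ¬ GoodWD τ0 ε A X Q0 ⌊Real.log X ^ R'⌋₊ (fun i => c i + κ i * (v i : ℤ)) then ∏ i, p i (v i) else 0) := by
        apply sum_le_sum_of_subset_of_nonneg
        · intro v hv
          exact (hpt v (mem_filter.1 hv).1).1
        · intro v hv _
          have hv' := Fintype.mem_piFinset.1 hv
          apply mul_nonneg (by positivity)
          split_ifs
          · exact le_rfl
          · exact prod_nonneg fun i _ => hp0 i _ (hv' i)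
    _ ≤ ((∏ i, C i) * (F.card : ℝ)) * (1 / Real.log X ^ (U + 1)) := by
        rw [← mul_sum]
        apply mul_le_mul_of_nonneg_left _ (by positivity)
        refine le_trans (le_of_eq ?_) h4
        apply sum_congr rfl
        intro x _
        split_ifs <;> rfl
    _ ≤ _ := by
        rw [mul_one_div, div_le_div_iff₀ (by positivity) (by positivity), pow_succ]
        have : 0 ≤ (F.card : ℝ) * Real.log X ^ U := by positivity
        calc (∏ i, C i) * (F.card : ℝ) * Real.log X ^ U = (∏ i, C i) * ((F.card : ℝ) * Real.log X ^ U) := by ring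
          _ ≤ Real.log X * ((F.card : ℝ) * Real.log X ^ U) := mul_le_mul_of_nonneg_right hCl this
          _ = _ := by ring

open Classical in
/-- few elements of arbitrary sets -/
theorem lw_las (τ0 : Bool) (s l P Q0 A R' : ℕ) (hs : 1 ≤ s) (hl : 2 ≤ l) (hP : 1 ≤ P) (hQ0 : 1 ≤ Q0) : ∃ Cst : ℝ, ∀ (Hh B : ℕ) (ε : ℝ),
    0 < ε → ∃ X₀ : ℕ, ∀ T : Fin s → Set ℕ, (∀ i, ∀ x : ℕ, 1 ≤ x → ∃ a ∈ T i, x ≤ a ∧ a ≤ l * x) → ∀ X : ℕ, X₀ ≤ X →
    ∀ a : Fin s → ℤ, (∀ i, |a i| ≤ (B : ℤ) * X) →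
    ∃ S : Fin s → Finset ℕ, (∀ i, ∀ x ∈ S i, x ∈ T i ∧ Real.log X ^ Hh ≤ x ∧ (x : ℝ) ≤ X / Real.log X ^ Hh) ∧
      (∀ i, ((S i).card : ℝ) ≤ Cst * Real.log (Real.log X) ^ 2) ∧ (∀ i, P ∣ ∑ x ∈ S i, x) ∧
      GoodWD τ0 ε A X Q0 ⌊Real.log X ^ R'⌋₊ (fun i => a i + ∑ x ∈ S i, (x : ℤ)) ∧
      ∀ i, |a i + ∑ x ∈ S i, (x : ℤ)| ≤ ((B + 1 : ℕ) : ℤ) * X := by
  obtain ⟨b, hb, Cst, hC⟩ := las_lawP l P hl hP (2 * (UW 1 A R' s + 1) + 6)
  refine ⟨Cst, fun Hh B ε hε => ?_⟩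
  obtain ⟨e, he⟩ : ∃ e, e = (1 + ((B + 1) + 3) + 1) * Q0 := ⟨_, rfl⟩
  obtain ⟨c, N₀, h0⟩ := hC Hh e
  obtain ⟨Bt, h1⟩ := tlZ b 20 c hb (by norm_num) (UW 1 A R' s) (b ^ (e + 1)) 1 ((B + 1) + 3)
  obtain ⟨N1, h1⟩ := h1 (Bt + 3)
  obtain ⟨n2, h2⟩ := lw_main τ0 s hs (fun _ => 1) (fun _ => one_ne_zero) Q0 (B + 1) A R' Bt 1 hQ0 ε hε
  obtain ⟨n3, h3⟩ := ev_L' 2
  refine ⟨N₀ + N1 + n2 + n3 + 2, fun T hT X hX a ha => ?_⟩
  have hX0 : 0 < X := by omega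
  have hXM : X ≤ Q0 * X := Nat.le_mul_of_pos_left _ (by omega)
  have hlX := h3 X (by omega)
  obtain ⟨K, hK⟩ : ∃ K, K = Nat.log b X + 1 := ⟨_, rfl⟩
  have hKlow : b ^ (K - 1) ≤ X := by
    rw [hK, Nat.add_sub_cancel]
    exact Nat.pow_log_le_self b (by omega)
  have hKup : X < b ^ K := by rw [hK]; exact Nat.lt_pow_succ_log_self (by omega) _
  have hbe : (1 + ((B + 1) + 3) + 1) * Q0 ≤ b ^ e := by
    rw [← he]
    exact (Nat.lt_pow_self (by omega)).le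
  choose n Ω₀ pr Sf g1 g2 g3 using fun i => h0 (T i) (hT i) X (by omega)
  have h4 := fun i => h1 (Q0 * X) (by omega) (K + e) (by
      calc (1 + ((B + 1) + 3) + 1) * (Q0 * X) = (1 + ((B + 1) + 3) + 1) * Q0 * X := by ring
        _ ≤ b ^ e * b ^ K := Nat.mul_le_mul hbe hKup.le
        _ = _ := by rw [← pow_add, add_comm]) (by
      calc b ^ (K + e) = b ^ (e + 1) * b ^ (K - 1) := by rw [← pow_add]; congr 1; omega
        _ ≤ b ^ (e + 1) * (Q0 * X) := Nat.mul_le_mul_left _ (hKlow.trans hXM)) (Fin (n i) → ℕ) (Ω₀ i) (fun _ => pr i)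
    (fun ω => ∑ x ∈ Sf i ω, x) (by
      have := g2 i
      rw [← hK] at this
      exact this) (g1 i) (fun ω hω => by
      have h5 := (g3 i ω hω).2.2.1
      omega)
  have hval : ∀ i, ∀ v ∈ (Ω₀ i).image (fun ω => ∑ x ∈ Sf i ω, x), ∃ ω ∈ Ω₀ i, v = ∑ x ∈ Sf i ω, x := by
    intro i v hv
    rw [mem_image] at hv
    obtain ⟨ω, h5, h6⟩ := hv
    exact ⟨ω, h5, h6.symm⟩
  have hp0 : ∀ i, ∀ ω ∈ Ω₀ i, 0 ≤ (fun _ : Fin (n i) → ℕ => pr i) ω := fun i ω hω => (g2 i).nonneg ω hω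
  have hp1 : ∀ i, ∑ v ∈ (Ω₀ i).image (fun ω => ∑ x ∈ Sf i ω, x), pf (Ω₀ i) (fun _ => pr i) (fun ω => ∑ x ∈ Sf i ω, x) v = 1 := by
    intro i
    have h5 := pf_one (Ω₀ i) (fun _ => pr i) (g1 i) (fun ω => ∑ x ∈ Sf i ω, x)
    convert h5
  have hmain := h2 X (by omega) a (fun i => (Ω₀ i).image (fun ω => ∑ x ∈ Sf i ω, x))
    (fun i => pf (Ω₀ i) (fun _ => pr i) (fun ω => ∑ x ∈ Sf i ω, x))
    (fun i => (ha i).trans (by push_cast; nlinarith [(Nat.cast_nonneg X : (0 : ℤ) ≤ X)]))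
    (fun i v _ => pf_nonneg _ _ (hp0 i) _ v) hp1
    (fun i v _ => (h4 i).1 v) (fun i v hv => by
      obtain ⟨ω, hω, rfl⟩ := hval i v hv
      have h5 := abs_le_of (a i) 1 X (∑ x ∈ Sf i ω, x) B 1 (ha i) (by
        have h5 := (g3 i ω hω).2.2.1
        omega)
      rw [Int.natAbs_one, mul_one] at h5
      exact h5) (fun i c' hc' z hz1 hz2 Kc hKc G hG => by
      have h5 := (h4 i).2 c' hc' z hz1 hz2 Kc hKc G hG
      convert h5)
    (fun v => ¬ GoodWD τ0 ε A X Q0 ⌊Real.log X ^ R'⌋₊ (fun i => a i + 1 * (v i : ℤ))) (fun v _ h => h)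
  have hex : ∃ v ∈ Fintype.piFinset (fun i => (Ω₀ i).image (fun ω => ∑ x ∈ Sf i ω, x)),
      GoodWD τ0 ε A X Q0 ⌊Real.log X ^ R'⌋₊ (fun i => a i + 1 * (v i : ℤ)) := by
    by_contra hcon
    push Not at hcon
    have hmain' : ∑ v ∈ Fintype.piFinset (fun i => (Ω₀ i).image (fun ω => ∑ x ∈ Sf i ω, x)),
        ∏ i, pf (Ω₀ i) (fun _ => pr i) (fun ω => ∑ x ∈ Sf i ω, x) (v i) ≤ 1 / Real.log X ^ 1 := by
      refine le_trans (le_of_eq ?_) hmain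
      apply sum_congr rfl
      intro v hv
      rw [if_pos]
      exact hcon v hv
    rw [total_w _ _ hp1, pow_one, le_div_iff₀ (by linarith), one_mul] at hmain'
    linarith
  obtain ⟨v, hv, hgood⟩ := hex
  choose ω hω hvω using fun i => hval i (v i) (Fintype.mem_piFinset.1 hv i)
  refine ⟨fun i => Sf i (ω i), fun i => (g3 i _ (hω i)).1, fun i => (g3 i _ (hω i)).2.1, fun i => (g3 i _ (hω i)).2.2.2, ?_⟩
  have h5 : (fun i => a i + 1 * (v i : ℤ)) = fun i => a i + ∑ x ∈ Sf i (ω i), (x : ℤ) := by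
    funext i
    rw [hvω i, one_mul]
    push_cast
    rfl
  rw [h5] at hgood
  refine ⟨hgood, fun i => ?_⟩
  have h6 := abs_le_of (a i) 1 X (∑ x ∈ Sf i (ω i), x) B 1 (ha i) (by
    have h5 := (g3 i _ (hω i)).2.2.1
    omega)
  rw [Int.natAbs_one, mul_one, one_mul] at h6
  push_cast at h6 ⊢
  exact h6


end Pool.Agent.Q26.PD
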