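import Pool.Agent.TH890.AutTup2
import Pool.Agent.TH872.Mir10
import Pool.Agent.TH872.An3

set_option autoImplicit false

/-! Prime tuples with random shifts: a general form of the passage from one shift to tuples. -/

namespace Pool.Agent.Q26.PD
open Finset
open Pool.Agent.H807R2.Dav
open Pool.Agent.H373R2.T7
open Pool.Agent.W93.DG
open Pool.Agent.W93.RD
open Pool.Agent.W93.TD
open Pool.Agent.W93.AU (Law one_law)
open Pool.Agent.TH890

/-- the one shift estimate at the scale `N` -/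
def OneS (N : ℕ) (U B0 E : ℕ) (κκ cc : ℕ) (Ω : Finset ℕ) (p : ℕ → ℝ) : Prop :=
  ∀ z : ℕ, Real.log N ^ B0 ≤ z → (z : ℝ) ≤ Real.log N ^ E → ∀ Kc : ℝ, 0 < Kc → ∀ G : ℕ → ℝ, (∀ n ∈ Icc 1 N, |G n| ≤ Kc) →
    ∑ v ∈ Ω, p v * |∑ n ∈ Icc 1 N, G n * (lamI ((n : ℤ) + ((cc + κκ * v : ℕ) : ℤ)) - lamzI z ((n : ℤ) + ((cc + κκ * v : ℕ) : ℤ)))| ≤
      Kc * (N / Real.log N ^ U)

open Classical in
theorem os_gen (s : ℕ) (hs : 1 ≤ s) (κκ : Fin s → ℕ) (hκ : ∀ i, 1 ≤ κκ i) (At Bt U : ℕ) (ε : ℝ) (hε : 0 < ε) :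
    ∃ n0 : ℕ, ∀ N, n0 ≤ N → ∀ (c : Fin s → ℕ) (Ω : Fin s → Finset ℕ) (p : Fin s → ℕ → ℝ),
      (∀ i, ∀ v ∈ Ω i, 0 ≤ p i v) → (∀ i, ∑ v ∈ Ω i, p i v = 1) →
      (∀ i, ∀ v ∈ Ω i, p i v ≤ 1 / Real.log N ^ (2 * U + 6 + s + 2)) → (∀ i, ∀ v ∈ Ω i, c i + κκ i * v ≤ At * N) →
      (∀ i, OneS N (2 * U + 6 + s + 2) Bt (Bt + U + s + 6) (κκ i) (c i) (Ω i) (p i)) →
      ∑ m ∈ Fintype.piFinset Ω, (if ¬ HLs ε U N (fun i => c i + κκ i * m i) then ∏ i, p i (m i) else 0) ≤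
        1 / Real.log N ^ U := by
  obtain ⟨E1, hE1⟩ : ∃ E1, E1 = Bt + U + s + 5 := ⟨_, rfl⟩
  obtain ⟨n2, h2⟩ := det3 s At E1 U hs ε hε (by omega)
  obtain ⟨n3, h3⟩ := Vz_inv_small (E1 + 1)
  obtain ⟨n4, h4⟩ := ev_L' (2 + (s : ℝ) * 2 ^ s + Real.log ((At + 1 : ℕ) : ℝ) + (s + s * s + 2))
  refine ⟨n2 + n3 + n4 + 1, fun N hN c Ω p hp0 hp1 hpθ hpA hone => ?_⟩
  have hL := h4 N (by omega)
  obtain ⟨L, hLdef⟩ : ∃ L, L = Real.log (N : ℝ) := ⟨_, rfl⟩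
  have q0 : 0 ≤ Real.log ((At + 1 : ℕ) : ℝ) := Real.log_natCast_nonneg _
  have q1 : 0 ≤ (s : ℝ) * 2 ^ s := by positivity
  have q2 : 0 ≤ ((s : ℝ) + s * s + 2) := by positivity
  rw [← hLdef] at hL
  have hL2 : 2 ≤ L := by linarith
  have hL1 : 1 ≤ L := by linarith
  have hL0 : 0 < L := by linarith
  obtain ⟨z, hz⟩ : ∃ z, z = ⌈L ^ E1⌉₊ := ⟨_, rfl⟩
  have hz1 : L ^ E1 ≤ z := by rw [hz]; exact Nat.le_ceil _
  have hz2 : (z : ℝ) ≤ L ^ (E1 + 1) := by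
    have q1 : (z : ℝ) < L ^ E1 + 1 := by rw [hz]; exact Nat.ceil_lt_add_one (by positivity)
    have q2 : 1 ≤ L ^ E1 := one_le_pow₀ hL1
    rw [pow_succ]
    nlinarith
  have hzn : 1 ≤ z := by
    have : (1 : ℝ) ≤ z := (one_le_pow₀ hL1).trans hz1
    exact_mod_cast this
  have hz3 : L ^ Bt ≤ z := (pow_le_pow_right₀ hL1 (by omega)).trans hz1
  rw [← hLdef] at hpθ
  have hV := h3 N (by omega) z hzn (by rw [← hLdef]; exact hz2)
  have hD := os_diff N At z (2 * U + 6) κκ c Ω p hp0 hp1 hpA (fun i K hK G hG => hone i z (by rw [← hLdef]; exact hz3)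
    (by rw [← hLdef]; refine hz2.trans (le_of_eq ?_); congr 1; omega) K hK G hG) (by omega) (by rw [← hLdef]; exact hL1) (by rw [← hLdef]; linarith)
    (by rw [← hLdef]; linarith) hV
  rw [← hLdef] at hD
  have hbad := os_bad s U L N At z ε κκ c hκ Ω p hp0 hp1 (1 / L ^ (2 * U + 6 + s + 2)) (by positivity) hpθ hpA hL1 (by omega)
    (fun a ha1 ha2 ha3 hd => h2 N (by omega) z (by rw [← hLdef]; exact hz1) (by rw [← hLdef]; exact hz2) a ha1 ha2 ha3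
      (by rw [← hLdef]; exact hd)) hD
  rw [← hLdef]
  refine hbad.trans ?_
  have e1 : 1 / L ^ (2 * U + 6 + s + 2) ≤ 1 / L ^ (U + 2) :=
    one_div_le_one_div_of_le (by positivity) (pow_le_pow_right₀ hL1 (by omega))
  calc ((s : ℝ) + s * s) * (1 / L ^ (2 * U + 6 + s + 2)) + 2 / L ^ (U + 2) ≤
      ((s : ℝ) + s * s) * (1 / L ^ (U + 2)) + 2 / L ^ (U + 2) := by
        gcongr
    _ = (((s : ℝ) + s * s + 2) / L ^ 2) * (1 / L ^ U) := by rw [pow_add]; field_simp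
    _ ≤ 1 * (1 / L ^ U) := by
        apply mul_le_mul_of_nonneg_right _ (by positivity)
        rw [div_le_one (by positivity)]
        nlinarith
    _ = _ := one_mul _

/-- the one shift estimate from a law -/
theorem one_at (b F : ℕ) (hb : 2 ≤ b) (hF : 1 ≤ F) (U D CB : ℕ) : ∃ B0 : ℕ, ∀ E : ℕ, ∃ N₀ : ℕ, ∀ N, N₀ ≤ N →
    ∀ K : ℕ, N ≤ b ^ K → b ^ K ≤ CB * N →
    ∀ (ι : Type) (Ω : Finset ι) (p : ι → ℝ) (Y : ι → ℤ), Law b F D (2 * (U + 1) + 6) K Ω p Y → ∑ ω ∈ Ω, p ω = 1 →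
    (∀ ω ∈ Ω, -((b ^ K : ℕ) : ℤ) < Y ω ∧ (N : ℤ) + Y ω ≤ ((b ^ K : ℕ) : ℤ)) →
    ∀ z : ℕ, Real.log N ^ B0 ≤ z → (z : ℝ) ≤ Real.log N ^ E → ∀ Kc : ℝ, 0 < Kc → ∀ G : ℕ → ℝ, (∀ n ∈ Icc 1 N, |G n| ≤ Kc) →
      ∑ ω ∈ Ω, p ω * |∑ n ∈ Icc 1 N, G n * (lamI ((n : ℤ) + Y ω) - lamzI z ((n : ℤ) + Y ω))| ≤
        Kc * (N / Real.log N ^ U) := by
  obtain ⟨B0, h0⟩ := one_law b F hb hF (U + 1) D
  have hb1 : (1 : ℝ) < b := by exact_mod_cast (by omega : 1 < b)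
  have hlogb : 0 < Real.log b := Real.log_pos hb1
  refine ⟨B0 + 1, fun E => ?_⟩
  obtain ⟨K0, h0⟩ := h0 E
  obtain ⟨K1, hK1⟩ := exists_nat_ge ((CB : ℝ) * Real.log b ^ U + Real.log b ^ U + 1)
  obtain ⟨R, hR⟩ := exists_nat_ge ((2 : ℝ) ^ B0 + Real.log ((CB : ℝ) + 1) + 1)
  refine ⟨b ^ (K0 + K1 + 1) + 3 ^ R + 3, fun N hN K hNK hKN ι Ω p Y hlaw hp1 hY z hz1 hz2 Kc hKc G hG => ?_⟩
  obtain ⟨P3, hP3⟩ : ∃ P3 : ℕ, P3 = 3 ^ R := ⟨_, rfl⟩
  rw [← hP3] at hN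
  have hpB : 0 < b ^ (K0 + K1 + 1) := by positivity
  have hn : K0 + K1 + 1 ≤ K := by
    have h1 : b ^ (K0 + K1 + 1) ≤ b ^ K := le_trans (by omega) hNK
    exact (Nat.pow_le_pow_iff_right (by omega : 1 < b)).1 h1
  have hKr : (K1 : ℝ) ≤ K := by exact_mod_cast (by omega : K1 ≤ K)
  have hK0' : (1 : ℝ) ≤ K := by exact_mod_cast (by omega : 1 ≤ K)
  have hN0 : (0 : ℝ) < N := by exact_mod_cast (by omega : 0 < N)
  have hlog0 : 0 < Real.log N := Real.log_pos (by exact_mod_cast (by omega : 1 < N))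
  have hlogR : (R : ℝ) ≤ Real.log N := by
    rw [Real.le_log_iff_exp_le hN0]
    have h1 : Real.exp (R : ℝ) ≤ (3 : ℝ) ^ R := by
      rw [show (R : ℝ) = R * 1 by ring, Real.exp_nat_mul]
      exact pow_le_pow_left₀ (Real.exp_pos _).le (by linarith [Real.exp_one_lt_d9]) R
    refine h1.trans ?_
    exact_mod_cast (by rw [← hP3]; omega : 3 ^ R ≤ N)
  have hlogK : Real.log N ≤ K * Real.log b := by
    have h1 : Real.log N ≤ Real.log ((b ^ K : ℕ) : ℝ) := Real.log_le_log hN0 (by exact_mod_cast hNK)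
    rw [Nat.cast_pow, Real.log_pow] at h1
    exact h1
  have hU : Real.log N ^ U ≤ (K : ℝ) ^ U * Real.log b ^ U := by
    rw [← mul_pow]
    exact pow_le_pow_left₀ hlog0.le hlogK U
  have hBKN : ((b ^ K : ℕ) : ℝ) ≤ (CB : ℝ) * N := by exact_mod_cast hKN
  have a1 : 0 ≤ (CB : ℝ) * Real.log b ^ U := by positivity
  have a2 : 0 ≤ Real.log b ^ U := by positivity
  have hBK : ((b ^ K : ℕ) : ℝ) / (K : ℝ) ^ (U + 1) ≤ N / Real.log N ^ U := by
    rw [div_le_div_iff₀ (by positivity) (by positivity)]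
    calc ((b ^ K : ℕ) : ℝ) * Real.log N ^ U ≤ ((CB : ℝ) * N) * ((K : ℝ) ^ U * Real.log b ^ U) :=
          mul_le_mul hBKN hU (by positivity) (by positivity)
      _ = N * (((CB : ℝ) * Real.log b ^ U) * (K : ℝ) ^ U) := by ring
      _ ≤ N * (K * (K : ℝ) ^ U) := by
          apply mul_le_mul_of_nonneg_left _ hN0.le
          exact mul_le_mul_of_nonneg_right (by linarith) (by positivity)
      _ = _ := by rw [pow_succ]; ring
  have hlX1 : Real.log N ≤ Real.log ((b ^ K : ℕ) : ℝ) := Real.log_le_log hN0 (by exact_mod_cast hNK)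
  have hlX2 : Real.log ((b ^ K : ℕ) : ℝ) ≤ 2 * Real.log N := by
    have h1 : Real.log ((b ^ K : ℕ) : ℝ) ≤ Real.log (((CB : ℝ) + 1) * N) := by
      apply Real.log_le_log
      · exact_mod_cast (by positivity : 0 < b ^ K)
      · nlinarith
    rw [Real.log_mul (by positivity) hN0.ne'] at h1
    have h2 : (0 : ℝ) < 2 ^ B0 := by positivity
    linarith
  have hzX1 : Real.log ((b ^ K : ℕ) : ℝ) ^ B0 ≤ z := by
    refine le_trans ?_ hz1
    calc Real.log ((b ^ K : ℕ) : ℝ) ^ B0 ≤ (2 * Real.log N) ^ B0 := pow_le_pow_left₀ (by linarith) hlX2 _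
      _ = 2 ^ B0 * Real.log N ^ B0 := mul_pow _ _ _
      _ ≤ Real.log N * Real.log N ^ B0 := by
          apply mul_le_mul_of_nonneg_right _ (by positivity)
          have h2 : 0 ≤ Real.log ((CB : ℝ) + 1) := Real.log_nonneg (by linarith [Nat.cast_nonneg (α := ℝ) CB])
          linarith
      _ = Real.log N ^ (B0 + 1) := by ring
  have hzX2 : (z : ℝ) ≤ Real.log ((b ^ K : ℕ) : ℝ) ^ E := hz2.trans (pow_le_pow_left₀ hlog0.le hlX1 _)
  have h := h0 K (by omega) z hzX1 hzX2 ι Ω p Y hlaw hp1 N hY hNK Kc hKc G hG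
  exact h.trans (mul_le_mul_of_nonneg_left hBK hKc.le)

/-! ### push-forward -/

section push
open Classical

/-- the law of the values -/
noncomputable def pf {ι : Type} (Ω : Finset ι) (p : ι → ℝ) (f : ι → ℕ) (v : ℕ) : ℝ :=
  ∑ ω ∈ Ω, if f ω = v then p ω else 0

lemma pf_sum {ι : Type} (Ω : Finset ι) (p : ι → ℝ) (f : ι → ℕ) (F : ℕ → ℝ) :
    ∑ v ∈ Ω.image f, pf Ω p f v * F v = ∑ ω ∈ Ω, p ω * F (f ω) := by
  unfold pf
  simp only [sum_mul]
  rw [sum_comm]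
  apply sum_congr rfl
  intro ω hω
  rw [sum_eq_single (f ω)]
  · rw [if_pos rfl]
  · intro v _ hv
    rw [if_neg (fun h => hv h.symm), zero_mul]
  · intro h
    exact absurd (mem_image_of_mem f hω) h

lemma pf_nonneg {ι : Type} (Ω : Finset ι) (p : ι → ℝ) (hp : ∀ ω ∈ Ω, 0 ≤ p ω) (f : ι → ℕ) (v : ℕ) : 0 ≤ pf Ω p f v := by
  unfold pf
  apply sum_nonneg
  intro ω hω
  split_ifs
  · exact hp ω hω
  · exact le_rfl

lemma pf_one {ι : Type} (Ω : Finset ι) (p : ι → ℝ) (hp : ∑ ω ∈ Ω, p ω = 1) (f : ι → ℕ) : ∑ v ∈ Ω.image f, pf Ω p f v = 1 := by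
  have := pf_sum Ω p f (fun _ => 1)
  simp only [mul_one] at this
  rw [this, hp]

/-- the probability of an event which depends on the values -/
lemma pf_pi {s : ℕ} (ι : Fin s → Type) (Ω : ∀ i, Finset (ι i)) (p : ∀ i, ι i → ℝ) (f : ∀ i, ι i → ℕ) (Bad : (Fin s → ℕ) → Prop) :
    ∑ m ∈ Fintype.piFinset (fun i => (Ω i).image (f i)), (if Bad m then ∏ i, pf (Ω i) (p i) (f i) (m i) else 0) =
      ∑ x ∈ Fintype.piFinset Ω, (if Bad (fun i => f i (x i)) then ∏ i, p i (x i) else 0) := by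
  have h1 : ∀ m : Fin s → ℕ, ∏ i, pf (Ω i) (p i) (f i) (m i) =
      ∑ x ∈ Fintype.piFinset Ω, ∏ i, (if f i (x i) = m i then p i (x i) else 0) := by
    intro m
    unfold pf
    rw [prod_univ_sum]
  have h2 : ∀ (m : Fin s → ℕ) (x : ∀ i, ι i), ∏ i, (if f i (x i) = m i then p i (x i) else 0) =
      if (fun i => f i (x i)) = m then ∏ i, p i (x i) else 0 := by
    intro m x
    split_ifs with h
    · subst h
      apply prod_congr rfl
      intro i _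
      rw [if_pos rfl]
    · obtain ⟨i, hi⟩ : ∃ i, f i (x i) ≠ m i := by
        by_contra hcon
        push Not at hcon
        exact h (funext hcon)
      exact prod_eq_zero (mem_univ i) (if_neg hi)
  have h3 : ∀ m ∈ Fintype.piFinset (fun i => (Ω i).image (f i)), (if Bad m then ∏ i, pf (Ω i) (p i) (f i) (m i) else 0) =
      ∑ x ∈ Fintype.piFinset Ω, (if (fun i => f i (x i)) = m then (if Bad (fun i => f i (x i)) then ∏ i, p i (x i) else 0) else 0) := by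
    intro m _
    split_ifs with hB
    · rw [h1]
      apply sum_congr rfl
      intro x _
      rw [h2]
      split_ifs with h4 h5
      · rfl
      · subst h4
        exact absurd hB h5
      · rfl
    · rw [eq_comm]
      apply sum_eq_zero
      intro x _
      split_ifs with h4 h5
      · subst h4
        exact absurd h5 hB
      · rfl
      · rfl
  rw [sum_congr rfl h3, sum_comm]
  apply sum_congr rfl
  intro x hx
  rw [sum_ite_eq, if_pos]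
  rw [Fintype.mem_piFinset] at hx ⊢
  intro i
  exact mem_image_of_mem (f i) (hx i)

end push

end Pool.Agent.Q26.PD
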