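import Pool.Agent.Q26.PD.Tup

set_option autoImplicit false

/-! Prime tuples whose shifts have randomly permuted digits. -/

namespace Pool.Agent.Q26.PD
open Finset
open Pool.Agent.H807R2.Dav
open Pool.Agent.H373R2.T7
open Pool.Agent.W93.DG
open Pool.Agent.W93.RD
open Pool.Agent.W93.TD
open Pool.Agent.W93.AU (Law one_law)
open Pool.Agent.TH890
open Pool.Agent.TH872.An (Spread V an_law FA FA_pos V_lt an_interval eta_le)

lemma expo (r C : ℝ) (hr0 : 0 ≤ r) (hr1 : r < 1) (hC : 0 ≤ C) (V : ℕ) : ∃ n0 : ℕ, ∀ n : ℕ, n0 ≤ n → ∀ L : ℝ, 0 < L →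
    L ≤ C * n → 4 * r ^ n ≤ 1 / L ^ V := by
  have h1 := tendsto_pow_const_mul_const_pow_of_abs_lt_one V (r := r) (by rw [abs_of_nonneg hr0]; exact hr1)
  have h2 : (0 : ℝ) < 1 / (4 * C ^ V + 1) := by positivity
  obtain ⟨n0, hn0⟩ := (h1.eventually (gt_mem_nhds h2)).exists_forall_of_atTop
  refine ⟨n0, fun n hn L hL0 hL => ?_⟩
  have h3 := hn0 n hn
  rw [lt_div_iff₀ (by positivity)] at h3
  rw [le_div_iff₀ (by positivity)]
  have h4 : L ^ V ≤ (C * n) ^ V := pow_le_pow_left₀ hL0.le hL V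
  have h5 : 0 ≤ (n : ℝ) ^ V * r ^ n := by positivity
  calc 4 * r ^ n * L ^ V ≤ 4 * r ^ n * (C * n) ^ V := mul_le_mul_of_nonneg_left h4 (by positivity)
    _ = (n : ℝ) ^ V * r ^ n * (4 * C ^ V) := by rw [mul_pow]; ring
    _ ≤ (n : ℝ) ^ V * r ^ n * (4 * C ^ V + 1) := by nlinarith
    _ ≤ 1 := h3.le

lemma log_le (b B N k : ℕ) (hb : 1 ≤ b) (hk : 1 ≤ k) (hN : 0 < N) (h : N ≤ B * b ^ k) : Real.log N ≤ ((B : ℝ) + b) * k := by
  have hB : 0 < B := by
    rcases Nat.eq_zero_or_pos B with h0 | h0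
    · subst h0; omega
    · exact h0
  have hb0 : (0 : ℝ) < b := by exact_mod_cast (by omega : 0 < b)
  have hB0 : (0 : ℝ) < B := by exact_mod_cast hB
  have hk1 : (1 : ℝ) ≤ k := by exact_mod_cast hk
  have h1 : Real.log N ≤ Real.log ((B : ℝ) * (b : ℝ) ^ k) := by
    apply Real.log_le_log (by exact_mod_cast hN)
    exact_mod_cast h
  rw [Real.log_mul (by positivity) (by positivity), Real.log_pow] at h1
  have h2 : Real.log B ≤ B := (Real.log_le_sub_one_of_pos hB0).trans (by linarith)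
  have h3 : Real.log b ≤ b := (Real.log_le_sub_one_of_pos hb0).trans (by linarith)
  nlinarith

lemma k_large (b B N k K0 : ℕ) (hb : 2 ≤ b) (hN : B * b ^ K0 < N) (h : N ≤ B * b ^ k) : K0 ≤ k := by
  by_contra hcon
  push Not at hcon
  have h1 : b ^ k ≤ b ^ K0 := Nat.pow_le_pow_right (by omega) (by omega)
  have h2 : B * b ^ k ≤ B * b ^ K0 := Nat.mul_le_mul_left _ h1
  omega

/-- one component: random permutations -/
theorem perm_one (b : ℕ) (hb : 2 ≤ b) (κ : ℕ) (hκ : 1 ≤ κ) (B U : ℕ) (η : ℝ) (hη : 0 < η) :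
    ∃ B0 : ℕ, ∀ E : ℕ, ∃ N₀ : ℕ, ∀ N : ℕ, N₀ ≤ N → ∀ k : ℕ, N ≤ B * b ^ k → b ^ k ≤ B * N →
      ∀ d : Fin k → ℕ, Spread b k η d → ∀ c : ℕ, c ≤ B * N →
      (∀ v, pf (univ : Finset (Equiv.Perm (Fin k))) (fun _ => 1 / (k.factorial : ℝ)) (fun σ => V b d σ) v ≤ 1 / Real.log N ^ U) ∧
      (∀ σ, c + κ * V b d σ ≤ (B + κ * B) * N) ∧
      OneS N U B0 E κ c ((univ : Finset (Equiv.Perm (Fin k))).image (fun σ => V b d σ))
        (pf (univ : Finset (Equiv.Perm (Fin k))) (fun _ => 1 / (k.factorial : ℝ)) (fun σ => V b d σ)) := by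
  classical
  have hκz : ((κ : ℕ) : ℤ) ≠ 0 := by exact_mod_cast (by omega : κ ≠ 0)
  obtain ⟨e, he⟩ : ∃ e, e = (1 + B + κ * B) * B := ⟨_, rfl⟩
  obtain ⟨D, K1, hD⟩ := an_law b hb η hη (κ : ℤ) e (2 * (U + 1) + 6)
  obtain ⟨B0, h0⟩ := one_at b (FA b (κ : ℤ)) hb (FA_pos b hb _ hκz) U D (b ^ e * B)
  refine ⟨B0, fun E => ?_⟩
  obtain ⟨N1, h1⟩ := h0 E
  obtain ⟨η', hη'⟩ : ∃ η', η' = min η 1 := ⟨_, rfl⟩
  have hη'0 : 0 < η' := by rw [hη']; exact lt_min hη one_pos
  have hη'1 : η' ≤ 1 := by rw [hη']; exact min_le_right _ _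
  obtain ⟨n0, hn0⟩ := expo (1 - η' / 2) (((B : ℝ) + b) * (4 / η')) (by linarith) (by linarith) (by positivity) U
  obtain ⟨k1, hk1⟩ := exists_nat_ge (4 / η' * (n0 + 1) + 4 / η')
  refine ⟨N1 + B * b ^ (K1 + k1 + 1) + 3, fun N hN k hNk hkN d hd c hc => ?_⟩
  have hkl : K1 + k1 + 1 ≤ k := k_large b B N k _ hb (by omega) hNk
  have hN0 : 0 < N := by omega
  have hlog0 : 0 < Real.log N := Real.log_pos (by exact_mod_cast (by omega : 1 < N))
  have hηd : η ≤ 1 := eta_le hd (by omega)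
  have hηη : η' = η := by rw [hη']; exact min_eq_left hηd
  refine ⟨?_, ?_, ?_⟩
  · intro v
    obtain ⟨T, hT⟩ : ∃ T, T = ⌊η / 2 * (k : ℝ)⌋₊ := ⟨_, rfl⟩
    have hkr : (k1 : ℝ) ≤ k := by exact_mod_cast (by omega : k1 ≤ k)
    have hT1 : (T : ℝ) ≤ η / 2 * k := by rw [hT]; exact Nat.floor_le (by positivity)
    have hT2 : η / 2 * (k : ℝ) < T + 1 := by rw [hT]; exact Nat.lt_floor_add_one _
    have hTk : T ≤ k := by
      have : (T : ℝ) ≤ k := hT1.trans (by nlinarith [Nat.cast_nonneg (α := ℝ) k])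
      exact_mod_cast this
    have hk4 : 4 / η' * (n0 + 1) + 4 / η' ≤ (k : ℝ) := hk1.trans hkr
    have hk5 : 4 * ((n0 : ℝ) + 2) ≤ η * k := by
      rw [hηη] at hk4
      have : 4 / η * ((n0 : ℝ) + 1) + 4 / η = (4 * ((n0 : ℝ) + 2)) / η := by ring
      rw [this, div_le_iff₀ hη] at hk4
      linarith
    have hTn : n0 ≤ T := by
      have : (n0 : ℝ) < T + 1 := by nlinarith [Nat.cast_nonneg (α := ℝ) n0]
      have : n0 < T + 1 := by exact_mod_cast this
      omega
    have hkT : (k : ℝ) ≤ 4 / η' * T := by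
      rw [hηη, div_mul_eq_mul_div, le_div_iff₀ hη]
      nlinarith [Nat.cast_nonneg (α := ℝ) n0]
    have hlog : Real.log N ≤ (((B : ℝ) + b) * (4 / η')) * T := by
      calc Real.log N ≤ ((B : ℝ) + b) * k := log_le b B N k (by omega) (by omega) hN0 hNk
        _ ≤ ((B : ℝ) + b) * (4 / η' * T) := mul_le_mul_of_nonneg_left hkT (by positivity)
        _ = _ := by ring
    have h2 := an_interval hd (by omega) hη.le (by omega) T hTk hT1 (fun σ => V b d σ = v) (by
      intro σ σ' h h'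
      rw [h, h']
      have : 0 < b ^ (k - T) := by positivity
      omega)
    have h3 := hn0 T hTn (Real.log N) hlog0 hlog
    rw [hηη] at h3
    have h4 : (0 : ℝ) ≤ (1 - η / 2) ^ T := by
      apply pow_nonneg; linarith
    unfold pf
    refine le_trans (le_of_eq ?_) (h2.trans (le_trans (by linarith) h3))
    apply sum_congr rfl
    intro σ _
    split_ifs <;> rfl
  · intro σ
    have h2 := (V_lt hd (by omega) σ).le
    calc c + κ * V b d σ ≤ B * N + κ * (B * N) := add_le_add hc (Nat.mul_le_mul_left _ (h2.trans hkN))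
      _ = _ := by ring
  · intro z hz1 hz2 Kc hKc G hG
    have hbe : (1 + B + κ * B) * B ≤ b ^ e := by
      rw [← he]
      exact (Nat.lt_pow_self (by omega)).le
    have hBN : (1 + B + κ * B) * N ≤ b ^ (k + e) := by
      calc (1 + B + κ * B) * N ≤ (1 + B + κ * B) * (B * b ^ k) := Nat.mul_le_mul_left _ hNk
        _ = (1 + B + κ * B) * B * b ^ k := by ring
        _ ≤ b ^ e * b ^ k := Nat.mul_le_mul_right _ hbe
        _ = b ^ (k + e) := by rw [← pow_add, add_comm]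
    have h2 := h1 N (by omega) (k + e) (by
        refine le_trans ?_ hBN
        exact Nat.le_mul_of_pos_left _ (by omega)) (by
        calc b ^ (k + e) = b ^ e * b ^ k := by rw [← pow_add, add_comm]
          _ ≤ b ^ e * (B * N) := Nat.mul_le_mul_left _ hkN
          _ = _ := by ring) _ (univ : Finset (Equiv.Perm (Fin k))) (fun _ => 1 / (k.factorial : ℝ))
      (fun σ => (c : ℤ) + (κ : ℤ) * (V b d σ : ℕ)) (hD k (k + e) rfl (by omega) d hd c) (by
        rw [sum_const, card_univ, Fintype.card_perm, Fintype.card_fin, nsmul_eq_mul, mul_one_div, div_self]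
        exact_mod_cast k.factorial_ne_zero) (by
        intro σ _
        have h3 := (V_lt hd (by omega) σ).le
        have h4 : κ * V b d σ ≤ κ * (B * N) := Nat.mul_le_mul_left _ (h3.trans hkN)
        have h5 : N + (c + κ * V b d σ) ≤ b ^ (k + e) := by
          refine le_trans ?_ hBN
          calc N + (c + κ * V b d σ) ≤ N + (B * N + κ * (B * N)) := by omega
            _ = _ := by ring
        have h6 : (0 : ℤ) < ((b ^ (k + e) : ℕ) : ℤ) := by positivity
        have h7 : (c : ℤ) + (κ : ℤ) * (V b d σ : ℕ) = ((c + κ * V b d σ : ℕ) : ℤ) := by push_cast; ring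
        constructor
        · rw [h7]
          have : (0 : ℤ) ≤ ((c + κ * V b d σ : ℕ) : ℤ) := by positivity
          linarith
        · rw [h7]
          exact_mod_cast h5) z hz1 hz2 Kc hKc G hG
    have h3 := pf_sum (univ : Finset (Equiv.Perm (Fin k))) (fun _ => 1 / (k.factorial : ℝ)) (fun σ => V b d σ)
      (fun v => |∑ n ∈ Icc 1 N, G n * (lamI ((n : ℤ) + ((c + κ * v : ℕ) : ℤ)) - lamzI z ((n : ℤ) + ((c + κ * v : ℕ) : ℤ)))|)
    refine le_trans (le_of_eq ?_) h2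
    refine Eq.trans ?_ (h3.trans ?_)
    · apply sum_congr _ (fun _ _ => rfl)
      ext v
      simp only [mem_image, mem_univ, true_and]
    · apply sum_congr rfl
      intro σ _
      push_cast
      rfl

end Pool.Agent.Q26.PD
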